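import Pool.Agent.DPO.Stm2

set_option autoImplicit false

/-!
# Project DPO, piece BADP (helper14): few forms are singular at a point modulo a high power of `p`
-/

namespace Pool.Agent.DPO

open Finset

namespace BADP

theorem dvd_split (p k : ℕ) (hp : p.Prime) (m n : ℤ)
    (h : ((p : ℤ) ^ (2 * k + 1)) ∣ 3 * (m * n)) : (p : ℤ) ^ k ∣ m ∨ (p : ℤ) ^ k ∣ n := by
  by_contra hcon
  push Not at hcon
  obtain ⟨hm, hn⟩ := hcon
  have hm0 : m ≠ 0 := by rintro rfl; exact hm (dvd_zero _)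
  have hn0 : n ≠ 0 := by rintro rfl; exact hn (dvd_zero _)
  have hpi : Prime (p : ℤ) := Nat.prime_iff_prime_int.mp hp
  have hpn : (p : ℤ).natAbs ≠ 1 := by
    rw [Int.natAbs_natCast]; exact hp.one_lt.ne'
  obtain ⟨m', hm1, hm2⟩ :=
    (Int.finiteMultiplicity_iff.mpr ⟨hpn, hm0⟩).exists_eq_pow_mul_and_not_dvd
  obtain ⟨n', hn1, hn2⟩ :=
    (Int.finiteMultiplicity_iff.mpr ⟨hpn, hn0⟩).exists_eq_pow_mul_and_not_dvd
  set i := multiplicity (p : ℤ) m with hi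
  set j := multiplicity (p : ℤ) n with hj
  have hik : i < k := by
    by_contra hle
    push Not at hle
    exact hm (by rw [hm1]; exact Dvd.dvd.mul_right (pow_dvd_pow _ hle) _)
  have hjk : j < k := by
    by_contra hle
    push Not at hle
    exact hn (by rw [hn1]; exact Dvd.dvd.mul_right (pow_dvd_pow _ hle) _)
  have h1 : (p : ℤ) ^ (i + j) * (p : ℤ) ^ 3 ∣ (p : ℤ) ^ (i + j) * (3 * (m' * n')) := by
    have h2 : (p : ℤ) ^ (i + j) * (p : ℤ) ^ 3 ∣ (p : ℤ) ^ (2 * k + 1) := by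
      rw [← pow_add]
      exact pow_dvd_pow _ (by omega)
    have h3 : 3 * (m * n) = (p : ℤ) ^ (i + j) * (3 * (m' * n')) := by
      rw [hm1, hn1, pow_add]; ring
    rw [← h3]
    exact h2.trans h
  have hp0 : (p : ℤ) ^ (i + j) ≠ 0 := pow_ne_zero _ hpi.ne_zero
  have h4 : (p : ℤ) ^ 3 ∣ 3 * (m' * n') := (mul_dvd_mul_iff_left hp0).mp h1
  have h5 : IsCoprime ((p : ℤ) ^ 3) (m' * n') := by
    apply IsCoprime.pow_left
    exact IsCoprime.mul_right ((hpi.coprime_iff_not_dvd).mpr hm2) ((hpi.coprime_iff_not_dvd).mpr hn2)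
  have h6 : (p : ℤ) ^ 3 ∣ 3 := h5.dvd_of_dvd_mul_right h4
  have h7 : (p : ℤ) ^ 3 ≤ 3 := Int.le_of_dvd (by norm_num) h6
  have h8 : (2 : ℤ) ≤ p := by exact_mod_cast hp.two_le
  have h9 : (2 : ℤ) ^ 3 ≤ (p : ℤ) ^ 3 := pow_le_pow_left₀ (by norm_num) h8 3
  norm_num at h9
  omega

theorem cnt_class (K L : ℕ) (r : ℤ) :
    ((range (K * L)).filter (fun X : ℕ => (K : ℤ) ∣ X - r)).card ≤ L := by
  have h := Finset.card_le_card_of_injOn (s := (range (K * L)).filter (fun X : ℕ => (K : ℤ) ∣ X - r))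
    (t := range L) (fun X => X / K) ?_ ?_
  · simpa using h
  · intro X hX
    rw [mem_coe, mem_filter, mem_range] at hX
    rw [mem_coe, mem_range]
    exact Nat.div_lt_of_lt_mul hX.1
  · intro X hX Y hY hXY
    rw [mem_coe, mem_filter, mem_range] at hX hY
    have h1 : (K : ℤ) ∣ (X : ℤ) - Y := by
      have := dvd_sub hX.2 hY.2
      simpa using this
    have h2 : X ≡ Y [MOD K] := (Nat.modEq_iff_dvd.mpr h1).symm
    have h3 : X / K = Y / K := hXY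
    rw [← Nat.div_add_mod X K, ← Nat.div_add_mod Y K, h3, h2]

theorem cnt_sol (p k : ℕ) (hp : p.Prime) [NeZero (p ^ (2 * k + 1))]
    (c : ZMod (p ^ (2 * k + 1))) :
    (univ.filter (fun x : ZMod (p ^ (2 * k + 1)) => 3 * x ^ 2 + c = 0)).card ≤ 2 * p ^ (k + 1) := by
  classical
  rcases (univ.filter (fun x : ZMod (p ^ (2 * k + 1)) => 3 * x ^ 2 + c = 0)).eq_empty_or_nonempty
    with he | ⟨x0, hx0⟩
  · rw [he]; simp
  rw [mem_filter] at hx0
  have hq : p ^ (2 * k + 1) = p ^ k * p ^ (k + 1) := by rw [← pow_add]; congr 1; ring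
  have hle : (univ.filter (fun x : ZMod (p ^ (2 * k + 1)) => 3 * x ^ 2 + c = 0)).card ≤
      (((range (p ^ k * p ^ (k + 1))).filter (fun X : ℕ => ((p ^ k : ℕ) : ℤ) ∣ X - (x0.val : ℤ))) ∪
        ((range (p ^ k * p ^ (k + 1))).filter
          (fun X : ℕ => ((p ^ k : ℕ) : ℤ) ∣ X - (-(x0.val : ℤ))))).card := by
    apply Finset.card_le_card_of_injOn (fun x => x.val)
    · intro x hx
      rw [mem_coe, mem_filter] at hx
      have h1 : (((3 * (((x.val : ℤ) - x0.val) * ((x.val : ℤ) - (-(x0.val : ℤ)))) : ℤ)) :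
          ZMod (p ^ (2 * k + 1))) = 0 := by
        push_cast
        rw [ZMod.natCast_zmod_val, ZMod.natCast_zmod_val]
        linear_combination hx.2 - hx0.2
      rw [ZMod.intCast_zmod_eq_zero_iff_dvd] at h1
      have h2 : ((p : ℤ) ^ (2 * k + 1)) ∣
          3 * (((x.val : ℤ) - x0.val) * ((x.val : ℤ) - (-(x0.val : ℤ)))) := by
        push_cast at h1
        exact h1
      have hlt : x.val < p ^ k * p ^ (k + 1) := by
        rw [← hq]; exact ZMod.val_lt x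
      rw [mem_coe, mem_union, mem_filter, mem_filter, mem_range]
      rcases dvd_split p k hp _ _ h2 with h | h
      · left
        exact ⟨hlt, by push_cast; exact h⟩
      · right
        exact ⟨hlt, by push_cast; push_cast at h; exact h⟩
    · intro x _ y _ hxy
      exact ZMod.val_injective _ hxy
  refine hle.trans ((card_union_le _ _).trans ?_)
  have h1 := cnt_class (p ^ k) (p ^ (k + 1)) (x0.val : ℤ)
  have h2 := cnt_class (p ^ k) (p ^ (k + 1)) (-(x0.val : ℤ))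
  omega

theorem int_eq_of (q : ℕ) [NeZero q] (x y : ℤ) (h1 : ((x - y : ℤ) : ZMod q) = 0)
    (h2 : x / q = y / q) : x = y := by
  rw [ZMod.intCast_zmod_eq_zero_iff_dvd] at h1
  have h3 : x % q = y % q := Int.emod_eq_emod_iff_emod_sub_eq_zero.mpr (Int.emod_eq_zero_of_dvd h1)
  rw [← Int.mul_ediv_add_emod x q, ← Int.mul_ediv_add_emod y q, h2, h3]

theorem bf7 {R : Type*} [CommRing R] (f : Fin 7 → ℤ) (u v : R) :
    bf (d := 6) f u v = f 0 * u ^ 6 + f 1 * u ^ 5 * v + f 2 * u ^ 4 * v ^ 2 + f 3 * u ^ 3 * v ^ 3 +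
      f 4 * u ^ 2 * v ^ 4 + f 5 * u * v ^ 5 + f 6 * v ^ 6 := by
  unfold bf
  refine (Fin.sum_univ_seven _).trans ?_
  simp

theorem bf5 {R : Type*} [CommRing R] (a : Fin 5 → ℤ) (u v : R) :
    bf (d := 4) a u v = a 0 * u ^ 4 + a 1 * u ^ 3 * v + a 2 * u ^ 2 * v ^ 2 + a 3 * u * v ^ 3 +
      a 4 * v ^ 4 := by
  unfold bf
  refine (Fin.sum_univ_five _).trans ?_
  simp

theorem bfv7 {R : Type*} [CommRing R] (f : Fin 7 → ℤ) (u v : R) :
    bfv (d := 6) f u v = f 1 * u ^ 5 + f 2 * (2 * u ^ 4 * v) + f 3 * (3 * u ^ 3 * v ^ 2) +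
      f 4 * (4 * u ^ 2 * v ^ 3) + f 5 * (5 * u * v ^ 4) + f 6 * (6 * v ^ 5) := by
  unfold bfv
  refine (Fin.sum_univ_seven _).trans ?_
  simp

theorem bfv5 {R : Type*} [CommRing R] (a : Fin 5 → ℤ) (u v : R) :
    bfv (d := 4) a u v = a 1 * u ^ 3 + a 2 * (2 * u ^ 2 * v) + a 3 * (3 * u * v ^ 2) +
      a 4 * (4 * v ^ 3) := by
  unfold bfv
  refine (Fin.sum_univ_five _).trans ?_
  simp

theorem bfu7 {R : Type*} [CommRing R] (f : Fin 7 → ℤ) (u v : R) :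
    bfu (d := 6) f u v = f 0 * (6 * u ^ 5) + f 1 * (5 * u ^ 4 * v) + f 2 * (4 * u ^ 3 * v ^ 2) +
      f 3 * (3 * u ^ 2 * v ^ 3) + f 4 * (2 * u * v ^ 4) + f 5 * v ^ 5 := by
  unfold bfu
  refine (Fin.sum_univ_seven _).trans ?_
  simp

theorem bfu5 {R : Type*} [CommRing R] (a : Fin 5 → ℤ) (u v : R) :
    bfu (d := 4) a u v = a 0 * (4 * u ^ 3) + a 1 * (3 * u ^ 2 * v) + a 2 * (2 * u * v ^ 2) +
      a 3 * v ^ 3 := by
  unfold bfu
  refine (Fin.sum_univ_five _).trans ?_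
  simp

theorem card_S1 (q : ℕ) [NeZero q] (A : ℤ) (c0 c1 t : ZMod q) :
    ((Fintype.piFinset (fun _ : Fin 7 => Icc (-A) A)).filter
      (fun f : Fin 7 → ℤ => c0 + bf (d := 6) f (1 : ZMod q) t = 0 ∧
        bfv (d := 6) f (1 : ZMod q) t + c1 = 0)).card ≤
      (Icc (-A) A).card ^ 5 * ((Icc ((-A) / q) (A / q)).card * (Icc ((-A) / q) (A / q)).card) := by
  classical
  have hq : 0 < q := Nat.pos_of_ne_zero (NeZero.ne q)
  have h := Finset.card_le_card_of_injOn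
    (s := (Fintype.piFinset (fun _ : Fin 7 => Icc (-A) A)).filter
      (fun f : Fin 7 → ℤ => c0 + bf (d := 6) f (1 : ZMod q) t = 0 ∧
        bfv (d := 6) f (1 : ZMod q) t + c1 = 0))
    (t := (Fintype.piFinset (fun _ : Fin 5 => Icc (-A) A)) ×ˢ
      ((Icc ((-A) / (q : ℤ)) (A / q)) ×ˢ (Icc ((-A) / (q : ℤ)) (A / q))))
    (fun f => (![f 2, f 3, f 4, f 5, f 6], (f 0 / q, f 1 / q))) ?_ ?_
  · rw [card_product, card_product, Fintype.card_piFinset_const] at h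
    simpa using h
  · intro f hf
    rw [mem_coe, mem_filter, Fintype.mem_piFinset] at hf
    have hf1 := hf.1
    rw [mem_coe, mem_product, mem_product, Fintype.mem_piFinset]
    have hq' : (0 : ℤ) < q := by exact_mod_cast hq
    refine ⟨?_, ?_, ?_⟩
    · intro i
      fin_cases i
      · exact hf1 2
      · exact hf1 3
      · exact hf1 4
      · exact hf1 5
      · exact hf1 6
    · have := mem_Icc.mp (hf1 0)
      exact mem_Icc.mpr ⟨Int.ediv_le_ediv hq' this.1, Int.ediv_le_ediv hq' this.2⟩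
    · have := mem_Icc.mp (hf1 1)
      exact mem_Icc.mpr ⟨Int.ediv_le_ediv hq' this.1, Int.ediv_le_ediv hq' this.2⟩
  · intro f hf g hg hfg
    rw [mem_coe, mem_filter] at hf hg
    simp only [Prod.mk.injEq] at hfg
    obtain ⟨h5, h0, h1⟩ := hfg
    have e2 : f 2 = g 2 := congrFun h5 0
    have e3 : f 3 = g 3 := congrFun h5 1
    have e4 : f 4 = g 4 := congrFun h5 2
    have e5 : f 5 = g 5 := congrFun h5 3
    have e6 : f 6 = g 6 := congrFun h5 4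
    have k1 : ((f 1 - g 1 : ℤ) : ZMod q) = 0 := by
      have a1 := hf.2.2
      have a2 := hg.2.2
      rw [bfv7] at a1 a2
      rw [e2, e3, e4, e5, e6] at a1
      push_cast
      linear_combination a1 - a2
    have e1 : f 1 = g 1 := int_eq_of q _ _ k1 h1
    have k0 : ((f 0 - g 0 : ℤ) : ZMod q) = 0 := by
      have a1 := hf.2.1
      have a2 := hg.2.1
      rw [bf7] at a1 a2
      rw [e1, e2, e3, e4, e5, e6] at a1
      push_cast
      linear_combination a1 - a2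
    have e0 : f 0 = g 0 := int_eq_of q _ _ k0 h0
    funext i
    fin_cases i
    · exact e0
    · exact e1
    · exact e2
    · exact e3
    · exact e4
    · exact e5
    · exact e6

/-- the normalised singular points with `p ∤ u` -/
def Bad1 (p ℓ : ℕ) (a : Fin 5 → ℤ) (f : Fin 7 → ℤ) : Prop :=
  ∃ u v x : ℤ, ¬ (p : ℤ) ∣ u ∧
    (p : ℤ) ^ ℓ ∣ x ^ 3 + bf a u v * x + bf f u v ∧
    (p : ℤ) ^ ℓ ∣ 3 * x ^ 2 + bf a u v ∧
    (p : ℤ) ^ ℓ ∣ bfv f u v + bfv a u v * x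

theorem cast_bf {d q : ℕ} (g : Fin (d + 1) → ℤ) (u v : ℤ) :
    ((bf g u v : ℤ) : ZMod q) = bf g (u : ZMod q) (v : ZMod q) := by
  unfold bf
  push_cast
  rfl

theorem cast_bfv {d q : ℕ} (g : Fin (d + 1) → ℤ) (u v : ℤ) :
    ((bfv g u v : ℤ) : ZMod q) = bfv g (u : ZMod q) (v : ZMod q) := by
  unfold bfv
  push_cast
  rfl

theorem bad1_norm (p ℓ : ℕ) (hp : p.Prime) (a : Fin 5 → ℤ) (f : Fin 7 → ℤ) (h : Bad1 p ℓ a f) :
    ∃ t x : ZMod (p ^ ℓ), 3 * x ^ 2 + bf a (1 : ZMod (p ^ ℓ)) t = 0 ∧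
      (x ^ 3 + bf a (1 : ZMod (p ^ ℓ)) t * x) + bf f (1 : ZMod (p ^ ℓ)) t = 0 ∧
      bfv f (1 : ZMod (p ^ ℓ)) t + bfv a (1 : ZMod (p ^ ℓ)) t * x = 0 := by
  obtain ⟨u, v, x, hu, h1, h2, h3⟩ := h
  have : NeZero (p ^ ℓ) := ⟨pow_ne_zero _ hp.ne_zero⟩
  have e : ((p ^ ℓ : ℕ) : ℤ) = (p : ℤ) ^ ℓ := by push_cast; rfl
  rw [← e, ← ZMod.intCast_zmod_eq_zero_iff_dvd] at h1 h2 h3
  push_cast at h1 h2 h3
  rw [cast_bf, cast_bf] at h1
  rw [cast_bf] at h2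
  rw [cast_bfv, cast_bfv] at h3
  have hpi : Prime (p : ℤ) := Nat.prime_iff_prime_int.mp hp
  have hcop : IsCoprime u ((p : ℤ) ^ ℓ) :=
    (IsCoprime.pow_left ((hpi.coprime_iff_not_dvd).mpr hu)).symm
  obtain ⟨r, s, hrs⟩ := hcop
  have hl : (r : ZMod (p ^ ℓ)) * (u : ZMod (p ^ ℓ)) = 1 := by
    have this : ((r * u + s * (p : ℤ) ^ ℓ : ℤ) : ZMod (p ^ ℓ)) = ((1 : ℤ) : ZMod (p ^ ℓ)) := by
      rw [hrs]
    push_cast at this
    have h0 : ((p : ZMod (p ^ ℓ)) ^ ℓ) = 0 := by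
      have : (((p ^ ℓ : ℕ)) : ZMod (p ^ ℓ)) = 0 := ZMod.natCast_self _
      push_cast at this
      exact this
    rw [h0, mul_zero, add_zero] at this
    exact this
  set U : ZMod (p ^ ℓ) := (u : ZMod (p ^ ℓ)) with hU
  set V : ZMod (p ^ ℓ) := (v : ZMod (p ^ ℓ)) with hV
  set X : ZMod (p ^ ℓ) := (x : ZMod (p ^ ℓ)) with hX
  set l : ZMod (p ^ ℓ) := (r : ZMod (p ^ ℓ)) with hL
  have hl2 : ∀ n : ℕ, l ^ n * U ^ n = 1 := fun n => by
    rw [← mul_pow, hl, one_pow]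
  have b1 : bf a (1 : ZMod (p ^ ℓ)) (l * V) = l ^ 4 * bf a U V := by
    rw [bf5, bf5]
    linear_combination -(a 0 : ZMod (p ^ ℓ)) * hl2 4 - (a 1 : ZMod (p ^ ℓ)) * l * V * hl2 3 -
      (a 2 : ZMod (p ^ ℓ)) * l ^ 2 * V ^ 2 * hl2 2 - (a 3 : ZMod (p ^ ℓ)) * l ^ 3 * V ^ 3 * hl2 1
  have b2 : bf f (1 : ZMod (p ^ ℓ)) (l * V) = l ^ 6 * bf f U V := by
    rw [bf7, bf7]
    linear_combination -(f 0 : ZMod (p ^ ℓ)) * hl2 6 - (f 1 : ZMod (p ^ ℓ)) * l * V * hl2 5 -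
      (f 2 : ZMod (p ^ ℓ)) * l ^ 2 * V ^ 2 * hl2 4 - (f 3 : ZMod (p ^ ℓ)) * l ^ 3 * V ^ 3 * hl2 3 -
      (f 4 : ZMod (p ^ ℓ)) * l ^ 4 * V ^ 4 * hl2 2 - (f 5 : ZMod (p ^ ℓ)) * l ^ 5 * V ^ 5 * hl2 1
  have b3 : bfv a (1 : ZMod (p ^ ℓ)) (l * V) = l ^ 3 * bfv a U V := by
    rw [bfv5, bfv5]
    linear_combination -(a 1 : ZMod (p ^ ℓ)) * hl2 3 -
      (a 2 : ZMod (p ^ ℓ)) * (2 * l * V) * hl2 2 - (a 3 : ZMod (p ^ ℓ)) * (3 * l ^ 2 * V ^ 2) * hl2 1
  have b4 : bfv f (1 : ZMod (p ^ ℓ)) (l * V) = l ^ 5 * bfv f U V := by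
    rw [bfv7, bfv7]
    linear_combination -(f 1 : ZMod (p ^ ℓ)) * hl2 5 -
      (f 2 : ZMod (p ^ ℓ)) * (2 * l * V) * hl2 4 -
      (f 3 : ZMod (p ^ ℓ)) * (3 * l ^ 2 * V ^ 2) * hl2 3 -
      (f 4 : ZMod (p ^ ℓ)) * (4 * l ^ 3 * V ^ 3) * hl2 2 -
      (f 5 : ZMod (p ^ ℓ)) * (5 * l ^ 4 * V ^ 4) * hl2 1
  refine ⟨l * V, l ^ 2 * X, ?_, ?_, ?_⟩
  · rw [b1]
    linear_combination l ^ 4 * h2
  · rw [b1, b2]
    linear_combination l ^ 6 * h1
  · rw [b3, b4]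
    linear_combination l ^ 5 * h3

theorem card_bad1 (p k : ℕ) (hp : p.Prime) (a : Fin 5 → ℤ) (A : ℤ) (hA : 0 ≤ A)
    (hqA : (p : ℤ) ^ (2 * k + 1) ≤ 2 * A + 1)
    (B : Finset (Fin 7 → ℤ)) (hB : B ⊆ Fintype.piFinset (fun _ : Fin 7 => Icc (-A) A))
    (hBad : ∀ f ∈ B, Bad1 p (2 * k + 1) a f) :
    (B.card : ℝ) ≤ 18 / (p : ℝ) ^ k * (2 * A + 1 : ℝ) ^ 7 := by
  classical
  have : NeZero (p ^ (2 * k + 1)) := ⟨pow_ne_zero _ hp.ne_zero⟩
  set q := p ^ (2 * k + 1) with hq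
  set P : Finset (ZMod q × ZMod q) :=
    univ.filter (fun z => 3 * z.2 ^ 2 + bf a (1 : ZMod q) z.1 = 0) with hP
  set D := (Icc (-A) A).card ^ 5 *
    ((Icc ((-A) / (q : ℤ)) (A / q)).card * (Icc ((-A) / (q : ℤ)) (A / q)).card) with hD
  have hsub : B ⊆ P.biUnion (fun z => (Fintype.piFinset (fun _ : Fin 7 => Icc (-A) A)).filter
      (fun f : Fin 7 → ℤ => (z.2 ^ 3 + bf a (1 : ZMod q) z.1 * z.2) +
        bf (d := 6) f (1 : ZMod q) z.1 = 0 ∧
        bfv (d := 6) f (1 : ZMod q) z.1 + bfv a (1 : ZMod q) z.1 * z.2 = 0)) := by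
    intro f hf
    obtain ⟨t, x, h1, h2, h3⟩ := bad1_norm p (2 * k + 1) hp a f (hBad f hf)
    rw [mem_biUnion]
    exact ⟨(t, x), mem_filter.mpr ⟨mem_univ _, h1⟩, mem_filter.mpr ⟨hB hf, h2, h3⟩⟩
  have h1 : B.card ≤ P.card * D := by
    refine (card_le_card hsub).trans (card_biUnion_le.trans ?_)
    refine (sum_le_card_nsmul _ _ D fun z _ => ?_).trans_eq (by rw [smul_eq_mul])
    exact card_S1 q A _ _ _
  have h2 : P.card ≤ q * (2 * p ^ (k + 1)) := by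
    have : P ⊆ (univ : Finset (ZMod q)).biUnion (fun t =>
        (univ.filter (fun x : ZMod q => 3 * x ^ 2 + bf a (1 : ZMod q) t = 0)).image
          (fun x => (t, x))) := by
      intro z hz
      rw [mem_filter] at hz
      rw [mem_biUnion]
      exact ⟨z.1, mem_univ _, mem_image.mpr ⟨z.2, mem_filter.mpr ⟨mem_univ _, hz.2⟩, rfl⟩⟩
    refine (card_le_card this).trans (card_biUnion_le.trans ?_)
    refine (sum_le_card_nsmul _ _ (2 * p ^ (k + 1)) fun t _ => ?_).trans_eq ?_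
    · exact card_image_le.trans (cnt_sol p k hp _)
    · rw [card_univ, ZMod.card, smul_eq_mul]
  have hq0 : (0 : ℝ) < q := by exact_mod_cast (pow_pos hp.pos _)
  have hqA' : (q : ℝ) ≤ 2 * A + 1 := by
    have : ((q : ℤ)) ≤ 2 * A + 1 := by rw [hq]; push_cast; exact hqA
    exact_mod_cast this
  have hA' : (0 : ℝ) ≤ A := by exact_mod_cast hA
  have c1 : ((Icc (-A) A).card : ℝ) = 2 * A + 1 := by
    rw [Int.card_Icc]
    have : ((A + 1 - -A).toNat : ℤ) = 2 * A + 1 := by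
      rw [Int.toNat_of_nonneg (by omega)]; ring
    exact_mod_cast this
  have c2 : ((Icc ((-A) / (q : ℤ)) (A / q)).card : ℝ) ≤ 3 * (2 * A + 1) / q := by
    rw [Int.card_Icc]
    have hqz : (0 : ℤ) < q := by exact_mod_cast (pow_pos hp.pos _)
    have e1 : ((A / (q : ℤ) : ℤ) : ℝ) ≤ A / q := by
      rw [le_div_iff₀ hq0]
      exact_mod_cast Int.ediv_mul_le A hqz.ne'
    have e2 : -(A : ℝ) / q - 1 ≤ (((-A) / (q : ℤ) : ℤ) : ℝ) := by
      rw [sub_le_iff_le_add, div_le_iff₀ hq0]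
      have := Int.lt_ediv_add_one_mul_self (-A) hqz
      exact_mod_cast this.le
    have e3 : (((A / (q : ℤ) + 1 - (-A) / (q : ℤ)).toNat : ℤ) : ℝ) =
        ((A / (q : ℤ) + 1 - (-A) / (q : ℤ) : ℤ) : ℝ) := by
      rw [Int.toNat_of_nonneg]
      have : (-A) / (q : ℤ) ≤ A / (q : ℤ) := Int.ediv_le_ediv hqz (by omega)
      omega
    have e4 : (((A / (q : ℤ) + 1 - (-A) / (q : ℤ)).toNat : ℕ) : ℝ) =
        (((A / (q : ℤ) + 1 - (-A) / (q : ℤ)).toNat : ℤ) : ℝ) := by push_cast; rfl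
    rw [e4, e3]
    push_cast
    have e5 : (1 : ℝ) ≤ (2 * A + 1) / q := by rw [le_div_iff₀ hq0]; linarith
    have e6 : 3 * (2 * (A : ℝ) + 1) / q = (A : ℝ) / q + A / q + 1 / q + 2 * ((2 * A + 1) / q) := by
      field_simp; ring
    have e7 : (0 : ℝ) < 1 / q := by positivity
    have e8 : -(A : ℝ) / q = -(A / q) := by ring
    rw [e6]
    rw [e8] at e2
    linarith
  have hDr : (D : ℝ) ≤ (2 * A + 1) ^ 5 * ((3 * (2 * A + 1) / q) * (3 * (2 * A + 1) / q)) := by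
    rw [hD]
    push_cast
    rw [c1]
    gcongr
  have h3 : (B.card : ℝ) ≤ (P.card : ℝ) * D := by exact_mod_cast h1
  have h4 : (P.card : ℝ) ≤ q * (2 * (p : ℝ) ^ (k + 1)) := by exact_mod_cast h2
  refine h3.trans ((mul_le_mul h4 hDr (by positivity) (by positivity)).trans_eq ?_)
  have hp0 : (p : ℝ) ≠ 0 := by exact_mod_cast hp.ne_zero
  have hqr : (q : ℝ) = (p : ℝ) ^ (k + 1) * (p : ℝ) ^ k := by
    rw [hq]; push_cast; rw [← pow_add]; congr 1; ring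
  rw [hqr]
  field_simp
  ring

/-- reversal of the coefficients -/
def rv {n : ℕ} (f : Fin n → ℤ) : Fin n → ℤ := fun i => f i.rev

theorem bad_split (p ℓ : ℕ) (a : Fin 5 → ℤ) (f : Fin 7 → ℤ) (h : BadP p ℓ a f) :
    Bad1 p ℓ a f ∨ Bad1 p ℓ (rv a) (rv f) := by
  obtain ⟨u, v, x, hp, h1, h2, h3, h4⟩ := h
  by_cases hu : (p : ℤ) ∣ u
  · right
    have hv : ¬ (p : ℤ) ∣ v := fun hv => hp ⟨hu, hv⟩
    refine ⟨v, u, x, hv, ?_, ?_, ?_⟩
    · have e1 : bf (rv a) v u = bf a u v := by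
        rw [bf5, bf5]; simp only [rv, Int.cast_id]
        show (a 4 : ℤ) * v ^ 4 + a 3 * v ^ 3 * u + a 2 * v ^ 2 * u ^ 2 + a 1 * v * u ^ 3 +
          a 0 * u ^ 4 = _
        ring
      have e2 : bf (rv f) v u = bf f u v := by
        rw [bf7, bf7]; simp only [rv, Int.cast_id]
        show (f 6 : ℤ) * v ^ 6 + f 5 * v ^ 5 * u + f 4 * v ^ 4 * u ^ 2 + f 3 * v ^ 3 * u ^ 3 +
          f 2 * v ^ 2 * u ^ 4 + f 1 * v * u ^ 5 + f 0 * u ^ 6 = _
        ring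
      rw [e1, e2]; exact h1
    · have e1 : bf (rv a) v u = bf a u v := by
        rw [bf5, bf5]; simp only [rv, Int.cast_id]
        show (a 4 : ℤ) * v ^ 4 + a 3 * v ^ 3 * u + a 2 * v ^ 2 * u ^ 2 + a 1 * v * u ^ 3 +
          a 0 * u ^ 4 = _
        ring
      rw [e1]; exact h2
    · have e1 : bfv (rv a) v u = bfu a u v := by
        rw [bfv5, bfu5]; simp only [rv, Int.cast_id]
        show (a 3 : ℤ) * v ^ 3 + a 2 * (2 * v ^ 2 * u) + a 1 * (3 * v * u ^ 2) +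
          a 0 * (4 * u ^ 3) = _
        ring
      have e2 : bfv (rv f) v u = bfu f u v := by
        rw [bfv7, bfu7]; simp only [rv, Int.cast_id]
        show (f 5 : ℤ) * v ^ 5 + f 4 * (2 * v ^ 4 * u) + f 3 * (3 * v ^ 3 * u ^ 2) +
          f 2 * (4 * v ^ 2 * u ^ 3) + f 1 * (5 * v * u ^ 4) + f 0 * (6 * u ^ 5) = _
        ring
      rw [e1, e2]; exact h3
  · left
    exact ⟨u, v, x, hu, h1, h2, h4⟩

end BADP

open BADP in
/-- piece BADP -/
theorem t_BADP : S_BADP := by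
  classical
  intro p ε hp hε
  obtain ⟨k, hk⟩ := pow_unbounded_of_one_lt (36 / ε) (one_lt_two : (1 : ℝ) < 2)
  have hp2 : (2 : ℝ) ≤ p := by exact_mod_cast hp.two_le
  have hpk : 36 / ε ≤ (p : ℝ) ^ k := hk.le.trans (pow_le_pow_left₀ (by norm_num) hp2 k)
  refine ⟨2 * k + 1, (p : ℝ) ^ (2 * k + 1), by omega, one_le_pow₀ (by linarith), ?_⟩
  intro H hH a ha
  have hH1 : 1 ≤ H := (one_le_pow₀ (by linarith)).trans hH
  set A : ℤ := ⌊H ^ 6⌋ with hA
  have hA1 : H ^ 6 < A + 1 := Int.lt_floor_add_one _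
  have hH6 : H ≤ H ^ 6 := le_self_pow₀ hH1 (by norm_num)
  have hA0 : 0 ≤ A := Int.floor_nonneg.mpr (by positivity)
  have hA0' : (0 : ℝ) ≤ A := by exact_mod_cast hA0
  have hqA : (p : ℤ) ^ (2 * k + 1) ≤ 2 * A + 1 := by
    have : ((p : ℝ)) ^ (2 * k + 1) ≤ 2 * A + 1 := by linarith
    exact_mod_cast this
  have hcard : ((box 7 (H ^ 6)).card : ℝ) = (2 * A + 1 : ℝ) ^ 7 := by
    unfold box
    rw [Fintype.card_piFinset_const]
    push_cast
    congr 1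
    rw [← hA, Int.card_Icc]
    have : ((A + 1 - -A).toNat : ℤ) = 2 * A + 1 := by
      rw [Int.toNat_of_nonneg (by omega)]; ring
    exact_mod_cast this
  set B := (box 7 (H ^ 6)).filter (fun f => BadP p (2 * k + 1) a f) with hB
  set B1 := B.filter (fun f => Bad1 p (2 * k + 1) a f) with hB1
  set B2 := (B.filter (fun f => Bad1 p (2 * k + 1) (rv a) (rv f))).image rv with hB2
  have hbox : ∀ f, f ∈ B → f ∈ Fintype.piFinset (fun _ : Fin 7 => Icc (-A) A) := by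
    intro f hf
    exact (mem_filter.mp hf).1
  have k1 : (B1.card : ℝ) ≤ 18 / (p : ℝ) ^ k * (2 * A + 1 : ℝ) ^ 7 :=
    card_bad1 p k hp a A hA0 hqA B1 (fun f hf => hbox f (mem_filter.mp hf).1)
      (fun f hf => (mem_filter.mp hf).2)
  have hrv : ∀ f : Fin 7 → ℤ, rv (rv f) = f := by
    intro f; funext i; simp [rv]
  have k2 : (B2.card : ℝ) ≤ 18 / (p : ℝ) ^ k * (2 * A + 1 : ℝ) ^ 7 := by
    apply card_bad1 p k hp (rv a) A hA0 hqA B2
    · intro g hg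
      obtain ⟨f, hf, rfl⟩ := mem_image.mp hg
      have := hbox f (mem_filter.mp hf).1
      rw [Fintype.mem_piFinset] at this ⊢
      intro i
      exact this i.rev
    · intro g hg
      obtain ⟨f, hf, rfl⟩ := mem_image.mp hg
      exact (mem_filter.mp hf).2
  have k3 : B.card ≤ B1.card + B2.card := by
    have e : B2.card = (B.filter (fun f => Bad1 p (2 * k + 1) (rv a) (rv f))).card := by
      apply card_image_of_injective
      intro f g hfg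
      rw [← hrv f, ← hrv g, hfg]
    rw [e]
    refine le_trans (card_le_card ?_) (card_union_le _ _)
    intro f hf
    rw [mem_union]
    rcases bad_split p _ a f (mem_filter.mp hf).2 with h | h
    · exact Or.inl (mem_filter.mpr ⟨hf, h⟩)
    · exact Or.inr (mem_filter.mpr ⟨hf, h⟩)
  have k4 : (B.card : ℝ) ≤ B1.card + B2.card := by exact_mod_cast k3
  rw [hcard]
  have hpk0 : (0 : ℝ) < (p : ℝ) ^ k := by positivity
  have k5 : 18 / (p : ℝ) ^ k + 18 / (p : ℝ) ^ k ≤ ε := by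
    have : 36 ≤ ε * (p : ℝ) ^ k := by
      have := (div_le_iff₀ hε).mp hpk
      linarith
    rw [← add_div, div_le_iff₀ hpk0]
    linarith
  have k6 : (0 : ℝ) ≤ (2 * A + 1 : ℝ) ^ 7 := by positivity
  calc (B.card : ℝ) ≤ B1.card + B2.card := k4
    _ ≤ (18 / (p : ℝ) ^ k + 18 / (p : ℝ) ^ k) * (2 * A + 1 : ℝ) ^ 7 := by
        rw [add_mul]; exact add_le_add k1 k2
    _ ≤ ε * (2 * A + 1 : ℝ) ^ 7 := mul_le_mul_of_nonneg_right k5 k6

end Pool.Agent.DPO
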