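import Pool.Agent.DPO.Stm2

/-!
# Project DPO: piece BADR (few `f` with an almost singular real point)
-/

set_option autoImplicit false

namespace Pool.Agent.DPO

namespace BADR

open Finset

theorem card_diam (s : Finset ℤ) (L : ℕ) (h : ∀ a ∈ s, ∀ b ∈ s, a - b ≤ L) :
    s.card ≤ L + 1 := by
  rcases s.eq_empty_or_nonempty with rfl | hs
  · simp
  · have hsub : s ⊆ Finset.Icc (s.min' hs) (s.min' hs + L) := by
      intro x hx
      rw [Finset.mem_Icc]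
      refine ⟨s.min'_le x hx, ?_⟩
      have := h x hx _ (s.min'_mem hs)
      omega
    calc s.card ≤ _ := Finset.card_le_card hsub
      _ = L + 1 := by rw [Int.card_Icc]; omega

theorem card_pair (s : Finset (ℤ × ℤ)) (L : ℕ) (h2 : ∀ a ∈ s, ∀ b ∈ s, a.2 - b.2 ≤ L)
    (h1 : ∀ a ∈ s, ∀ b ∈ s, a.2 = b.2 → a.1 - b.1 ≤ L) : s.card ≤ (L + 1) * (L + 1) := by
  classical
  have hfib : ∀ b ∈ s.image Prod.snd, (s.filter (fun x => x.2 = b)).card ≤ L + 1 := by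
    intro b _
    have hinj : ((s.filter (fun x => x.2 = b)).image Prod.fst).card =
        (s.filter (fun x => x.2 = b)).card := by
      apply Finset.card_image_of_injOn
      intro x hx y hy hxy
      simp only [Finset.coe_filter, Set.mem_ofPred_eq] at hx hy
      exact Prod.ext hxy (hx.2.trans hy.2.symm)
    rw [← hinj]
    apply card_diam
    intro x hx y hy
    rw [Finset.mem_image] at hx hy
    obtain ⟨p, hp, rfl⟩ := hx
    obtain ⟨q, hq, rfl⟩ := hy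
    rw [Finset.mem_filter] at hp hq
    exact h1 p hp.1 q hq.1 (hp.2.trans hq.2.symm)
  refine (Finset.card_le_mul_card_image s (L + 1) hfib).trans ?_
  apply Nat.mul_le_mul_left
  apply card_diam
  intro x hx y hy
  rw [Finset.mem_image] at hx hy
  obtain ⟨p, hp, rfl⟩ := hx
  obtain ⟨q, hq, rfl⟩ := hy
  exact h2 p hp q hq

/-- the last five coordinates -/
def rest (f : Fin 7 → ℤ) : Fin 5 → ℤ := fun i => f i.succ.succ

theorem rest_ext {f g : Fin 7 → ℤ} (h : rest f = rest g) (h0 : f 0 = g 0) (h1 : f 1 = g 1) :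
    f = g := by
  funext i
  refine Fin.cases h0 (fun j => ?_) i
  refine Fin.cases h1 (fun k => ?_) j
  exact congrFun h k

theorem box_card (n : ℕ) (A : ℝ) (hA : 0 ≤ A) : (box n A).card = (2 * ⌊A⌋₊ + 1) ^ n := by
  have h0 : (⌊A⌋₊ : ℤ) = ⌊A⌋ := Int.natCast_floor_eq_floor hA
  rw [box, Fintype.card_piFinset]
  simp only [Finset.prod_const, Finset.card_univ, Fintype.card_fin, Int.card_Icc]
  congr 1
  omega

/-- counting forms: differences of `f 0` and `f 1` are restricted when the other coefficients agree -/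
theorem card_forms (S : Finset (Fin 7 → ℤ)) (A : ℝ) (hA : 0 ≤ A) (hS : S ⊆ box 7 A) (L : ℕ)
    (h2 : ∀ f ∈ S, ∀ g ∈ S, rest f = rest g → f 1 - g 1 ≤ L)
    (h1 : ∀ f ∈ S, ∀ g ∈ S, rest f = rest g → f 1 = g 1 → f 0 - g 0 ≤ L) :
    S.card ≤ (L + 1) * (L + 1) * (2 * ⌊A⌋₊ + 1) ^ 5 := by
  classical
  have hfib : ∀ r ∈ S.image rest, (S.filter (fun x => rest x = r)).card ≤
      (L + 1) * (L + 1) := by
    intro r _
    have hinj : ((S.filter (fun x => rest x = r)).image (fun f => (f 0, f 1))).card =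
        (S.filter (fun x => rest x = r)).card := by
      apply Finset.card_image_of_injOn
      intro x hx y hy hxy
      simp only [Finset.coe_filter, Set.mem_ofPred_eq] at hx hy
      have e := Prod.ext_iff.mp hxy
      exact rest_ext (hx.2.trans hy.2.symm) e.1 e.2
    rw [← hinj]
    apply card_pair
    · intro x hx y hy
      rw [Finset.mem_image] at hx hy
      obtain ⟨p, hp, rfl⟩ := hx
      obtain ⟨q, hq, rfl⟩ := hy
      rw [Finset.mem_filter] at hp hq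
      exact h2 p hp.1 q hq.1 (hp.2.trans hq.2.symm)
    · intro x hx y hy hxy
      rw [Finset.mem_image] at hx hy
      obtain ⟨p, hp, rfl⟩ := hx
      obtain ⟨q, hq, rfl⟩ := hy
      rw [Finset.mem_filter] at hp hq
      exact h1 p hp.1 q hq.1 (hp.2.trans hq.2.symm) hxy
  refine (Finset.card_le_mul_card_image S _ hfib).trans ?_
  apply Nat.mul_le_mul_left
  rw [← box_card 5 A hA]
  apply Finset.card_le_card
  intro r hr
  rw [Finset.mem_image] at hr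
  obtain ⟨f, hf, rfl⟩ := hr
  have := hS hf
  rw [box, Fintype.mem_piFinset] at this ⊢
  intro i
  exact this _

theorem pow_lip (v w : ℝ) (hv : |v| ≤ 1) (hw : |w| ≤ 1) (n : ℕ) :
    |v ^ n - w ^ n| ≤ n * |v - w| := by
  induction n with
  | zero => simp
  | succ n ih =>
    have e : v ^ (n + 1) - w ^ (n + 1) = v ^ n * (v - w) + w * (v ^ n - w ^ n) := by ring
    rw [e]
    refine (abs_add_le _ _).trans ?_
    rw [abs_mul, abs_mul, abs_pow]
    have h1 : |v| ^ n ≤ 1 := pow_le_one₀ (abs_nonneg _) hv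
    have h2 : |v| ^ n * |v - w| ≤ 1 * |v - w| :=
      mul_le_mul_of_nonneg_right h1 (abs_nonneg _)
    have h3 : |w| * |v ^ n - w ^ n| ≤ 1 * (n * |v - w|) :=
      mul_le_mul hw ih (abs_nonneg _) zero_le_one
    push_cast
    linarith

theorem box_abs {n : ℕ} {A : ℝ} {g : Fin n → ℤ} (hg : g ∈ box n A) (i : Fin n) :
    |(g i : ℝ)| ≤ A := by
  rw [box, Fintype.mem_piFinset] at hg
  have := Finset.mem_Icc.mp (hg i)
  have h1 : ((⌊A⌋ : ℤ) : ℝ) ≤ A := Int.floor_le A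
  have h2 : ((-⌊A⌋ : ℤ) : ℝ) ≤ g i := by exact_mod_cast this.1
  have h3 : (g i : ℝ) ≤ ((⌊A⌋ : ℤ) : ℝ) := by exact_mod_cast this.2
  push_cast at h2
  rw [abs_le]
  constructor <;> linarith

/-- the Lipschitz estimate for linear combinations of powers -/
theorem lip_sum {d : ℕ} (c : Fin (d + 1) → ℝ) (e : Fin (d + 1) → ℕ) (m : Fin (d + 1) → ℝ)
    (hc : ∀ i, |c i| ≤ m i) (v w : ℝ) (hv : |v| ≤ 1) (hw : |w| ≤ 1) :
    |∑ i, c i * v ^ e i - ∑ i, c i * w ^ e i| ≤ (∑ i, m i * e i) * |v - w| := by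
  rw [← Finset.sum_sub_distrib, Finset.sum_mul]
  refine (Finset.abs_sum_le_sum_abs _ _).trans (Finset.sum_le_sum fun i _ => ?_)
  rw [← mul_sub, abs_mul, mul_assoc]
  exact mul_le_mul (hc i) (pow_lip v w hv hw _) (abs_nonneg _) ((abs_nonneg _).trans (hc i))

theorem bf_one {d : ℕ} (g : Fin (d + 1) → ℤ) (A v : ℝ) :
    bf g 1 v / A = ∑ i : Fin (d + 1), ((g i : ℝ) / A) * v ^ (i : ℕ) := by
  rw [bf, Finset.sum_div]
  refine Finset.sum_congr rfl fun i _ => ?_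
  rw [one_pow]
  ring

theorem bfv_one {d : ℕ} (g : Fin (d + 1) → ℤ) (A v : ℝ) :
    bfv g 1 v / A = ∑ i : Fin (d + 1), ((g i : ℝ) / A * (i : ℕ)) * v ^ ((i : ℕ) - 1) := by
  rw [bfv, Finset.sum_div]
  refine Finset.sum_congr rfl fun i _ => ?_
  rw [one_pow]
  ring

theorem div_abs {A : ℝ} (hA : 0 < A) {d : ℕ} {g : Fin (d + 1) → ℤ} (hg : g ∈ box (d + 1) A)
    (i : Fin (d + 1)) : |(g i : ℝ) / A| ≤ 1 := by
  rw [abs_div, abs_of_pos hA, div_le_one hA]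
  exact box_abs hg i

theorem bf_lip {d : ℕ} {g : Fin (d + 1) → ℤ} {A : ℝ} (hA : 0 < A) (hg : g ∈ box (d + 1) A)
    (v w : ℝ) (hv : |v| ≤ 1) (hw : |w| ≤ 1) :
    |bf g 1 v / A - bf g 1 w / A| ≤ (∑ i : Fin (d + 1), (i : ℝ)) * |v - w| := by
  rw [bf_one, bf_one]
  have := lip_sum (fun i => (g i : ℝ) / A) (fun i => (i : ℕ)) (fun _ => 1)
    (fun i => div_abs hA hg i) v w hv hw
  simpa using this

theorem bfv_lip {d : ℕ} {g : Fin (d + 1) → ℤ} {A : ℝ} (hA : 0 < A) (hg : g ∈ box (d + 1) A)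
    (v w : ℝ) (hv : |v| ≤ 1) (hw : |w| ≤ 1) :
    |bfv g 1 v / A - bfv g 1 w / A| ≤
      (∑ i : Fin (d + 1), (i : ℝ) * (((i : ℕ) - 1 : ℕ) : ℝ)) * |v - w| := by
  rw [bfv_one, bfv_one]
  refine lip_sum (fun i => (g i : ℝ) / A * (i : ℕ)) (fun i => (i : ℕ) - 1) (fun i => (i : ℕ))
    (fun i => ?_) v w hv hw
  rw [abs_mul, Nat.abs_cast]
  have := mul_le_mul_of_nonneg_right (div_abs hA hg i) (Nat.cast_nonneg (α := ℝ) (i : ℕ))
  simpa using this

theorem bf_bd {d : ℕ} {g : Fin (d + 1) → ℤ} {A : ℝ} (hA : 0 < A) (hg : g ∈ box (d + 1) A)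
    (v : ℝ) (hv : |v| ≤ 1) : |bf g 1 v / A| ≤ d + 1 := by
  rw [bf_one]
  refine (Finset.abs_sum_le_sum_abs _ _).trans ?_
  calc ∑ i : Fin (d + 1), |((g i : ℝ) / A) * v ^ (i : ℕ)| ≤ ∑ _i : Fin (d + 1), (1 : ℝ) := by
        refine Finset.sum_le_sum fun i _ => ?_
        rw [abs_mul, abs_pow]
        have h1 : |v| ^ (i : ℕ) ≤ 1 := pow_le_one₀ (abs_nonneg _) hv
        calc |(g i : ℝ) / A| * |v| ^ (i : ℕ) ≤ 1 * 1 :=
              mul_le_mul (div_abs hA hg i) h1 (by positivity) zero_le_one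
          _ = 1 := one_mul 1
    _ = d + 1 := by simp

theorem bfv_bd {g : Fin 5 → ℤ} {A : ℝ} (hA : 0 < A) (hg : g ∈ box 5 A)
    (v : ℝ) (hv : |v| ≤ 1) : |bfv (d := 4) g 1 v / A| ≤ 10 := by
  rw [bfv_one]
  refine (Finset.abs_sum_le_sum_abs _ _).trans ?_
  calc ∑ i : Fin 5, |((g i : ℝ) / A * (i : ℕ)) * v ^ ((i : ℕ) - 1)| ≤
        ∑ i : Fin 5, ((i : ℕ) : ℝ) := by
        refine Finset.sum_le_sum fun i _ => ?_
        rw [abs_mul, abs_mul, abs_pow, Nat.abs_cast]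
        have h1 : |v| ^ ((i : ℕ) - 1) ≤ 1 := pow_le_one₀ (abs_nonneg _) hv
        have h2 := div_abs (d := 4) hA hg i
        calc |(g i : ℝ) / A| * ((i : ℕ) : ℝ) * |v| ^ ((i : ℕ) - 1) ≤ (1 * ((i : ℕ) : ℝ)) * 1 :=
              mul_le_mul (mul_le_mul_of_nonneg_right h2 (Nat.cast_nonneg _)) h1 (by positivity)
                (by positivity)
          _ = ((i : ℕ) : ℝ) := by ring
    _ = 10 := by
      simp only [Fin.sum_univ_succ, Fin.val_zero, Fin.val_succ, Finset.univ_eq_empty,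
        Finset.sum_empty]
      norm_num


/-- the conditions for `u = 1` -/
def Bad1 (θ H : ℝ) (a : Fin 5 → ℤ) (f : Fin 7 → ℤ) : Prop :=
  ∃ v x : ℝ, |v| ≤ 1 ∧ |x| ≤ 4 ∧ |Fr H a f 1 v x| ≤ θ ∧ |3 * x ^ 2 + bf a 1 v / H ^ 4| ≤ θ ∧
    |bfv f 1 v / H ^ 6 + bfv a 1 v / H ^ 4 * x| ≤ θ

theorem pert {H : ℝ} (hH : 1 ≤ H) {a : Fin 5 → ℤ} {f : Fin 7 → ℤ} (ha : a ∈ box 5 (H ^ 4))
    (hf : f ∈ box 7 (H ^ 6)) {v w x z δ : ℝ} (hv : |v| ≤ 1) (hw : |w| ≤ 1) (hx : |x| ≤ 4)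
    (hz : |z| ≤ 4) (hvw : |v - w| ≤ δ) (hxz : |x - z| ≤ δ) :
    |Fr H a f 1 w z| ≤ |Fr H a f 1 v x| + 115 * δ ∧
    |3 * z ^ 2 + bf a 1 w / H ^ 4| ≤ |3 * x ^ 2 + bf a 1 v / H ^ 4| + 35 * δ ∧
    |bfv f 1 w / H ^ 6 + bfv a 1 w / H ^ 4 * z| ≤
      |bfv f 1 v / H ^ 6 + bfv a 1 v / H ^ 4 * x| + 160 * δ := by
  have hδ : 0 ≤ δ := (abs_nonneg _).trans hvw
  have hA : (0 : ℝ) < H ^ 4 := by positivity
  have hF : (0 : ℝ) < H ^ 6 := by positivity
  have l1 := bf_lip (d := 4) hA ha v w hv hw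
  have l2 := bf_lip (d := 6) hF hf v w hv hw
  have l3 := bfv_lip (d := 4) hA ha v w hv hw
  have l4 := bfv_lip (d := 6) hF hf v w hv hw
  have b1 := bf_bd (d := 4) hA ha v hv
  have b2 := bfv_bd hA ha v hv
  have s1 : (∑ i : Fin (4 + 1), ((i : ℕ) : ℝ)) = 10 := by
    simp only [Fin.sum_univ_succ, Fin.val_zero, Fin.val_succ, Finset.univ_eq_empty,
        Finset.sum_empty]
    norm_num
  have s2 : (∑ i : Fin (6 + 1), ((i : ℕ) : ℝ)) = 21 := by
    simp only [Fin.sum_univ_succ, Fin.val_zero, Fin.val_succ, Finset.univ_eq_empty,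
        Finset.sum_empty]
    norm_num
  have s3 : (∑ i : Fin (4 + 1), ((i : ℕ) : ℝ) * (((i : ℕ) - 1 : ℕ) : ℝ)) = 20 := by
    simp only [Fin.sum_univ_succ, Fin.val_zero, Fin.val_succ, Finset.univ_eq_empty,
        Finset.sum_empty]
    norm_num
  have s4 : (∑ i : Fin (6 + 1), ((i : ℕ) : ℝ) * (((i : ℕ) - 1 : ℕ) : ℝ)) = 70 := by
    simp only [Fin.sum_univ_succ, Fin.val_zero, Fin.val_succ, Finset.univ_eq_empty,
        Finset.sum_empty]
    norm_num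
  rw [s1] at l1
  rw [s2] at l2
  rw [s3] at l3
  rw [s4] at l4
  set A1 := bf a (1 : ℝ) v / H ^ 4
  set A2 := bf a (1 : ℝ) w / H ^ 4
  set F1 := bf f (1 : ℝ) v / H ^ 6
  set F2 := bf f (1 : ℝ) w / H ^ 6
  set B1 := bfv a (1 : ℝ) v / H ^ 4
  set B2 := bfv a (1 : ℝ) w / H ^ 4
  set G1 := bfv f (1 : ℝ) v / H ^ 6
  set G2 := bfv f (1 : ℝ) w / H ^ 6
  have m1 : |A1 - A2| ≤ 10 * δ := l1.trans (by nlinarith)
  have m2 : |F1 - F2| ≤ 21 * δ := l2.trans (by nlinarith)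
  have m3 : |B1 - B2| ≤ 20 * δ := l3.trans (by nlinarith)
  have m4 : |G1 - G2| ≤ 70 * δ := l4.trans (by nlinarith)
  have b1' : |A1| ≤ 5 := by
    refine b1.trans ?_
    norm_num
  have key : ∀ P Q c : ℝ, |P - Q| ≤ c → |Q| ≤ |P| + c := by
    intro P Q c h
    have h1 := abs_sub_abs_le_abs_sub Q P
    rw [abs_sub_comm] at h1
    linarith
  have q1 : |x * x| ≤ 16 := by
    rw [abs_mul]; nlinarith [abs_nonneg x]
  have q2 : |x * z| ≤ 16 := by
    rw [abs_mul]; nlinarith [abs_nonneg x, abs_nonneg z]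
  have q3 : |z * z| ≤ 16 := by
    rw [abs_mul]; nlinarith [abs_nonneg z]
  refine ⟨key _ _ _ ?_, key _ _ _ ?_, key _ _ _ ?_⟩
  · have e : Fr H a f 1 v x - Fr H a f 1 w z =
        (x - z) * (x * x + x * z + z * z) + (A1 - A2) * z + A1 * (x - z) + (F1 - F2) := by
      simp only [Fr]
      change x ^ 3 + A1 * x + F1 - (z ^ 3 + A2 * z + F2) = _
      ring
    rw [e]
    have t1 : |(x - z) * (x * x + x * z + z * z)| ≤ δ * 48 := by
      rw [abs_mul]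
      refine mul_le_mul hxz ?_ (abs_nonneg _) hδ
      refine (abs_add_le _ _).trans ?_
      have := abs_add_le (x * x) (x * z)
      linarith
    have t2 : |(A1 - A2) * z| ≤ (10 * δ) * 4 := by
      rw [abs_mul]
      exact mul_le_mul m1 hz (abs_nonneg _) (by positivity)
    have t3 : |A1 * (x - z)| ≤ 5 * δ := by
      rw [abs_mul]
      exact mul_le_mul b1' hxz (abs_nonneg _) (by positivity)
    refine (abs_add_le _ _).trans ?_
    have u1 := abs_add_le ((x - z) * (x * x + x * z + z * z) + (A1 - A2) * z) (A1 * (x - z))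
    have u2 := abs_add_le ((x - z) * (x * x + x * z + z * z)) ((A1 - A2) * z)
    linarith
  · have e : 3 * x ^ 2 + A1 - (3 * z ^ 2 + A2) = 3 * ((x - z) * (x + z)) + (A1 - A2) := by ring
    rw [e]
    have t1 : |(x - z) * (x + z)| ≤ δ * 8 := by
      rw [abs_mul]
      refine mul_le_mul hxz ?_ (abs_nonneg _) hδ
      have := abs_add_le x z
      linarith
    refine (abs_add_le _ _).trans ?_
    rw [abs_mul, abs_of_pos (by norm_num : (0 : ℝ) < 3)]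
    linarith
  · have e : G1 + B1 * x - (G2 + B2 * z) = (G1 - G2) + B1 * (x - z) + (B1 - B2) * z := by ring
    rw [e]
    have t1 : |B1 * (x - z)| ≤ 10 * δ := by
      rw [abs_mul]
      exact mul_le_mul b2 hxz (abs_nonneg _) (by positivity)
    have t2 : |(B1 - B2) * z| ≤ (20 * δ) * 4 := by
      rw [abs_mul]
      exact mul_le_mul m3 hz (abs_nonneg _) (by positivity)
    refine (abs_add_le _ _).trans ?_
    have u1 := abs_add_le (G1 - G2) (B1 * (x - z))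
    linarith

theorem sum7 (h : Fin 7 → ℝ) : ∑ i, h i = h 0 + (h 1 + ∑ i : Fin 5, h i.succ.succ) := by
  rw [Fin.sum_univ_succ, Fin.sum_univ_succ]
  rfl

theorem bf_diff {f g : Fin 7 → ℤ} (h : rest f = rest g) (w : ℝ) :
    bf (d := 6) f 1 w - bf (d := 6) g 1 w = ((f 0 : ℝ) - g 0) + ((f 1 : ℝ) - g 1) * w := by
  rw [bf, bf, sum7, sum7]
  have e : ∀ i : Fin 5, f i.succ.succ = g i.succ.succ := fun i => congrFun h i
  simp only [e, Fin.val_zero, Fin.val_one, one_pow, pow_zero, pow_one]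
  ring

theorem bfv_diff {f g : Fin 7 → ℤ} (h : rest f = rest g) (w : ℝ) :
    bfv (d := 6) f 1 w - bfv (d := 6) g 1 w = (f 1 : ℝ) - g 1 := by
  rw [bfv, bfv, sum7, sum7]
  have e : ∀ i : Fin 5, f i.succ.succ = g i.succ.succ := fun i => congrFun h i
  simp only [e, Fin.val_zero, Fin.val_one, one_pow]
  simp

open scoped Classical in
theorem card_at {H : ℝ} (hH : 1 ≤ H) (a : Fin 5 → ℤ) (w z c : ℝ) (hc : 0 ≤ c) :
    ((box 7 (H ^ 6)).filter (fun f => |Fr H a f 1 w z| ≤ c ∧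
      |bfv f 1 w / H ^ 6 + bfv a 1 w / H ^ 4 * z| ≤ c)).card ≤
      (⌊2 * c * H ^ 6⌋₊ + 1) * (⌊2 * c * H ^ 6⌋₊ + 1) * (2 * ⌊H ^ 6⌋₊ + 1) ^ 5 := by
  have hF : (0 : ℝ) < H ^ 6 := by positivity
  apply card_forms _ _ hF.le (Finset.filter_subset _ _)
  · intro f hf g hg hr
    have hf := (Finset.mem_filter.mp hf).2.2
    have hg := (Finset.mem_filter.mp hg).2.2
    have hd := bfv_diff hr w
    have h1 : ((f 1 : ℝ) - g 1) / H ^ 6 ≤ 2 * c := by
      rw [← hd, sub_div]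
      have := abs_le.mp hf
      have := abs_le.mp hg
      linarith
    rw [div_le_iff₀ hF] at h1
    have h2 : ((f 1 - g 1 : ℤ) : ℝ) ≤ 2 * c * H ^ 6 := by push_cast; exact h1
    have h3 := Int.le_floor.mpr h2
    rw [Int.natCast_floor_eq_floor (by positivity)]
    exact h3
  · intro f hf g hg hr h1
    have hf := (Finset.mem_filter.mp hf).2.1
    have hg := (Finset.mem_filter.mp hg).2.1
    have hd := bf_diff hr w
    rw [h1] at hd
    have h1 : ((f 0 : ℝ) - g 0) / H ^ 6 ≤ 2 * c := by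
      have e : ((f 0 : ℝ) - g 0) = bf f (1 : ℝ) w - bf g (1 : ℝ) w := by rw [hd]; ring
      rw [e, sub_div]
      simp only [Fr] at hf hg
      have := abs_le.mp hf
      have := abs_le.mp hg
      linarith
    rw [div_le_iff₀ hF] at h1
    have h2 : ((f 0 - g 0 : ℤ) : ℝ) ≤ 2 * c * H ^ 6 := by push_cast; exact h1
    have h3 := Int.le_floor.mpr h2
    rw [Int.natCast_floor_eq_floor (by positivity)]
    exact h3

open scoped Classical in
theorem card_k (n : ℕ) (hn : 1 ≤ n) (α : ℝ) (s : Finset ℤ) :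
    (s.filter (fun k : ℤ => |3 * ((k : ℝ) / (n : ℝ) ^ 2) ^ 2 + α| ≤ 200 / (n : ℝ) ^ 2)).card ≤
      24 * n + 2 := by
  have hn' : (1 : ℝ) ≤ n := by exact_mod_cast hn
  have hN : (0 : ℝ) < (n : ℝ) ^ 2 := by positivity
  set S := s.filter (fun k : ℤ => |3 * ((k : ℝ) / (n : ℝ) ^ 2) ^ 2 + α| ≤ 200 / (n : ℝ) ^ 2)
  have key : ∀ p ∈ S, ∀ q ∈ S, (p : ℝ) ^ 2 - (q : ℝ) ^ 2 < 144 * (n : ℝ) ^ 2 := by
    intro p hp q hq
    have h1 := abs_le.mp (Finset.mem_filter.mp hp).2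
    have h2 := abs_le.mp (Finset.mem_filter.mp hq).2
    have h3 : 3 * ((p : ℝ) ^ 2 - (q : ℝ) ^ 2) / ((n : ℝ) ^ 2) ^ 2 ≤ 400 / (n : ℝ) ^ 2 := by
      have e : 3 * ((p : ℝ) ^ 2 - (q : ℝ) ^ 2) / ((n : ℝ) ^ 2) ^ 2 =
          3 * ((p : ℝ) / (n : ℝ) ^ 2) ^ 2 - 3 * ((q : ℝ) / (n : ℝ) ^ 2) ^ 2 := by
        field_simp
      rw [e]
      have e2 : 400 / (n : ℝ) ^ 2 = 200 / (n : ℝ) ^ 2 + 200 / (n : ℝ) ^ 2 := by ring
      rw [e2]
      linarith
    rw [div_le_div_iff₀ (by positivity) hN] at h3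
    have h4 : 3 * ((p : ℝ) ^ 2 - (q : ℝ) ^ 2) ≤ 400 * (n : ℝ) ^ 2 := by
      have h5 : (3 * ((p : ℝ) ^ 2 - (q : ℝ) ^ 2) - 400 * (n : ℝ) ^ 2) * (n : ℝ) ^ 2 ≤ 0 := by
        nlinarith
      by_contra hcon
      push Not at hcon
      have : 0 < (3 * ((p : ℝ) ^ 2 - (q : ℝ) ^ 2) - 400 * (n : ℝ) ^ 2) * (n : ℝ) ^ 2 :=
        mul_pos (by linarith) hN
      linarith
    nlinarith
  have hsplit : S = S.filter (fun k => 0 ≤ k) ∪ S.filter (fun k => ¬ 0 ≤ k) :=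
    (Finset.filter_union_filter_not_eq _ _).symm
  have c1 : (S.filter (fun k => 0 ≤ k)).card ≤ 12 * n + 1 := by
    apply card_diam
    intro p hp q hq
    rw [Finset.mem_filter] at hp hq
    by_contra hcon
    push Not at hcon
    have hk := key p hp.1 q hq.1
    have h1 : (12 * (n : ℝ)) < (p : ℝ) - q := by exact_mod_cast hcon
    have h2 : (0 : ℝ) ≤ q := by exact_mod_cast hq.2
    nlinarith
  have c2 : (S.filter (fun k => ¬ 0 ≤ k)).card ≤ 12 * n + 1 := by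
    apply card_diam
    intro p hp q hq
    rw [Finset.mem_filter] at hp hq
    by_contra hcon
    push Not at hcon
    have hk := key q hq.1 p hp.1
    have h1 : (12 * (n : ℝ)) < (p : ℝ) - q := by exact_mod_cast hcon
    have h2 : (p : ℝ) ≤ 0 := by
      have := hp.2
      push Not at this
      exact_mod_cast this.le
    nlinarith
  rw [hsplit]
  refine (Finset.card_union_le _ _).trans ?_
  omega

open scoped Classical in
theorem count1 (n : ℕ) (hn : 1 ≤ n) {H : ℝ} (hH : 1 ≤ H) (hnH : (n : ℝ) ^ 2 ≤ H ^ 6)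
    (a : Fin 5 → ℤ) (ha : a ∈ box 5 (H ^ 4)) :
    (((box 7 (H ^ 6)).filter (fun f => Bad1 (1 / (n : ℝ) ^ 2) H a f)).card : ℝ) ≤
      12542478 / n * (box 7 (H ^ 6)).card := by
  have hn' : (1 : ℝ) ≤ n := by exact_mod_cast hn
  have hN : (0 : ℝ) < (n : ℝ) ^ 2 := by positivity
  have hF : (0 : ℝ) < H ^ 6 := by positivity
  set c : ℝ := 200 / (n : ℝ) ^ 2 with hc
  have hc0 : 0 ≤ c := by positivity
  set L : ℕ := ⌊2 * c * H ^ 6⌋₊ with hL
  set M : ℕ := ⌊H ^ 6⌋₊ with hM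
  have hsub : (box 7 (H ^ 6)).filter (fun f => Bad1 (1 / (n : ℝ) ^ 2) H a f) ⊆
      (Finset.Icc (-((n ^ 2 : ℕ) : ℤ)) ((n ^ 2 : ℕ) : ℤ)).biUnion (fun j : ℤ =>
        ((Finset.Icc (-((4 * n ^ 2 : ℕ) : ℤ)) ((4 * n ^ 2 : ℕ) : ℤ)).filter (fun k : ℤ =>
          |3 * ((k : ℝ) / (n : ℝ) ^ 2) ^ 2 + bf a 1 ((j : ℝ) / (n : ℝ) ^ 2) / H ^ 4| ≤
            200 / (n : ℝ) ^ 2)).biUnion (fun k : ℤ =>
          (box 7 (H ^ 6)).filter (fun f =>
            |Fr H a f 1 ((j : ℝ) / (n : ℝ) ^ 2) ((k : ℝ) / (n : ℝ) ^ 2)| ≤ c ∧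
            |bfv f 1 ((j : ℝ) / (n : ℝ) ^ 2) / H ^ 6 +
              bfv a 1 ((j : ℝ) / (n : ℝ) ^ 2) / H ^ 4 * ((k : ℝ) / (n : ℝ) ^ 2)| ≤ c))) := by
    intro f hf
    rw [Finset.mem_filter] at hf
    obtain ⟨hfb, v, x, hv, hx, h1, h2, h3⟩ := hf
    rw [Finset.mem_biUnion]
    have jf1 : ((⌊v * (n : ℝ) ^ 2⌋ : ℤ) : ℝ) ≤ v * (n : ℝ) ^ 2 := Int.floor_le _
    have jf2 : v * (n : ℝ) ^ 2 < ((⌊v * (n : ℝ) ^ 2⌋ : ℤ) : ℝ) + 1 := Int.lt_floor_add_one _
    have kf1 : ((⌊x * (n : ℝ) ^ 2⌋ : ℤ) : ℝ) ≤ x * (n : ℝ) ^ 2 := Int.floor_le _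
    have kf2 : x * (n : ℝ) ^ 2 < ((⌊x * (n : ℝ) ^ 2⌋ : ℤ) : ℝ) + 1 := Int.lt_floor_add_one _
    have hv' := abs_le.mp hv
    have hx' := abs_le.mp hx
    have jm : -((n ^ 2 : ℕ) : ℤ) ≤ ⌊v * (n : ℝ) ^ 2⌋ ∧ ⌊v * (n : ℝ) ^ 2⌋ ≤ ((n ^ 2 : ℕ) : ℤ) := by
      constructor
      · rw [Int.le_floor]
        push_cast
        nlinarith
      · have : ((⌊v * (n : ℝ) ^ 2⌋ : ℤ) : ℝ) ≤ ((n ^ 2 : ℕ) : ℤ) := by
          push_cast
          nlinarith
        exact_mod_cast this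
    have km : -((4 * n ^ 2 : ℕ) : ℤ) ≤ ⌊x * (n : ℝ) ^ 2⌋ ∧
        ⌊x * (n : ℝ) ^ 2⌋ ≤ ((4 * n ^ 2 : ℕ) : ℤ) := by
      constructor
      · rw [Int.le_floor]
        push_cast
        nlinarith
      · have : ((⌊x * (n : ℝ) ^ 2⌋ : ℤ) : ℝ) ≤ ((4 * n ^ 2 : ℕ) : ℤ) := by
          push_cast
          nlinarith
        exact_mod_cast this
    set j := ⌊v * (n : ℝ) ^ 2⌋
    set k := ⌊x * (n : ℝ) ^ 2⌋
    have hw : |(j : ℝ) / (n : ℝ) ^ 2| ≤ 1 := by
      rw [abs_div, abs_of_pos hN, div_le_one hN, abs_le]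
      constructor
      · have : ((-((n ^ 2 : ℕ) : ℤ) : ℤ) : ℝ) ≤ (j : ℝ) := by exact_mod_cast jm.1
        push_cast at this
        exact this
      · have : (j : ℝ) ≤ (((n ^ 2 : ℕ) : ℤ) : ℝ) := by exact_mod_cast jm.2
        push_cast at this
        exact this
    have hz : |(k : ℝ) / (n : ℝ) ^ 2| ≤ 4 := by
      rw [abs_div, abs_of_pos hN, div_le_iff₀ hN, abs_le]
      constructor
      · have : ((-((4 * n ^ 2 : ℕ) : ℤ) : ℤ) : ℝ) ≤ (k : ℝ) := by exact_mod_cast km.1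
        push_cast at this
        linarith
      · have : (k : ℝ) ≤ (((4 * n ^ 2 : ℕ) : ℤ) : ℝ) := by exact_mod_cast km.2
        push_cast at this
        exact this
    have hvw : |v - (j : ℝ) / (n : ℝ) ^ 2| ≤ 1 / (n : ℝ) ^ 2 := by
      have e : v - (j : ℝ) / (n : ℝ) ^ 2 = (v * (n : ℝ) ^ 2 - j) / (n : ℝ) ^ 2 := by
        field_simp
      rw [e, abs_div, abs_of_pos hN]
      apply div_le_div_of_nonneg_right _ hN.le
      rw [abs_le]
      constructor <;> linarith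
    have hxz : |x - (k : ℝ) / (n : ℝ) ^ 2| ≤ 1 / (n : ℝ) ^ 2 := by
      have e : x - (k : ℝ) / (n : ℝ) ^ 2 = (x * (n : ℝ) ^ 2 - k) / (n : ℝ) ^ 2 := by
        field_simp
      rw [e, abs_div, abs_of_pos hN]
      apply div_le_div_of_nonneg_right _ hN.le
      rw [abs_le]
      constructor <;> linarith
    obtain ⟨p1, p2, p3⟩ := pert hH ha hfb hv hw hx hz hvw hxz
    have hcc : c = 200 * (1 / (n : ℝ) ^ 2) := by rw [hc]; ring
    have hpos : 0 < 1 / (n : ℝ) ^ 2 := by positivity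
    refine ⟨j, Finset.mem_Icc.mpr jm, ?_⟩
    rw [Finset.mem_biUnion]
    refine ⟨k, ?_, ?_⟩
    · rw [Finset.mem_filter]
      refine ⟨Finset.mem_Icc.mpr km, ?_⟩
      rw [← hc, hcc]
      linarith
    · rw [Finset.mem_filter]
      refine ⟨hfb, ?_, ?_⟩
      · rw [hcc]
        linarith
      · rw [hcc]
        linarith
  have hcard := (Finset.card_le_card hsub).trans
    (Finset.card_biUnion_le_card_mul _ _ ((24 * n + 2) * ((L + 1) * (L + 1) * (2 * M + 1) ^ 5))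
      (fun j _ => (Finset.card_biUnion_le_card_mul _ _ ((L + 1) * (L + 1) * (2 * M + 1) ^ 5)
        (fun k _ => card_at hH a _ _ c hc0)).trans
          (Nat.mul_le_mul_right _ (card_k n hn _ _))))
  have hIcc : (Finset.Icc (-((n ^ 2 : ℕ) : ℤ)) ((n ^ 2 : ℕ) : ℤ)).card = 2 * n ^ 2 + 1 := by
    rw [Int.card_Icc]
    omega
  rw [hIcc] at hcard
  rw [box_card 7 (H ^ 6) hF.le, ← hM]
  have hcast : (((box 7 (H ^ 6)).filter (fun f => Bad1 (1 / (n : ℝ) ^ 2) H a f)).card : ℝ) ≤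
      (2 * (n : ℝ) ^ 2 + 1) * ((24 * n + 2) * (((L : ℝ) + 1) * (L + 1) * (2 * M + 1) ^ 5)) := by
    exact_mod_cast hcard
  refine hcast.trans ?_
  have hMr : H ^ 6 < (M : ℝ) + 1 := Nat.lt_floor_add_one _
  have hLr : (L : ℝ) ≤ 2 * c * H ^ 6 := Nat.floor_le (by positivity)
  have hT : H ^ 6 ≤ 2 * (M : ℝ) + 1 := by
    have : (0 : ℝ) ≤ M := Nat.cast_nonneg _
    have h1 : (1 : ℝ) ≤ M := by
      have : 1 ≤ M := Nat.le_floor (by
        push_cast
        exact one_le_pow₀ hH)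
      exact_mod_cast this
    linarith
  set T : ℝ := 2 * (M : ℝ) + 1 with hTdef
  have hT0 : 0 < T := by linarith
  have hL1 : (L : ℝ) + 1 ≤ 401 * T / (n : ℝ) ^ 2 := by
    rw [le_div_iff₀ hN]
    have h1 : (L : ℝ) * (n : ℝ) ^ 2 ≤ 400 * H ^ 6 := by
      have h2 := mul_le_mul_of_nonneg_right hLr hN.le
      have e : 2 * c * H ^ 6 * (n : ℝ) ^ 2 = 400 * H ^ 6 := by
        rw [hc]; field_simp; ring
      rw [e] at h2
      exact h2
    nlinarith
  have hL0 : 0 ≤ (L : ℝ) + 1 := by positivity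
  have s1 : 2 * (n : ℝ) ^ 2 + 1 ≤ 3 * (n : ℝ) ^ 2 := by nlinarith
  have s2 : 24 * (n : ℝ) + 2 ≤ 26 * n := by linarith
  have s3 : ((L : ℝ) + 1) * (L + 1) ≤ (401 * T / (n : ℝ) ^ 2) * (401 * T / (n : ℝ) ^ 2) :=
    mul_le_mul hL1 hL1 hL0 (by positivity)
  calc (2 * (n : ℝ) ^ 2 + 1) * ((24 * n + 2) * (((L : ℝ) + 1) * (L + 1) * T ^ 5))
      ≤ (3 * (n : ℝ) ^ 2) * ((26 * n) *
          ((401 * T / (n : ℝ) ^ 2) * (401 * T / (n : ℝ) ^ 2) * T ^ 5)) := by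
        gcongr
    _ = 12542478 / n * T ^ 7 := by
        have hn0 : (n : ℝ) ≠ 0 := by positivity
        field_simp
        ring
    _ = 12542478 / n * (((2 * M + 1) ^ 7 : ℕ) : ℝ) := by
        rw [hTdef]
        push_cast
        ring

theorem bf_rev {d : ℕ} (g : Fin (d + 1) → ℤ) (u v : ℝ) :
    bf (g ∘ Fin.rev) u v = bf g v u := by
  simp only [bf, Function.comp]
  rw [← Equiv.sum_comp Fin.revPerm]
  refine Finset.sum_congr rfl fun i _ => ?_
  have hi := i.isLt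
  have e1 : d - ((Fin.rev i : Fin (d + 1)) : ℕ) = (i : ℕ) := by
    rw [Fin.val_rev]; omega
  have e2 : ((Fin.rev i : Fin (d + 1)) : ℕ) = d - (i : ℕ) := by
    rw [Fin.val_rev]; omega
  rw [Fin.revPerm_apply, Fin.rev_rev, e1, e2]
  ring

theorem bfv_rev {d : ℕ} (g : Fin (d + 1) → ℤ) (u v : ℝ) :
    bfv (g ∘ Fin.rev) u v = bfu g v u := by
  simp only [bfv, bfu, Function.comp]
  rw [← Equiv.sum_comp Fin.revPerm]
  refine Finset.sum_congr rfl fun i _ => ?_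
  have hi := i.isLt
  have e1 : d - ((Fin.rev i : Fin (d + 1)) : ℕ) = (i : ℕ) := by
    rw [Fin.val_rev]; omega
  have e2 : ((Fin.rev i : Fin (d + 1)) : ℕ) = d - (i : ℕ) := by
    rw [Fin.val_rev]; omega
  rw [Fin.revPerm_apply, Fin.rev_rev, e1, e2]
  ring

theorem bf_neg4 (g : Fin 5 → ℤ) (u v : ℝ) : bf (d := 4) g (-u) (-v) = bf g u v := by
  simp only [bf, Fin.sum_univ_succ, Fin.val_zero, Fin.val_succ, Finset.univ_eq_empty,
    Finset.sum_empty]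
  ring

theorem bf_neg6 (g : Fin 7 → ℤ) (u v : ℝ) : bf (d := 6) g (-u) (-v) = bf g u v := by
  simp only [bf, Fin.sum_univ_succ, Fin.val_zero, Fin.val_succ, Finset.univ_eq_empty,
    Finset.sum_empty]
  ring

theorem bfv_neg4 (g : Fin 5 → ℤ) (u v : ℝ) : bfv (d := 4) g (-u) (-v) = -bfv g u v := by
  simp only [bfv, Fin.sum_univ_succ, Fin.val_zero, Fin.val_succ, Finset.univ_eq_empty,
    Finset.sum_empty]
  push_cast
  ring

theorem bfv_neg6 (g : Fin 7 → ℤ) (u v : ℝ) : bfv (d := 6) g (-u) (-v) = -bfv g u v := by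
  simp only [bfv, Fin.sum_univ_succ, Fin.val_zero, Fin.val_succ, Finset.univ_eq_empty,
    Finset.sum_empty]
  push_cast
  ring

/-- the case `|u| = 1` -/
theorem bad1_of {θ H : ℝ} {a : Fin 5 → ℤ} {f : Fin 7 → ℤ} {u v x : ℝ} (hu : |u| = 1)
    (hv : |v| ≤ 1) (hx : |x| ≤ 4) (h1 : |Fr H a f u v x| ≤ θ)
    (h2 : |3 * x ^ 2 + bf a u v / H ^ 4| ≤ θ)
    (h3 : |bfv f u v / H ^ 6 + bfv a u v / H ^ 4 * x| ≤ θ) : Bad1 θ H a f := by
  rcases (abs_eq zero_le_one).mp hu with rfl | rfl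
  · exact ⟨v, x, hv, hx, h1, h2, h3⟩
  · refine ⟨-v, x, by rwa [abs_neg], hx, ?_, ?_, ?_⟩
    · have e : Fr H a f 1 (-v) x = Fr H a f (-1) v x := by
        have e1 := bf_neg4 a (-1) v
        have e2 := bf_neg6 f (-1) v
        rw [neg_neg] at e1 e2
        simp only [Fr]
        rw [e1, e2]
      rw [e]
      exact h1
    · have e1 := bf_neg4 a (-1) v
      rw [neg_neg] at e1
      rw [e1]
      exact h2
    · have e1 := bfv_neg4 a (-1) v
      have e2 := bfv_neg6 f (-1) v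
      rw [neg_neg] at e1 e2
      rw [e1, e2]
      have e : -bfv f (-1) v / H ^ 6 + -bfv a (-1) v / H ^ 4 * x =
          -(bfv f (-1) v / H ^ 6 + bfv a (-1) v / H ^ 4 * x) := by ring
      rw [e, abs_neg]
      exact h3

theorem bad_or {θ H : ℝ} {a : Fin 5 → ℤ} {f : Fin 7 → ℤ} (h : BadR θ H a f) :
    Bad1 θ H a f ∨ Bad1 θ H (a ∘ Fin.rev) (f ∘ Fin.rev) := by
  obtain ⟨u, v, x, hu, hv, huv, hx, h1, h2, h3, h4⟩ := h
  rcases huv with huv | huv
  · exact Or.inl (bad1_of huv hv hx h1 h2 h4)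
  · right
    refine bad1_of (u := v) (v := u) huv hu hx ?_ ?_ ?_
    · have e : Fr H (a ∘ Fin.rev) (f ∘ Fin.rev) v u x = Fr H a f u v x := by
        simp only [Fr]
        rw [bf_rev (d := 4), bf_rev (d := 6)]
      rw [e]
      exact h1
    · rw [bf_rev (d := 4)]
      exact h2
    · rw [bfv_rev (d := 4), bfv_rev (d := 6)]
      exact h3

theorem box_rev {n : ℕ} {A : ℝ} {g : Fin n → ℤ} (hg : g ∈ box n A) : g ∘ Fin.rev ∈ box n A := by
  rw [box, Fintype.mem_piFinset] at hg ⊢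
  intro i
  exact hg _

end BADR

open scoped Classical in
theorem t_BADR : S_BADR := by
  intro ε hε
  obtain ⟨n, hn⟩ := exists_nat_gt (25084956 / ε)
  have hn0 : (0 : ℝ) < n := lt_trans (by positivity) hn
  have hn1 : 1 ≤ n := by
    have : 0 < n := by exact_mod_cast hn0
    omega
  have hn1' : (1 : ℝ) ≤ n := by exact_mod_cast hn1
  refine ⟨1 / (n : ℝ) ^ 2, n, by positivity, hn1', ?_⟩
  intro H hH a ha
  have hH1 : 1 ≤ H := hn1'.trans hH
  have hnH : (n : ℝ) ^ 2 ≤ H ^ 6 :=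
    (pow_le_pow_left₀ hn0.le hH 2).trans (pow_le_pow_right₀ hH1 (by norm_num))
  have c1 := BADR.count1 n hn1 hH1 hnH a ha
  have c2 := BADR.count1 n hn1 hH1 hnH (a ∘ Fin.rev) (BADR.box_rev ha)
  have c3 : ((box 7 (H ^ 6)).filter
      (fun f => BADR.Bad1 (1 / (n : ℝ) ^ 2) H (a ∘ Fin.rev) (f ∘ Fin.rev))).card ≤
      ((box 7 (H ^ 6)).filter
        (fun f => BADR.Bad1 (1 / (n : ℝ) ^ 2) H (a ∘ Fin.rev) f)).card := by
    apply Finset.card_le_card_of_injOn (fun f => f ∘ Fin.rev)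
    · intro f hf
      simp only [Finset.coe_filter, Set.mem_ofPred_eq] at hf ⊢
      exact ⟨BADR.box_rev hf.1, hf.2⟩
    · intro f _ g _ hfg
      funext i
      have := congrFun hfg (Fin.rev i)
      simpa using this
  have c4 : ((box 7 (H ^ 6)).filter (fun f => BadR (1 / (n : ℝ) ^ 2) H a f)).card ≤
      ((box 7 (H ^ 6)).filter (fun f => BADR.Bad1 (1 / (n : ℝ) ^ 2) H a f)).card +
      ((box 7 (H ^ 6)).filter
        (fun f => BADR.Bad1 (1 / (n : ℝ) ^ 2) H (a ∘ Fin.rev) (f ∘ Fin.rev))).card := by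
    refine le_trans (Finset.card_le_card ?_) (Finset.card_union_le _ _)
    intro f hf
    rw [Finset.mem_filter] at hf
    rw [Finset.mem_union, Finset.mem_filter, Finset.mem_filter]
    rcases BADR.bad_or hf.2 with h | h
    · exact Or.inl ⟨hf.1, h⟩
    · exact Or.inr ⟨hf.1, h⟩
  have c5 : (((box 7 (H ^ 6)).filter (fun f => BadR (1 / (n : ℝ) ^ 2) H a f)).card : ℝ) ≤
      12542478 / n * (box 7 (H ^ 6)).card + 12542478 / n * (box 7 (H ^ 6)).card := by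
    have h1 : (((box 7 (H ^ 6)).filter (fun f => BadR (1 / (n : ℝ) ^ 2) H a f)).card : ℝ) ≤
      (((box 7 (H ^ 6)).filter (fun f => BADR.Bad1 (1 / (n : ℝ) ^ 2) H a f)).card : ℝ) +
      (((box 7 (H ^ 6)).filter
        (fun f => BADR.Bad1 (1 / (n : ℝ) ^ 2) H (a ∘ Fin.rev) f)).card : ℝ) := by
      exact_mod_cast c4.trans (Nat.add_le_add_left c3 _)
    linarith
  refine c5.trans ?_
  rw [← add_mul]
  apply mul_le_mul_of_nonneg_right _ (Nat.cast_nonneg _)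
  rw [← add_div, div_le_iff₀ hn0]
  rw [div_lt_iff₀ hε] at hn
  nlinarith

end Pool.Agent.DPO
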