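import Pool.Agent.DPO.Stm

/-!
# Project DPO, piece BOXC: the sizes of nearby boxes
-/

set_option autoImplicit false

namespace Pool.Agent.DPO

open Finset

namespace BOXC

theorem card_box {A : ℝ} (hA : 0 ≤ A) : ((box 7 A).card : ℝ) = (2 * (⌊A⌋ : ℝ) + 1) ^ 7 := by
  unfold box
  rw [Fintype.card_piFinset]
  simp only [Int.card_Icc, Finset.prod_const, Finset.card_univ, Fintype.card_fin]
  have h : 0 ≤ ⌊A⌋ := Int.floor_nonneg.mpr hA
  have h2 : (((⌊A⌋ + 1 - -⌊A⌋).toNat : ℕ) : ℤ) = 2 * ⌊A⌋ + 1 := by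
    rw [Int.toNat_of_nonneg (by omega)]; ring
  have h3 : (((⌊A⌋ + 1 - -⌊A⌋).toNat : ℕ) : ℝ) = 2 * (⌊A⌋ : ℝ) + 1 := by exact_mod_cast h2
  push_cast
  rw [h3]

/-- `(1 + x) ^ 7 ≤ 1 + c` for small `x` -/
theorem key {s : ℝ} (hs : 1 < s) : ∃ A₀ : ℝ, 1 ≤ A₀ ∧ ∀ A, A₀ ≤ A →
    (2 * A + 1) ^ 7 ≤ s * (2 * A - 1) ^ 7 := by
  have hc : Filter.Tendsto (fun A : ℝ => ((2 * A + 1) / (2 * A - 1)) ^ 7) Filter.atTop (nhds 1) := by
    have h1 : Filter.Tendsto (fun A : ℝ => 1 + 2 / (2 * A - 1)) Filter.atTop (nhds (1 + 0)) := by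
      refine tendsto_const_nhds.add ?_
      refine Filter.Tendsto.div_atTop tendsto_const_nhds ?_
      refine Filter.tendsto_atTop_add_const_right _ _ ?_
      exact Filter.Tendsto.const_mul_atTop (by norm_num) Filter.tendsto_id
    have h2 : Filter.Tendsto (fun A : ℝ => (1 + 2 / (2 * A - 1)) ^ 7) Filter.atTop
        (nhds ((1 + 0) ^ 7)) := h1.pow 7
    rw [show ((1 : ℝ) + 0) ^ 7 = 1 by norm_num] at h2
    refine h2.congr' ?_
    filter_upwards [Filter.eventually_ge_atTop (1 : ℝ)] with A hA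
    have : (2 * A - 1) ≠ 0 := by linarith
    congr 1
    field_simp
    ring
  have h3 := hc.eventually (gt_mem_nhds hs)
  obtain ⟨A₀, hA₀⟩ := Filter.eventually_atTop.mp h3
  refine ⟨max A₀ 1, le_max_right _ _, fun A hA => ?_⟩
  have h4 := hA₀ A (le_trans (le_max_left _ _) hA)
  have h5 : 1 ≤ A := le_trans (le_max_right _ _) hA
  have h6 : (0 : ℝ) < (2 * A - 1) ^ 7 := by apply pow_pos; linarith
  rw [div_pow, div_lt_iff₀ h6] at h4
  exact h4.le

/-- the quotient of the cardinalities of two boxes -/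
theorem quot {t s : ℝ} (ht : 0 < t) (hs : t ^ 7 < s) : ∃ A₀ : ℝ, 1 ≤ A₀ ∧ ∀ A, A₀ ≤ A →
    ((box 7 (t * A)).card : ℝ) ≤ s * (box 7 A).card := by
  have hc : Filter.Tendsto (fun A : ℝ => ((2 * (t * A) + 1) / (2 * A - 1)) ^ 7) Filter.atTop
      (nhds (t ^ 7)) := by
    have h1 : Filter.Tendsto (fun A : ℝ => t + (t + 1) / (2 * A - 1)) Filter.atTop
        (nhds (t + 0)) := by
      refine tendsto_const_nhds.add ?_
      refine Filter.Tendsto.div_atTop tendsto_const_nhds ?_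
      refine Filter.tendsto_atTop_add_const_right _ _ ?_
      exact Filter.Tendsto.const_mul_atTop (by norm_num) Filter.tendsto_id
    have h2 : Filter.Tendsto (fun A : ℝ => (t + (t + 1) / (2 * A - 1)) ^ 7) Filter.atTop
        (nhds ((t + 0) ^ 7)) := h1.pow 7
    rw [add_zero] at h2
    refine h2.congr' ?_
    filter_upwards [Filter.eventually_ge_atTop (1 : ℝ)] with A hA
    have : (2 * A - 1) ≠ 0 := by linarith
    congr 1
    field_simp
    ring
  have h3 := hc.eventually (gt_mem_nhds hs)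
  obtain ⟨A₀, hA₀⟩ := Filter.eventually_atTop.mp h3
  refine ⟨max A₀ 1, le_max_right _ _, fun A hA => ?_⟩
  have h4 := hA₀ A (le_trans (le_max_left _ _) hA)
  have h5 : 1 ≤ A := le_trans (le_max_right _ _) hA
  have h6 : (0 : ℝ) < (2 * A - 1) ^ 7 := by apply pow_pos; linarith
  rw [div_pow, div_lt_iff₀ h6] at h4
  have htA : 0 ≤ t * A := by positivity
  rw [card_box htA, card_box (by linarith)]
  have hs0 : 0 < s := lt_of_le_of_lt (by positivity) hs
  have h7 := Int.floor_le (t * A)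
  have h8 := Int.lt_floor_add_one A
  have h9 : 0 ≤ (⌊t * A⌋ : ℝ) := by exact_mod_cast Int.floor_nonneg.mpr htA
  calc (2 * (⌊t * A⌋ : ℝ) + 1) ^ 7 ≤ (2 * (t * A) + 1) ^ 7 := by
        apply pow_le_pow_left₀ (by linarith); linarith
    _ ≤ s * (2 * A - 1) ^ 7 := h4.le
    _ ≤ s * (2 * (⌊A⌋ : ℝ) + 1) ^ 7 := by
        apply mul_le_mul_of_nonneg_left _ hs0.le
        apply pow_le_pow_left₀ (by linarith); linarith

end BOXC

open BOXC in
theorem t_BOXC : S_BOXC := by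
  intro τ h0 h1
  have e1 : (1 + τ) ^ 7 < (1 + τ) ^ 8 := pow_lt_pow_right₀ (by linarith) (by norm_num)
  obtain ⟨A₁, hA₁, H1⟩ := quot (t := 1 + τ) (s := (1 + τ) ^ 8) (by linarith) e1
  have ht : 0 < 1 - τ := by linarith
  have e2 : ((1 - τ)⁻¹) ^ 7 < ((1 - τ)⁻¹) ^ 8 :=
    pow_lt_pow_right₀ ((one_lt_inv₀ ht).mpr (by linarith)) (by norm_num)
  obtain ⟨A₂, hA₂, H2⟩ := quot (t := (1 - τ)⁻¹) (s := ((1 - τ)⁻¹) ^ 8) (inv_pos.mpr ht) e2
  obtain ⟨A₃, hA₃, H3⟩ := quot (t := 2) (s := 2 ^ 8) (by norm_num) (by norm_num)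
  refine ⟨max (max A₁ (A₂ / (1 - τ))) A₃, le_trans hA₁ (le_trans (le_max_left _ _) (le_max_left _ _)),
    fun A hA => ⟨?_, ?_, ?_⟩⟩
  · exact H1 A (le_trans (le_trans (le_max_left _ _) (le_max_left _ _)) hA)
  · have h2 : A₂ / (1 - τ) ≤ A := le_trans (le_trans (le_max_right _ _) (le_max_left _ _)) hA
    rw [div_le_iff₀ ht] at h2
    have h3 := H2 ((1 - τ) * A) (by linarith)
    rw [inv_mul_cancel_left₀ ht.ne'] at h3
    have h4 : (0 : ℝ) < (1 - τ) ^ 8 := by positivity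
    calc (1 - τ) ^ 8 * ((box 7 A).card : ℝ)
        ≤ (1 - τ) ^ 8 * (((1 - τ)⁻¹) ^ 8 * ((box 7 ((1 - τ) * A)).card : ℝ)) :=
          mul_le_mul_of_nonneg_left h3 h4.le
      _ = (box 7 ((1 - τ) * A)).card := by
          rw [← mul_assoc, inv_pow, mul_inv_cancel₀ h4.ne', one_mul]
  · exact H3 A (le_trans (le_max_right _ _) hA)

end Pool.Agent.DPO
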