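import Pool.Agent.DPO.Stm

/-!
# Project DPO: the class theorem (Cauchy-Schwarz)
-/

set_option autoImplicit false

namespace Pool.Agent.DPO

open Finset

theorem eq_of_det2 {γ C₀ ρ η κ τ H : ℝ} {C : Cls} {R : Rcl} (hγ : 0 < γ) (hH : 0 < H)
    (hR : RD γ C₀ ρ η κ τ H C R) {p q : ℤ × ℤ} (hp : p ∈ setU H ρ C R) (hq : q ∈ setU H ρ C R)
    (hd : det2 p q = 0) : p = q := by
  rw [mem_setU] at hp hq
  obtain ⟨hpU, -, -, hpg⟩ := hp
  obtain ⟨hqU, -, -, hqg⟩ := hq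
  have hpos : 0 < γ * H ^ 2 := by positivity
  have hu : p.1 ≠ 0 := by
    intro h
    have := (hR.hu p.1 p.2 hpU).1
    rw [h] at this
    simp at this
    linarith
  have hd' : p.1 * q.2 = p.2 * q.1 := by
    unfold det2 at hd
    linarith
  have hc1 : IsCoprime p.1 p.2 := Int.isCoprime_iff_gcd_eq_one.2 hpg
  have hc2 : IsCoprime q.1 q.2 := Int.isCoprime_iff_gcd_eq_one.2 hqg
  have h1 : p.1 ∣ q.1 := by
    apply hc1.dvd_of_dvd_mul_left
    rw [← hd']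
    exact Dvd.intro _ rfl
  have h2 : q.1 ∣ p.1 := by
    apply hc2.dvd_of_dvd_mul_right
    rw [hd']
    exact Dvd.intro_left _ rfl
  rcases Int.associated_iff.1 (associated_of_dvd_dvd h1 h2) with h | h
  · have h3 : p.2 = q.2 := by
      have : p.1 * q.2 = p.1 * p.2 := by rw [hd', ← h]; ring
      exact (mul_left_cancel₀ hu this).symm
    exact Prod.ext h h3
  · exfalso
    have h0 : InU H ρ R 0 p.2 := by
      refine ⟨?_, hpU.2⟩
      have e1 := abs_le.1 hpU.1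
      have e2 := abs_le.1 hqU.1
      have e3 : (p.1 : ℝ) = -(q.1 : ℝ) := by rw [h]; push_cast; ring
      rw [abs_le]
      push_cast
      constructor
      · linarith [e1.1, e2.1]
      · linarith [e1.2, e2.2]
    have := (hR.hu 0 p.2 h0).1
    simp at this
    linarith

theorem final_num {ε e : ℝ} (he0 : 0 < e) (he : e ≤ 1 / 20) (hee : 9 * e ≤ ε) {X B T : ℝ}
    (hB : 0 < B) (hT : 0 < T) (hX : 0 ≤ X)
    (h : ((1 - e) * (T / (1 + e)) * B) ^ 2 ≤ X * (((1 + e) ^ 2 + e) * T ^ 2 * B)) :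
    B - X ≤ ε * B := by
  have h1 : (1 - e) ^ 2 * B ≤ X * (((1 + e) ^ 2 + e) * (1 + e) ^ 2) := by
    have e1 : ((1 - e) * (T / (1 + e)) * B) ^ 2 = ((1 - e) ^ 2 * B) * (T ^ 2 * B) / (1 + e) ^ 2 := by
      field_simp
    rw [e1, div_le_iff₀ (by positivity)] at h
    have h2 : ((1 - e) ^ 2 * B) * (T ^ 2 * B) ≤
        (X * (((1 + e) ^ 2 + e) * (1 + e) ^ 2)) * (T ^ 2 * B) := by
      nlinarith [h]
    exact le_of_mul_le_mul_right h2 (by positivity)
  have h3 : ((1 + e) ^ 2 + e) * (1 + e) ^ 2 ≤ 1 + 7 * e := by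
    have : e ^ 2 ≤ e / 20 := by nlinarith
    have : e ^ 3 ≤ e / 400 := by nlinarith
    have : e ^ 4 ≤ e / 8000 := by nlinarith
    nlinarith
  have h4 : X * (((1 + e) ^ 2 + e) * (1 + e) ^ 2) ≤ X * (1 + 7 * e) :=
    mul_le_mul_of_nonneg_left h3 hX
  have h5 : (1 - e) ^ 2 * B ≤ X * (1 + 7 * e) := h1.trans h4
  have h6 : (1 - 9 * e) * (1 + 7 * e) * B ≤ (1 - e) ^ 2 * B := by
    apply mul_le_mul_of_nonneg_right _ hB.le
    nlinarith
  have h7 : (1 - 9 * e) * B ≤ X := by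
    have : ((1 - 9 * e) * B) * (1 + 7 * e) ≤ X * (1 + 7 * e) := by linarith
    exact le_of_mul_le_mul_right this (by linarith)
  nlinarith

theorem t_CLASS (h1 : S_LOW) (h2 : S_PAIR) (h3 : S_DIAG) (h4 : S_UCARD) (h5 : S_USUM) :
    S_CLASS := by
  classical
  intro ε hε
  set e : ℝ := min ε 1 / 20 with he
  have hm : 0 < min ε 1 := lt_min hε one_pos
  have he0 : 0 < e := by positivity
  have he1 : e ≤ 1 / 20 := by
    have := min_le_right ε 1
    rw [he]; linarith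
  have hee : 9 * e ≤ ε := by
    have := min_le_left ε 1
    rw [he]; linarith
  obtain ⟨w₀, hw₀, h5⟩ := h5 e he0
  refine ⟨e, he0, by linarith, w₀, hw₀, ?_⟩
  intro γ C₀ ρ η κ hcst Q₀
  obtain ⟨HL, hHL, h1⟩ := h1 γ C₀ ρ η κ e e hcst he0 Q₀
  obtain ⟨HP, hHP, h2⟩ := h2 γ C₀ ρ η κ e e hcst he0 Q₀
  obtain ⟨C₁, HD, hC₁, hHD, h3⟩ := h3 γ C₀ ρ η κ e hcst
  obtain ⟨HU, hHU, h4⟩ := h4 γ C₀ ρ η κ e hcst Q₀
  obtain ⟨HS, hHS, h5⟩ := h5 γ C₀ ρ η κ e hcst Q₀
  set H' : ℝ := C₁ / (e * (ρ / Q₀) ^ 2 * (ρ / (Q₀ * C₀)) ^ 2) with hH'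
  refine ⟨max (max (max HL HP) (max HD HU)) (max HS H'), ?_, ?_⟩
  · exact le_max_of_le_left (le_max_of_le_left (le_max_of_le_left hHL))
  intro H hH w C R hw hPD hRD hQ
  have hHL' : HL ≤ H := le_trans (le_max_of_le_left (le_max_of_le_left (le_max_left _ _))) hH
  have hHP' : HP ≤ H := le_trans (le_max_of_le_left (le_max_of_le_left (le_max_right _ _))) hH
  have hHD' : HD ≤ H := le_trans (le_max_of_le_left (le_max_of_le_right (le_max_left _ _))) hH
  have hHU' : HU ≤ H := le_trans (le_max_of_le_left (le_max_of_le_right (le_max_right _ _))) hH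
  have hHS' : HS ≤ H := le_trans (le_max_of_le_right (le_max_left _ _)) hH
  have hH'' : H' ≤ H := le_trans (le_max_of_le_right (le_max_right _ _)) hH
  have hH1 : 1 ≤ H := hHL.trans hHL'
  have hH0 : 0 < H := by linarith
  have hw7 : 729 ≤ w := hw₀.trans hw
  have hS := hPD.hS
  have hJ := hPD.hJ
  have hS' : (0 : ℝ) < C.S := by exact_mod_cast hS
  have hJ' : (0 : ℝ) < C.J := by exact_mod_cast hJ
  have hY1 : 0 < R.Y₁ := lt_of_lt_of_le hcst.γ0 hRD.hY1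
  have hY2 : 0 < R.Y₂ := lt_of_lt_of_le hY1 hRD.hY12
  have hρ := hcst.ρ0
  have hC₀ : 0 < C₀ := lt_of_lt_of_le one_pos hcst.C1
  have hQ' : ((C.S * C.J : ℕ) : ℝ) ≤ Q₀ := by exact_mod_cast hQ
  have hSJ : (0 : ℝ) < ((C.S * C.J : ℕ) : ℝ) := by push_cast; positivity
  have hQ0 : (0 : ℝ) < Q₀ := lt_of_lt_of_le hSJ hQ'
  have hSQ : (C.S : ℝ) ≤ Q₀ := by
    refine le_trans ?_ hQ'
    exact_mod_cast Nat.le_mul_of_pos_right _ hJ
  set U := setU H ρ C R with hU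
  set Bx := box 7 (η * H ^ 6) with hBx
  set B : ℝ := (Bx.card : ℝ) with hB
  have hBpos : 0 < B := by
    have : (0 : Fin 7 → ℤ) ∈ Bx := by
      rw [hBx, mem_box]
      intro i
      have := hcst.η0
      simp
      positivity
    rw [hB]
    exact_mod_cast Finset.card_pos.2 ⟨_, this⟩
  set K₁ : ℝ := ρ / (C.S * R.Y₁ * H ^ 3) with hK₁
  set K₂ : ℝ := ρ / (C.S * R.Y₂ * H ^ 3) with hK₂
  have hK₁0 : 0 < K₁ := by positivity
  have hUc := h4 H hHU' w C R hw7 hPD hRD hQ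
  rw [← hU] at hUc
  have hUpos : (0 : ℝ) < U.card := lt_of_lt_of_le (by positivity) hUc
  -- the function N
  set N : (Fin 7 → ℤ) → ℝ := fun g => ∑ p ∈ U, (cnt H ρ C R g p : ℝ) with hN
  have hA : (1 - e) * (U.card * K₁ / (1 + e)) * B ≤ ∑ g ∈ Bx, N g := by
    have e1 : ∑ g ∈ Bx, N g = ∑ p ∈ U, ∑ g ∈ Bx, (cnt H ρ C R g p : ℝ) := by
      rw [hN, Finset.sum_comm]
    rw [e1]
    have e2 : ∑ p ∈ U, ((1 - e) * K₂ * B) ≤ ∑ p ∈ U, ∑ g ∈ Bx, (cnt H ρ C R g p : ℝ) :=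
      Finset.sum_le_sum fun p hp => h1 H hHL' w C R hw7 hPD hRD hQ p hp
    refine le_trans ?_ e2
    rw [Finset.sum_const, nsmul_eq_mul]
    have e3 : K₁ / (1 + e) ≤ K₂ := by
      rw [hK₁, hK₂, div_div]
      apply div_le_div_of_nonneg_left hρ.le (by positivity)
      have := hRD.hY
      have h9 : (C.S : ℝ) * R.Y₂ * H ^ 3 ≤ C.S * ((1 + e) * R.Y₁) * H ^ 3 := by gcongr
      linarith
    have e4 : (1 - e) * (U.card * K₁ / (1 + e)) * B = U.card * ((1 - e) * (K₁ / (1 + e)) * B) := by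
      ring
    rw [e4]
    have h1e : 0 ≤ 1 - e := by linarith
    gcongr
  have hBb : ∑ g ∈ Bx, N g ^ 2 ≤ ((1 + e) ^ 2 + e) * (U.card * K₁) ^ 2 * B := by
    have e1 : ∑ g ∈ Bx, N g ^ 2 = ∑ z ∈ U ×ˢ U, ∑ g ∈ Bx,
        (cnt H ρ C R g z.1 : ℝ) * cnt H ρ C R g z.2 := by
      rw [Finset.sum_comm]
      apply Finset.sum_congr rfl
      intro g _
      rw [hN]
      simp only
      rw [sq, Finset.sum_mul_sum, Finset.sum_product]
    rw [e1, ← Finset.sum_filter_add_sum_filter_not (U ×ˢ U) (fun z => det2 z.1 z.2 ≠ 0)]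
    have e2 : ∑ z ∈ (U ×ˢ U).filter (fun z => det2 z.1 z.2 ≠ 0), ∑ g ∈ Bx,
        (cnt H ρ C R g z.1 : ℝ) * cnt H ρ C R g z.2 ≤
        (1 + e) * K₁ ^ 2 * B * ((1 + e) * (U.card : ℝ) ^ 2) := by
      have e3 : ∑ z ∈ (U ×ˢ U).filter (fun z => det2 z.1 z.2 ≠ 0), ∑ g ∈ Bx,
          (cnt H ρ C R g z.1 : ℝ) * cnt H ρ C R g z.2 ≤
          ∑ z ∈ (U ×ˢ U).filter (fun z => det2 z.1 z.2 ≠ 0),
            (1 + e) * K₁ ^ 2 * B * Gf C.S (det2 z.1 z.2).natAbs := by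
        apply Finset.sum_le_sum
        intro z hz
        rw [Finset.mem_filter, Finset.mem_product] at hz
        have := h2 H hHP' w C R hw7 hPD hRD hQ z.1 hz.1.1 z.2 hz.1.2 hz.2
        refine this.trans (le_of_eq ?_)
        ring
      refine e3.trans ?_
      rw [← Finset.mul_sum]
      exact mul_le_mul_of_nonneg_left (h5 H hHS' w C R hw hPD hRD hQ) (by positivity)
    have e4 : ∑ z ∈ (U ×ˢ U).filter (fun z => ¬ det2 z.1 z.2 ≠ 0), ∑ g ∈ Bx,
        (cnt H ρ C R g z.1 : ℝ) * cnt H ρ C R g z.2 ≤ e * ((U.card : ℝ) * K₁) ^ 2 * B := by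
      have e5 : ∑ z ∈ (U ×ˢ U).filter (fun z => ¬ det2 z.1 z.2 ≠ 0), ∑ g ∈ Bx,
          (cnt H ρ C R g z.1 : ℝ) * cnt H ρ C R g z.2 ≤
          ∑ p ∈ U, ∑ g ∈ Bx, (cnt H ρ C R g p : ℝ) ^ 2 := by
        have e6 : ∑ p ∈ U, ∑ g ∈ Bx, (cnt H ρ C R g p : ℝ) ^ 2 =
            ∑ z ∈ U.image (fun p => (p, p)), ∑ g ∈ Bx,
              (cnt H ρ C R g z.1 : ℝ) * cnt H ρ C R g z.2 := by
          rw [Finset.sum_image]
          · apply Finset.sum_congr rfl
            intro p _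
            apply Finset.sum_congr rfl
            intro g _
            ring
          · intro a _ b _ hab
            exact (Prod.ext_iff.1 hab).1
        rw [e6]
        apply Finset.sum_le_sum_of_subset_of_nonneg
        · intro z hz
          rw [Finset.mem_filter, Finset.mem_product, not_not] at hz
          rw [Finset.mem_image]
          refine ⟨z.1, hz.1.1, ?_⟩
          have := eq_of_det2 hcst.γ0 hH0 hRD hz.1.1 hz.1.2 hz.2
          exact Prod.ext rfl this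
        · intro z _ _
          apply Finset.sum_nonneg
          intro g _
          positivity
      refine e5.trans ?_
      have e7 : ∑ p ∈ U, ∑ g ∈ Bx, (cnt H ρ C R g p : ℝ) ^ 2 ≤ ∑ p ∈ U, C₁ / H ^ 3 * B :=
        Finset.sum_le_sum fun p hp => h3 H hHD' w C R hw7 hPD hRD p hp
      refine e7.trans ?_
      rw [Finset.sum_const, nsmul_eq_mul]
      have e8 : C₁ / H ^ 3 ≤ e * (U.card * K₁ ^ 2) := by
        have f1 : C₁ ≤ H * (e * (ρ / Q₀) ^ 2 * (ρ / (Q₀ * C₀)) ^ 2) := by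
          rw [hH', div_le_iff₀ (by positivity)] at hH''
          exact hH''
        have f2 : (ρ / Q₀) ^ 2 * H ^ 4 ≤ U.card := by
          refine le_trans ?_ hUc
          gcongr
        have f3 : (ρ / (Q₀ * C₀)) ^ 2 / H ^ 6 ≤ K₁ ^ 2 := by
          have : ρ / (Q₀ * C₀) / H ^ 3 ≤ K₁ := by
            rw [hK₁, div_div]
            apply div_le_div_of_nonneg_left hρ.le (by positivity)
            have : R.Y₁ ≤ C₀ := hRD.hY12.trans hRD.hY2
            gcongr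
          calc (ρ / (Q₀ * C₀)) ^ 2 / H ^ 6 = (ρ / (Q₀ * C₀) / H ^ 3) ^ 2 := by ring
            _ ≤ K₁ ^ 2 := by gcongr
        calc C₁ / H ^ 3 ≤ H * (e * (ρ / Q₀) ^ 2 * (ρ / (Q₀ * C₀)) ^ 2) / H ^ 3 := by gcongr
          _ = e * (((ρ / Q₀) ^ 2 * H ^ 4) * ((ρ / (Q₀ * C₀)) ^ 2 / H ^ 6)) := by
            field_simp
          _ ≤ e * (U.card * K₁ ^ 2) := by gcongr
      calc (U.card : ℝ) * (C₁ / H ^ 3 * B) ≤ U.card * (e * (U.card * K₁ ^ 2) * B) := by gcongr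
        _ = e * ((U.card : ℝ) * K₁) ^ 2 * B := by ring
    calc _ ≤ (1 + e) * K₁ ^ 2 * B * ((1 + e) * (U.card : ℝ) ^ 2) +
          e * ((U.card : ℝ) * K₁) ^ 2 * B := add_le_add e2 e4
      _ = ((1 + e) ^ 2 + e) * (U.card * K₁) ^ 2 * B := by ring
  -- Cauchy-Schwarz
  set F := Bx.filter (fun g => N g ≠ 0) with hF
  have hsum : ∑ g ∈ Bx, N g = ∑ g ∈ F, N g := by
    rw [hF, Finset.sum_filter_ne_zero]
  have hsum2 : ∑ g ∈ F, N g ^ 2 ≤ ∑ g ∈ Bx, N g ^ 2 := by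
    apply Finset.sum_le_sum_of_subset_of_nonneg (Finset.filter_subset _ _)
    intro g _ _
    positivity
  have hCS : (∑ g ∈ Bx, N g) ^ 2 ≤ (F.card : ℝ) * ∑ g ∈ Bx, N g ^ 2 := by
    rw [hsum]
    exact le_trans (sq_sum_le_card_mul_sum_sq (s := F) (f := N))
      (mul_le_mul_of_nonneg_left hsum2 (Nat.cast_nonneg _))
  have hfin : B - F.card ≤ ε * B := by
    apply final_num he0 he1 hee hBpos (T := (U.card : ℝ) * K₁) (by positivity) (by positivity)
    calc ((1 - e) * ((U.card : ℝ) * K₁ / (1 + e)) * B) ^ 2 ≤ (∑ g ∈ Bx, N g) ^ 2 := by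
          have : 0 ≤ (1 - e) * ((U.card : ℝ) * K₁ / (1 + e)) * B := by
            have : 0 ≤ 1 - e := by linarith
            positivity
          gcongr
      _ ≤ (F.card : ℝ) * ∑ g ∈ Bx, N g ^ 2 := hCS
      _ ≤ (F.card : ℝ) * (((1 + e) ^ 2 + e) * (U.card * K₁) ^ 2 * B) := by gcongr
  -- conclusion
  have hsub : (Bx.filter (fun g => ¬ HasPt H ρ C R g)).card + F.card ≤ Bx.card := by
    have hdisj : Disjoint (Bx.filter (fun g => ¬ HasPt H ρ C R g)) F := by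
      rw [Finset.disjoint_left]
      intro g hg hg'
      rw [Finset.mem_filter] at hg
      rw [hF, Finset.mem_filter] at hg'
      apply hg.2
      by_contra hno
      apply hg'.2
      rw [hN]
      simp only
      apply Finset.sum_eq_zero
      intro p hp
      by_contra hc
      apply hg.2
      have hc' : cnt H ρ C R g p ≠ 0 := by exact_mod_cast hc
      unfold cnt at hc'
      obtain ⟨q, hq⟩ := Finset.card_pos.1 (Nat.pos_of_ne_zero hc')
      rw [Finset.mem_filter, Finset.mem_product] at hq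
      exact ⟨p, hp, q.1, hq.1.1, q.2, hq.1.2, hq.2⟩
    rw [← Finset.card_union_of_disjoint hdisj]
    apply Finset.card_le_card
    intro g hg
    rw [Finset.mem_union] at hg
    rcases hg with hg | hg
    · exact (Finset.mem_filter.1 hg).1
    · exact (Finset.mem_filter.1 hg).1
  have hsub' : ((Bx.filter (fun g => ¬ HasPt H ρ C R g)).card : ℝ) + F.card ≤ B := by
    rw [hB]
    exact_mod_cast hsub
  linarith

end Pool.Agent.DPO
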