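import Pool.Agent.DPO.Stm

/-!
# Project DPO, piece CUB: roots of `x ^ 3 + b x = c` modulo `n`
-/

set_option autoImplicit false
set_option linter.all false

namespace Pool.Agent.DPO

open Finset

namespace CUB

theorem pow_dvd_of {p : ℤ} (hp : Prime p) : ∀ (B A : ℕ) (u v : ℤ), p ^ A ∣ u * v → ¬ p ^ B ∣ u →
    p ^ (A + 1 - B) ∣ v := by
  intro B
  induction B with
  | zero =>
    intro A u v _ h
    rw [pow_zero] at h
    exact absurd (one_dvd u) h
  | succ B ih =>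
    intro A u v h1 h2
    by_cases hu : p ∣ u
    · obtain ⟨u', rfl⟩ := hu
      rcases A with _ | A
      · have : 0 + 1 - (B + 1) = 0 := by omega
        rw [this, pow_zero]
        exact one_dvd v
      · have h3 : p ^ A ∣ u' * v := by
          rw [pow_succ, mul_comm (p ^ A), mul_assoc] at h1
          exact (mul_dvd_mul_iff_left hp.ne_zero).1 h1
        have h4 : ¬ p ^ B ∣ u' := by
          intro h5
          apply h2
          rw [pow_succ, mul_comm (p ^ B)]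
          exact mul_dvd_mul_left p h5
        have h5 := ih A u' v h3 h4
        have : A + 1 + 1 - (B + 1) = A + 1 - B := by omega
        rw [this]
        exact h5
    · have h3 := hp.pow_dvd_of_dvd_mul_left A hu h1
      exact (pow_dvd_pow p (by omega)).trans h3

theorem key {p : ℤ} (hp : Prime p) {e r : ℕ} (hr : 3 * r ≤ e + 2) {b c : ℤ} {x : Fin 4 → ℤ}
    (hx : ∀ i, p ^ e ∣ x i ^ 3 + b * x i - c) (hne : ∀ i j, i ≠ j → ¬ p ^ r ∣ x i - x j) : False := by
  have hQ : ∀ i j, i ≠ j → p ^ (e + 1 - r) ∣ x i ^ 2 + x i * x j + x j ^ 2 + b := by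
    intro i j hij
    apply pow_dvd_of hp r e (x i - x j) _ _ (hne i j hij)
    have h1 := dvd_sub (hx i) (hx j)
    have e1 : x i ^ 3 + b * x i - c - (x j ^ 3 + b * x j - c) =
        (x i - x j) * (x i ^ 2 + x i * x j + x j ^ 2 + b) := by ring
    rwa [e1] at h1
  have hS : ∀ j, j ≠ 0 → j ≠ 1 → p ^ (e + 1 - r + 1 - r) ∣ x 0 + x 1 + x j := by
    intro j h0 h1
    apply pow_dvd_of hp r _ (x 1 - x j) _ _ (hne 1 j h1.symm)
    have h2 := dvd_sub (hQ 0 1 (by decide)) (hQ 0 j h0.symm)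
    have e1 : x 0 ^ 2 + x 0 * x 1 + x 1 ^ 2 + b - (x 0 ^ 2 + x 0 * x j + x j ^ 2 + b) =
        (x 1 - x j) * (x 0 + x 1 + x j) := by ring
    rwa [e1] at h2
  have h3 := dvd_sub (hS 2 (by decide) (by decide)) (hS 3 (by decide) (by decide))
  have e2 : x 0 + x 1 + x 2 - (x 0 + x 1 + x 3) = x 2 - x 3 := by ring
  rw [e2] at h3
  apply hne 2 3 (by decide)
  exact (pow_dvd_pow p (by omega)).trans h3

/-- the roots -/
def rt (n : ℕ) (b c : ℤ) : Finset ℕ :=
  (Finset.range n).filter (fun x : ℕ => (n : ℤ) ∣ (x : ℤ) ^ 3 + b * x - c)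

theorem pp {p e : ℕ} (hp : p.Prime) (he : 0 < e) (b c : ℤ) :
    (rt (p ^ e) b c).card ≤ p ^ (e - (e + 2) / 3) * 3 := by
  obtain ⟨r, hr⟩ : ∃ r, r = (e + 2) / 3 := ⟨_, rfl⟩
  rw [← hr]
  have hr1 : 3 * r ≤ e + 2 := by omega
  have hr2 : r ≤ e := by omega
  have hp' : Prime (p : ℤ) := Nat.prime_iff_prime_int.1 hp
  have hpos : 0 < p ^ r := pow_pos hp.pos r
  have hT : ((rt (p ^ e) b c).image (fun x => x % p ^ r)).card ≤ 3 := by
    by_contra hcon
    push Not at hcon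
    obtain ⟨T, hT, hc⟩ := Finset.exists_subset_card_eq (show 4 ≤ _ from hcon)
    let f := T.equivFinOfCardEq hc
    have hm : ∀ i : Fin 4, ∃ x ∈ rt (p ^ e) b c, x % p ^ r = ((f.symm i : T) : ℕ) := by
      intro i
      have h1 := hT (f.symm i).2
      rw [Finset.mem_image] at h1
      exact h1
    choose x hx1 hx2 using hm
    refine key hp' (e := e) (r := r) hr1 (b := b) (c := c) (x := fun i => (x i : ℤ)) ?_ ?_
    · intro i
      have h1 := hx1 i
      unfold rt at h1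
      rw [Finset.mem_filter] at h1
      exact_mod_cast h1.2
    · intro i j hij hd
      apply hij
      have h1 : (x i : ℤ) % ((p ^ r : ℕ) : ℤ) = (x j : ℤ) % ((p ^ r : ℕ) : ℤ) := by
        apply Int.emod_emod_of_dvd _ _ |>.symm.trans _ <;> try exact dvd_refl _
        have : ((p ^ r : ℕ) : ℤ) ∣ (x i : ℤ) - x j := by exact_mod_cast hd
        rw [Int.emod_emod_of_dvd _ (dvd_refl _)]
        exact (Int.emod_emod_of_dvd _ (dvd_refl _)).symm.trans
          (by rw [Int.emod_emod_of_dvd _ (dvd_refl _)]; exact (Int.emod_eq_emod_iff_emod_sub_eq_zero.2 (Int.emod_eq_zero_of_dvd this)))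
      have h2 : x i % p ^ r = x j % p ^ r := by exact_mod_cast h1
      rw [hx2, hx2] at h2
      exact f.symm.injective (Subtype.ext h2)
  refine (Finset.card_le_mul_card_image (rt (p ^ e) b c) (p ^ (e - r)) ?_).trans
    (Nat.mul_le_mul_left _ hT)
  intro t ht
  refine le_trans (Finset.card_le_card_of_injOn (fun x => x / p ^ r) (t := Finset.range (p ^ (e - r)))
    ?_ ?_) (by rw [Finset.card_range])
  · intro x hx
    have hx' := (Finset.mem_filter.1 (Finset.mem_coe.1 hx)).1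
    unfold rt at hx'
    have h1 := Finset.mem_range.1 (Finset.mem_filter.1 hx').1
    rw [Finset.coe_range, Set.mem_Iio]
    show x / p ^ r < p ^ (e - r)
    rw [Nat.div_lt_iff_lt_mul hpos, ← pow_add, Nat.sub_add_cancel hr2]
    exact h1
  · intro x hx y hy hxy
    have hx' := (Finset.mem_filter.1 (Finset.mem_coe.1 hx)).2
    have hy' := (Finset.mem_filter.1 (Finset.mem_coe.1 hy)).2
    have h1 : x / p ^ r = y / p ^ r := hxy
    rw [← Nat.div_add_mod x (p ^ r), ← Nat.div_add_mod y (p ^ r), h1, hx', hy']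

theorem num {p e : ℕ} (hp : 729 ≤ p) (he : 0 < e) :
    ((p ^ (e - (e + 2) / 3) * 3 : ℕ) : ℝ) ≤ ((p ^ e : ℕ) : ℝ) ^ (5 / 6 : ℝ) := by
  obtain ⟨r, hr⟩ : ∃ r, r = (e + 2) / 3 := ⟨_, rfl⟩
  rw [← hr]
  have hr1 : e ≤ 3 * r := by omega
  have hr2 : r ≤ e := by omega
  have hp0 : (0 : ℝ) < p := by
    have : 0 < p := by omega
    exact_mod_cast this
  have hp1 : (1 : ℝ) ≤ p := by
    have : 1 ≤ p := by omega
    exact_mod_cast this
  have h3 : (3 : ℝ) ≤ (p : ℝ) ^ (1 / 6 : ℝ) := by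
    have h4 : (3 : ℝ) = (729 : ℝ) ^ (1 / 6 : ℝ) := by
      have h5 : (729 : ℝ) = (3 : ℝ) ^ (6 : ℝ) := by
        have : (6 : ℝ) = ((6 : ℕ) : ℝ) := by norm_num
        rw [this, Real.rpow_natCast]
        norm_num
      rw [h5, ← Real.rpow_mul (by norm_num)]
      norm_num
    rw [h4]
    apply Real.rpow_le_rpow (by norm_num) _ (by norm_num)
    exact_mod_cast hp
  have h6 : (3 : ℝ) ≤ (p : ℝ) ^ ((r : ℝ) - e / 6) := by
    refine h3.trans (Real.rpow_le_rpow_of_exponent_le hp1 ?_)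
    have h7 : (e : ℝ) ≤ 3 * r := by exact_mod_cast hr1
    have h8 : (1 : ℝ) ≤ e := by exact_mod_cast he
    linarith
  push_cast
  rw [← Real.rpow_natCast (p : ℝ) (e - r), ← Real.rpow_natCast (p : ℝ) e, ← Real.rpow_mul hp0.le,
    Nat.cast_sub hr2]
  calc (p : ℝ) ^ ((e : ℝ) - r) * 3 ≤ (p : ℝ) ^ ((e : ℝ) - r) * (p : ℝ) ^ ((r : ℝ) - e / 6) :=
        mul_le_mul_of_nonneg_left h6 (Real.rpow_nonneg hp0.le _)
    _ = (p : ℝ) ^ ((e : ℝ) * (5 / 6)) := by
        rw [← Real.rpow_add hp0]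
        congr 1
        ring

theorem mul_le (n m : ℕ) (hn : 0 < n) (hm : 0 < m) (h : Nat.Coprime n m) (b c : ℤ) :
    (rt (n * m) b c).card ≤ (rt n b c).card * (rt m b c).card := by
  rw [← Finset.card_product]
  apply Finset.card_le_card_of_injOn (fun x => (x % n, x % m))
  · intro x hx
    have hx' := Finset.mem_coe.1 hx
    unfold rt at hx'
    rw [Finset.mem_filter] at hx'
    have h2 := hx'.2
    have hmod : ∀ k : ℕ, (k : ℤ) ∣ (x : ℤ) ^ 3 + b * x - c →
        (k : ℤ) ∣ ((x % k : ℕ) : ℤ) ^ 3 + b * ((x % k : ℕ) : ℤ) - c := by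
      intro k hk
      have h3 : (k : ℤ) ∣ (x : ℤ) - ((x % k : ℕ) : ℤ) := by
        refine ⟨((x / k : ℕ) : ℤ), ?_⟩
        have := Nat.div_add_mod x k
        have h4 : (x : ℤ) = (k : ℤ) * ((x / k : ℕ) : ℤ) + ((x % k : ℕ) : ℤ) := by exact_mod_cast this.symm
        linarith
      have e1 : ((x % k : ℕ) : ℤ) ^ 3 + b * ((x % k : ℕ) : ℤ) - c = (x : ℤ) ^ 3 + b * x - c -
          ((x : ℤ) - ((x % k : ℕ) : ℤ)) * ((x : ℤ) ^ 2 + x * ((x % k : ℕ) : ℤ) +
            ((x % k : ℕ) : ℤ) ^ 2 + b) := by ring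
      rw [e1]
      exact dvd_sub hk (Dvd.dvd.mul_right h3 _)
    have h5 : ((n * m : ℕ) : ℤ) = (n : ℤ) * m := by push_cast; ring
    rw [h5] at h2
    rw [Finset.mem_coe, Finset.mem_product]
    unfold rt
    rw [Finset.mem_filter, Finset.mem_filter]
    exact ⟨⟨Finset.mem_range.2 (Nat.mod_lt _ hn), hmod n ((Dvd.intro _ rfl).trans h2)⟩,
      Finset.mem_range.2 (Nat.mod_lt _ hm), hmod m ((Dvd.intro_left _ rfl).trans h2)⟩
  · intro x hx y hy hxy
    have hx' := Finset.mem_range.1 (Finset.mem_filter.1 (Finset.mem_coe.1 hx)).1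
    have hy' := Finset.mem_range.1 (Finset.mem_filter.1 (Finset.mem_coe.1 hy)).1
    have h1 : x ≡ y [MOD n] := congrArg Prod.fst hxy
    have h2 : x ≡ y [MOD m] := congrArg Prod.snd hxy
    have h3 := (Nat.modEq_and_modEq_iff_modEq_mul h).1 ⟨h1, h2⟩
    exact Nat.ModEq.eq_of_lt_of_lt h3 hx' hy'

end CUB

open CUB in
theorem t_CUB : S_CUB := by
  intro n
  induction n using Nat.recOnPosPrimePosCoprime with
  | prime_pow p e hp he =>
    intro hR b c
    have h1 : 729 ≤ p := hR.2 p hp (dvd_pow_self p he.ne')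
    refine le_trans ?_ (num h1 he)
    exact_mod_cast pp hp he b c
  | zero =>
    intro hR
    exact absurd hR.1 (lt_irrefl 0)
  | one =>
    intro hR b c
    have h1 : (((Finset.range 1).filter (fun x : ℕ => ((1 : ℕ) : ℤ) ∣ (x : ℤ) ^ 3 + b * x - c)).card) ≤ 1 :=
      (Finset.card_filter_le _ _).trans (by rw [Finset.card_range])
    have h2 : (((1 : ℕ) : ℝ)) ^ (5 / 6 : ℝ) = 1 := by rw [Nat.cast_one, Real.one_rpow]
    rw [h2]
    exact_mod_cast h1
  | coprime n m hn hm hc ih1 ih2 =>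
    intro hR b c
    have hn0 : 0 < n := by omega
    have hm0 : 0 < m := by omega
    have h1 := ih1 ⟨hn0, fun p hp hd => hR.2 p hp (hd.mul_right m)⟩ b c
    have h2 := ih2 ⟨hm0, fun p hp hd => hR.2 p hp (hd.mul_left n)⟩ b c
    have h3 : ((rt (n * m) b c).card : ℝ) ≤ ((rt n b c).card : ℝ) * ((rt m b c).card : ℝ) := by
      exact_mod_cast mul_le n m hn0 hm0 hc b c
    refine h3.trans ?_
    rw [Nat.cast_mul, Real.mul_rpow (Nat.cast_nonneg n) (Nat.cast_nonneg m)]
    exact mul_le_mul h1 h2 (Nat.cast_nonneg _) (Real.rpow_nonneg (Nat.cast_nonneg n) _)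

end Pool.Agent.DPO
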