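import Pool.Agent.DPO.Stm2

/-!
# Project DPO: the final statement in terms of sets
-/

set_option autoImplicit false

namespace Pool.Agent.DPO

open Finset

theorem box_coe (n k H : ℕ) :
    ((box n ((H : ℝ) ^ k) : Finset (Fin n → ℤ)) : Set (Fin n → ℤ)) =
      {f | ∀ i, |f i| ≤ (H : ℤ) ^ k} := by
  ext f
  rw [Finset.mem_coe, mem_box, Set.mem_setOf_eq]
  refine forall_congr' fun i => ?_
  constructor
  · intro h
    have h1 : ((|f i| : ℤ) : ℝ) ≤ (((H : ℤ) ^ k : ℤ) : ℝ) := by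
      push_cast
      exact h
    exact_mod_cast h1
  · intro h
    have h1 : ((|f i| : ℤ) : ℝ) ≤ (((H : ℤ) ^ k : ℤ) : ℝ) := by exact_mod_cast h
    push_cast at h1
    exact h1

/-- the final statement in terms of sets -/
theorem conv (h : S_WMF) :
    ∃ m : ℕ → ℕ, Filter.Tendsto m Filter.atTop Filter.atTop ∧
    ∃ e : ℕ → ℝ, Filter.Tendsto e Filter.atTop (nhds 0) ∧
    ∀ H : ℕ, 1 ≤ H → ∀ a : Fin 5 → ℤ, (∀ i, |a i| ≤ (H : ℤ) ^ 4) →
      (1 - e H) * (({f : Fin 7 → ℤ | ∀ i, |f i| ≤ (H : ℤ) ^ 6} : Set _).ncard : ℝ) ≤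
        (({f : Fin 7 → ℤ | (∀ i, |f i| ≤ (H : ℤ) ^ 6) ∧ WAF (m H) H a f} : Set _).ncard : ℝ) := by
  classical
  obtain ⟨m, e, hm, he, h⟩ := h
  refine ⟨m, hm, e, he, ?_⟩
  intro H hH a ha
  have ha' : a ∈ box 5 ((H : ℝ) ^ 4) := by
    rw [← Finset.mem_coe, box_coe]
    exact ha
  have h1 := h H hH a ha'
  have h2 : (({f : Fin 7 → ℤ | ∀ i, |f i| ≤ (H : ℤ) ^ 6} : Set _).ncard) =
      (box 7 ((H : ℝ) ^ 6)).card := by
    rw [← box_coe, Set.ncard_coe_finset]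
  have h3 : (({f : Fin 7 → ℤ | (∀ i, |f i| ≤ (H : ℤ) ^ 6) ∧ WAF (m H) H a f} : Set _).ncard) =
      ((box 7 ((H : ℝ) ^ 6)).filter (fun f => WAF (m H) H a f)).card := by
    rw [← Set.ncard_coe_finset]
    congr 1
    ext f
    rw [Finset.mem_coe, Finset.mem_filter, ← Finset.mem_coe, box_coe]
    rfl
  rw [h2, h3]
  have h4 := Finset.card_filter_add_card_filter_not (s := box 7 ((H : ℝ) ^ 6))
    (fun f => WAF (m H) H a f)
  have h5 : (((box 7 ((H : ℝ) ^ 6)).filter (fun f => WAF (m H) H a f)).card : ℝ) +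
      (((box 7 ((H : ℝ) ^ 6)).filter (fun f => ¬ WAF (m H) H a f)).card : ℝ) =
      ((box 7 ((H : ℝ) ^ 6)).card : ℝ) := by
    exact_mod_cast h4
  linarith

end Pool.Agent.DPO
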