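import Pool.Agent.DPO.Stm

/-!
# Project DPO, piece DIAG: the second moment in one fibre
-/

set_option autoImplicit false

namespace Pool.Agent.DPO

open Finset

namespace DIAG

theorem bf_add {d : ℕ} (g r : Fin (d + 1) → ℤ) (u v : ℤ) :
    bf (g + r) u v = bf g u v + bf r u v := by
  unfold bf
  rw [← Finset.sum_add_distrib]
  refine Finset.sum_congr rfl fun i _ => ?_
  simp only [Pi.add_apply, Int.cast_add, Int.cast_id]
  ring

/-- the fibres of the evaluation on a box -/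
theorem fib {A : ℝ} (u v : ℤ) (Ra : Finset ℤ)
    (hR : ∀ a ∈ Ra, ∃ r ∈ box 7 A, bf r u v = a) (s : ℤ) :
    ((box 7 A).filter (fun g => bf g u v = s)).card * Ra.card ≤ (box 7 (2 * A)).card := by
  classical
  choose! r hr1 hr2 using hR
  rw [← Finset.card_product]
  refine Finset.card_le_card_of_injOn (fun z => z.1 + r z.2) ?_ ?_
  · rintro ⟨g, a⟩ hz
    rw [Finset.mem_coe, Finset.mem_product, Finset.mem_filter] at hz
    have h1 := mem_box.mp hz.1.1
    have h2 := mem_box.mp (hr1 a hz.2)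
    rw [Finset.mem_coe, mem_box]
    intro i
    have h3 := h1 i
    have h4 := h2 i
    simp only [Pi.add_apply, Int.cast_add]
    calc |(g i : ℝ) + (r a i : ℝ)| ≤ |(g i : ℝ)| + |(r a i : ℝ)| := abs_add_le _ _
      _ ≤ 2 * A := by linarith
  · rintro ⟨g, a⟩ hz ⟨g', a'⟩ hz' h
    rw [Finset.mem_coe, Finset.mem_product, Finset.mem_filter] at hz hz'
    simp only at h hz hz'
    have h1 := congrArg (fun f => bf f u v) h
    simp only [bf_add, hz.1.2, hz'.1.2, hr2 a hz.2, hr2 a' hz'.2] at h1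
    have h2 : a = a' := by linarith
    subst h2
    have h3 : g = g' := by simpa using h
    rw [h3]

/-- at most three roots -/
theorem roots (s : Finset ℤ) (β k : ℤ) :
    (s.filter (fun x => x ^ 3 + β * x = k)).card ≤ 3 := by
  classical
  set P : Polynomial ℤ := Polynomial.X ^ 3 + (Polynomial.C β * Polynomial.X - Polynomial.C k)
    with hP
  have hdeg : (Polynomial.C β * Polynomial.X - Polynomial.C k : Polynomial ℤ).degree < 3 := by
    refine lt_of_le_of_lt (Polynomial.degree_sub_le _ _) ?_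
    refine max_lt ?_ ?_
    · refine lt_of_le_of_lt (Polynomial.degree_C_mul_X_le _) (by decide)
    · refine lt_of_le_of_lt Polynomial.degree_C_le (by decide)
  have hmon : P.Monic := Polynomial.monic_X_pow_add hdeg
  have hnd : P.natDegree = 3 := by
    rw [hP]
    apply Polynomial.natDegree_eq_of_degree_eq_some
    rw [Polynomial.degree_add_eq_left_of_degree_lt]
    · rw [Polynomial.degree_X_pow]
    · rw [Polynomial.degree_X_pow]; exact hdeg
  calc (s.filter (fun x => x ^ 3 + β * x = k)).card ≤ P.roots.toFinset.card := by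
        apply Finset.card_le_card
        intro x hx
        rw [Finset.mem_filter] at hx
        rw [Multiset.mem_toFinset, Polynomial.mem_roots hmon.ne_zero, Polynomial.IsRoot.def]
        simp only [hP, Polynomial.eval_add, Polynomial.eval_sub, Polynomial.eval_pow,
          Polynomial.eval_mul, Polynomial.eval_X, Polynomial.eval_C]
        linarith [hx.2]
    _ ≤ P.roots.card := Multiset.toFinset_card_le _
    _ ≤ P.natDegree := P.card_roots'
    _ = 3 := hnd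

/-- pairs with a given nonzero difference of the squares -/
theorem pairs (s : Finset ℤ) (hs : ∀ y ∈ s, 0 < y) {h : ℤ} (hh : h ≠ 0) :
    ((s ×ˢ s).filter (fun z : ℤ × ℤ => z.1 ^ 2 - z.2 ^ 2 = h)).card ≤ h.natAbs.divisors.card := by
  classical
  refine Finset.card_le_card_of_injOn (fun z : ℤ × ℤ => (z.1 + z.2).natAbs) ?_ ?_
  · rintro ⟨y, y'⟩ hz
    rw [Finset.mem_coe, Finset.mem_filter, Finset.mem_product] at hz
    rw [Finset.mem_coe, Nat.mem_divisors]
    refine ⟨?_, Int.natAbs_ne_zero.mpr hh⟩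
    rw [Int.natAbs_dvd_natAbs]
    exact ⟨y - y', by have := hz.2; simp only at this; rw [← this]; ring⟩
  · rintro ⟨y, y'⟩ hz ⟨x, x'⟩ hz' he
    rw [Finset.mem_coe, Finset.mem_filter, Finset.mem_product] at hz hz'
    simp only at hz hz' he
    have h1 := hs y hz.1.1
    have h2 := hs y' hz.1.2
    have h3 := hs x hz'.1.1
    have h4 := hs x' hz'.1.2
    have h5 : y + y' = x + x' := by omega
    have h6 : (y - y') * (y + y') = (x - x') * (y + y') := by
      calc (y - y') * (y + y') = y ^ 2 - y' ^ 2 := by ring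
        _ = x ^ 2 - x' ^ 2 := by rw [hz.2, hz'.2]
        _ = (x - x') * (x + x') := by ring
        _ = (x - x') * (y + y') := by rw [h5]
    have h7 : y - y' = x - x' := mul_right_cancel₀ (by omega : y + y' ≠ 0) h6
    have h8 : y = x := by omega
    have h9 : y' = x' := by omega
    rw [h8, h9]

/-- pairs with the same squares -/
theorem pairs0 (s : Finset ℤ) (hs : ∀ y ∈ s, 0 < y) :
    ((s ×ˢ s).filter (fun z : ℤ × ℤ => z.1 ^ 2 - z.2 ^ 2 = 0)).card ≤ s.card := by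
  classical
  refine Finset.card_le_card_of_injOn (fun z : ℤ × ℤ => z.1) ?_ ?_
  · rintro ⟨y, y'⟩ hz
    rw [Finset.mem_coe, Finset.mem_filter, Finset.mem_product] at hz
    exact hz.1.1
  · rintro ⟨y, y'⟩ hz ⟨x, x'⟩ hz' he
    rw [Finset.mem_coe, Finset.mem_filter, Finset.mem_product] at hz hz'
    simp only at hz hz' he
    have h1 := hs y hz.1.1
    have h2 := hs y' hz.1.2
    have h3 := hs x hz'.1.1
    have h4 := hs x' hz'.1.2
    have e1 : y = y' := by nlinarith [hz.2]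
    have e2 : x = x' := by nlinarith [hz'.2]
    rw [← e1, ← e2, he]

/-- the number of the pairs of the points with the same value of `Psi` -/
theorem quads (X Y : Finset ℤ) (hY : ∀ y ∈ Y, 0 < y) (b : Fin 5 → ℤ) (c : Fin 7 → ℤ) (u v : ℤ)
    (D : ℝ) (hD0 : 0 ≤ D)
    (hD : ∀ x ∈ X, ∀ x' ∈ X, ∀ h : ℤ, h = x ^ 3 - x' ^ 3 + bf b u v * (x - x') → h ≠ 0 →
      (h.natAbs.divisors.card : ℝ) ≤ D) :
    ((((X ×ˢ Y) ×ˢ (X ×ˢ Y)).filter (fun z : (ℤ × ℤ) × (ℤ × ℤ) =>
      Psi b c u v z.1.1 z.1.2 = Psi b c u v z.2.1 z.2.2)).card : ℝ) ≤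
      3 * X.card * Y.card + (X.card : ℝ) ^ 2 * D := by
  classical
  set β := bf b u v with hβ
  set hf : ℤ × ℤ → ℤ := fun z => z.1 ^ 3 - z.2 ^ 3 + β * (z.1 - z.2) with hhf
  -- fibre over (x, x')
  have key : (((X ×ˢ Y) ×ˢ (X ×ˢ Y)).filter (fun z : (ℤ × ℤ) × (ℤ × ℤ) =>
      Psi b c u v z.1.1 z.1.2 = Psi b c u v z.2.1 z.2.2)).card ≤
      ∑ w ∈ X ×ˢ X, ((Y ×ˢ Y).filter (fun z : ℤ × ℤ => z.1 ^ 2 - z.2 ^ 2 = hf w)).card := by
    rw [← Finset.card_sigma]
    refine Finset.card_le_card_of_injOn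
      (fun z : (ℤ × ℤ) × (ℤ × ℤ) => (⟨(z.1.1, z.2.1), (z.1.2, z.2.2)⟩ : Σ _ : ℤ × ℤ, ℤ × ℤ)) ?_ ?_
    · rintro ⟨⟨x, y⟩, ⟨x', y'⟩⟩ hz
      simp only [Finset.coe_filter, Finset.mem_product, Set.mem_setOf_eq] at hz
      simp only [Finset.coe_sigma, Set.mem_sigma_iff, Finset.mem_coe, Finset.mem_product,
        Finset.mem_filter]
      refine ⟨⟨hz.1.1.1, hz.1.2.1⟩, ⟨hz.1.1.2, hz.1.2.2⟩, ?_⟩
      have h1 := hz.2
      unfold Psi at h1
      rw [← hβ] at h1
      simp only [hhf]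
      linarith
    · rintro ⟨⟨x, y⟩, ⟨x', y'⟩⟩ _ ⟨⟨x₁, y₁⟩, ⟨x₁', y₁'⟩⟩ _ he
      simp only [Sigma.mk.injEq, Prod.mk.injEq, heq_eq_eq] at he
      obtain ⟨⟨rfl, rfl⟩, rfl, rfl⟩ := he
      rfl
  have key2 : (∑ w ∈ X ×ˢ X,
      (((Y ×ˢ Y).filter (fun z : ℤ × ℤ => z.1 ^ 2 - z.2 ^ 2 = hf w)).card : ℝ)) ≤
      ∑ w ∈ X ×ˢ X, ((if hf w = 0 then (Y.card : ℝ) else 0) + D) := by
    refine Finset.sum_le_sum fun w hw => ?_
    rw [Finset.mem_product] at hw
    split_ifs with h0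
    · have h1 := pairs0 Y hY
      rw [h0]
      have h2 : ((((Y ×ˢ Y).filter (fun z : ℤ × ℤ => z.1 ^ 2 - z.2 ^ 2 = 0)).card : ℕ) : ℝ) ≤
        Y.card := by exact_mod_cast h1
      linarith
    · have h1 := pairs Y hY h0
      have h2 : ((((Y ×ˢ Y).filter (fun z : ℤ × ℤ => z.1 ^ 2 - z.2 ^ 2 = hf w)).card : ℕ) : ℝ) ≤
        ((hf w).natAbs.divisors.card : ℝ) := by exact_mod_cast h1
      have h3 := hD w.1 hw.1 w.2 hw.2 (hf w) rfl h0
      linarith
  have key3 : (∑ w ∈ X ×ˢ X, (if hf w = 0 then (Y.card : ℝ) else 0)) ≤ 3 * X.card * Y.card := by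
    rw [Finset.sum_product]
    calc (∑ x ∈ X, ∑ x' ∈ X, (if hf (x, x') = 0 then (Y.card : ℝ) else 0))
        ≤ ∑ x ∈ X, 3 * (Y.card : ℝ) := by
          refine Finset.sum_le_sum fun x _ => ?_
          rw [← Finset.sum_filter, Finset.sum_const, nsmul_eq_mul]
          apply mul_le_mul_of_nonneg_right _ (Nat.cast_nonneg _)
          have h1 := roots X β (x ^ 3 + β * x)
          have h2 : X.filter (fun x' => hf (x, x') = 0) =
              X.filter (fun x' => x' ^ 3 + β * x' = x ^ 3 + β * x) := by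
            apply Finset.filter_congr
            intro x' _
            simp only [hhf]
            constructor
            · intro h; linarith
            · intro h; linarith
          rw [h2]
          exact_mod_cast h1
      _ = 3 * X.card * Y.card := by
          rw [Finset.sum_const, nsmul_eq_mul]; ring
  have key4 : (∑ w ∈ X ×ˢ X, D) = (X.card : ℝ) ^ 2 * D := by
    rw [Finset.sum_const, nsmul_eq_mul, Finset.card_product]; push_cast; ring
  have key5 : ((((X ×ˢ Y) ×ˢ (X ×ˢ Y)).filter (fun z : (ℤ × ℤ) × (ℤ × ℤ) =>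
      Psi b c u v z.1.1 z.1.2 = Psi b c u v z.2.1 z.2.2)).card : ℝ) ≤
      ∑ w ∈ X ×ˢ X, (((Y ×ˢ Y).filter (fun z : ℤ × ℤ => z.1 ^ 2 - z.2 ^ 2 = hf w)).card : ℝ) := by
    exact_mod_cast key
  rw [Finset.sum_add_distrib, key4] at key2
  linarith

/-- the second moment -/
theorem second {G : Type*} (T : Finset (ℤ × ℤ)) (F : ℤ × ℤ → ℤ) (B : Finset G) (e : G → ℤ) (m : ℤ)
    (hm : m ≠ 0) (M : ℝ) (hM : ∀ s, ((B.filter (fun g => e g = s)).card : ℝ) ≤ M) :
    ∑ g ∈ B, ((T.filter (fun q => F q = m * e g)).card : ℝ) ^ 2 ≤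
      ((T ×ˢ T).filter (fun z => F z.1 = F z.2)).card * M := by
  classical
  have hM0 : 0 ≤ M := le_trans (Nat.cast_nonneg _) (hM 0)
  have h1 : ∀ g ∈ B, ((T.filter (fun q => F q = m * e g)).card : ℝ) ^ 2 =
      ∑ z ∈ T ×ˢ T, (if F z.1 = m * e g ∧ F z.2 = m * e g then (1 : ℝ) else 0) := by
    intro g _
    rw [← Finset.sum_filter, Finset.sum_const, nsmul_eq_mul, mul_one,
      Finset.filter_product (s := T) (t := T) (fun q => F q = m * e g) (fun q => F q = m * e g),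
      Finset.card_product]
    push_cast
    ring
  rw [Finset.sum_congr rfl h1, Finset.sum_comm]
  have h2 : ∀ z ∈ T ×ˢ T, (∑ g ∈ B, (if F z.1 = m * e g ∧ F z.2 = m * e g then (1 : ℝ) else 0)) ≤
      if F z.1 = F z.2 then M else 0 := by
    intro z _
    rw [← Finset.sum_filter, Finset.sum_const, nsmul_eq_mul, mul_one]
    split_ifs with h
    · rcases (B.filter (fun g => F z.1 = m * e g ∧ F z.2 = m * e g)).eq_empty_or_nonempty with h0 | h0
      · rw [h0]; simpa using hM0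
      · obtain ⟨g₀, hg₀⟩ := h0
        rw [Finset.mem_filter] at hg₀
        refine le_trans ?_ (hM (e g₀))
        have : B.filter (fun g => F z.1 = m * e g ∧ F z.2 = m * e g) ⊆
            B.filter (fun g => e g = e g₀) := by
          intro g hg
          rw [Finset.mem_filter] at hg ⊢
          refine ⟨hg.1, ?_⟩
          have h3 : m * e g = m * e g₀ := by rw [← hg.2.1, ← hg₀.2.1]
          exact mul_left_cancel₀ hm h3
        exact_mod_cast Finset.card_le_card this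
    · have : B.filter (fun g => F z.1 = m * e g ∧ F z.2 = m * e g) = ∅ := by
        apply Finset.filter_false_of_mem
        intro g _ hg
        exact h (hg.1.trans hg.2.symm)
      rw [this]; simp
  refine (Finset.sum_le_sum h2).trans ?_
  rw [← Finset.sum_filter, Finset.sum_const, nsmul_eq_mul]

end DIAG

open DIAG in
theorem t_DIAG (h1 : S_SH1) (h2 : S_BOXC) (h3 : S_ICNT) (h4 : S_TAU) : S_DIAG := by
  intro γ C₀ ρ η κ τ hc
  obtain ⟨c, H₁, hc0, hH₁, hSH⟩ := h1 γ C₀ η hc.γ0 hc.C1 hc.η0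
  obtain ⟨A₀, hA₀, hBX⟩ := h2 (1 / 2) (by norm_num) (by norm_num)
  obtain ⟨K, hK0, hK⟩ := h4
  have hC0 : 0 < C₀ := lt_of_lt_of_le one_pos hc.C1
  set E : ℝ := (C₀ ^ 2) ^ (1 / 6 : ℝ) with hE
  have hE0 : 0 < E := by positivity
  have hη := hc.η0
  have hγ := hc.γ0
  refine ⟨2 ^ 8 * (18 * C₀ + 9 * (K * E)) / c, max H₁ (max (1 / c) (A₀ / η)), by positivity,
    le_trans hH₁ (le_max_left _ _), ?_⟩
  intro H hH w C R hw hPD hRD p hp
  have hH1 : H₁ ≤ H := le_trans (le_max_left _ _) hH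
  have hH2 : 1 / c ≤ H := le_trans (le_trans (le_max_left _ _) (le_max_right _ _)) hH
  have hH3 : A₀ / η ≤ H := le_trans (le_trans (le_max_right _ _) (le_max_right _ _)) hH
  have hH0 : 1 ≤ H := le_trans hH₁ hH1
  have hHp : 0 < H := by linarith
  obtain ⟨hpU, hp1, hp2, hpg⟩ := mem_setU.mp hp
  obtain ⟨hu1, hu2, hu3⟩ := hRD.hu p.1 p.2 hpU
  -- the number of the forms with a given value
  set A := η * H ^ 6 with hA
  have hAA : A₀ ≤ A := by
    have : H ≤ H ^ 6 := le_self_pow₀ hH0 (by norm_num)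
    rw [div_le_iff₀ hη] at hH3
    nlinarith
  have hB2 := (hBX A hAA).2.2
  have hc18 : 1 ≤ c * H ^ 18 := by
    have : H ≤ H ^ 18 := le_self_pow₀ hH0 (by norm_num)
    rw [div_le_iff₀ hc0] at hH2
    nlinarith
  set Ra : Finset ℤ := Finset.Icc (-⌊c * H ^ 18⌋) ⌊c * H ^ 18⌋ with hRa
  have hRa1 : c * H ^ 18 ≤ (Ra.card : ℝ) := by
    have hfl : 0 ≤ ⌊c * H ^ 18⌋ := Int.floor_nonneg.mpr (by positivity)
    have e1 : ((Ra.card : ℕ) : ℤ) = 2 * ⌊c * H ^ 18⌋ + 1 := by
      rw [hRa, Int.card_Icc, Int.toNat_of_nonneg (by omega)]; ring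
    have e2 : (Ra.card : ℝ) = 2 * (⌊c * H ^ 18⌋ : ℝ) + 1 := by exact_mod_cast e1
    have e3 := Int.lt_floor_add_one (c * H ^ 18)
    rw [e2]; linarith
  have hRa2 : ∀ a ∈ Ra, ∃ r ∈ box 7 A, bf r p.1 p.2 = a := by
    intro a ha
    refine hSH H hH1 p.1 p.2 hpg hu1 hu2 hu3 a ?_
    rw [hRa, Finset.mem_Icc] at ha
    have : |a| ≤ ⌊c * H ^ 18⌋ := abs_le.mpr ha
    rw [Int.le_floor] at this
    exact_mod_cast this
  set B : ℝ := ((box 7 A).card : ℝ) with hB
  have hB0 : 0 ≤ B := Nat.cast_nonneg _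
  have hM : ∀ s, (((box 7 A).filter (fun g => bf g p.1 p.2 = s)).card : ℝ) ≤
      2 ^ 8 * B / (c * H ^ 18) := by
    intro s
    rw [le_div_iff₀ (by positivity)]
    have e1 := fib p.1 p.2 Ra hRa2 s
    have e2 : (((box 7 A).filter (fun g => bf g p.1 p.2 = s)).card : ℝ) * Ra.card ≤
      ((box 7 (2 * A)).card : ℝ) := by exact_mod_cast e1
    calc (((box 7 A).filter (fun g => bf g p.1 p.2 = s)).card : ℝ) * (c * H ^ 18)
        ≤ (((box 7 A).filter (fun g => bf g p.1 p.2 = s)).card : ℝ) * Ra.card :=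
          mul_le_mul_of_nonneg_left hRa1 (Nat.cast_nonneg _)
      _ ≤ ((box 7 (2 * A)).card : ℝ) := e2
      _ ≤ 2 ^ 8 * B := hB2
  have hm : ((C.S * C.J : ℕ) : ℤ) ≠ 0 := by
    have h5 := hPD.hS
    have h6 := hPD.hJ
    have : 0 < C.S * C.J := Nat.mul_pos h5 h6
    exact_mod_cast this.ne'
  have hsec := second (setX H ρ C R ×ˢ setY H C R) (fun q => Psi C.b C.c p.1 p.2 q.1 q.2)
    (box 7 A) (fun g => bf g p.1 p.2) ((C.S * C.J : ℕ) : ℤ) hm _ hM
  -- the number of the quadruples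
  have hX : ((setX H ρ C R).card : ℝ) ≤ 3 * H ^ 6 := by
    have e1 := h3.1 (setX H ρ C R) 1 (2 * H ^ 6) one_pos (by positivity) (by
      intro a ha b hb
      refine ⟨by simp, ?_⟩
      have e2 := (mem_setX.mp ha).1
      have e3 := (mem_setX.mp hb).1
      unfold InX at e2 e3
      rw [abs_le] at e2 e3 ⊢
      have e4 : ρ * H ^ 6 ≤ H ^ 6 := by
        have := hc.ρ1
        have : (0 : ℝ) < H ^ 6 := by positivity
        nlinarith
      constructor <;> linarith [e2.1, e2.2, e3.1, e3.2])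
    have e5 : (1 : ℝ) ≤ H ^ 6 := one_le_pow₀ hH0
    simp only [Nat.cast_one, div_one] at e1
    linarith
  have hYpos : ∀ y ∈ setY H C R, 0 < y := by
    intro y hy
    have e1 := (mem_setY.mp hy).1.1
    have e2 : 0 < R.Y₁ * H ^ 9 := by
      have := hRD.hY1
      have : 0 < R.Y₁ := by linarith
      positivity
    have e3 : (0 : ℝ) < y := by linarith
    exact_mod_cast e3
  have hYc : ((setY H C R).card : ℝ) ≤ 2 * C₀ * H ^ 9 := by
    have e1 := h3.1 (setY H C R) 1 (C₀ * H ^ 9) one_pos (by positivity) (by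
      intro a ha b hb
      refine ⟨by simp, ?_⟩
      have e2 := (mem_setY.mp ha).1
      have e3 := (mem_setY.mp hb).1
      have e4 := hYpos a ha
      have e5 := hYpos b hb
      have e6 : (0 : ℝ) < a := by exact_mod_cast e4
      have e7 : (0 : ℝ) < b := by exact_mod_cast e5
      have e8 : R.Y₂ * H ^ 9 ≤ C₀ * H ^ 9 :=
        mul_le_mul_of_nonneg_right hRD.hY2 (by positivity)
      rw [abs_le]
      constructor <;> linarith [e2.1, e2.2, e3.1, e3.2])
    have e5 : (1 : ℝ) ≤ H ^ 9 := one_le_pow₀ hH0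
    have e6 := hc.C1
    simp only [Nat.cast_one, div_one] at e1
    nlinarith
  have hDv : ∀ x ∈ setX H ρ C R, ∀ x' ∈ setX H ρ C R, ∀ h : ℤ,
      h = x ^ 3 - x' ^ 3 + bf C.b p.1 p.2 * (x - x') → h ≠ 0 →
      (h.natAbs.divisors.card : ℝ) ≤ K * E * H ^ 3 := by
    intro x hx x' hx' h hh h0
    have h0box : (0 : Fin 7 → ℤ) ∈ box 7 (2 * η * H ^ 6) := by
      rw [mem_box]; intro i; simp only [Pi.zero_apply, Int.cast_zero, abs_zero]; positivity
    have e0 : bf (0 : Fin 7 → ℤ) p.1 p.2 = (0 : ℤ) := by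
      unfold bf; simp
    have e1 := hRD.hz p.1 p.2 x hpU (mem_setX.mp hx).1 0 h0box
    have e2 := hRD.hz p.1 p.2 x' hpU (mem_setX.mp hx').1 0 h0box
    rw [e0, mul_zero, add_zero] at e1 e2
    have e3 : (h : ℝ) = ((x ^ 3 + bf C.b p.1 p.2 * x + bf C.c p.1 p.2 : ℤ) : ℝ) -
        ((x' ^ 3 + bf C.b p.1 p.2 * x' + bf C.c p.1 p.2 : ℤ) : ℝ) := by
      rw [hh]; push_cast; ring
    have hκ := hc.κ0
    have e4 : 0 < κ * H ^ 18 := by positivity
    have hY1 : 0 < R.Y₁ := by linarith [hRD.hY1]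
    have hY2 : 0 < R.Y₂ := by linarith [hRD.hY12]
    have e5 : (R.Y₂ * H ^ 9) ^ 2 ≤ C₀ ^ 2 * H ^ 18 := by
      have : R.Y₂ * H ^ 9 ≤ C₀ * H ^ 9 := mul_le_mul_of_nonneg_right hRD.hY2 (by positivity)
      calc (R.Y₂ * H ^ 9) ^ 2 ≤ (C₀ * H ^ 9) ^ 2 := pow_le_pow_left₀ (by positivity) this 2
        _ = C₀ ^ 2 * H ^ 18 := by ring
    have e6 : 0 ≤ (R.Y₁ * H ^ 9) ^ 2 := by positivity
    have e7 : |(h : ℝ)| ≤ C₀ ^ 2 * H ^ 18 := by
      rw [e3, abs_le]
      constructor <;> linarith [e1.1, e1.2, e2.1, e2.2]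
    have e8 : ((h.natAbs : ℕ) : ℝ) = |(h : ℝ)| := by
      rw [Nat.cast_natAbs, Int.cast_abs]
    have e9 := hK h.natAbs (Int.natAbs_pos.mpr h0)
    rw [e8] at e9
    refine e9.trans ?_
    rw [mul_assoc]
    apply mul_le_mul_of_nonneg_left _ hK0.le
    calc |(h : ℝ)| ^ (1 / 6 : ℝ) ≤ (C₀ ^ 2 * H ^ 18) ^ (1 / 6 : ℝ) :=
          Real.rpow_le_rpow (abs_nonneg _) e7 (by norm_num)
      _ = E * H ^ 3 := by
          rw [Real.mul_rpow (by positivity) (by positivity), hE]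
          congr 1
          rw [← Real.rpow_natCast, ← Real.rpow_mul hHp.le, ← Real.rpow_natCast]
          norm_num
  have hq := quads (setX H ρ C R) (setY H C R) hYpos C.b C.c p.1 p.2 (K * E * H ^ 3)
    (by positivity) hDv
  have hX0 : (0 : ℝ) ≤ ((setX H ρ C R).card : ℝ) := Nat.cast_nonneg _
  have hY0 : (0 : ℝ) ≤ ((setY H C R).card : ℝ) := Nat.cast_nonneg _
  have hq2 : 3 * ((setX H ρ C R).card : ℝ) * ((setY H C R).card : ℝ) +
      ((setX H ρ C R).card : ℝ) ^ 2 * (K * E * H ^ 3) ≤ (18 * C₀ + 9 * (K * E)) * H ^ 15 := by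
    have e1 : ((setX H ρ C R).card : ℝ) * ((setY H C R).card : ℝ) ≤
      (3 * H ^ 6) * (2 * C₀ * H ^ 9) := mul_le_mul hX hYc hY0 (by positivity)
    have e2 : ((setX H ρ C R).card : ℝ) ^ 2 ≤ (3 * H ^ 6) ^ 2 := pow_le_pow_left₀ hX0 hX 2
    have e3 : ((setX H ρ C R).card : ℝ) ^ 2 * (K * E * H ^ 3) ≤ (3 * H ^ 6) ^ 2 * (K * E * H ^ 3) :=
      mul_le_mul_of_nonneg_right e2 (by positivity)
    calc 3 * ((setX H ρ C R).card : ℝ) * ((setY H C R).card : ℝ) +
        ((setX H ρ C R).card : ℝ) ^ 2 * (K * E * H ^ 3)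
        ≤ 3 * ((3 * H ^ 6) * (2 * C₀ * H ^ 9)) + (3 * H ^ 6) ^ 2 * (K * E * H ^ 3) := by
          linarith
      _ = (18 * C₀ + 9 * (K * E)) * H ^ 15 := by ring
  unfold cnt
  refine hsec.trans ?_
  calc _ ≤ ((18 * C₀ + 9 * (K * E)) * H ^ 15) * (2 ^ 8 * B / (c * H ^ 18)) := by
        apply mul_le_mul_of_nonneg_right (hq.trans hq2) (by positivity)
    _ = 2 ^ 8 * (18 * C₀ + 9 * (K * E)) / c / H ^ 3 * B := by
        field_simp

end Pool.Agent.DPO
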