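import Mathlib

/-!
# Project DPO: 100 percent of the del Pezzo surfaces of degree 1 over `ℚ`: definitions

The surface is `y ^ 2 = x ^ 3 + a (u, v) x + f (u, v)` in the weighted projective space with the
weights `1, 1, 2, 3`; `a` and `f` are binary forms of degrees `4` and `6`, given by their coefficients.
Height: the coefficients of `a` are at most `H ^ 4`, those of `f` at most `H ^ 6`. The points which are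
found have `u`, `v` of the size `H ^ 2`, `x` of the size `H ^ 6`, `y` of the size `H ^ 9`.
-/

set_option autoImplicit false

namespace Pool.Agent.DPO

/-- value of the binary form `∑ g i U ^ (d - i) V ^ i` at `(u, v)` -/
def bf {d : ℕ} {R : Type*} [CommRing R] (g : Fin (d + 1) → ℤ) (u v : R) : R :=
  ∑ i : Fin (d + 1), (g i : R) * u ^ (d - (i : ℕ)) * v ^ (i : ℕ)

/-- `y ^ 2 - x ^ 3 - b (u, v) x - c (u, v)` -/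
def Psi {R : Type*} [CommRing R] (b : Fin 5 → ℤ) (c : Fin 7 → ℤ) (u v x y : R) : R :=
  y ^ 2 - x ^ 3 - bf b u v * x - bf c u v

/-- the box of the integral vectors with coordinates of absolute value at most `A` -/
noncomputable def box (n : ℕ) (A : ℝ) : Finset (Fin n → ℤ) :=
  Fintype.piFinset (fun _ => Finset.Icc (-⌊A⌋) ⌊A⌋)

/-- the integers between `lo` and `hi` which are congruent to `r` modulo `m` -/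
noncomputable def setI (lo hi : ℝ) (m : ℕ) (r : ℤ) : Finset ℤ :=
  (Finset.Icc ⌈lo⌉ ⌊hi⌋).filter (fun x => (m : ℤ) ∣ x - r)

/-- the arithmetic data of a class: the forms `b`, `c` are the centre; `c + S J g` runs through the
class; `u ≡ uc`, `v ≡ vc`, `x ≡ xc` modulo `S J` and `y ≡ yc` modulo `S`. -/
structure Cls where
  b : Fin 5 → ℤ
  c : Fin 7 → ℤ
  S : ℕ
  J : ℕ
  uc : ℤ
  vc : ℤ
  xc : ℤ
  yc : ℤ

/-- the real data of a class: `u ≈ ξ H ^ 2`, `v ≈ υ H ^ 2`, `x ≈ x₀ H ^ 6`,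
`Y₁ H ^ 9 ≤ y ≤ Y₂ H ^ 9` -/
structure Rcl where
  ξ : ℝ
  υ : ℝ
  x₀ : ℝ
  Y₁ : ℝ
  Y₂ : ℝ

/-- the `p`-adic conditions on a class; exactly the primes `≤ w` divide `S` -/
structure PD (w : ℕ) (C : Cls) : Prop where
  hS : 0 < C.S
  hJ : 0 < C.J
  hpJ : ∀ p : ℕ, p.Prime → p ≤ w → p * C.J ∣ C.S
  hw : ∀ p : ℕ, p.Prime → p ∣ C.S → p ≤ w
  hprim : ∀ p : ℕ, p.Prime → p ≤ w → ¬ ((p : ℤ) ∣ C.uc ∧ (p : ℤ) ∣ C.vc)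
  hy : ∃ y₁ : ℤ, 2 * C.yc = C.J * y₁ ∧ IsCoprime y₁ (C.S : ℤ)
  hdvd : ((C.S * C.J : ℕ) : ℤ) ∣ Psi C.b C.c C.uc C.vc C.xc C.yc

/-- the region of `(u, v)` -/
def InU (H ρ : ℝ) (R : Rcl) (u v : ℤ) : Prop :=
  |(u : ℝ) - R.ξ * H ^ 2| ≤ ρ * H ^ 2 ∧ |(v : ℝ) - R.υ * H ^ 2| ≤ ρ * H ^ 2

/-- the region of `x` -/
def InX (H ρ : ℝ) (R : Rcl) (x : ℤ) : Prop := |(x : ℝ) - R.x₀ * H ^ 6| ≤ ρ * H ^ 6

/-- the real conditions on a class; `box 7 (η H ^ 6)` is the set of the forms `g` -/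
structure RD (γ C₀ ρ η κ τ H : ℝ) (C : Cls) (R : Rcl) : Prop where
  hu : ∀ u v : ℤ, InU H ρ R u v →
    γ * H ^ 2 ≤ |(u : ℝ)| ∧ |(u : ℝ)| ≤ C₀ * H ^ 2 ∧ |(v : ℝ)| ≤ C₀ * H ^ 2
  hx : ∀ x : ℤ, InX H ρ R x → |(x : ℝ)| ≤ C₀ * H ^ 6
  hY1 : γ ≤ R.Y₁
  hY2 : R.Y₂ ≤ C₀
  hY12 : R.Y₁ ≤ R.Y₂
  hY : R.Y₂ ≤ (1 + τ) * R.Y₁
  hz : ∀ u v x : ℤ, InU H ρ R u v → InX H ρ R x → ∀ g ∈ box 7 (2 * η * H ^ 6),
    (R.Y₁ * H ^ 9) ^ 2 + κ * H ^ 18 ≤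
      ((x ^ 3 + bf C.b u v * x + bf C.c u v + (C.S * C.J : ℕ) * bf g u v : ℤ) : ℝ) ∧
    ((x ^ 3 + bf C.b u v * x + bf C.c u v + (C.S * C.J : ℕ) * bf g u v : ℤ) : ℝ) ≤
      (R.Y₂ * H ^ 9) ^ 2 - κ * H ^ 18

/-- the base points `(u, v)` of the class -/
noncomputable def setU (H ρ : ℝ) (C : Cls) (R : Rcl) : Finset (ℤ × ℤ) :=
  ((setI (R.ξ * H ^ 2 - ρ * H ^ 2) (R.ξ * H ^ 2 + ρ * H ^ 2) (C.S * C.J) C.uc) ×ˢ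
    (setI (R.υ * H ^ 2 - ρ * H ^ 2) (R.υ * H ^ 2 + ρ * H ^ 2) (C.S * C.J) C.vc)).filter
      (fun p => Int.gcd p.1 p.2 = 1)

/-- the `x` of the class -/
noncomputable def setX (H ρ : ℝ) (C : Cls) (R : Rcl) : Finset ℤ :=
  setI (R.x₀ * H ^ 6 - ρ * H ^ 6) (R.x₀ * H ^ 6 + ρ * H ^ 6) (C.S * C.J) C.xc

/-- the `y` of the class -/
noncomputable def setY (H : ℝ) (C : Cls) (R : Rcl) : Finset ℤ :=
  setI (R.Y₁ * H ^ 9) (R.Y₂ * H ^ 9) C.S C.yc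

/-- the number of the points of the surface of `c + S J g` in the class and in the fibre of `(u, v)` -/
noncomputable def cnt (H ρ : ℝ) (C : Cls) (R : Rcl) (g : Fin 7 → ℤ) (p : ℤ × ℤ) : ℕ :=
  ((setX H ρ C R ×ˢ setY H C R).filter (fun q =>
    Psi C.b C.c p.1 p.2 q.1 q.2 = (C.S * C.J : ℕ) * bf g p.1 p.2)).card

/-- the determinant of two vectors -/
def det2 (p q : ℤ × ℤ) : ℤ := p.1 * q.2 - p.2 * q.1

/-- the factor of a pair of fibres with determinant `± D` -/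
noncomputable def Gf (S D : ℕ) : ℝ :=
  ∑ δ ∈ D.divisors.filter (fun δ => Nat.Coprime δ S), ((δ : ℝ) ^ (1 / 6 : ℝ))⁻¹

/-- the prime factors of `n` are at least `729` -/
def Rough (n : ℕ) : Prop := 0 < n ∧ ∀ p : ℕ, p.Prime → p ∣ n → 729 ≤ p

/-- the constants -/
structure Cst (γ C₀ ρ η κ τ : ℝ) : Prop where
  γ0 : 0 < γ
  C1 : 1 ≤ C₀
  ρ0 : 0 < ρ
  ρ1 : ρ ≤ 1
  η0 : 0 < η
  η1 : η ≤ 1
  κ0 : 0 < κ
  τ0 : 0 < τ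
  τ1 : τ ≤ 1

/-- a target: residues of `u, v, x, y` and a point of the real surface in the scaled coordinates
`u, v, x / H ^ 2, y / H ^ 3` -/
structure Tgt where
  cu : ℤ
  cv : ℤ
  cx : ℤ
  cy : ℤ
  zu : ℝ
  zv : ℝ
  zx : ℝ
  zy : ℝ

/-- `(u, v, x, y)` is congruent to the target modulo `N` -/
def CongT (N : ℤ) (t : Tgt) (u v x y : ℤ) : Prop :=
  N ∣ u - t.cu ∧ N ∣ v - t.cv ∧ N ∣ x - t.cx ∧ N ∣ y - t.cy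

/-- `(u, v, x, y)` is a primitive solution modulo `p ^ E` -/
def SolP (a : Fin 5 → ℤ) (f : Fin 7 → ℤ) (p E : ℕ) (u v x y : ℤ) : Prop :=
  (p : ℤ) ^ E ∣ Psi a f u v x y ∧
    (¬ ((p : ℤ) ∣ u ∧ (p : ℤ) ∣ v) ∨ (¬ (p : ℤ) ∣ x ∧ ¬ (p : ℤ) ∣ y))

/-- approximate `p`-adic points near the target, for the primes `p` which divide `N` -/
def LocP (N M : ℕ) (t : Tgt) (a : Fin 5 → ℤ) (f : Fin 7 → ℤ) : Prop :=
  ∀ p : ℕ, p.Prime → p ∣ N → ∀ E : ℕ, ∃ u v x y : ℤ, SolP a f p E u v x y ∧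
    ¬ (p : ℤ) ^ (M + 1) ∣ y ∧ ∀ k : ℕ, p ^ k ∣ N → CongT ((p : ℤ) ^ k) t u v x y

/-- a real point near the target -/
def LocR (M : ℕ) (δ H : ℝ) (t : Tgt) (a : Fin 5 → ℤ) (f : Fin 7 → ℤ) : Prop :=
  ∃ u v x y : ℝ, y ^ 2 = x ^ 3 + bf a u v / H ^ 4 * x + bf f u v / H ^ 6 ∧
    |u| ≤ 1 ∧ |v| ≤ 1 ∧ |x| ≤ 1 ∧ |y| ≤ 1 ∧ 1 / (M : ℝ) ≤ |y| ∧
    |u - t.zu| ≤ δ ∧ |v - t.zv| ≤ δ ∧ |x - t.zx| ≤ δ ∧ |y - t.zy| ≤ δ

/-- an integral point near the target -/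
def SolT (N : ℕ) (t : Tgt) (δ H : ℝ) (a : Fin 5 → ℤ) (f : Fin 7 → ℤ) : Prop :=
  ∃ u v x y : ℤ, (u ≠ 0 ∨ v ≠ 0) ∧ Psi a f u v x y = 0 ∧ CongT N t u v x y ∧
    ∃ P : ℝ, 0 < P ∧ |(u : ℝ) - P * t.zu| ≤ 2 * δ * P ∧ |(v : ℝ) - P * t.zv| ≤ 2 * δ * P ∧
      |(x : ℝ) - H ^ 2 * P ^ 2 * t.zx| ≤ 2 * δ * (H ^ 2 * P ^ 2) ∧
      |(y : ℝ) - H ^ 3 * P ^ 3 * t.zy| ≤ 2 * δ * (H ^ 3 * P ^ 3)

/-- local data at `p`: `(p ^ s u, p ^ s v, x, y)` is a solution modulo `p ^ E`, `(u, v)` is primitive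
and `2 y` has the valuation `j` -/
structure DatP (a : Fin 5 → ℤ) (f : Fin 7 → ℤ) (p E s j : ℕ) (u v x y : ℤ) : Prop where
  hprim : ¬ ((p : ℤ) ∣ u ∧ (p : ℤ) ∣ v)
  hE : (p : ℤ) ^ E ∣ Psi a f ((p : ℤ) ^ s * u) ((p : ℤ) ^ s * v) x y
  hj : (p : ℤ) ^ j ∣ 2 * y
  hj' : ¬ (p : ℤ) ^ (j + 1) ∣ 2 * y

/-- the product of the primes up to `w` -/
def prim (w : ℕ) : ℕ := ∏ p ∈ (Finset.range (w + 1)).filter Nat.Prime, p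

/-- the weights of the coordinates -/
def wt : Fin 4 → ℕ := ![1, 1, 2, 3]

/-- the natural sizes of the coordinates at the real place -/
noncomputable def sc (H : ℝ) : Fin 4 → ℝ := ![1, 1, H ^ 2, H ^ 3]

/-- `z` is a point of the surface over the field `K`, different from `(0, 0, 1, 1)` -/
def IsPt {K : Type*} [Field K] (a : Fin 5 → ℤ) (f : Fin 7 → ℤ) (z : Fin 4 → K) : Prop :=
  (z 0 ≠ 0 ∨ z 1 ≠ 0) ∧ z 3 ^ 2 = z 2 ^ 3 + bf a (z 0) (z 1) * z 2 + bf f (z 0) (z 1)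

/-- the vector `Z`, multiplied by `β`, is integral with a unit coordinate -/
def NormP (p : ℕ) [Fact p.Prime] (β : ℚ_[p]) (Z : Fin 4 → ℚ_[p]) : Prop :=
  (∀ i, ‖β ^ wt i * Z i‖ ≤ 1) ∧ ∃ i, ‖β ^ wt i * Z i‖ = 1

/-- the real vector `W`, multiplied by `β`, has the natural size -/
def NormR (H β : ℝ) (W : Fin 4 → ℝ) : Prop :=
  (∀ i, |β ^ wt i * W i| ≤ sc H i) ∧ ∃ i, |β ^ wt i * W i| = sc H i

/-- Weak approximation with precision `1 / m` at the real place and at the primes up to `m`, for the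
local points whose last coordinate is at least `1 / M`. -/
def WA (m M : ℕ) (H : ℝ) (a : Fin 5 → ℤ) (f : Fin 7 → ℤ) : Prop :=
  ∀ (Z : ∀ (p : ℕ) [Fact p.Prime], Fin 4 → ℚ_[p]) (W : Fin 4 → ℝ),
    (∀ (p : ℕ) [Fact p.Prime], p ≤ m → IsPt a f (Z p) ∧
      ∀ β, NormP p β (Z p) → 1 / (M : ℝ) ≤ ‖β ^ 3 * Z p 3‖) →
    IsPt a f W → (∀ β, NormR H β W → H ^ 3 / M ≤ |β ^ 3 * W 3|) →
    ∃ z : Fin 4 → ℚ, IsPt a f z ∧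
      (∀ (p : ℕ) [Fact p.Prime], p ≤ m → ∃ α β : ℚ_[p], α ≠ 0 ∧ NormP p β (Z p) ∧
        ∀ i, ‖α ^ wt i * (z i : ℚ_[p]) - β ^ wt i * Z p i‖ ≤ 1 / m) ∧
      ∃ α β : ℝ, α ≠ 0 ∧ NormR H β W ∧
        ∀ i, |α ^ wt i * (z i : ℝ) - β ^ wt i * W i| ≤ sc H i / m

/-- the finite set of targets for the precision `1 / m` -/
noncomputable def tgts (m : ℕ) : Set Tgt :=
  {t | (∃ A : Fin 4 → ℕ, (∀ i, A i < prim m ^ m) ∧ t.cu = A 0 ∧ t.cv = A 1 ∧ t.cx = A 2 ∧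
      t.cy = A 3) ∧
    ∃ B : Fin 4 → ℤ, (∀ i, |B i| ≤ 4 * m) ∧ t.zu = B 0 / (4 * m) ∧ t.zv = B 1 / (4 * m) ∧
      t.zx = B 2 / (4 * m) ∧ t.zy = B 3 / (4 * m)}

/-! ### Membership -/

theorem mem_box {n : ℕ} {A : ℝ} {g : Fin n → ℤ} : g ∈ box n A ↔ ∀ i, |(g i : ℝ)| ≤ A := by
  unfold box
  rw [Fintype.mem_piFinset]
  refine forall_congr' fun i => ?_
  rw [Finset.mem_Icc, ← abs_le, Int.le_floor]
  push_cast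
  rfl

theorem mem_setI {lo hi : ℝ} {m : ℕ} {r x : ℤ} :
    x ∈ setI lo hi m r ↔ (lo ≤ x ∧ (x : ℝ) ≤ hi) ∧ (m : ℤ) ∣ x - r := by
  unfold setI
  rw [Finset.mem_filter, Finset.mem_Icc, Int.ceil_le, Int.le_floor]

theorem mem_setU {H ρ : ℝ} {C : Cls} {R : Rcl} {p : ℤ × ℤ} :
    p ∈ setU H ρ C R ↔ InU H ρ R p.1 p.2 ∧ ((C.S * C.J : ℕ) : ℤ) ∣ p.1 - C.uc ∧
      ((C.S * C.J : ℕ) : ℤ) ∣ p.2 - C.vc ∧ Int.gcd p.1 p.2 = 1 := by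
  unfold setU InU
  rw [Finset.mem_filter, Finset.mem_product, mem_setI, mem_setI, abs_le, abs_le]
  constructor
  · rintro ⟨⟨⟨⟨h1, h2⟩, h3⟩, ⟨h4, h5⟩, h6⟩, h7⟩
    exact ⟨⟨⟨by linarith, by linarith⟩, by linarith, by linarith⟩, h3, h6, h7⟩
  · rintro ⟨⟨⟨h1, h2⟩, h3, h4⟩, h5, h6, h7⟩
    exact ⟨⟨⟨⟨by linarith, by linarith⟩, h5⟩, ⟨by linarith, by linarith⟩, h6⟩, h7⟩

theorem mem_setX {H ρ : ℝ} {C : Cls} {R : Rcl} {x : ℤ} :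
    x ∈ setX H ρ C R ↔ InX H ρ R x ∧ ((C.S * C.J : ℕ) : ℤ) ∣ x - C.xc := by
  unfold setX InX
  rw [mem_setI, abs_le]
  constructor
  · rintro ⟨⟨h1, h2⟩, h3⟩
    exact ⟨⟨by linarith, by linarith⟩, h3⟩
  · rintro ⟨⟨h1, h2⟩, h3⟩
    exact ⟨⟨by linarith, by linarith⟩, h3⟩

theorem mem_setY {H : ℝ} {C : Cls} {R : Rcl} {y : ℤ} :
    y ∈ setY H C R ↔ (R.Y₁ * H ^ 9 ≤ y ∧ (y : ℝ) ≤ R.Y₂ * H ^ 9) ∧ (C.S : ℤ) ∣ y - C.yc := by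
  unfold setY
  rw [mem_setI]

end Pool.Agent.DPO
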