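import Pool.Agent.DPO.Stm

/-!
# DPO: the piece EXC (the exceptional set of a target)
-/

set_option autoImplicit false

namespace Pool.Agent.DPO

open Finset

namespace EXC

lemma bf_mul {d : ℕ} (c : ℤ) (g : Fin (d + 1) → ℤ) (u v : ℤ) :
    bf (fun i => c * g i) u v = c * bf g u v := by
  unfold bf
  rw [Finset.mul_sum]
  refine Finset.sum_congr rfl fun i _ => ?_
  push_cast
  ring

lemma bf_add {d : ℕ} (g h : Fin (d + 1) → ℤ) (u v : ℤ) :
    bf (fun i => g i + h i) u v = bf g u v + bf h u v := by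
  unfold bf
  rw [← Finset.sum_add_distrib]
  refine Finset.sum_congr rfl fun i _ => ?_
  push_cast
  ring

lemma bf_neg {d : ℕ} (g : Fin (d + 1) → ℤ) (u v : ℤ) :
    bf (-g) u v = -bf g u v := by
  unfold bf
  rw [← Finset.sum_neg_distrib]
  refine Finset.sum_congr rfl fun i _ => ?_
  rw [Pi.neg_apply]
  push_cast
  ring

lemma bf_scale {d : ℕ} (m : ℤ) (g : Fin (d + 1) → ℤ) (u v : ℤ) :
    bf g (m * u) (m * v) = m ^ d * bf g u v := by
  unfold bf
  rw [Finset.mul_sum]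
  refine Finset.sum_congr rfl fun i _ => ?_
  have h : m ^ d = m ^ (d - (i : ℕ)) * m ^ (i : ℕ) := by
    rw [← pow_add]
    congr 1
    have := i.2
    omega
  rw [mul_pow, mul_pow, h]
  ring

end EXC

open EXC in
open scoped Classical in
/-- EXC -/
theorem t_EXC (h1 : S_CLASS) (h2 : S_LDAT) (h3 : S_STAB) (h4 : S_REAL) (h5 : S_BOXC) : S_EXC := by
  intro N M t δ ε hN hM hδ hδ1 hε
  obtain ⟨τ, hτ0, hτ1, w₀, hw₀, hcl⟩ := h1 (ε / 2 ^ 8) (by positivity)
  obtain ⟨w, hw⟩ : ∃ w, w = max w₀ N := ⟨_, rfl⟩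
  have hww₀ : w₀ ≤ w := hw ▸ le_max_left _ _
  have hwN : N ≤ w := hw ▸ le_max_right _ _
  have hw2 : 2 ≤ w := by omega
  obtain ⟨κ, hκ⟩ : ∃ κ, κ = N + 2 * M + 10 := ⟨_, rfl⟩
  obtain ⟨Q, hQ⟩ : ∃ Q, Q = prim w ^ κ := ⟨_, rfl⟩
  obtain ⟨M₁, hM₁⟩ : ∃ M₁, M₁ = prim w ^ (N + 1) := ⟨_, rfl⟩
  obtain ⟨Q₀, hQ₀⟩ : ∃ Q₀, Q₀ = Q * M₁ ^ 6 := ⟨_, rfl⟩
  obtain ⟨γ, C₀, ρ, η, κ', hCst, hQη, hreal⟩ := h4 M M₁ Q₀ Q δ τ hM hδ hδ1 hτ0 hτ1
  obtain ⟨H₁, hH₁, hcl'⟩ := hcl γ C₀ ρ η κ' hCst Q₀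
  obtain ⟨A₀, hA₀, hbox⟩ := h5 (1 / 2) (by norm_num) (by norm_num)
  refine ⟨max H₁ A₀, hH₁.trans (le_max_left _ _), ?_⟩
  intro H hH a ha
  have hHH₁ : H₁ ≤ H := (le_max_left _ _).trans hH
  have hHA₀ : A₀ ≤ H := (le_max_right _ _).trans hH
  have hH1 : 1 ≤ H := hH₁.trans hHH₁
  have hH6 : H ≤ H ^ 6 := le_self_pow₀ hH1 (by norm_num)
  set E := (box 7 (H ^ 6)).filter (fun f =>
      (LocP N M t a f ∧ LocR M δ H t a f) ∧ ¬ SolT N t δ H a f) with hE
  set B := box 7 (η * H ^ 6) with hB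
  have hη0 := hCst.η0
  -- the fibres
  have hfib : ∀ f' ∈ box 7 (2 * H ^ 6),
      (((E ×ˢ B).filter (fun z : (Fin 7 → ℤ) × (Fin 7 → ℤ) =>
        (fun i => z.1 i + (Q : ℤ) * z.2 i) = f')).card : ℝ) ≤ ε / 2 ^ 8 * B.card := by
    intro f' _
    rcases ((E ×ˢ B).filter (fun z : (Fin 7 → ℤ) × (Fin 7 → ℤ) =>
        (fun i => z.1 i + (Q : ℤ) * z.2 i) = f')).eq_empty_or_nonempty with hempty | ⟨z₀, hz₀⟩
    · rw [hempty]
      simp only [Finset.card_empty, Nat.cast_zero]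
      positivity
    obtain ⟨f₀, g₀⟩ := z₀
    rw [Finset.mem_filter, Finset.mem_product] at hz₀
    obtain ⟨⟨hf₀E, hg₀⟩, hfg₀⟩ := hz₀
    simp only at hf₀E hg₀ hfg₀
    obtain ⟨hf₀, ⟨hLP, hLR⟩, -⟩ := Finset.mem_filter.1 hf₀E
    obtain ⟨M₀, S, J, uc, vc, xc, yc, hM₀, hM₀M₁, hSJ, hPD, hNS, hcong⟩ :=
      h3 w N M κ t a f₀ hN hw2 (fun p _ hpN => (Nat.le_of_dvd (by omega) hpN).trans hwN)
        (by omega) (fun p hp _ E => h2 N M t a f₀ hN hLP p hp E)
    have hSJQ : S * J ≤ Q₀ := by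
      rw [hSJ, hQ₀, ← hQ]
      exact Nat.mul_le_mul_left _ (Nat.pow_le_pow_left (hM₁ ▸ hM₀M₁) 6)
    obtain ⟨R, σ, hσ, hRD, huv, hx, hy⟩ := hreal H hH1 t a f₀ g₀ ha hf₀ hg₀ hLR M₀ S J uc vc xc yc
      hM₀ (hM₁ ▸ hM₀M₁) hSJQ
    have hσ2 : σ * σ = 1 := by rcases hσ with rfl | rfl <;> norm_num
    set C : Cls := ⟨fun i => (M₀ : ℤ) ^ 4 * a i, fun i => (M₀ : ℤ) ^ 6 * (f₀ i + Q * g₀ i), S, J, uc,
      vc, xc, σ * yc⟩ with hC
    have hSJZ : ((S * J : ℕ) : ℤ) = (Q : ℤ) * (M₀ : ℤ) ^ 6 := by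
      rw [hSJ, ← hQ]
      push_cast
      rfl
    have hPD' : PD w C := by
      refine ⟨hPD.hS, hPD.hJ, hPD.hpJ, hPD.hw, hPD.hprim, ?_, ?_⟩
      · obtain ⟨y₁, hy1, hy2⟩ := hPD.hy
        refine ⟨σ * y₁, ?_, ?_⟩
        · show 2 * (σ * yc) = J * (σ * y₁)
          have hy1' : 2 * yc = J * y₁ := hy1
          linear_combination σ * hy1'
        · refine IsCoprime.mul_left ?_ hy2
          exact ⟨σ, 0, by rw [hσ2]; ring⟩
      · have h6 := hPD.hdvd
        show ((S * J : ℕ) : ℤ) ∣ Psi (fun i => (M₀ : ℤ) ^ 4 * a i)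
          (fun i => (M₀ : ℤ) ^ 6 * (f₀ i + Q * g₀ i)) uc vc xc (σ * yc)
        have h7 : Psi (fun i => (M₀ : ℤ) ^ 4 * a i) (fun i => (M₀ : ℤ) ^ 6 * (f₀ i + Q * g₀ i))
            uc vc xc (σ * yc) = Psi (fun i => (M₀ : ℤ) ^ 4 * a i) (fun i => (M₀ : ℤ) ^ 6 * f₀ i)
            uc vc xc yc - ((S * J : ℕ) : ℤ) * bf g₀ uc vc := by
          unfold Psi
          have e1 : (fun i => (M₀ : ℤ) ^ 6 * (f₀ i + Q * g₀ i)) =
              fun i => (M₀ : ℤ) ^ 6 * f₀ i + (M₀ : ℤ) ^ 6 * Q * g₀ i := by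
            funext i
            ring
          rw [e1, bf_add, bf_mul ((M₀ : ℤ) ^ 6 * Q), hSJZ]
          linear_combination (yc ^ 2) * hσ2
        rw [h7]
        exact dvd_sub h6 (dvd_mul_right _ _)
    have hRD' : RD γ C₀ ρ η κ' τ H C R :=
      ⟨hRD.hu, hRD.hx, hRD.hY1, hRD.hY2, hRD.hY12, hRD.hY, hRD.hz⟩
    refine le_trans ?_ (hcl' H hHH₁ w C R hww₀ hPD' hRD' hSJQ)
    refine Nat.cast_le.2 (Finset.card_le_card_of_injOn (fun z => -z.2) ?_ ?_)
    · rintro ⟨f, g⟩ hz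
      rw [Finset.mem_coe, Finset.mem_filter, Finset.mem_product] at hz
      obtain ⟨⟨hfE, hg⟩, hfg⟩ := hz
      simp only at hfE hg hfg
      obtain ⟨-, -, hnS⟩ := Finset.mem_filter.1 hfE
      rw [Finset.mem_coe, Finset.mem_filter]
      constructor
      · rw [mem_box]
        intro i
        have := mem_box.1 hg i
        simpa using this
      · rintro ⟨p, hp, x, hxX, y, hyY, hpsi⟩
        apply hnS
        rw [mem_setU] at hp
        rw [mem_setX] at hxX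
        rw [mem_setY] at hyY
        obtain ⟨hpU, hpu, hpv, hpg⟩ := hp
        obtain ⟨hxX1, hxX2⟩ := hxX
        obtain ⟨⟨hyY1, hyY2⟩, hyY3⟩ := hyY
        have hfi : ∀ i, f i = (f₀ i + Q * g₀ i) - Q * g i := by
          intro i
          have e1 : f i + (Q : ℤ) * g i = f' i := congrFun hfg i
          have e2 : f₀ i + (Q : ℤ) * g₀ i = f' i := congrFun hfg₀ i
          linarith
        have hNSJ : (N : ℤ) ∣ ((S * J : ℕ) : ℤ) := by
          exact_mod_cast hNS.mul_right J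
        refine ⟨M₀ * p.1, M₀ * p.2, x, σ * y, ?_, ?_, ?_, M₀ * H ^ 2, ?_, ?_, ?_, ?_, ?_⟩
        · by_contra hcon
          push Not at hcon
          have hM0 : (M₀ : ℤ) ≠ 0 := by
            have : M₀ ≠ 0 := by omega
            exact_mod_cast this
          have e1 : p.1 = 0 := by
            rcases mul_eq_zero.1 hcon.1 with h | h
            · exact absurd h hM0
            · exact h
          have e2 : p.2 = 0 := by
            rcases mul_eq_zero.1 hcon.2 with h | h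
            · exact absurd h hM0
            · exact h
          rw [e1, e2] at hpg
          simp at hpg
        · have hpsi' : Psi (fun i => (M₀ : ℤ) ^ 4 * a i) (fun i => (M₀ : ℤ) ^ 6 *
              (f₀ i + Q * g₀ i)) p.1 p.2 x y = ((S * J : ℕ) : ℤ) * bf (-g) p.1 p.2 := hpsi
          unfold Psi at hpsi' ⊢
          rw [bf_mul, bf_mul, bf_neg, hSJZ] at hpsi'
          rw [bf_scale, bf_scale]
          have e1 : bf f p.1 p.2 = bf (fun i => f₀ i + Q * g₀ i) p.1 p.2 - Q * bf g p.1 p.2 := by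
            have e2 : f = fun i => (f₀ i + Q * g₀ i) + (-(Q : ℤ)) * g i := by
              funext i
              rw [hfi]
              ring
            rw [e2, bf_add, bf_mul]
            ring
          rw [e1]
          linear_combination hpsi' + (y ^ 2) * hσ2
        · obtain ⟨c1, c2, c3, c4⟩ := hcong
          refine ⟨?_, ?_, ?_, ?_⟩
          · have e1 : (N : ℤ) ∣ p.1 - uc := hNSJ.trans hpu
            have e2 := dvd_add (e1.mul_left (M₀ : ℤ)) c1
            have e3 : (M₀ : ℤ) * (p.1 - uc) + (M₀ * uc - t.cu) = M₀ * p.1 - t.cu := by ring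
            rwa [e3] at e2
          · have e1 : (N : ℤ) ∣ p.2 - vc := hNSJ.trans hpv
            have e2 := dvd_add (e1.mul_left (M₀ : ℤ)) c2
            have e3 : (M₀ : ℤ) * (p.2 - vc) + (M₀ * vc - t.cv) = M₀ * p.2 - t.cv := by ring
            rwa [e3] at e2
          · have e1 : (N : ℤ) ∣ x - xc := hNSJ.trans hxX2
            have e2 := dvd_add e1 c3
            have e3 : x - xc + (xc - t.cx) = x - t.cx := by ring
            rwa [e3] at e2
          · have e0 : (S : ℤ) ∣ y - σ * yc := hyY3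
            have e1 : (N : ℤ) ∣ y - σ * yc := (by exact_mod_cast hNS : (N : ℤ) ∣ (S : ℤ)).trans e0
            have e2 := dvd_add (e1.mul_left σ) c4
            have e3 : σ * (y - σ * yc) + (yc - t.cy) = σ * y - t.cy := by
              linear_combination (-yc) * hσ2
            rwa [e3] at e2
        · have : (0 : ℝ) < M₀ := by exact_mod_cast (by omega : 0 < M₀)
          positivity
        · exact (huv p.1 p.2 hpU).1
        · exact (huv p.1 p.2 hpU).2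
        · exact hx x hxX1
        · exact hy y hyY1 hyY2
    · rintro ⟨f, g⟩ hz ⟨f'', g''⟩ hz' hzz
      rw [Finset.mem_coe, Finset.mem_filter] at hz hz'
      simp only [neg_inj] at hzz
      subst hzz
      have e1 := hz.2.trans hz'.2.symm
      refine Prod.ext ?_ rfl
      funext i
      have e2 : f i + (Q : ℤ) * g i = f'' i + (Q : ℤ) * g i := congrFun e1 i
      show f i = f'' i
      linarith
  -- double counting
  have hmaps : ∀ z ∈ E ×ˢ B, (fun i => z.1 i + (Q : ℤ) * z.2 i) ∈ box 7 (2 * H ^ 6) := by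
    intro z hz
    rw [Finset.mem_product] at hz
    rw [mem_box]
    intro i
    have e1 := mem_box.1 (Finset.mem_filter.1 hz.1).1 i
    have e2 := mem_box.1 hz.2 i
    push_cast
    have e3 : |(Q : ℝ) * (z.2 i : ℝ)| ≤ H ^ 6 := by
      rw [abs_mul, abs_of_nonneg (Nat.cast_nonneg Q)]
      calc (Q : ℝ) * |(z.2 i : ℝ)| ≤ Q * (η * H ^ 6) := by gcongr
        _ = (Q * η) * H ^ 6 := by ring
        _ ≤ 1 * H ^ 6 := by gcongr
        _ = H ^ 6 := one_mul _
    calc |(z.1 i : ℝ) + Q * z.2 i| ≤ |(z.1 i : ℝ)| + |(Q : ℝ) * z.2 i| := abs_add_le _ _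
      _ ≤ H ^ 6 + H ^ 6 := add_le_add e1 e3
      _ = 2 * H ^ 6 := by ring
  have hcard : ((E ×ˢ B).card : ℝ) ≤ (box 7 (2 * H ^ 6)).card * (ε / 2 ^ 8 * B.card) := by
    rw [Finset.card_eq_sum_card_fiberwise hmaps]
    push_cast
    refine (Finset.sum_le_sum hfib).trans ?_
    rw [Finset.sum_const, nsmul_eq_mul]
  rw [Finset.card_product] at hcard
  push_cast at hcard
  have hB0 : (0 : ℝ) < B.card := by
    have h0 : (0 : Fin 7 → ℤ) ∈ B := by
      rw [hB, mem_box]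
      intro i
      simp only [Pi.zero_apply, Int.cast_zero, abs_zero]
      positivity
    exact_mod_cast Finset.card_pos.2 ⟨_, h0⟩
  have h6 : (E.card : ℝ) ≤ (box 7 (2 * H ^ 6)).card * (ε / 2 ^ 8) := by
    refine le_of_mul_le_mul_right ?_ hB0
    linarith
  have h7 := (hbox (H ^ 6) (hHA₀.trans hH6)).2.2
  calc (E.card : ℝ) ≤ (box 7 (2 * H ^ 6)).card * (ε / 2 ^ 8) := h6
    _ ≤ (2 ^ 8 * (box 7 (H ^ 6)).card) * (ε / 2 ^ 8) := by gcongr
    _ = ε * (box 7 (H ^ 6)).card := by ring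

end Pool.Agent.DPO
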