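import Pool.Agent.DPO.Stm

/-!
# Project DPO, piece FIBQ (helper52)
-/

set_option autoImplicit false

namespace Pool.Agent.DPO

open Finset

namespace FibqAux

theorem bf_mul {d : ℕ} {R : Type*} [CommRing R] (g : Fin (d + 1) → ℤ) (l u v : R) :
    bf g (l * u) (l * v) = l ^ d * bf g u v := by
  unfold bf
  rw [mul_sum]
  refine sum_congr rfl fun i _ => ?_
  have h : (i : ℕ) ≤ d := Nat.lt_succ_iff.1 i.2
  have e : l ^ d = l ^ (d - (i : ℕ)) * l ^ (i : ℕ) := by rw [← pow_add, Nat.sub_add_cancel h]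
  rw [mul_pow, mul_pow, e]
  ring

theorem bf_cast {d : ℕ} {R : Type*} [CommRing R] (g : Fin (d + 1) → ℤ) (u v : ℤ) :
    ((bf g u v : ℤ) : R) = bf g (u : R) (v : R) := by
  unfold bf
  push_cast
  rfl

/-- the part of `D` which is coprime to `S` -/
theorem split_coprime (S : ℕ) : ∀ D : ℕ, 0 < D → ∃ D₁ D₂ : ℕ, D = D₁ * D₂ ∧
    (∀ p : ℕ, p.Prime → p ∣ D₁ → p ∣ S) ∧ Nat.Coprime D₂ S := by
  intro D
  induction D using Nat.strong_induction_on with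
  | _ D ih =>
    intro hD
    by_cases hc : Nat.Coprime D S
    · refine ⟨1, D, (one_mul D).symm, ?_, hc⟩
      intro p hp h1
      exact absurd (Nat.dvd_one.1 h1) hp.one_lt.ne'
    · rw [Nat.Prime.not_coprime_iff_dvd] at hc
      obtain ⟨p, hp, hpD, hpS⟩ := hc
      obtain ⟨E, hE⟩ := hpD
      have hE0 : 0 < E := by
        rcases Nat.eq_zero_or_pos E with h | h
        · rw [h, mul_zero] at hE; omega
        · exact h
      have hlt : E < D := by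
        rw [hE]
        nlinarith [hp.two_le]
      obtain ⟨D₁, D₂, h1, h2, h3⟩ := ih E hlt hE0
      refine ⟨p * D₁, D₂, by rw [hE, h1]; ring, ?_, h3⟩
      intro q hq hd
      rcases (hq.dvd_mul).1 hd with h | h
      · rw [(Nat.prime_dvd_prime_iff_eq hq hp).1 h]; exact hpS
      · exact h2 q hq h

/-- counting with a map to the integers -/
theorem icnt_map (h : S_ICNT) {α : Type*} [DecidableEq α] (s : Finset α) (φ : α → ℤ) (m : ℕ) (L : ℝ)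
    (hm : 0 < m) (hL : 0 ≤ L) (hinj : ∀ a ∈ s, ∀ b ∈ s, φ a = φ b → a = b)
    (hs : ∀ a ∈ s, ∀ b ∈ s, (m : ℤ) ∣ φ a - φ b ∧ |(φ a : ℝ) - φ b| ≤ L) :
    (s.card : ℝ) ≤ L / m + 1 := by
  have h1 : (s.image φ).card = s.card := card_image_of_injOn fun a ha b hb hab => hinj a ha b hb hab
  rw [← h1]
  refine h.1 (s.image φ) m L hm hL ?_
  intro a ha b hb
  obtain ⟨a', ha', rfl⟩ := mem_image.1 ha
  obtain ⟨b', hb', rfl⟩ := mem_image.1 hb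
  exact hs a' ha' b' hb'

theorem card_le_mul_image {α β : Type*} [DecidableEq α] [DecidableEq β] (s : Finset α) (f : α → β)
    (K : ℝ) (h : ∀ b ∈ s.image f, ((s.filter (fun a => f a = b)).card : ℝ) ≤ K) :
    (s.card : ℝ) ≤ K * (s.image f).card := by
  rw [card_eq_sum_card_image f s]
  push_cast
  calc ∑ b ∈ s.image f, ((s.filter (fun a => f a = b)).card : ℝ)
      ≤ ∑ b ∈ s.image f, K := sum_le_sum h
    _ = _ := by rw [sum_const, nsmul_eq_mul]; ring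

/-- counting quadruples -/
theorem count4 (h : S_ICNT) (s : Finset ((ℤ × ℤ) × (ℤ × ℤ))) (m₁ m₂ m₃ : ℕ) (L₁ L₂ L₃ : ℝ)
    (hm₁ : 0 < m₁) (hm₂ : 0 < m₂) (hm₃ : 0 < m₃) (hL₁ : 0 ≤ L₁) (hL₂ : 0 ≤ L₂) (hL₃ : 0 ≤ L₃)
    (h1 : ∀ a ∈ s, ∀ b ∈ s, (m₁ : ℤ) ∣ a.1.1 - b.1.1 ∧ |(a.1.1 : ℝ) - b.1.1| ≤ L₁)
    (h1' : ∀ a ∈ s, ∀ b ∈ s, (m₁ : ℤ) ∣ a.2.1 - b.2.1 ∧ |(a.2.1 : ℝ) - b.2.1| ≤ L₁)
    (h2 : ∀ a ∈ s, ∀ b ∈ s, a.1.1 = b.1.1 → (m₂ : ℤ) ∣ a.1.2 - b.1.2 ∧ |(a.1.2 : ℝ) - b.1.2| ≤ L₂)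
    (h3 : ∀ a ∈ s, ∀ b ∈ s, a.1 = b.1 → a.2.1 = b.2.1 →
      (m₃ : ℤ) ∣ a.2.2 - b.2.2 ∧ |(a.2.2 : ℝ) - b.2.2| ≤ L₃) :
    (s.card : ℝ) ≤ (L₃ / m₃ + 1) * ((L₁ / m₁ + 1) * ((L₂ / m₂ + 1) * (L₁ / m₁ + 1))) := by
  classical
  have hK : ∀ (L : ℝ) (m : ℕ), 0 ≤ L → 0 ≤ L / m + 1 := fun L m hL => by positivity
  -- first step
  have s1 : (s.card : ℝ) ≤ (L₃ / m₃ + 1) * (s.image (fun z => (z.1, z.2.1))).card := by
    refine card_le_mul_image s (fun z => (z.1, z.2.1)) _ ?_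
    intro b _
    refine icnt_map h _ (fun z => z.2.2) m₃ L₃ hm₃ hL₃ ?_ ?_
    · intro a ha a' ha' haa
      rw [mem_filter] at ha ha'
      obtain ⟨e1, e2⟩ := Prod.mk.inj (ha.2.trans ha'.2.symm)
      exact Prod.ext e1 (Prod.ext e2 haa)
    · intro a ha a' ha'
      rw [mem_filter] at ha ha'
      obtain ⟨e1, e2⟩ := Prod.mk.inj (ha.2.trans ha'.2.symm)
      exact h3 a ha.1 a' ha'.1 e1 e2
  have s2 : ((s.image (fun z => (z.1, z.2.1))).card : ℝ) ≤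
      (L₁ / m₁ + 1) * (s.image (fun z => z.1)).card := by
    have e0 : (s.image (fun z => (z.1, z.2.1))).image (fun u => u.1) = s.image (fun z => z.1) := by
      rw [image_image]; rfl
    rw [← e0]
    refine card_le_mul_image (s.image (fun z => (z.1, z.2.1))) (fun u => u.1) _ ?_
    intro b _
    refine icnt_map h _ (fun u => u.2) m₁ L₁ hm₁ hL₁ ?_ ?_
    · intro a ha a' ha' haa
      rw [mem_filter] at ha ha'
      exact Prod.ext (ha.2.trans ha'.2.symm) haa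
    · intro a ha a' ha'
      rw [mem_filter] at ha ha'
      obtain ⟨z, hz, rfl⟩ := mem_image.1 ha.1
      obtain ⟨z', hz', rfl⟩ := mem_image.1 ha'.1
      exact h1' z hz z' hz'
  have s3 : ((s.image (fun z => z.1)).card : ℝ) ≤
      (L₂ / m₂ + 1) * (s.image (fun z => z.1.1)).card := by
    have e0 : (s.image (fun z => z.1)).image (fun u => u.1) = s.image (fun z => z.1.1) := by
      rw [image_image]; rfl
    rw [← e0]
    refine card_le_mul_image (s.image (fun z => z.1)) (fun u => u.1) _ ?_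
    intro b _
    refine icnt_map h _ (fun u => u.2) m₂ L₂ hm₂ hL₂ ?_ ?_
    · intro a ha a' ha' haa
      rw [mem_filter] at ha ha'
      exact Prod.ext (ha.2.trans ha'.2.symm) haa
    · intro a ha a' ha'
      rw [mem_filter] at ha ha'
      have e := ha.2.trans ha'.2.symm
      obtain ⟨z, hz, rfl⟩ := mem_image.1 ha.1
      obtain ⟨z', hz', rfl⟩ := mem_image.1 ha'.1
      exact h2 z hz z' hz' e
  have s4 : ((s.image (fun z => z.1.1)).card : ℝ) ≤ L₁ / m₁ + 1 := by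
    refine icnt_map h _ (fun u => u) m₁ L₁ hm₁ hL₁ (fun a _ b _ hab => hab) ?_
    intro a ha a' ha'
    obtain ⟨z, hz, rfl⟩ := mem_image.1 ha
    obtain ⟨z', hz', rfl⟩ := mem_image.1 ha'
    exact h1 z hz z' hz'
  calc (s.card : ℝ) ≤ (L₃ / m₃ + 1) * (s.image (fun z => (z.1, z.2.1))).card := s1
    _ ≤ (L₃ / m₃ + 1) * ((L₁ / m₁ + 1) * (s.image (fun z => z.1)).card) :=
        mul_le_mul_of_nonneg_left s2 (hK _ _ hL₃)
    _ ≤ (L₃ / m₃ + 1) * ((L₁ / m₁ + 1) * ((L₂ / m₂ + 1) * (s.image (fun z => z.1.1)).card)) :=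
        mul_le_mul_of_nonneg_left (mul_le_mul_of_nonneg_left s3 (hK _ _ hL₁)) (hK _ _ hL₃)
    _ ≤ _ := mul_le_mul_of_nonneg_left (mul_le_mul_of_nonneg_left
        (mul_le_mul_of_nonneg_left s4 (hK _ _ hL₂)) (hK _ _ hL₁)) (hK _ _ hL₃)

/-- two numbers with close squares -/
theorem sq_close {Y L y y' : ℝ} (hY : 0 < Y) (h : Y ≤ y) (h' : Y ≤ y') (hL : |y ^ 2 - y' ^ 2| ≤ 2 * L) :
    |y - y'| ≤ L / Y := by
  rw [le_div_iff₀ hY]
  have e : |y ^ 2 - y' ^ 2| = |y - y'| * (y + y') := by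
    rw [sq_sub_sq, abs_mul, abs_of_pos (by linarith : 0 < y + y')]
    ring
  rw [e] at hL
  have := mul_le_mul_of_nonneg_left (by linarith : 2 * Y ≤ y + y') (abs_nonneg (y - y'))
  linarith

theorem coprime_of_J {w : ℕ} {C : Cls} (hw : 2 ≤ w) (h : PD w C) : C.J ∣ C.S := by
  have := h.hpJ 2 Nat.prime_two hw
  exact (dvd_mul_left _ _).trans this


theorem det2_le {γ C₀ ρ η κ τ H : ℝ} {C : Cls} {R : Rcl} (hC : 0 ≤ C₀)
    (hRD : RD γ C₀ ρ η κ τ H C R)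
    {p q : ℤ × ℤ} (hp : p ∈ setU H ρ C R) (hq : q ∈ setU H ρ C R) :
    |(det2 p q : ℝ)| ≤ 2 * C₀ ^ 2 * H ^ 4 := by
  rw [mem_setU] at hp hq
  obtain ⟨-, a1, a2⟩ := hRD.hu _ _ hp.1
  obtain ⟨-, b1, b2⟩ := hRD.hu _ _ hq.1
  have e : (det2 p q : ℝ) = (p.1 : ℝ) * q.2 - p.2 * q.1 := by
    unfold det2; push_cast; ring
  rw [e]
  have h0 : 0 ≤ C₀ * H ^ 2 := by positivity
  have c1 : |(p.1 : ℝ) * q.2| ≤ C₀ * H ^ 2 * (C₀ * H ^ 2) := by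
    rw [abs_mul]; exact mul_le_mul a1 b2 (abs_nonneg _) h0
  have c2 : |(p.2 : ℝ) * q.1| ≤ C₀ * H ^ 2 * (C₀ * H ^ 2) := by
    rw [abs_mul]; exact mul_le_mul a2 b1 (abs_nonneg _) h0
  have := abs_sub (((p.1 : ℝ) * q.2)) ((p.2 : ℝ) * q.1)
  calc |(p.1 : ℝ) * q.2 - p.2 * q.1| ≤ |(p.1 : ℝ) * q.2| + |(p.2 : ℝ) * q.1| := abs_sub _ _
    _ ≤ C₀ * H ^ 2 * (C₀ * H ^ 2) + C₀ * H ^ 2 * (C₀ * H ^ 2) := add_le_add c1 c2
    _ = _ := by ring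

theorem pow4_le {e ε : ℝ} (he0 : 0 ≤ e) (he1 : e ≤ 1) (h : 15 * e ≤ ε) : (1 + e) ^ 4 ≤ 1 + ε := by
  have s2 : e ^ 2 ≤ e := pow_le_of_le_one he0 he1 (by norm_num)
  have s3 : e ^ 3 ≤ e := pow_le_of_le_one he0 he1 (by norm_num)
  have s4 : e ^ 4 ≤ e := pow_le_of_le_one he0 he1 (by norm_num)
  have e1 : (1 + e) ^ 4 = 1 + 4 * e + 6 * e ^ 2 + 4 * e ^ 3 + e ^ 4 := by ring
  rw [e1]
  linarith

/-- the residues modulo the coprime part lie in the set of QUAD -/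
theorem fib_res {C : Cls} {p q : ℤ × ℤ} {l : ℤ} {n : ℕ} [NeZero n] (hn : (n : ℤ) ∣ det2 p q)
    (h1 : det2 p q ∣ q.1 - l * p.1) (h2 : det2 p q ∣ q.2 - l * p.2)
    (x y x' y' : ℤ) (h3 : ((C.S * C.J : ℕ) : ℤ) * det2 p q ∣ Psi C.b C.c q.1 q.2 x' y' -
        l ^ 6 * Psi C.b C.c p.1 p.2 x y) :
    (y' : ZMod n) ^ 2 - (x' : ZMod n) ^ 3 -
      (l : ZMod n) ^ 4 * ((bf C.b p.1 p.2 : ℤ) : ZMod n) * (x' : ZMod n) =
      (l : ZMod n) ^ 6 * ((y : ZMod n) ^ 2 - (x : ZMod n) ^ 3 -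
        ((bf C.b p.1 p.2 : ℤ) : ZMod n) * (x : ZMod n)) := by
  have q1 : (q.1 : ZMod n) = (l : ZMod n) * (p.1 : ZMod n) := by
    have := (ZMod.intCast_zmod_eq_zero_iff_dvd (q.1 - l * p.1) n).2 (hn.trans h1)
    push_cast at this
    exact sub_eq_zero.1 this
  have q2 : (q.2 : ZMod n) = (l : ZMod n) * (p.2 : ZMod n) := by
    have := (ZMod.intCast_zmod_eq_zero_iff_dvd (q.2 - l * p.2) n).2 (hn.trans h2)
    push_cast at this
    exact sub_eq_zero.1 this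
  have hb : ((bf C.b q.1 q.2 : ℤ) : ZMod n) = (l : ZMod n) ^ 4 * ((bf C.b p.1 p.2 : ℤ) : ZMod n) := by
    rw [bf_cast, bf_cast, q1, q2, bf_mul]
  have hc : ((bf C.c q.1 q.2 : ℤ) : ZMod n) = (l : ZMod n) ^ 6 * ((bf C.c p.1 p.2 : ℤ) : ZMod n) := by
    rw [bf_cast, bf_cast, q1, q2, bf_mul]
  have h4 := (ZMod.intCast_zmod_eq_zero_iff_dvd _ n).2
    (hn.trans ((dvd_mul_left _ _).trans h3))
  unfold Psi at h4
  push_cast at h4
  rw [hb, hc] at h4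
  linear_combination h4

end FibqAux

open FibqAux

theorem t_FIBQ (h : S_ICNT) (hQ : S_QUAD) (hU : S_UNI) : S_FIBQ := by
  classical
  intro γ C₀ ρ η κ τ c ε hCst hc hε Q₀
  obtain ⟨e, hedef⟩ : ∃ e : ℝ, e = min 1 (ε / 15) := ⟨_, rfl⟩
  have he0 : 0 < e := by rw [hedef]; exact lt_min one_pos (by positivity)
  have he1 : e ≤ 1 := by rw [hedef]; exact min_le_left _ _
  have heε : 15 * e ≤ ε := by
    have : e ≤ ε / 15 := by rw [hedef]; exact min_le_right _ _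
    linarith
  have hC1 := hCst.C1
  have hC0 : 0 < C₀ := by linarith
  have hρ0 := hCst.ρ0
  have hγ0 := hCst.γ0
  have hQ0 : (0 : ℝ) ≤ Q₀ := Nat.cast_nonneg _
  refine ⟨1 + Q₀ * C₀ ^ 2 / (ρ * e) + 2 * C₀ ^ 3 / (c * e), ?_, ?_⟩
  · have : 0 ≤ Q₀ * C₀ ^ 2 / (ρ * e) := by positivity
    have : 0 ≤ 2 * C₀ ^ 3 / (c * e) := by positivity
    linarith
  intro H hH w C R hw hPD hRD hSJ p hp q hq hdet l hl1 hl2 t t'
  have k1 : 0 ≤ Q₀ * C₀ ^ 2 / (ρ * e) := by positivity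
  have k2 : 0 ≤ 2 * C₀ ^ 3 / (c * e) := by positivity
  have hH1 : 1 ≤ H := by linarith
  have hH0 : 0 < H := by linarith
  have hHa : Q₀ * C₀ ^ 2 ≤ H * (ρ * e) := by
    rw [← div_le_iff₀ (by positivity)]; linarith
  have hHb : 2 * C₀ ^ 3 ≤ H * (c * e) := by
    rw [← div_le_iff₀ (by positivity)]; linarith
  have hS0 : 0 < C.S := hPD.hS
  have hJ0 : 0 < C.J := hPD.hJ
  have hSr : (0 : ℝ) < C.S := by exact_mod_cast hS0
  have hJr : (0 : ℝ) < C.J := by exact_mod_cast hJ0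
  have hJ1 : (1 : ℝ) ≤ C.J := by exact_mod_cast hJ0
  have hJS : C.J ∣ C.S := coprime_of_J (by omega) hPD
  have hY1 : 0 < R.Y₁ := lt_of_lt_of_le hγ0 hRD.hY1
  have hY1C : R.Y₁ ≤ C₀ := hRD.hY12.trans hRD.hY2
  -- the decomposition of the determinant
  obtain ⟨D, hDdef⟩ : ∃ D : ℕ, D = (det2 p q).natAbs := ⟨_, rfl⟩
  have hD0 : 0 < D := by rw [hDdef]; exact Int.natAbs_pos.2 hdet
  have hDr : (0 : ℝ) < D := by exact_mod_cast hD0
  have hDabs : |(det2 p q : ℝ)| = D := by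
    rw [hDdef]
    have := Nat.cast_natAbs (α := ℝ) (det2 p q)
    rw [this]; push_cast; rfl
  obtain ⟨D₁, D₂, hD12, hD₁, hD₂⟩ := split_coprime C.S D hD0
  have hD₁0 : 0 < D₁ := by
    rcases Nat.eq_zero_or_pos D₁ with h0 | h0
    · rw [h0, zero_mul] at hD12; omega
    · exact h0
  have hD₂0 : 0 < D₂ := by
    rcases Nat.eq_zero_or_pos D₂ with h0 | h0
    · rw [h0, mul_zero] at hD12; omega
    · exact h0
  have : NeZero D₂ := ⟨hD₂0.ne'⟩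
  have hD₂r : (0 : ℝ) < D₂ := by exact_mod_cast hD₂0
  have hDle : (D : ℝ) ≤ 2 * C₀ ^ 2 * H ^ 4 := by
    rw [← hDabs]; exact det2_le hC0.le hRD hp hq
  have hD₂D : (D₂ : ℝ) ≤ D := by
    exact_mod_cast Nat.le_of_dvd hD0 ⟨D₁, by rw [hD12]; ring⟩
  have hD₂det : (D₂ : ℤ) ∣ det2 p q :=
    Int.natCast_dvd.2 (by rw [← hDdef, hD12]; exact dvd_mul_left _ _)
  have hD₁det : (D₁ : ℤ) ∣ det2 p q :=
    Int.natCast_dvd.2 (by rw [← hDdef, hD12]; exact dvd_mul_right _ _)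
  have hcopJ : Nat.Coprime D₂ C.J := Nat.Coprime.coprime_dvd_right hJS hD₂
  have hcopSJ : Nat.Coprime (C.S * C.J) D₂ := (Nat.Coprime.mul_right hD₂ hcopJ).symm
  have hcop12 : Nat.Coprime D₁ D₂ := by
    by_contra hcon
    rw [Nat.Prime.not_coprime_iff_dvd] at hcon
    obtain ⟨r, hr, hr1, hr2⟩ := hcon
    have := hD₁ r hr hr1
    exact Nat.Prime.not_coprime_iff_dvd.2 ⟨r, hr, hr2, this⟩ hD₂
  have hRough : Rough D₂ := by
    refine ⟨hD₂0, fun r hr hrd => ?_⟩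
    by_contra hlt
    have hrw : r ≤ w := by omega
    have := hPD.hpJ r hr hrw
    exact Nat.Prime.not_coprime_iff_dvd.2 ⟨r, hr, hrd, (dvd_mul_right _ _).trans this⟩ hD₂
  -- `l` is a unit
  have hunit : IsUnit ((l : ℤ) : ZMod D₂) := by
    rw [ZMod.coe_int_isUnit_iff_isCoprime]
    rw [mem_setU] at hq
    obtain ⟨a, b, hab⟩ := Int.isCoprime_iff_gcd_eq_one.2 hq.2.2.2
    obtain ⟨k₁, hk₁⟩ := hD₂det.trans hl1
    obtain ⟨k₂, hk₂⟩ := hD₂det.trans hl2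
    refine ⟨a * k₁ + b * k₂, a * p.1 + b * p.2, ?_⟩
    have e1 : q.1 = l * p.1 + D₂ * k₁ := by linarith
    have e2 : q.2 = l * p.2 + D₂ * k₂ := by linarith
    rw [e1, e2] at hab
    linear_combination hab
  -- the sets
  obtain ⟨Z, hZdef⟩ : ∃ Z, Z = ((setX H ρ C R ×ˢ setY H C R) ×ˢ (setX H ρ C R ×ˢ setY H C R)).filter
      (fun z =>
      |((Psi C.b C.c p.1 p.2 z.1.1 z.1.2 - t : ℤ) : ℝ)| ≤ (C.S * C.J : ℕ) * (c * H ^ 18) ∧
      |((Psi C.b C.c q.1 q.2 z.2.1 z.2.2 - t' : ℤ) : ℝ) - ((q.1 : ℝ) / p.1) ^ 6 *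
        ((Psi C.b C.c p.1 p.2 z.1.1 z.1.2 - t : ℤ) : ℝ)| ≤
        (C.S * C.J : ℕ) * (c * |(det2 p q : ℝ)| * H ^ 14) ∧
      ((C.S * C.J : ℕ) : ℤ) * det2 p q ∣ Psi C.b C.c q.1 q.2 z.2.1 z.2.2 -
        l ^ 6 * Psi C.b C.c p.1 p.2 z.1.1 z.1.2) := ⟨_, rfl⟩
  rw [← hZdef]
  have hZ : ∀ z ∈ Z, (z.1.1 ∈ setX H ρ C R ∧ z.1.2 ∈ setY H C R) ∧
      (z.2.1 ∈ setX H ρ C R ∧ z.2.2 ∈ setY H C R) ∧
      |((Psi C.b C.c p.1 p.2 z.1.1 z.1.2 - t : ℤ) : ℝ)| ≤ (C.S * C.J : ℕ) * (c * H ^ 18) ∧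
      |((Psi C.b C.c q.1 q.2 z.2.1 z.2.2 - t' : ℤ) : ℝ) - ((q.1 : ℝ) / p.1) ^ 6 *
        ((Psi C.b C.c p.1 p.2 z.1.1 z.1.2 - t : ℤ) : ℝ)| ≤
        (C.S * C.J : ℕ) * (c * |(det2 p q : ℝ)| * H ^ 14) ∧
      ((C.S * C.J : ℕ) : ℤ) * det2 p q ∣ Psi C.b C.c q.1 q.2 z.2.1 z.2.2 -
        l ^ 6 * Psi C.b C.c p.1 p.2 z.1.1 z.1.2 := by
    intro z hz
    rw [hZdef, mem_filter, mem_product, mem_product, mem_product] at hz
    exact ⟨hz.1.1, hz.1.2, hz.2⟩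
  obtain ⟨QS, hQSdef⟩ : ∃ QS, QS = (univ.filter
      (fun z : (ZMod D₂ × ZMod D₂) × (ZMod D₂ × ZMod D₂) =>
      z.2.2 ^ 2 - z.2.1 ^ 3 - ((l : ℤ) : ZMod D₂) ^ 4 * ((bf C.b p.1 p.2 : ℤ) : ZMod D₂) * z.2.1 =
        ((l : ℤ) : ZMod D₂) ^ 6 * (z.1.2 ^ 2 - z.1.1 ^ 3 - ((bf C.b p.1 p.2 : ℤ) : ZMod D₂) * z.1.1))) :=
    ⟨_, rfl⟩
  have hQS := hQ D₂ hRough ((bf C.b p.1 p.2 : ℤ) : ZMod D₂) ((l : ℤ) : ZMod D₂) hunit
  rw [← hQSdef] at hQS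
  obtain ⟨res, hres⟩ : ∃ res : (ℤ × ℤ) × (ℤ × ℤ) → (ZMod D₂ × ZMod D₂) × (ZMod D₂ × ZMod D₂),
      ∀ z, res z = (((z.1.1 : ZMod D₂), (z.1.2 : ZMod D₂)), ((z.2.1 : ZMod D₂), (z.2.2 : ZMod D₂))) :=
    ⟨_, fun _ => rfl⟩
  have hmaps : ∀ z ∈ Z, res z ∈ QS := by
    intro z hz
    obtain ⟨-, -, -, -, h5⟩ := hZ z hz
    rw [hQSdef, mem_filter, hres]
    refine ⟨mem_univ _, ?_⟩
    exact fib_res hD₂det hl1 hl2 _ _ _ _ h5
  -- the number of the quadruples with given residues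
  obtain ⟨L₂, hL₂⟩ : ∃ L₂ : ℝ, L₂ = (C.S * C.J : ℕ) * (c * H ^ 18) / (R.Y₁ * H ^ 9) := ⟨_, rfl⟩
  obtain ⟨L₃, hL₃⟩ : ∃ L₃ : ℝ, L₃ = (C.S * C.J : ℕ) * (c * D * H ^ 14) / (R.Y₁ * H ^ 9) := ⟨_, rfl⟩
  have hYH : 0 < R.Y₁ * H ^ 9 := by positivity
  have hdvdsub : ∀ {m : ℤ} {a b r : ℤ}, m ∣ a - r → m ∣ b - r → m ∣ a - b := by
    intro m a b r ha hb
    have := dvd_sub ha hb
    rwa [sub_sub_sub_cancel_right] at this
  have hresd : ∀ {a b : ℤ}, (a : ZMod D₂) = (b : ZMod D₂) → (D₂ : ℤ) ∣ a - b := by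
    intro a b hab
    have := (ZMod.intCast_eq_intCast_iff_dvd_sub b a D₂).1 hab.symm
    exact this
  have hfib : ∀ r ∈ QS, (((Z.filter (fun z => res z = r)).card : ℕ) : ℝ) ≤
      (L₃ / ((C.S * D : ℕ) : ℝ) + 1) * ((2 * ρ * H ^ 6 / ((C.S * C.J * D₂ : ℕ) : ℝ) + 1) *
        ((L₂ / ((C.S * D₂ : ℕ) : ℝ) + 1) * (2 * ρ * H ^ 6 / ((C.S * C.J * D₂ : ℕ) : ℝ) + 1))) := by
    intro r _
    have hx : ∀ x x₂ : ℤ, x ∈ setX H ρ C R → x₂ ∈ setX H ρ C R → (x : ZMod D₂) = (x₂ : ZMod D₂) →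
        ((C.S * C.J * D₂ : ℕ) : ℤ) ∣ x - x₂ ∧ |(x : ℝ) - x₂| ≤ 2 * ρ * H ^ 6 := by
      intro x x₂ hx hx₂ hr
      rw [mem_setX] at hx hx₂
      refine ⟨?_, ?_⟩
      · rw [Nat.cast_mul (C.S * C.J) D₂]
        exact (Nat.isCoprime_iff_coprime.2 hcopSJ).mul_dvd (hdvdsub hx.2 hx₂.2) (hresd hr)
      · have a1 := abs_le.1 hx.1
        have a2 := abs_le.1 hx₂.1
        rw [abs_le]
        constructor <;> linarith [a1.1, a1.2, a2.1, a2.2]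
    refine count4 h _ _ _ _ _ _ _ (by positivity) (by positivity) (by positivity) (by positivity)
      (by rw [hL₂]; positivity) (by rw [hL₃]; positivity) ?_ ?_ ?_ ?_
    · intro a ha b hb
      rw [mem_filter] at ha hb
      have er := ha.2.trans hb.2.symm
      rw [hres, hres] at er
      obtain ⟨e1, e2⟩ := Prod.mk.inj er
      obtain ⟨e11, e12⟩ := Prod.mk.inj e1
      exact hx _ _ (hZ a ha.1).1.1 (hZ b hb.1).1.1 e11
    · intro a ha b hb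
      rw [mem_filter] at ha hb
      have er := ha.2.trans hb.2.symm
      rw [hres, hres] at er
      obtain ⟨e1, e2⟩ := Prod.mk.inj er
      obtain ⟨e21, e22⟩ := Prod.mk.inj e2
      exact hx _ _ (hZ a ha.1).2.1.1 (hZ b hb.1).2.1.1 e21
    · intro a ha b hb hab
      rw [mem_filter] at ha hb
      have er := ha.2.trans hb.2.symm
      rw [hres, hres] at er
      obtain ⟨e1, e2⟩ := Prod.mk.inj er
      obtain ⟨e11, e12⟩ := Prod.mk.inj e1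
      obtain ⟨⟨-, ay⟩, -, a3, -, -⟩ := hZ a ha.1
      obtain ⟨⟨-, by'⟩, -, b3, -, -⟩ := hZ b hb.1
      rw [mem_setY] at ay by'
      refine ⟨?_, ?_⟩
      · rw [Nat.cast_mul]
        exact (Nat.isCoprime_iff_coprime.2 hD₂.symm).mul_dvd (hdvdsub ay.2 by'.2) (hresd e12)
      · rw [hL₂]
        refine sq_close hYH ay.1.1 by'.1.1 ?_
        have e3 : (a.1.2 : ℝ) ^ 2 - (b.1.2 : ℝ) ^ 2 =
            ((Psi C.b C.c p.1 p.2 a.1.1 a.1.2 - t : ℤ) : ℝ) -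
            ((Psi C.b C.c p.1 p.2 b.1.1 b.1.2 - t : ℤ) : ℝ) := by
          rw [hab]
          unfold Psi
          push_cast
          ring
        rw [e3]
        refine (abs_sub _ _).trans ?_
        linarith
    · intro a ha b hb hab hab'
      rw [mem_filter] at ha hb
      have er := ha.2.trans hb.2.symm
      rw [hres, hres] at er
      obtain ⟨e1, e2⟩ := Prod.mk.inj er
      obtain ⟨e21, e22⟩ := Prod.mk.inj e2
      obtain ⟨-, ⟨-, ay⟩, -, a4, a5⟩ := hZ a ha.1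
      obtain ⟨-, ⟨-, by'⟩, -, b4, b5⟩ := hZ b hb.1
      rw [mem_setY] at ay by'
      rw [hab] at a4 a5
      refine ⟨?_, ?_⟩
      · have hd : ((C.S * C.J : ℕ) : ℤ) * det2 p q ∣ a.2.2 ^ 2 - b.2.2 ^ 2 := by
          have h6 := dvd_sub a5 b5
          have e3 : Psi C.b C.c q.1 q.2 a.2.1 a.2.2 - l ^ 6 * Psi C.b C.c p.1 p.2 b.1.1 b.1.2 -
              (Psi C.b C.c q.1 q.2 b.2.1 b.2.2 - l ^ 6 * Psi C.b C.c p.1 p.2 b.1.1 b.1.2) =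
              a.2.2 ^ 2 - b.2.2 ^ 2 := by
            rw [hab']
            unfold Psi
            ring
          rwa [e3] at h6
        have hd1 : ((C.S * C.J * D₁ : ℕ) : ℤ) ∣ a.2.2 ^ 2 - b.2.2 ^ 2 := by
          rw [Nat.cast_mul (C.S * C.J) D₁]
          exact (mul_dvd_mul_left _ hD₁det).trans hd
        have hd2 := hU w C (by omega) hPD D₁ hD₁0 hD₁ _ _ ay.2 by'.2 hd1
        have hcop : Nat.Coprime (C.S * D₁) D₂ := Nat.Coprime.mul_left hD₂.symm hcop12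
        have e4 : ((C.S * D : ℕ) : ℤ) = ((C.S * D₁ : ℕ) : ℤ) * (D₂ : ℤ) := by
          rw [hD12]; push_cast; ring
        rw [e4]
        exact (Nat.isCoprime_iff_coprime.2 hcop).mul_dvd hd2 (hresd e22)
      · rw [hL₃]
        refine sq_close hYH ay.1.1 by'.1.1 ?_
        have e3 : (a.2.2 : ℝ) ^ 2 - (b.2.2 : ℝ) ^ 2 =
            (((Psi C.b C.c q.1 q.2 a.2.1 a.2.2 - t' : ℤ) : ℝ) - ((q.1 : ℝ) / p.1) ^ 6 *
              ((Psi C.b C.c p.1 p.2 b.1.1 b.1.2 - t : ℤ) : ℝ)) -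
            (((Psi C.b C.c q.1 q.2 b.2.1 b.2.2 - t' : ℤ) : ℝ) - ((q.1 : ℝ) / p.1) ^ 6 *
              ((Psi C.b C.c p.1 p.2 b.1.1 b.1.2 - t : ℤ) : ℝ)) := by
          rw [hab']
          unfold Psi
          push_cast
          ring
        rw [e3]
        refine (abs_sub _ _).trans ?_
        rw [hDabs] at a4 b4
        linarith
  -- the numerical part
  obtain ⟨A₁, hA₁⟩ : ∃ A₁ : ℝ, A₁ = 2 * ρ * H ^ 6 / ((C.S * C.J * D₂ : ℕ) : ℝ) := ⟨_, rfl⟩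
  obtain ⟨A₂, hA₂⟩ : ∃ A₂ : ℝ, A₂ = L₂ / ((C.S * D₂ : ℕ) : ℝ) := ⟨_, rfl⟩
  obtain ⟨A₃, hA₃⟩ : ∃ A₃ : ℝ, A₃ = L₃ / ((C.S * D : ℕ) : ℝ) := ⟨_, rfl⟩
  have hA₂' : A₂ = C.J * c * H ^ 9 / (R.Y₁ * D₂) := by
    rw [hA₂, hL₂]; push_cast; field_simp
  have hA₃' : A₃ = C.J * c * H ^ 5 / R.Y₁ := by
    rw [hA₃, hL₃]; push_cast; field_simp
  have hA₁' : A₁ = 2 * ρ * H ^ 6 / (C.S * C.J * D₂) := by
    rw [hA₁]; push_cast; rfl
  have p1 : 0 < A₁ := by rw [hA₁']; positivity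
  have p2 : 0 < A₂ := by rw [hA₂']; positivity
  have p3 : 0 < A₃ := by rw [hA₃']; positivity
  have hSJr : (C.S : ℝ) * C.J ≤ Q₀ := by exact_mod_cast hSJ
  have hD₂le : (D₂ : ℝ) ≤ 2 * C₀ ^ 2 * H ^ 4 := hD₂D.trans hDle
  have o1 : 1 ≤ e * A₁ := by
    rw [hA₁', ← mul_div_assoc, le_div_iff₀ (by positivity), one_mul]
    calc (C.S : ℝ) * C.J * D₂ ≤ Q₀ * (2 * C₀ ^ 2 * H ^ 4) :=
          mul_le_mul hSJr hD₂le hD₂r.le hQ0
      _ = (Q₀ * C₀ ^ 2) * (2 * H ^ 4) := by ring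
      _ ≤ (H * (ρ * e)) * (2 * H ^ 4) := mul_le_mul_of_nonneg_right hHa (by positivity)
      _ = e * (2 * ρ * H ^ 5) := by ring
      _ ≤ e * (2 * ρ * H ^ 6) := by
          apply mul_le_mul_of_nonneg_left _ he0.le
          apply mul_le_mul_of_nonneg_left _ (by positivity)
          exact pow_le_pow_right₀ hH1 (by norm_num)
  have o2 : 1 ≤ e * A₂ := by
    rw [hA₂', ← mul_div_assoc, le_div_iff₀ (by positivity), one_mul]
    calc R.Y₁ * D₂ ≤ C₀ * (2 * C₀ ^ 2 * H ^ 4) := mul_le_mul hY1C hD₂le hD₂r.le hC0.le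
      _ = (2 * C₀ ^ 3) * H ^ 4 := by ring
      _ ≤ (H * (c * e)) * H ^ 4 := mul_le_mul_of_nonneg_right hHb (by positivity)
      _ = e * (1 * c * H ^ 5) := by ring
      _ ≤ e * (C.J * c * H ^ 9) := by
          apply mul_le_mul_of_nonneg_left _ he0.le
          apply mul_le_mul _ _ (by positivity) (by positivity)
          · exact mul_le_mul_of_nonneg_right hJ1 hc.le
          · exact pow_le_pow_right₀ hH1 (by norm_num)
  have o3 : 1 ≤ e * A₃ := by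
    rw [hA₃', ← mul_div_assoc, le_div_iff₀ (by positivity), one_mul]
    have hC3 : C₀ ≤ 2 * C₀ ^ 3 := by
      have : C₀ ^ 1 ≤ C₀ ^ 3 := pow_le_pow_right₀ hC1 (by norm_num)
      rw [pow_one] at this
      have : 0 < C₀ ^ 3 := by positivity
      linarith
    calc R.Y₁ ≤ 2 * C₀ ^ 3 := hY1C.trans hC3
      _ ≤ H * (c * e) := hHb
      _ = e * (1 * c * H ^ 1) := by ring
      _ ≤ e * (C.J * c * H ^ 5) := by
          apply mul_le_mul_of_nonneg_left _ he0.le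
          apply mul_le_mul _ _ (by positivity) (by positivity)
          · exact mul_le_mul_of_nonneg_right hJ1 hc.le
          · exact pow_le_pow_right₀ hH1 (by norm_num)
  have hK : (A₃ + 1) * ((A₁ + 1) * ((A₂ + 1) * (A₁ + 1))) ≤ (1 + ε) * (A₃ * (A₁ * (A₂ * A₁))) := by
    have q1 : A₁ + 1 ≤ (1 + e) * A₁ := by linarith
    have q2 : A₂ + 1 ≤ (1 + e) * A₂ := by linarith
    have q3 : A₃ + 1 ≤ (1 + e) * A₃ := by linarith
    calc (A₃ + 1) * ((A₁ + 1) * ((A₂ + 1) * (A₁ + 1)))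
        ≤ ((1 + e) * A₃) * (((1 + e) * A₁) * (((1 + e) * A₂) * ((1 + e) * A₁))) := by
          apply mul_le_mul q3 _ (by positivity) (by positivity)
          apply mul_le_mul q1 _ (by positivity) (by positivity)
          exact mul_le_mul q2 q1 (by positivity) (by positivity)
      _ = (1 + e) ^ 4 * (A₃ * (A₁ * (A₂ * A₁))) := by ring
      _ ≤ (1 + ε) * (A₃ * (A₁ * (A₂ * A₁))) := by
          apply mul_le_mul_of_nonneg_right _ (by positivity)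
          exact pow4_le he0.le he1 heε
  have hprodA : (D₂ : ℝ) ^ 3 * (A₃ * (A₁ * (A₂ * A₁))) =
      (2 * ρ * c / (C.S * R.Y₁)) ^ 2 * H ^ 26 := by
    rw [hA₁', hA₂', hA₃']
    field_simp
  have hGf : ∑ δ ∈ D₂.divisors, ((δ : ℝ) ^ (1 / 6 : ℝ))⁻¹ ≤ Gf C.S (det2 p q).natAbs := by
    unfold Gf
    refine sum_le_sum_of_subset_of_nonneg ?_ (fun i _ _ => by positivity)
    intro δ hδ
    rw [Nat.mem_divisors] at hδ
    rw [mem_filter, Nat.mem_divisors]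
    refine ⟨⟨?_, Int.natAbs_ne_zero.2 hdet⟩, Nat.Coprime.coprime_dvd_left hδ.1 hD₂⟩
    rw [← hDdef, hD12]
    exact hδ.1.trans (dvd_mul_left _ _)
  have hGf0 : 0 ≤ ∑ δ ∈ D₂.divisors, ((δ : ℝ) ^ (1 / 6 : ℝ))⁻¹ :=
    sum_nonneg fun i _ => by positivity
  have hcardZ : (Z.card : ℝ) ≤ (QS.card : ℝ) * ((A₃ + 1) * ((A₁ + 1) * ((A₂ + 1) * (A₁ + 1)))) := by
    rw [card_eq_sum_card_fiberwise (f := res) (t := QS) hmaps]
    push_cast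
    calc ∑ r ∈ QS, (((Z.filter (fun z => res z = r)).card : ℕ) : ℝ)
        ≤ ∑ r ∈ QS, ((A₃ + 1) * ((A₁ + 1) * ((A₂ + 1) * (A₁ + 1)))) := by
          refine sum_le_sum fun r hr => ?_
          rw [hA₁, hA₂, hA₃]
          exact hfib r hr
      _ = _ := by rw [sum_const, nsmul_eq_mul]
  calc (Z.card : ℝ) ≤ (QS.card : ℝ) * ((A₃ + 1) * ((A₁ + 1) * ((A₂ + 1) * (A₁ + 1)))) := hcardZ
    _ ≤ (QS.card : ℝ) * ((1 + ε) * (A₃ * (A₁ * (A₂ * A₁)))) :=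
        mul_le_mul_of_nonneg_left hK (Nat.cast_nonneg _)
    _ ≤ ((D₂ : ℝ) ^ 3 * ∑ δ ∈ D₂.divisors, ((δ : ℝ) ^ (1 / 6 : ℝ))⁻¹) *
          ((1 + ε) * (A₃ * (A₁ * (A₂ * A₁)))) :=
        mul_le_mul_of_nonneg_right hQS (by positivity)
    _ = (1 + ε) * (∑ δ ∈ D₂.divisors, ((δ : ℝ) ^ (1 / 6 : ℝ))⁻¹) *
          ((D₂ : ℝ) ^ 3 * (A₃ * (A₁ * (A₂ * A₁)))) := by ring
    _ ≤ (1 + ε) * Gf C.S (det2 p q).natAbs * ((D₂ : ℝ) ^ 3 * (A₃ * (A₁ * (A₂ * A₁)))) := by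
        apply mul_le_mul_of_nonneg_right _ (by positivity)
        exact mul_le_mul_of_nonneg_left hGf (by positivity)
    _ = _ := by rw [hprodA]; ring

end Pool.Agent.DPO
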