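import Pool.Agent.DPO.Stm2

/-!
# Project DPO, piece FULL

Weak approximation for the local points whose last coordinate is not small implies weak
approximation for all local points, if every local point is close to such a point.
-/

set_option autoImplicit false

namespace Pool.Agent.DPO

private theorem wt_ne (i : Fin 4) : wt i ≠ 0 := by
  fin_cases i <;> simp [wt]

private theorem sc_pos {H : ℝ} (hH : 0 < H) (i : Fin 4) : 0 < sc H i := by
  fin_cases i <;> simp [sc] <;> positivity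

private theorem normP_unit {p : ℕ} [Fact p.Prime] {β : ℚ_[p]} {Z : Fin 4 → ℚ_[p]}
    (h1 : NormP p 1 Z) (h2 : NormP p β Z) : ‖β‖ = 1 := by
  obtain ⟨h1a, i, hi⟩ := h1
  obtain ⟨h2a, j, hj⟩ := h2
  simp only [one_pow, one_mul] at h1a hi
  apply le_antisymm
  · have h := h2a i
    rw [norm_mul, norm_pow, hi, mul_one] at h
    by_contra hc
    push Not at hc
    have := one_lt_pow₀ hc (wt_ne i)
    linarith
  · by_contra hc
    push Not at hc
    have h3 : ‖β‖ ^ wt j < 1 := pow_lt_one₀ (norm_nonneg _) hc (wt_ne j)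
    rw [norm_mul, norm_pow] at hj
    have h4 := h1a j
    have h5 : ‖β‖ ^ wt j * ‖Z j‖ ≤ ‖β‖ ^ wt j * 1 :=
      mul_le_mul_of_nonneg_left h4 (by positivity)
    linarith

private theorem normR_unit {H β : ℝ} (hH : 0 < H) {W : Fin 4 → ℝ}
    (h1 : NormR H 1 W) (h2 : NormR H β W) : |β| = 1 := by
  obtain ⟨h1a, i, hi⟩ := h1
  obtain ⟨h2a, j, hj⟩ := h2
  simp only [one_pow, one_mul] at h1a hi
  apply le_antisymm
  · have h := h2a i
    rw [abs_mul, abs_pow, hi] at h
    by_contra hc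
    push Not at hc
    have h3 := one_lt_pow₀ hc (wt_ne i)
    have h4 := sc_pos hH i
    nlinarith
  · by_contra hc
    push Not at hc
    have h3 : |β| ^ wt j < 1 := pow_lt_one₀ (abs_nonneg _) hc (wt_ne j)
    rw [abs_mul, abs_pow] at hj
    have h4 := h1a j
    have h5 : |β| ^ wt j * |W j| ≤ |β| ^ wt j * sc H j :=
      mul_le_mul_of_nonneg_left h4 (by positivity)
    have h6 := sc_pos hH j
    nlinarith

theorem t_FULL : S_FULL := by
  intro m M H a f hm hM hH hP hR hWA Z W hZ hW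
  have hm' : (0 : ℝ) < m := by exact_mod_cast hm
  have hZ' : ∀ (p : ℕ) [Fact p.Prime], ∃ (Z' : Fin 4 → ℚ_[p]) (β : ℚ_[p]), p ≤ 2 * m →
      (IsPt a f Z' ∧ NormP p β (Z p) ∧ NormP p 1 Z' ∧
        (∀ i, ‖β ^ wt i * Z p i - Z' i‖ ≤ (p : ℝ) ^ (-((2 * m : ℕ) : ℤ))) ∧
        1 / (M : ℝ) ≤ ‖Z' 3‖) := by
    intro p _
    by_cases hp : p ≤ 2 * m
    · obtain ⟨Z', β, h⟩ := hP p hp (Z p) (hZ p)
      exact ⟨Z', β, fun _ => h⟩
    · exact ⟨0, 0, fun h => absurd h hp⟩
  choose Z' β' hZ' using hZ'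
  obtain ⟨W', b', hW', hb', hW1, hWc, hWy⟩ := hR W hW
  obtain ⟨z, hz, hzp, hzr⟩ := hWA (fun p _ => Z' p) W' (by
    intro p _ hp
    obtain ⟨h1, h2, h3, h4, h5⟩ := hZ' p hp
    refine ⟨h1, fun β hβ => ?_⟩
    rw [norm_mul, norm_pow, normP_unit h3 hβ, one_pow, one_mul]
    exact h5) hW' (by
    intro β hβ
    rw [abs_mul, abs_pow, normR_unit hH hW1 hβ, one_pow, one_mul]
    exact hWy)
  refine ⟨z, hz, ?_, ?_⟩
  · intro p _ hp
    have hp2 : p ≤ 2 * m := by omega
    obtain ⟨h1, h2, h3, h4, h5⟩ := hZ' p hp2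
    obtain ⟨α, β, hα, hβ, hc⟩ := hzp p hp2
    have hβ1 : ‖β‖ = 1 := normP_unit h3 hβ
    have hβ0 : β ≠ 0 := by
      intro h
      rw [h, norm_zero] at hβ1
      exact zero_ne_one hβ1
    refine ⟨α / β, β' p, div_ne_zero hα hβ0, h2, fun i => ?_⟩
    have e1 : (α / β) ^ wt i * (z i : ℚ_[p]) - β' p ^ wt i * Z p i =
        ((α ^ wt i * (z i : ℚ_[p]) - β ^ wt i * Z' p i) / β ^ wt i) +
          (-(β' p ^ wt i * Z p i - Z' p i)) := by
      have hb : β ^ wt i ≠ 0 := pow_ne_zero _ hβ0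
      rw [div_pow, sub_div, mul_div_cancel_left₀ _ hb]
      ring
    rw [e1]
    refine le_trans (IsUltrametricDist.norm_add_le_max _ _) (max_le ?_ ?_)
    · rw [norm_div, norm_pow, hβ1, one_pow, div_one]
      refine le_trans (hc i) ?_
      push_cast
      apply one_div_le_one_div_of_le hm'
      linarith
    · rw [norm_neg]
      refine le_trans (h4 i) ?_
      rw [zpow_neg, zpow_natCast, ← one_div]
      apply one_div_le_one_div_of_le hm'
      have hp1 : 2 ≤ p := (Fact.out : p.Prime).two_le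
      have hlt : 2 * m < p ^ (2 * m) := Nat.lt_pow_self (by omega)
      have : m ≤ p ^ (2 * m) := by omega
      exact_mod_cast this
  · obtain ⟨α, β, hα, hβ, hc⟩ := hzr
    have hβ1 : |β| = 1 := normR_unit hH hW1 hβ
    have hβ0 : β ≠ 0 := by
      intro h
      rw [h, abs_zero] at hβ1
      exact zero_ne_one hβ1
    refine ⟨α / β, b', div_ne_zero hα hβ0, hb', fun i => ?_⟩
    have e1 : (α / β) ^ wt i * (z i : ℝ) - b' ^ wt i * W i =
        ((α ^ wt i * (z i : ℝ) - β ^ wt i * W' i) / β ^ wt i) +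
          (-(b' ^ wt i * W i - W' i)) := by
      have hb : β ^ wt i ≠ 0 := pow_ne_zero _ hβ0
      rw [div_pow, sub_div, mul_div_cancel_left₀ _ hb]
      ring
    rw [e1]
    refine le_trans (abs_add_le _ _) ?_
    rw [abs_div, abs_pow, hβ1, one_pow, div_one, abs_neg]
    have h1 := hc i
    have h2 := hWc i
    push_cast at h1 h2
    have e2 : sc H i / m = sc H i / (2 * m) + sc H i / (2 * m) := by
      field_simp
      ring
    rw [e2]
    exact add_le_add h1 h2

end Pool.Agent.DPO
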