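import Pool.Agent.DPO.Stm

/-!
# Project DPO, piece LP
-/

set_option autoImplicit false

namespace Pool.Agent.DPO

namespace LP

theorem bf_smul {K : Type*} [Field K] {d : ℕ} (g : Fin (d + 1) → ℤ) (β u v : K) :
    bf g (β * u) (β * v) = β ^ d * bf g u v := by
  unfold bf
  rw [Finset.mul_sum]
  refine Finset.sum_congr rfl fun i _ => ?_
  have h : β ^ d = β ^ (d - (i : ℕ)) * β ^ (i : ℕ) := by
    rw [← pow_add]; congr 1; have := i.2; omega
  rw [h, mul_pow, mul_pow]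
  ring

theorem map_bf {R S : Type*} [CommRing R] [CommRing S] (φ : R →+* S) {d : ℕ}
    (g : Fin (d + 1) → ℤ) (u v : R) : φ (bf g u v) = bf g (φ u) (φ v) := by
  unfold bf
  rw [map_sum]
  refine Finset.sum_congr rfl fun i _ => ?_
  rw [map_mul, map_mul, map_pow, map_pow, map_intCast]

theorem map_Psi {R S : Type*} [CommRing R] [CommRing S] (φ : R →+* S) (b : Fin 5 → ℤ)
    (c : Fin 7 → ℤ) (u v x y : R) : φ (Psi b c u v x y) = Psi b c (φ u) (φ v) (φ x) (φ y) := by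
  unfold Psi
  rw [map_sub, map_sub, map_sub, map_mul, map_pow, map_pow, map_bf, map_bf]

variable {p : ℕ} [Fact p.Prime]

theorem norm_zpow' {z : ℚ_[p]} (hz : z ≠ 0) : ∃ k : ℤ, ‖z‖ = (p : ℝ) ^ k :=
  ⟨-z.valuation, Padic.norm_eq_zpow_neg_valuation hz⟩

theorem bf_norm {d : ℕ} (g : Fin (d + 1) → ℤ) {u v : ℚ_[p]} (hu : ‖u‖ ≤ 1) (hv : ‖v‖ ≤ 1) :
    ‖bf g u v‖ ≤ 1 := by
  obtain ⟨u', hu'⟩ : ∃ u' : ℤ_[p], (u' : ℚ_[p]) = u := ⟨⟨u, hu⟩, rfl⟩
  obtain ⟨v', hv'⟩ : ∃ v' : ℤ_[p], (v' : ℚ_[p]) = v := ⟨⟨v, hv⟩, rfl⟩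
  have h := map_bf (PadicInt.Coe.ringHom (p := p)) g u' v'
  have h2 : (PadicInt.Coe.ringHom (p := p)) (bf g u' v') = ((bf g u' v' : ℤ_[p]) : ℚ_[p]) := rfl
  have h3 : (PadicInt.Coe.ringHom (p := p)) u' = (u' : ℚ_[p]) := rfl
  have h4 : (PadicInt.Coe.ringHom (p := p)) v' = (v' : ℚ_[p]) := rfl
  rw [h2, h3, h4, hu', hv'] at h
  rw [← h]
  exact PadicInt.norm_le_one _

/-- the normalization -/
theorem normal (a : Fin 5 → ℤ) (f : Fin 7 → ℤ) (Z : Fin 4 → ℚ_[p]) (hZ : IsPt a f Z) :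
    ∃ β : ℚ_[p], β ≠ 0 ∧ NormP p β Z ∧
      ((‖β * Z 0‖ = 1 ∨ ‖β * Z 1‖ = 1) ∨ (‖β ^ 2 * Z 2‖ = 1 ∧ ‖β ^ 3 * Z 3‖ = 1)) := by
  obtain ⟨h01, heq⟩ := hZ
  have hp1 : (1 : ℝ) < p := by exact_mod_cast (Fact.out : p.Prime).one_lt
  have hp0 : (0 : ℝ) < p := by linarith
  have hpq : (p : ℚ_[p]) ≠ 0 := by exact_mod_cast (Fact.out : p.Prime).ne_zero
  -- `(u, v)` primitive
  obtain ⟨β₁, hβ₁, hu, hv, hprim⟩ : ∃ β₁ : ℚ_[p], β₁ ≠ 0 ∧ ‖β₁ * Z 0‖ ≤ 1 ∧ ‖β₁ * Z 1‖ ≤ 1 ∧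
      (‖β₁ * Z 0‖ = 1 ∨ ‖β₁ * Z 1‖ = 1) := by
    have key : ∀ z w : ℚ_[p], z ≠ 0 → ‖w‖ ≤ ‖z‖ → ‖z⁻¹ * z‖ = 1 ∧ ‖z⁻¹ * w‖ ≤ 1 := by
      intro z w hz hw
      have h1 : 0 < ‖z‖ := norm_pos_iff.2 hz
      constructor
      · rw [inv_mul_cancel₀ hz, norm_one]
      · rw [norm_mul, norm_inv, inv_mul_le_one₀ h1]
        exact hw
    rcases le_total ‖Z 1‖ ‖Z 0‖ with h | h
    · have hz : Z 0 ≠ 0 := by
        intro h0
        rw [h0, norm_zero] at h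
        rcases h01 with h2 | h2
        · exact h2 h0
        · exact h2 (norm_le_zero_iff.1 h)
      obtain ⟨h1, h2⟩ := key _ _ hz h
      exact ⟨(Z 0)⁻¹, inv_ne_zero hz, h1.le, h2, Or.inl h1⟩
    · have hz : Z 1 ≠ 0 := by
        intro h0
        rw [h0, norm_zero] at h
        rcases h01 with h2 | h2
        · exact h2 (norm_le_zero_iff.1 h)
        · exact h2 h0
      obtain ⟨h1, h2⟩ := key _ _ hz h
      exact ⟨(Z 1)⁻¹, inv_ne_zero hz, h2, h1.le, Or.inr h1⟩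
  obtain ⟨u, hu'⟩ : ∃ u, u = β₁ * Z 0 := ⟨_, rfl⟩
  obtain ⟨v, hv'⟩ : ∃ v, v = β₁ * Z 1 := ⟨_, rfl⟩
  obtain ⟨x, hx'⟩ : ∃ x, x = β₁ ^ 2 * Z 2 := ⟨_, rfl⟩
  obtain ⟨y, hy'⟩ : ∃ y, y = β₁ ^ 3 * Z 3 := ⟨_, rfl⟩
  have heq2 : y ^ 2 = x ^ 3 + bf a u v * x + bf f u v := by
    rw [hy', hx', hu', hv', bf_smul, bf_smul]
    have : (β₁ ^ 3 * Z 3) ^ 2 = β₁ ^ 6 * Z 3 ^ 2 := by ring
    rw [this, heq]
    ring
  rw [← hu', ← hv'] at hprim
  rw [← hu'] at hu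
  rw [← hv'] at hv
  have hA : ‖bf a u v‖ ≤ 1 := bf_norm a hu hv
  have hF : ‖bf f u v‖ ≤ 1 := bf_norm f hu hv
  rcases le_or_gt ‖x‖ 1 with hx | hx
  · have hy : ‖y‖ ≤ 1 := by
      have h1 : ‖y ^ 2‖ ≤ 1 := by
        rw [heq2]
        refine (Padic.nonarchimedean _ _).trans (max_le ?_ hF)
        refine (Padic.nonarchimedean _ _).trans (max_le ?_ ?_)
        · rw [norm_pow]; exact pow_le_one₀ (norm_nonneg _) hx
        · rw [norm_mul]; exact mul_le_one₀ hA (norm_nonneg _) hx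
      rw [norm_pow] at h1
      exact (pow_le_one_iff_of_nonneg (norm_nonneg _) two_ne_zero).1 h1
    refine ⟨β₁, hβ₁, ⟨?_, ?_⟩, Or.inl (by rw [← hu', ← hv']; exact hprim)⟩
    · intro i
      fin_cases i
      · simpa [wt, ← hu'] using hu
      · simpa [wt, ← hv'] using hv
      · simpa [wt, ← hx'] using hx
      · simpa [wt, ← hy'] using hy
    · rcases hprim with h | h
      · exact ⟨0, by simpa [wt, ← hu'] using h⟩
      · exact ⟨1, by simpa [wt, ← hv'] using h⟩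
  · -- the other case
    have hx3 : 1 < ‖x‖ ^ 3 := one_lt_pow₀ hx (by norm_num)
    have hxx3 : ‖x‖ < ‖x‖ ^ 3 := by
      have h1 : 1 < ‖x‖ ^ 2 := one_lt_pow₀ hx (by norm_num)
      nlinarith [norm_nonneg x]
    have hy2 : ‖y‖ ^ 2 = ‖x‖ ^ 3 := by
      have h1 : ‖bf a u v * x + bf f u v‖ < ‖x ^ 3‖ := by
        rw [norm_pow]
        refine lt_of_le_of_lt (Padic.nonarchimedean _ _) (max_lt ?_ (lt_of_le_of_lt hF hx3))
        rw [norm_mul]
        calc ‖bf a u v‖ * ‖x‖ ≤ 1 * ‖x‖ := mul_le_mul_of_nonneg_right hA (norm_nonneg _)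
          _ = ‖x‖ := one_mul _
          _ < _ := hxx3
      have h2 : ‖y ^ 2‖ = ‖x ^ 3‖ := by
        rw [heq2, add_assoc, Padic.add_eq_max_of_ne h1.ne']
        exact max_eq_left h1.le
      rw [norm_pow, norm_pow] at h2
      exact h2
    have hx0 : x ≠ 0 := by
      rintro rfl
      rw [norm_zero] at hx
      linarith
    have hy0 : y ≠ 0 := by
      rintro rfl
      rw [norm_zero] at hy2
      have : (0 : ℝ) < ‖x‖ ^ 3 := by linarith
      rw [← hy2] at this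
      norm_num at this
    obtain ⟨i, hi⟩ := norm_zpow' hx0
    obtain ⟨j, hj⟩ := norm_zpow' hy0
    have hij : 2 * j = 3 * i := by
      rw [hi, hj, ← zpow_natCast, ← zpow_natCast, ← zpow_mul, ← zpow_mul] at hy2
      have := zpow_right_injective₀ hp0 hp1.ne' hy2
      push_cast at this
      linarith
    have hi0 : 0 < i := by
      by_contra hcon
      have h1 : i ≤ 0 := not_lt.1 hcon
      rw [hi] at hx
      have h2 : (p : ℝ) ^ i ≤ 1 := zpow_le_one_of_nonpos₀ hp1.le h1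
      linarith
    obtain ⟨s, hs⟩ : ∃ s : ℤ, i = 2 * s := ⟨i / 2, by omega⟩
    have hs0 : 0 < s := by omega
    have hjs : j = 3 * s := by omega
    have hps : ‖((p : ℚ_[p]) ^ s)‖ = (p : ℝ) ^ (-s) := Padic.norm_p_zpow s
    have hpsx : ‖((p : ℚ_[p]) ^ s) ^ 2 * x‖ = 1 := by
      rw [norm_mul, norm_pow, hps, hi, hs, ← zpow_natCast, ← zpow_mul, ← zpow_add₀ hp0.ne']
      have : -s * ((2 : ℕ) : ℤ) + 2 * s = 0 := by push_cast; ring
      rw [this, zpow_zero]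
    have hpsy : ‖((p : ℚ_[p]) ^ s) ^ 3 * y‖ = 1 := by
      rw [norm_mul, norm_pow, hps, hj, hjs, ← zpow_natCast, ← zpow_mul, ← zpow_add₀ hp0.ne']
      have : -s * ((3 : ℕ) : ℤ) + 3 * s = 0 := by push_cast; ring
      rw [this, zpow_zero]
    have hps1 : ‖((p : ℚ_[p]) ^ s)‖ ≤ 1 := by
      rw [hps]
      exact zpow_le_one_of_nonpos₀ hp1.le (by omega)
    have e0 : (p : ℚ_[p]) ^ s * β₁ * Z 0 = (p : ℚ_[p]) ^ s * u := by rw [hu']; ring
    have e1 : (p : ℚ_[p]) ^ s * β₁ * Z 1 = (p : ℚ_[p]) ^ s * v := by rw [hv']; ring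
    have e2 : ((p : ℚ_[p]) ^ s * β₁) ^ 2 * Z 2 = ((p : ℚ_[p]) ^ s) ^ 2 * x := by rw [hx']; ring
    have e3 : ((p : ℚ_[p]) ^ s * β₁) ^ 3 * Z 3 = ((p : ℚ_[p]) ^ s) ^ 3 * y := by rw [hy']; ring
    refine ⟨(p : ℚ_[p]) ^ s * β₁, mul_ne_zero (zpow_ne_zero _ hpq) hβ₁, ⟨?_, 2, ?_⟩, Or.inr ⟨?_, ?_⟩⟩
    · intro i
      fin_cases i
      · have : ‖((p : ℚ_[p]) ^ s * β₁) ^ 1 * Z 0‖ ≤ 1 := by
          rw [pow_one, e0, norm_mul]
          exact mul_le_one₀ hps1 (norm_nonneg _) hu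
        simpa [wt] using this
      · have : ‖((p : ℚ_[p]) ^ s * β₁) ^ 1 * Z 1‖ ≤ 1 := by
          rw [pow_one, e1, norm_mul]
          exact mul_le_one₀ hps1 (norm_nonneg _) hv
        simpa [wt] using this
      · have : ‖((p : ℚ_[p]) ^ s * β₁) ^ 2 * Z 2‖ ≤ 1 := by
          rw [e2, hpsx]
        exact this
      · have : ‖((p : ℚ_[p]) ^ s * β₁) ^ 3 * Z 3‖ ≤ 1 := by
          rw [e3, hpsy]
        exact this
    · show ‖((p : ℚ_[p]) ^ s * β₁) ^ 2 * Z 2‖ = 1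
      rw [e2, hpsx]
    · rw [e2, hpsx]
    · rw [e3, hpsy]

/-- approximation by integers -/
theorem appr (A : ℤ_[p]) (n : ℕ) : ∃ c : ℤ, ‖A - (c : ℤ_[p])‖ ≤ (p : ℝ) ^ (-(n : ℤ)) := by
  refine ⟨((PadicInt.appr A n : ℕ) : ℤ), ?_⟩
  rw [PadicInt.norm_le_pow_iff_mem_span_pow]
  have := PadicInt.appr_spec n A
  push_cast
  exact this

theorem toZ {A : ℤ_[p]} {c : ℤ} {n : ℕ} (h : ‖A - (c : ℤ_[p])‖ ≤ (p : ℝ) ^ (-(n : ℤ))) :
    PadicInt.toZModPow n A = ((c : ℤ) : ZMod (p ^ n)) := by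
  rw [PadicInt.norm_le_pow_iff_mem_span_pow, ← PadicInt.ker_toZModPow, RingHom.mem_ker, map_sub,
    sub_eq_zero, map_intCast] at h
  exact h

end LP

open LP in
theorem t_LP : S_LP := by
  intro p _ n M a f Z hM hZ hy
  have hpp : p.Prime := Fact.out
  have hp1 : (1 : ℝ) < p := by exact_mod_cast hpp.one_lt
  have hp0 : (0 : ℝ) < p := by linarith
  obtain ⟨β, hβ0, hN, hprim⟩ := normal a f Z hZ
  obtain ⟨A, hA⟩ : ∃ A : Fin 4 → ℤ_[p], ∀ i, ((A i : ℤ_[p]) : ℚ_[p]) = β ^ wt i * Z i :=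
    ⟨fun i => ⟨β ^ wt i * Z i, hN.1 i⟩, fun i => rfl⟩
  have hnA : ∀ i, ‖A i‖ = ‖β ^ wt i * Z i‖ := by
    intro i
    rw [← hA i]; rfl
  have hPsiA : Psi a f (A 0) (A 1) (A 2) (A 3) = 0 := by
    apply PadicInt.ext
    have h1 := map_Psi (PadicInt.Coe.ringHom (p := p)) a f (A 0) (A 1) (A 2) (A 3)
    have h2 : ∀ z : ℤ_[p], (PadicInt.Coe.ringHom (p := p)) z = (z : ℚ_[p]) := fun z => rfl
    rw [h2, h2, h2, h2, h2, hA, hA, hA, hA] at h1
    rw [h1, PadicInt.coe_zero]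
    have w0 : wt 0 = 1 := rfl
    have w1 : wt 1 = 1 := rfl
    have w2 : wt 2 = 2 := rfl
    have w3 : wt 3 = 3 := rfl
    rw [w0, w1, w2, w3, pow_one]
    unfold Psi
    rw [bf_smul, bf_smul]
    have := hZ.2
    linear_combination β ^ 6 * this
  choose c hc using fun i => appr (A i) n
  refine ⟨β, c, hN, ?_, ?_⟩
  · intro E
    obtain ⟨E', hE'⟩ : ∃ E', E' = E + n + (M + 1) := ⟨_, rfl⟩
    choose z hz using fun i => appr (A i) E'
    have hmono : ∀ k : ℕ, k ≤ E' → (p : ℝ) ^ (-(E' : ℤ)) ≤ (p : ℝ) ^ (-(k : ℤ)) := by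
      intro k hk
      exact zpow_le_zpow_right₀ hp1.le (by omega)
    have hdn : ∀ i, (p : ℤ) ^ n ∣ z i - c i := by
      intro i
      rw [← PadicInt.norm_int_le_pow_iff_dvd]
      have e1 : ((z i - c i : ℤ) : ℤ_[p]) = (A i - (c i : ℤ_[p])) - (A i - (z i : ℤ_[p])) := by
        push_cast; ring
      rw [e1, sub_eq_add_neg]
      refine (PadicInt.nonarchimedean _ _).trans ?_
      rw [norm_neg]
      exact max_le (hc i) ((hz i).trans (hmono n (by omega)))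
    have hlt : ∀ i, (p : ℤ) ∣ z i → ‖A i‖ < 1 := by
      intro i hi
      have h1 : ‖((z i : ℤ) : ℤ_[p])‖ < 1 := (PadicInt.norm_int_lt_one_iff_dvd (z i)).2 hi
      have h2 : ‖A i - (z i : ℤ_[p])‖ < 1 := by
        refine lt_of_le_of_lt ((hz i).trans (hmono 1 (by omega))) ?_
        rw [Nat.cast_one, zpow_neg_one]
        exact inv_lt_one_of_one_lt₀ hp1
      have e1 : A i = (A i - (z i : ℤ_[p])) + (z i : ℤ_[p]) := by ring
      rw [e1]
      exact lt_of_le_of_lt (PadicInt.nonarchimedean _ _) (max_lt h2 h1)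
    refine ⟨z 0, z 1, z 2, z 3, ⟨?_, ?_⟩, ?_, hdn 0, hdn 1, hdn 2, hdn 3⟩
    · have h1 := map_Psi (PadicInt.toZModPow (p := p) E') a f (A 0) (A 1) (A 2) (A 3)
      rw [hPsiA, map_zero, toZ (hz 0), toZ (hz 1), toZ (hz 2), toZ (hz 3)] at h1
      have h2 := map_Psi (Int.castRingHom (ZMod (p ^ E'))) a f (z 0) (z 1) (z 2) (z 3)
      simp only [Int.coe_castRingHom] at h2
      rw [← h1, ZMod.intCast_zmod_eq_zero_iff_dvd] at h2
      have h3 : (p : ℤ) ^ E ∣ ((p ^ E' : ℕ) : ℤ) := by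
        push_cast
        exact pow_dvd_pow _ (by omega)
      exact h3.trans h2
    · rcases hprim with (h | h) | ⟨h, h'⟩
      · left
        rintro ⟨h1, _⟩
        have := hlt 0 h1
        rw [hnA, show wt 0 = 1 from rfl, pow_one, h] at this
        exact lt_irrefl _ this
      · left
        rintro ⟨_, h1⟩
        have := hlt 1 h1
        rw [hnA, show wt 1 = 1 from rfl, pow_one, h] at this
        exact lt_irrefl _ this
      · right
        refine ⟨fun h1 => ?_, fun h1 => ?_⟩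
        · have := hlt 2 h1
          rw [hnA, show wt 2 = 2 from rfl, h] at this
          exact lt_irrefl _ this
        · have := hlt 3 h1
          rw [hnA, show wt 3 = 3 from rfl, h'] at this
          exact lt_irrefl _ this
    · intro hdvd
      have h1 : ‖((z 3 : ℤ) : ℤ_[p])‖ ≤ (p : ℝ) ^ (-((M + 1 : ℕ) : ℤ)) :=
        PadicInt.norm_int_le_pow_iff_dvd.2 (by exact_mod_cast hdvd)
      have h2 : ‖A 3‖ ≤ (p : ℝ) ^ (-((M + 1 : ℕ) : ℤ)) := by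
        have e1 : A 3 = (A 3 - (z 3 : ℤ_[p])) + (z 3 : ℤ_[p]) := by ring
        rw [e1]
        exact (PadicInt.nonarchimedean _ _).trans
          (max_le ((hz 3).trans (hmono (M + 1) (by omega))) h1)
      have h3 := hy β hN
      rw [hnA, show wt 3 = 3 from rfl] at h2
      have h4 : (M : ℝ) < (p : ℝ) ^ (M + 1) := by
        have h5 : M < p ^ (M + 1) :=
          (Nat.lt_succ_self M).trans (Nat.lt_pow_self hpp.one_lt)
        exact_mod_cast h5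
      have hM0 : (0 : ℝ) < M := by exact_mod_cast hM
      have h6 : (p : ℝ) ^ (-((M + 1 : ℕ) : ℤ)) < 1 / (M : ℝ) := by
        rw [zpow_neg, zpow_natCast, ← one_div]
        exact one_div_lt_one_div_of_lt hM0 h4
      linarith
  · intro z hz i
    have e1 : ((z i : ℤ) : ℚ_[p]) - β ^ wt i * Z i =
        (((((z i - c i : ℤ) : ℤ_[p]) - (A i - (c i : ℤ_[p]))) : ℤ_[p]) : ℚ_[p]) := by
      rw [← hA i]
      push_cast
      ring
    rw [e1, ← PadicInt.norm_def, sub_eq_add_neg]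
    refine (PadicInt.nonarchimedean _ _).trans ?_
    rw [norm_neg]
    exact max_le (PadicInt.norm_int_le_pow_iff_dvd.2 (hz i)) (hc i)

end Pool.Agent.DPO
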