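import Pool.Agent.DPO.Stm2
import Pool.Agent.DPO.LP

/-!
# Project DPO, piece GOODP: moving a `p`-adic point away from `y = 0`
-/

set_option autoImplicit false

namespace Pool.Agent.DPO

namespace GOODP

open Polynomial LP

theorem map_bfu {R S : Type*} [CommRing R] [CommRing S] (φ : R →+* S) {d : ℕ}
    (g : Fin (d + 1) → ℤ) (u v : R) : φ (bfu g u v) = bfu g (φ u) (φ v) := by
  unfold bfu
  rw [map_sum]
  refine Finset.sum_congr rfl fun i _ => ?_
  rw [map_mul, map_mul, map_mul, map_pow, map_pow, map_intCast, map_natCast]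

theorem map_bfv {R S : Type*} [CommRing R] [CommRing S] (φ : R →+* S) {d : ℕ}
    (g : Fin (d + 1) → ℤ) (u v : R) : φ (bfv g u v) = bfv g (φ u) (φ v) := by
  unfold bfv
  rw [map_sum]
  refine Finset.sum_congr rfl fun i _ => ?_
  rw [map_mul, map_mul, map_mul, map_pow, map_pow, map_intCast, map_natCast]

theorem eval_bf_X {R : Type*} [CommRing R] {d : ℕ} (g : Fin (d + 1) → ℤ) (u v : R) :
    (bf g (X : R[X]) (C v)).eval u = bf g u v := by
  have h := map_bf (evalRingHom u) g (X : R[X]) (C v)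
  simp only [coe_evalRingHom, eval_X, eval_C] at h
  exact h

theorem eval_bf_C {R : Type*} [CommRing R] {d : ℕ} (g : Fin (d + 1) → ℤ) (u v : R) :
    (bf g (C u : R[X]) X).eval v = bf g u v := by
  have h := map_bf (evalRingHom v) g (C u : R[X]) X
  simp only [coe_evalRingHom, eval_X, eval_C] at h
  exact h

theorem der_bf_X {R : Type*} [CommRing R] {d : ℕ} (g : Fin (d + 1) → ℤ) (u v : R) :
    (derivative (bf g (X : R[X]) (C v))).eval u = bfu g u v := by
  unfold bf bfu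
  rw [derivative_sum, eval_finsetSum]
  refine Finset.sum_congr rfl fun i _ => ?_
  have h1 : (((g i : ℤ) : R[X])) = C ((g i : ℤ) : R) := by simp
  rw [h1, ← C_pow, mul_right_comm, ← C_mul, derivative_C_mul, derivative_X_pow]
  simp only [eval_mul, eval_C, eval_pow, eval_X]
  ring

theorem der_bf_C {R : Type*} [CommRing R] {d : ℕ} (g : Fin (d + 1) → ℤ) (u v : R) :
    (derivative (bf g (C u : R[X]) X)).eval v = bfv g u v := by
  unfold bf bfv
  rw [derivative_sum, eval_finsetSum]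
  refine Finset.sum_congr rfl fun i _ => ?_
  have h1 : (((g i : ℤ) : R[X])) = C ((g i : ℤ) : R) := by simp
  rw [h1, ← C_pow, ← C_mul, derivative_C_mul, derivative_X_pow]
  simp only [eval_mul, eval_C, eval_pow, eval_X]
  ring

variable {p : ℕ} [Fact p.Prime]

/-- Hensel's lemma with a bound of the distance. -/
theorem hens (P : ℤ_[p][X]) (x : ℤ_[p]) (n : ℕ)
    (h : ‖P.eval x‖ < ((p : ℝ) ^ (-(n : ℤ)) * ‖P.derivative.eval x‖) ^ 2) :
    ∃ z, P.eval z = 0 ∧ ‖z - x‖ ≤ (p : ℝ) ^ (-(n : ℤ)) := by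
  have hn : ‖((p : ℤ_[p]) ^ n)‖ = (p : ℝ) ^ (-(n : ℤ)) := by
    rw [PadicInt.norm_p_pow]
  obtain ⟨s, hs, _⟩ := hensels_lemma (F := P.comp (C ((p : ℤ_[p]) ^ n) * X + C x)) (a := 0) (by
    have e1 : aeval (0 : ℤ_[p]) (P.comp (C ((p : ℤ_[p]) ^ n) * X + C x)) = P.eval x := by
      rw [coe_aeval_eq_eval, eval_comp]; simp
    have e2 : aeval (0 : ℤ_[p]) (derivative (P.comp (C ((p : ℤ_[p]) ^ n) * X + C x))) =
        (p : ℤ_[p]) ^ n * P.derivative.eval x := by
      rw [coe_aeval_eq_eval, derivative_comp, eval_mul, eval_comp]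
      simp
    rw [e1, e2, norm_mul, hn]
    exact h)
  refine ⟨(p : ℤ_[p]) ^ n * s + x, ?_, ?_⟩
  · rw [coe_aeval_eq_eval, eval_comp] at hs
    simpa using hs
  · rw [add_sub_cancel_right, norm_mul, hn]
    exact mul_le_of_le_one_right (by positivity) (PadicInt.norm_le_one s)

theorem toZ0 {z : ℤ_[p]} {n : ℕ} : ‖z‖ ≤ (p : ℝ) ^ (-(n : ℤ)) ↔ PadicInt.toZModPow n z = 0 := by
  rw [PadicInt.norm_le_pow_iff_mem_span_pow, ← PadicInt.ker_toZModPow, RingHom.mem_ker]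

end GOODP

open GOODP LP Polynomial in
theorem t_GOODP : S_GOODP := by
  intro p _ n ℓ hn
  have hpp : p.Prime := Fact.out
  have hp1 : (1 : ℝ) < p := by exact_mod_cast hpp.one_lt
  have hp0 : (0 : ℝ) < p := by linarith
  obtain ⟨k, hk⟩ : ∃ k, k = n + ℓ + 1 := ⟨_, rfl⟩
  refine ⟨p ^ k, Nat.one_le_iff_ne_zero.2 (pow_ne_zero _ hpp.ne_zero), ?_⟩
  intro a f hbad Z hZ
  have hM : 1 / (((p ^ k : ℕ) : ℝ)) = (p : ℝ) ^ (-(k : ℤ)) := by
    rw [zpow_neg, zpow_natCast, one_div]; push_cast; rfl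
  rw [hM]
  obtain ⟨β, hβ0, hN, hprim⟩ := normal a f Z hZ
  obtain ⟨A, hA⟩ : ∃ A : Fin 4 → ℤ_[p], ∀ i, ((A i : ℤ_[p]) : ℚ_[p]) = β ^ wt i * Z i :=
    ⟨fun i => ⟨β ^ wt i * Z i, hN.1 i⟩, fun i => rfl⟩
  have hnA : ∀ i, ‖A i‖ = ‖β ^ wt i * Z i‖ := by
    intro i
    rw [← hA i]; rfl
  have w0 : wt 0 = 1 := rfl
  have w1 : wt 1 = 1 := rfl
  have w2 : wt 2 = 2 := rfl
  have w3 : wt 3 = 3 := rfl
  have heqA : A 3 ^ 2 = A 2 ^ 3 + bf a (A 0) (A 1) * A 2 + bf f (A 0) (A 1) := by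
    apply PadicInt.ext
    have h2 : ∀ z : ℤ_[p], (PadicInt.Coe.ringHom (p := p)) z = (z : ℚ_[p]) := fun z => rfl
    rw [← h2, ← h2, map_add, map_add, map_mul, map_pow, map_pow, map_bf, map_bf, h2, h2, h2, h2,
      hA, hA, hA, hA, w0, w1, w2, w3, pow_one, bf_smul, bf_smul]
    have := hZ.2
    linear_combination β ^ 6 * this
  have hcoe : ∀ z : ℤ_[p], ‖z‖ = ‖(z : ℚ_[p])‖ := fun z => rfl
  -- the final step
  have fin : ∀ u v x y : ℤ_[p], y ^ 2 = x ^ 3 + bf a u v * x + bf f u v →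
      (‖u‖ = 1 ∨ ‖v‖ = 1 ∨ ‖x‖ = 1) → (u ≠ 0 ∨ v ≠ 0) →
      ‖A 0 - u‖ ≤ (p : ℝ) ^ (-(n : ℤ)) → ‖A 1 - v‖ ≤ (p : ℝ) ^ (-(n : ℤ)) →
      ‖A 2 - x‖ ≤ (p : ℝ) ^ (-(n : ℤ)) → ‖A 3 - y‖ ≤ (p : ℝ) ^ (-(n : ℤ)) →
      (p : ℝ) ^ (-(k : ℤ)) ≤ ‖y‖ →
      ∃ (Z' : Fin 4 → ℚ_[p]) (β : ℚ_[p]), IsPt a f Z' ∧
        NormP p β Z ∧ NormP p 1 Z' ∧ (∀ i, ‖β ^ wt i * Z i - Z' i‖ ≤ (p : ℝ) ^ (-(n : ℤ))) ∧
        (p : ℝ) ^ (-(k : ℤ)) ≤ ‖Z' 3‖ := by
    intro u v x y heq h1 hne h3 h4 h5 h6 h7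
    obtain ⟨Z', hZ'⟩ : ∃ Z' : Fin 4 → ℤ_[p], Z' = ![u, v, x, y] := ⟨_, rfl⟩
    have z0 : Z' 0 = u := by rw [hZ']; rfl
    have z1 : Z' 1 = v := by rw [hZ']; rfl
    have z2 : Z' 2 = x := by rw [hZ']; rfl
    have z3 : Z' 3 = y := by rw [hZ']; rfl
    refine ⟨fun i => (Z' i : ℚ_[p]), β, ⟨?_, ?_⟩, hN, ⟨?_, ?_⟩, ?_, ?_⟩
    · simp only [z0, z1]
      rcases hne with h | h
      · left
        intro h8
        exact h (PadicInt.ext (by rw [h8]; simp))
      · right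
        intro h8
        exact h (PadicInt.ext (by rw [h8]; simp))
    · simp only [z0, z1, z2, z3]
      have h2 : ∀ z : ℤ_[p], (PadicInt.Coe.ringHom (p := p)) z = (z : ℚ_[p]) := fun z => rfl
      have h8 := congrArg (PadicInt.Coe.ringHom (p := p)) heq
      rw [map_add, map_add, map_mul, map_pow, map_pow, map_bf, map_bf, h2, h2, h2, h2] at h8
      exact h8
    · intro i
      rw [one_pow, one_mul]
      exact PadicInt.norm_le_one (Z' i)
    · rcases h1 with h | h | h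
      · exact ⟨0, by rw [one_pow, one_mul]; simp only [z0]; exact h⟩
      · exact ⟨1, by rw [one_pow, one_mul]; simp only [z1]; exact h⟩
      · exact ⟨2, by rw [one_pow, one_mul]; simp only [z2]; exact h⟩
    · intro i
      rw [← hA i]
      have h8 : ‖((A i : ℤ_[p]) : ℚ_[p]) - (Z' i : ℚ_[p])‖ = ‖A i - Z' i‖ := by
        rw [hcoe]; push_cast; rfl
      show ‖((A i : ℤ_[p]) : ℚ_[p]) - (Z' i : ℚ_[p])‖ ≤ _
      rw [h8]
      fin_cases i
      · show ‖A 0 - Z' 0‖ ≤ _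
        rw [z0]; exact h3
      · show ‖A 1 - Z' 1‖ ≤ _
        rw [z1]; exact h4
      · show ‖A 2 - Z' 2‖ ≤ _
        rw [z2]; exact h5
      · show ‖A 3 - Z' 3‖ ≤ _
        rw [z3]; exact h6
    · show _ ≤ ‖(Z' 3 : ℚ_[p])‖
      rw [z3]; exact h7
  have hA01 : A 0 ≠ 0 ∨ A 1 ≠ 0 := by
    rcases hZ.1 with h | h
    · left
      intro h1
      have h2 := hA 0
      rw [h1, w0, pow_one] at h2
      exact mul_ne_zero hβ0 h (by rw [← h2]; simp)
    · right
      intro h1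
      have h2 := hA 1
      rw [h1, w1, pow_one] at h2
      exact mul_ne_zero hβ0 h (by rw [← h2]; simp)
  have hnn : (0 : ℝ) ≤ (p : ℝ) ^ (-(n : ℤ)) := by positivity
  have hn1 : (p : ℝ) ^ (-(n : ℤ)) < 1 := by
    rw [zpow_neg, zpow_natCast]
    exact inv_lt_one_of_one_lt₀ (one_lt_pow₀ hp1 (by omega))
  have hkn : (p : ℝ) ^ (-(k : ℤ)) ≤ (p : ℝ) ^ (-(n : ℤ)) :=
    zpow_le_zpow_right₀ hp1.le (by omega)
  have hprim' : (‖A 0‖ = 1 ∨ ‖A 1‖ = 1) ∨ (‖A 2‖ = 1 ∧ ‖A 3‖ = 1) := by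
    rw [hnA, hnA, hnA, hnA, w0, w1, w2, w3, pow_one]
    exact hprim
  rcases le_or_gt ((p : ℝ) ^ (-(k : ℤ))) ‖A 3‖ with hy | hy
  · -- the point is good
    refine fin (A 0) (A 1) (A 2) (A 3) heqA ?_ hA01 ?_ ?_ ?_ ?_ hy
    · rcases hprim' with (h | h) | h
      · exact Or.inl h
      · exact Or.inr (Or.inl h)
      · exact Or.inr (Or.inr h.1)
    all_goals rw [sub_self, norm_zero]; exact hnn
  · -- the point is moved
    have hprim2 : ‖A 0‖ = 1 ∨ ‖A 1‖ = 1 := by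
      rcases hprim' with h | h
      · exact h
      · exfalso
        rw [h.2] at hy
        linarith
    have hnp : ‖((p : ℤ_[p]) ^ k)‖ = (p : ℝ) ^ (-(k : ℤ)) := by rw [PadicInt.norm_p_pow]
    have hval : ‖A 3 ^ 2 - ((p : ℤ_[p]) ^ k) ^ 2‖ ≤ ((p : ℝ) ^ (-(k : ℤ))) ^ 2 := by
      rw [sub_eq_add_neg]
      refine (PadicInt.nonarchimedean _ _).trans (max_le ?_ ?_)
      · rw [norm_pow]
        exact pow_le_pow_left₀ (norm_nonneg _) hy.le 2
      · rw [norm_neg, norm_pow, hnp]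
    -- one of the partial derivatives is large
    have hpart : (p : ℝ) ^ (-(ℓ : ℤ)) < ‖3 * A 2 ^ 2 + bf a (A 0) (A 1)‖ ∨
        (p : ℝ) ^ (-(ℓ : ℤ)) < ‖bfu f (A 0) (A 1) + bfu a (A 0) (A 1) * A 2‖ ∨
        (p : ℝ) ^ (-(ℓ : ℤ)) < ‖bfv f (A 0) (A 1) + bfv a (A 0) (A 1) * A 2‖ := by
      by_contra hcon
      push Not at hcon
      obtain ⟨h1, h2, h3⟩ := hcon
      apply hbad
      choose c hc using fun i => appr (A i) (ℓ + 1)
      have hc' : ∀ i, PadicInt.toZModPow ℓ (A i) = ((c i : ℤ) : ZMod (p ^ ℓ)) := by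
        intro i
        exact toZ ((hc i).trans (zpow_le_zpow_right₀ hp1.le (by omega)))
      have hlt : ∀ i, (p : ℤ) ∣ c i → ‖A i‖ < 1 := by
        intro i hi
        have h1 : ‖((c i : ℤ) : ℤ_[p])‖ < 1 := (PadicInt.norm_int_lt_one_iff_dvd (c i)).2 hi
        have h2 : ‖A i - (c i : ℤ_[p])‖ < 1 := by
          refine lt_of_le_of_lt (hc i) ?_
          rw [zpow_neg, zpow_natCast]
          exact inv_lt_one_of_one_lt₀ (one_lt_pow₀ hp1 (by omega))
        have e1 : A i = (A i - (c i : ℤ_[p])) + (c i : ℤ_[p]) := by ring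
        rw [e1]
        exact lt_of_le_of_lt (PadicInt.nonarchimedean _ _) (max_lt h2 h1)
      have hdv : ∀ z : ℤ, ((z : ℤ) : ZMod (p ^ ℓ)) = 0 → (p : ℤ) ^ ℓ ∣ z := by
        intro z hz
        rw [ZMod.intCast_zmod_eq_zero_iff_dvd] at hz
        exact_mod_cast hz
      have mbf : ∀ {d : ℕ} (g : Fin (d + 1) → ℤ), ((bf g (c 0) (c 1) : ℤ) : ZMod (p ^ ℓ)) =
          PadicInt.toZModPow ℓ (bf g (A 0) (A 1)) := by
        intro d g
        rw [map_bf, hc', hc']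
        exact map_bf (Int.castRingHom (ZMod (p ^ ℓ))) g (c 0) (c 1)
      have mbfu : ∀ {d : ℕ} (g : Fin (d + 1) → ℤ), ((bfu g (c 0) (c 1) : ℤ) : ZMod (p ^ ℓ)) =
          PadicInt.toZModPow ℓ (bfu g (A 0) (A 1)) := by
        intro d g
        rw [map_bfu, hc', hc']
        exact map_bfu (Int.castRingHom (ZMod (p ^ ℓ))) g (c 0) (c 1)
      have mbfv : ∀ {d : ℕ} (g : Fin (d + 1) → ℤ), ((bfv g (c 0) (c 1) : ℤ) : ZMod (p ^ ℓ)) =
          PadicInt.toZModPow ℓ (bfv g (A 0) (A 1)) := by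
        intro d g
        rw [map_bfv, hc', hc']
        exact map_bfv (Int.castRingHom (ZMod (p ^ ℓ))) g (c 0) (c 1)
      refine ⟨c 0, c 1, c 2, ?_, ?_, ?_, ?_, ?_⟩
      · rintro ⟨h4, h5⟩
        rcases hprim2 with h6 | h6
        · exact absurd h6 (hlt 0 h4).ne
        · exact absurd h6 (hlt 1 h5).ne
      · apply hdv
        push_cast
        rw [mbf, mbf, ← hc' 2, ← map_pow, ← map_mul, ← map_add, ← map_add, ← heqA, ← toZ0, norm_pow]
        calc ‖A 3‖ ^ 2 ≤ ((p : ℝ) ^ (-(k : ℤ))) ^ 2 := pow_le_pow_left₀ (norm_nonneg _) hy.le 2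
          _ = (p : ℝ) ^ (-(k : ℤ)) * (p : ℝ) ^ (-(k : ℤ)) := by ring
          _ ≤ (p : ℝ) ^ (-(k : ℤ)) * 1 :=
              mul_le_mul_of_nonneg_left (hkn.trans hn1.le) (by positivity)
          _ = (p : ℝ) ^ (-(k : ℤ)) := mul_one _
          _ ≤ _ := zpow_le_zpow_right₀ hp1.le (by omega)
      · apply hdv
        push_cast
        rw [mbf, ← hc' 2]
        have h4 := toZ0.1 h1
        rw [map_add, map_mul, map_pow, map_ofNat] at h4
        exact h4
      · apply hdv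
        push_cast
        rw [mbfu, mbfu, ← hc' 2, ← map_mul, ← map_add]
        exact toZ0.1 h2
      · apply hdv
        push_cast
        rw [mbfv, mbfv, ← hc' 2, ← map_mul, ← map_add]
        exact toZ0.1 h3
    -- the inequality for Hensel's lemma
    have hineq : ∀ D : ℤ_[p], (p : ℝ) ^ (-(ℓ : ℤ)) < ‖D‖ →
        ‖A 3 ^ 2 - ((p : ℤ_[p]) ^ k) ^ 2‖ < ((p : ℝ) ^ (-(n : ℤ)) * ‖D‖) ^ 2 := by
      intro D hD
      refine lt_of_le_of_lt hval ?_
      apply pow_lt_pow_left₀ _ (by positivity) two_ne_zero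
      calc (p : ℝ) ^ (-(k : ℤ)) ≤ (p : ℝ) ^ (-(n : ℤ) + -(ℓ : ℤ)) :=
            zpow_le_zpow_right₀ hp1.le (by omega)
        _ = (p : ℝ) ^ (-(n : ℤ)) * (p : ℝ) ^ (-(ℓ : ℤ)) := zpow_add₀ hp0.ne' _ _
        _ < (p : ℝ) ^ (-(n : ℤ)) * ‖D‖ := mul_lt_mul_of_pos_left hD (by positivity)
    have hyk : ‖A 3 - (p : ℤ_[p]) ^ k‖ ≤ (p : ℝ) ^ (-(n : ℤ)) := by
      rw [sub_eq_add_neg]
      refine (PadicInt.nonarchimedean _ _).trans (max_le (hy.le.trans hkn) ?_)
      rw [norm_neg, hnp]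
      exact hkn
    have hzero : ∀ z : ℤ_[p], ‖z - z‖ ≤ (p : ℝ) ^ (-(n : ℤ)) := by
      intro z; rw [sub_self, norm_zero]; exact hnn
    have hone : ∀ z w : ℤ_[p], ‖z‖ = 1 → ‖w - z‖ ≤ (p : ℝ) ^ (-(n : ℤ)) → ‖w‖ = 1 := by
      intro z w hz hw
      apply le_antisymm (PadicInt.norm_le_one w)
      by_contra hcon
      have h1 : ‖w‖ < 1 := not_le.1 hcon
      have e1 : z = w + -(w - z) := by ring
      have h2 : ‖z‖ < 1 := by
        rw [e1]
        refine lt_of_le_of_lt (PadicInt.nonarchimedean _ _) (max_lt h1 ?_)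
        rw [norm_neg]
        exact lt_of_le_of_lt hw hn1
      rw [hz] at h2
      exact lt_irrefl _ h2
    have hne0 : ∀ z : ℤ_[p], ‖z‖ = 1 → z ≠ 0 := by
      rintro z hz rfl
      rw [norm_zero] at hz
      norm_num at hz
    rcases hpart with hD | hD | hD
    · -- move `x`
      obtain ⟨z, hz1, hz2⟩ := hens (X ^ 3 + C (bf a (A 0) (A 1)) * X + C (bf f (A 0) (A 1)) -
        C (((p : ℤ_[p]) ^ k) ^ 2)) (A 2) n (by
          have e1 : (X ^ 3 + C (bf a (A 0) (A 1)) * X + C (bf f (A 0) (A 1)) -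
              C (((p : ℤ_[p]) ^ k) ^ 2)).eval (A 2) = A 3 ^ 2 - ((p : ℤ_[p]) ^ k) ^ 2 := by
            simp only [eval_sub, eval_add, eval_mul, eval_pow, eval_X, eval_C]
            rw [heqA]
          have e2 : (derivative (X ^ 3 + C (bf a (A 0) (A 1)) * X + C (bf f (A 0) (A 1)) -
              C (((p : ℤ_[p]) ^ k) ^ 2))).eval (A 2) = 3 * A 2 ^ 2 + bf a (A 0) (A 1) := by
            rw [derivative_sub, derivative_add, derivative_add, derivative_C, derivative_C,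
              derivative_C_mul, derivative_X, derivative_X_pow]
            simp only [eval_sub, eval_add, eval_mul, eval_pow, eval_X, eval_C, eval_zero, eval_one]
            norm_num
          rw [e1, e2]
          exact hineq _ hD)
      simp only [eval_sub, eval_add, eval_mul, eval_pow, eval_X, eval_C] at hz1
      refine fin (A 0) (A 1) z ((p : ℤ_[p]) ^ k) (by linear_combination -hz1) ?_ hA01
        (hzero _) (hzero _) ?_ hyk hnp.ge
      · rcases hprim2 with h | h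
        · exact Or.inl h
        · exact Or.inr (Or.inl h)
      · rw [← norm_neg, neg_sub]; exact hz2
    · -- move `u`
      obtain ⟨z, hz1, hz2⟩ := hens (C (A 2 ^ 3) + bf a (X : ℤ_[p][X]) (C (A 1)) * C (A 2) +
        bf f (X : ℤ_[p][X]) (C (A 1)) - C (((p : ℤ_[p]) ^ k) ^ 2)) (A 0) n (by
          have e1 : (C (A 2 ^ 3) + bf a (X : ℤ_[p][X]) (C (A 1)) * C (A 2) +
              bf f (X : ℤ_[p][X]) (C (A 1)) - C (((p : ℤ_[p]) ^ k) ^ 2)).eval (A 0) =
              A 3 ^ 2 - ((p : ℤ_[p]) ^ k) ^ 2 := by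
            rw [eval_sub, eval_add, eval_add, eval_mul, eval_bf_X, eval_bf_X, eval_C, eval_C,
              eval_C, heqA]
          have e2 : (derivative (C (A 2 ^ 3) + bf a (X : ℤ_[p][X]) (C (A 1)) * C (A 2) +
              bf f (X : ℤ_[p][X]) (C (A 1)) - C (((p : ℤ_[p]) ^ k) ^ 2))).eval (A 0) =
              bfu f (A 0) (A 1) + bfu a (A 0) (A 1) * A 2 := by
            rw [derivative_sub, derivative_add, derivative_add, derivative_mul, derivative_C,
              derivative_C, derivative_C, eval_sub, eval_add, eval_add, eval_add, eval_mul,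
              der_bf_X, der_bf_X]
            simp
            ring
          rw [e1, e2]
          exact hineq _ hD)
      rw [eval_sub, eval_add, eval_add, eval_mul, eval_bf_X, eval_bf_X, eval_C, eval_C,
        eval_C] at hz1
      refine fin z (A 1) (A 2) ((p : ℤ_[p]) ^ k) (by linear_combination -hz1) ?_ ?_ ?_
        (hzero _) (hzero _) hyk hnp.ge
      · rcases hprim2 with h | h
        · exact Or.inl (hone _ _ h hz2)
        · exact Or.inr (Or.inl h)
      · rcases hprim2 with h | h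
        · exact Or.inl (hne0 _ (hone _ _ h hz2))
        · exact Or.inr (hne0 _ h)
      · rw [← norm_neg, neg_sub]; exact hz2
    · -- move `v`
      obtain ⟨z, hz1, hz2⟩ := hens (C (A 2 ^ 3) + bf a (C (A 0) : ℤ_[p][X]) X * C (A 2) +
        bf f (C (A 0) : ℤ_[p][X]) X - C (((p : ℤ_[p]) ^ k) ^ 2)) (A 1) n (by
          have e1 : (C (A 2 ^ 3) + bf a (C (A 0) : ℤ_[p][X]) X * C (A 2) +
              bf f (C (A 0) : ℤ_[p][X]) X - C (((p : ℤ_[p]) ^ k) ^ 2)).eval (A 1) =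
              A 3 ^ 2 - ((p : ℤ_[p]) ^ k) ^ 2 := by
            rw [eval_sub, eval_add, eval_add, eval_mul, eval_bf_C, eval_bf_C, eval_C, eval_C,
              eval_C, heqA]
          have e2 : (derivative (C (A 2 ^ 3) + bf a (C (A 0) : ℤ_[p][X]) X * C (A 2) +
              bf f (C (A 0) : ℤ_[p][X]) X - C (((p : ℤ_[p]) ^ k) ^ 2))).eval (A 1) =
              bfv f (A 0) (A 1) + bfv a (A 0) (A 1) * A 2 := by
            rw [derivative_sub, derivative_add, derivative_add, derivative_mul, derivative_C,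
              derivative_C, derivative_C, eval_sub, eval_add, eval_add, eval_add, eval_mul,
              der_bf_C, der_bf_C]
            simp
            ring
          rw [e1, e2]
          exact hineq _ hD)
      rw [eval_sub, eval_add, eval_add, eval_mul, eval_bf_C, eval_bf_C, eval_C, eval_C,
        eval_C] at hz1
      refine fin (A 0) z (A 2) ((p : ℤ_[p]) ^ k) (by linear_combination -hz1) ?_ ?_
        (hzero _) ?_ (hzero _) hyk hnp.ge
      · rcases hprim2 with h | h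
        · exact Or.inl h
        · exact Or.inr (Or.inl (hone _ _ h hz2))
      · rcases hprim2 with h | h
        · exact Or.inl (hne0 _ h)
        · exact Or.inr (hne0 _ (hone _ _ h hz2))
      · rw [← norm_neg, neg_sub]; exact hz2

end Pool.Agent.DPO
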