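import Pool.Agent.DPO.Stm2

/-!
# Project DPO, piece GOODR: normalization of the moved real point
-/

set_option autoImplicit false

namespace Pool.Agent.DPO

namespace GOODR

theorem bf_smul {K : Type*} [Field K] {d : ℕ} (g : Fin (d + 1) → ℤ) (β u v : K) :
    bf g (β * u) (β * v) = β ^ d * bf g u v := by
  unfold bf
  rw [Finset.mul_sum]
  refine Finset.sum_congr rfl fun i _ => ?_
  have h : β ^ d = β ^ (d - (i : ℕ)) * β ^ (i : ℕ) := by
    rw [← pow_add]; congr 1; have := i.2; omega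
  rw [h, mul_pow, mul_pow]
  ring

theorem sc_pos {H : ℝ} (hH : 0 < H) (i : Fin 4) : 0 < sc H i := by
  fin_cases i <;> simp [sc] <;> positivity

theorem wt1 (i : Fin 4) : 1 ≤ wt i := by fin_cases i <;> simp [wt]

theorem wt3 (i : Fin 4) : wt i ≤ 3 := by fin_cases i <;> simp [wt]

/-- powers near one -/
theorem pow_near {β δ : ℝ} (hδ0 : 0 ≤ δ) (hδ1 : δ ≤ 1 / 100) (hβ : |β - 1| ≤ 2 * δ) {w : ℕ}
    (hw : w ≤ 3) : |β ^ w - 1| ≤ 7 * δ := by
  have h1 := abs_le.1 hβ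
  have hb1 : 0 ≤ β := by linarith
  have hb2 : β ≤ 51 / 50 := by linarith
  have hw' : w = 0 ∨ w = 1 ∨ w = 2 ∨ w = 3 := by omega
  rcases hw' with rfl | rfl | rfl | rfl
  · simp; exact hδ0
  · rw [pow_one]; linarith
  · have e1 : β ^ 2 - 1 = (β - 1) * (β + 1) := by ring
    rw [e1, abs_mul, abs_of_nonneg (by linarith : 0 ≤ β + 1)]
    calc |β - 1| * (β + 1) ≤ (2 * δ) * (β + 1) := mul_le_mul_of_nonneg_right hβ (by linarith)
      _ ≤ (2 * δ) * (3 : ℝ) := mul_le_mul_of_nonneg_left (by linarith) (by linarith)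
      _ ≤ 7 * δ := by linarith
  · have e1 : β ^ 3 - 1 = (β - 1) * (β ^ 2 + β + 1) := by ring
    have h2 : β ^ 2 ≤ (51 / 50) ^ 2 := pow_le_pow_left₀ hb1 hb2 2
    have h3 : 0 ≤ β ^ 2 := sq_nonneg β
    rw [e1, abs_mul, abs_of_nonneg (by linarith : 0 ≤ β ^ 2 + β + 1)]
    calc |β - 1| * (β ^ 2 + β + 1) ≤ (2 * δ) * (β ^ 2 + β + 1) :=
          mul_le_mul_of_nonneg_right hβ (by linarith)
      _ ≤ (2 * δ) * (3.5 : ℝ) := mul_le_mul_of_nonneg_left (by norm_num at h2 ⊢; linarith) (by linarith)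
      _ = 7 * δ := by ring

end GOODR

open GOODR in
theorem t_GOODR (hM : S_MOVR) (hL : S_LR) : S_GOODR := by
  intro m θ hm hθ
  have hm0 : (0 : ℝ) < m := by exact_mod_cast hm
  have hm1 : (1 : ℝ) ≤ m := by exact_mod_cast hm
  obtain ⟨δ, hδ⟩ : ∃ δ : ℝ, δ = 1 / (100 * m) := ⟨_, rfl⟩
  have hδ0 : 0 < δ := by rw [hδ]; positivity
  have hδ1 : δ ≤ 1 / 100 := by
    rw [hδ]
    apply one_div_le_one_div_of_le (by norm_num)
    linarith
  have hδm : 10 * δ ≤ 1 / m := by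
    rw [hδ, ← mul_div_assoc, div_le_div_iff₀ (by positivity) hm0]
    linarith
  obtain ⟨γ, hγ0, hγ1, hmov⟩ := hM δ θ hδ0 hθ
  obtain ⟨M, hMγ⟩ := exists_nat_ge (8 / γ)
  have hM0 : (0 : ℝ) < M := lt_of_lt_of_le (by positivity) hMγ
  refine ⟨M, by exact_mod_cast (Nat.one_le_iff_ne_zero.2 (by
    rintro rfl; simp at hM0)), ?_⟩
  intro H hH a ha f hf hbad W hW
  have hH0 : 0 < H := by linarith
  obtain ⟨β, hβ0, hβ, heq⟩ := hL H a f W hH0 hW
  -- the scaled coordinates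
  obtain ⟨ζ, hζ⟩ : ∃ ζ : Fin 4 → ℝ, ∀ i, ζ i = β ^ wt i * W i / sc H i := ⟨_, fun i => rfl⟩
  have hζ1 : ∀ i, |ζ i| ≤ 1 := by
    intro i
    rw [hζ, abs_div, abs_of_pos (sc_pos hH0 i), div_le_one (sc_pos hH0 i)]
    exact hβ.1 i
  obtain ⟨j, hj⟩ := hβ.2
  have hζj : |ζ j| = 1 := by
    rw [hζ, abs_div, abs_of_pos (sc_pos hH0 j), hj, div_self (sc_pos hH0 j).ne']
  have e0 : ζ 0 = β * W 0 := by rw [hζ]; simp [wt, sc]
  have e1 : ζ 1 = β * W 1 := by rw [hζ]; simp [wt, sc]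
  have e2 : ζ 2 = β ^ 2 * W 2 / H ^ 2 := by rw [hζ]; simp [wt, sc]
  have e3 : ζ 3 = β ^ 3 * W 3 / H ^ 3 := by rw [hζ]; simp [wt, sc]
  have hmax : |ζ 0| = 1 ∨ |ζ 1| = 1 ∨ |ζ 2| = 1 ∨ |ζ 3| = 1 := by
    fin_cases j
    · exact Or.inl hζj
    · exact Or.inr (Or.inl hζj)
    · exact Or.inr (Or.inr (Or.inl hζj))
    · exact Or.inr (Or.inr (Or.inr hζj))
  obtain ⟨u', v', x', y', heq', hu, hv, hx, hy, hyγ, hne⟩ := hmov H hH a ha f hf hbad
    (ζ 0) (ζ 1) (ζ 2) (ζ 3) (by rw [e0, e1, e2, e3]; exact heq) (hζ1 0) (hζ1 1) (hζ1 2) (hζ1 3)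
    hmax
  have hne' : u' ≠ 0 ∨ v' ≠ 0 := by
    apply hne
    rw [e0, e1]
    rcases hW.1 with h | h
    · exact Or.inl (mul_ne_zero hβ0.ne' h)
    · exact Or.inr (mul_ne_zero hβ0.ne' h)
  obtain ⟨ξ, hξ⟩ : ∃ ξ : Fin 4 → ℝ, ξ = ![u', v', x', y'] := ⟨_, rfl⟩
  have x0 : ξ 0 = u' := by rw [hξ]; rfl
  have x1 : ξ 1 = v' := by rw [hξ]; rfl
  have x2 : ξ 2 = x' := by rw [hξ]; rfl
  have x3 : ξ 3 = y' := by rw [hξ]; rfl
  have hξζ : ∀ i, |ξ i - ζ i| ≤ δ := by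
    intro i
    fin_cases i
    · show |ξ 0 - ζ 0| ≤ δ
      rw [x0]; exact hu
    · show |ξ 1 - ζ 1| ≤ δ
      rw [x1]; exact hv
    · show |ξ 2 - ζ 2| ≤ δ
      rw [x2]; exact hx
    · show |ξ 3 - ζ 3| ≤ δ
      rw [x3]; exact hy
  obtain ⟨V, hV⟩ : ∃ V : Fin 4 → ℝ, ∀ i, V i = sc H i * ξ i := ⟨_, fun i => rfl⟩
  have s0 : sc H 0 = 1 := rfl
  have s1 : sc H 1 = 1 := rfl
  have s2 : sc H 2 = H ^ 2 := rfl
  have s3 : sc H 3 = H ^ 3 := rfl
  have hVpt : IsPt a f V := by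
    constructor
    · rw [hV, hV, s0, s1, x0, x1, one_mul, one_mul]
      exact hne'
    · rw [hV, hV, hV, hV, s0, s1, s2, s3, x0, x1, x2, x3, one_mul, one_mul]
      have h1 : (H ^ 3 * y') ^ 2 = H ^ 6 * y' ^ 2 := by ring
      rw [h1, heq']
      unfold Fr
      have := hH0.ne'
      field_simp
  obtain ⟨b, hb0, hb, _⟩ := hL H a f V hH0 hVpt
  have hb1 : ∀ i, b ^ wt i * |ξ i| ≤ 1 := by
    intro i
    have h1 := hb.1 i
    rw [hV, abs_mul, abs_mul, abs_of_pos (by positivity : 0 < b ^ wt i),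
      abs_of_pos (sc_pos hH0 i)] at h1
    have h2 : (b ^ wt i * |ξ i|) * sc H i ≤ 1 * sc H i := by
      calc (b ^ wt i * |ξ i|) * sc H i = b ^ wt i * (sc H i * |ξ i|) := by ring
        _ ≤ sc H i := h1
        _ = 1 * sc H i := (one_mul _).symm
    exact le_of_mul_le_mul_right h2 (sc_pos hH0 i)
  obtain ⟨l, hl⟩ := hb.2
  have hbl : b ^ wt l * |ξ l| = 1 := by
    rw [hV, abs_mul, abs_mul, abs_of_pos (by positivity : 0 < b ^ wt l),
      abs_of_pos (sc_pos hH0 l)] at hl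
    have h2 : (b ^ wt l * |ξ l|) * sc H l = 1 * sc H l := by
      calc (b ^ wt l * |ξ l|) * sc H l = b ^ wt l * (sc H l * |ξ l|) := by ring
        _ = sc H l := hl
        _ = 1 * sc H l := (one_mul _).symm
    exact mul_right_cancel₀ (sc_pos hH0 l).ne' h2
  have hξle : ∀ i, |ξ i| ≤ 1 + δ := by
    intro i
    have h1 := abs_add_le (ξ i - ζ i) (ζ i)
    rw [sub_add_cancel] at h1
    have := hξζ i
    have := hζ1 i
    linarith
  have hξj : 1 - δ ≤ |ξ j| := by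
    have h1 := abs_add_le (ζ j - ξ j) (ξ j)
    rw [sub_add_cancel, hζj] at h1
    have h2 := hξζ j
    rw [abs_sub_comm] at h2
    linarith
  -- `b` is near one
  have hblow : 1 - δ ≤ b := by
    by_contra hcon
    have h1 : b < 1 - δ := not_le.1 hcon
    have h2 : b ^ wt l ≤ b := by
      calc b ^ wt l ≤ b ^ 1 := pow_le_pow_of_le_one hb0.le (by linarith) (wt1 l)
        _ = b := pow_one b
    have h3 : b ^ wt l * |ξ l| < 1 := by
      calc b ^ wt l * |ξ l| ≤ b * (1 + δ) :=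
            mul_le_mul h2 (hξle l) (abs_nonneg _) hb0.le
        _ < (1 - δ) * (1 + δ) := mul_lt_mul_of_pos_right h1 (by linarith)
        _ ≤ 1 := by nlinarith
    linarith
  have hbup : b ≤ 1 + 2 * δ := by
    by_contra hcon
    have h1 : 1 + 2 * δ < b := not_le.1 hcon
    have h2 : b ≤ b ^ wt j := by
      calc b = b ^ 1 := (pow_one b).symm
        _ ≤ b ^ wt j := pow_le_pow_right₀ (by linarith) (wt1 j)
    have h3 : 1 < b ^ wt j * |ξ j| := by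
      calc 1 ≤ (1 + 2 * δ) * (1 - δ) := by nlinarith
        _ < b * (1 - δ) := mul_lt_mul_of_pos_right h1 (by linarith)
        _ ≤ b ^ wt j * |ξ j| := mul_le_mul h2 hξj (by linarith) (by positivity)
    have := hb1 j
    linarith
  have hbb : |b - 1| ≤ 2 * δ := by
    rw [abs_le]; constructor <;> linarith
  -- the new point
  have hcoord : ∀ i, b ^ wt i * V i = sc H i * (b ^ wt i * ξ i) := by
    intro i; rw [hV]; ring
  refine ⟨fun i => b ^ wt i * V i, β, ⟨?_, ?_⟩, hβ, ⟨?_, l, ?_⟩, ?_, ?_⟩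
  · have w0 : wt 0 = 1 := rfl
    have w1 : wt 1 = 1 := rfl
    simp only [w0, w1, pow_one]
    rcases hVpt.1 with h | h
    · exact Or.inl (mul_ne_zero hb0.ne' h)
    · exact Or.inr (mul_ne_zero hb0.ne' h)
  · have w0 : wt 0 = 1 := rfl
    have w1 : wt 1 = 1 := rfl
    have w2 : wt 2 = 2 := rfl
    have w3 : wt 3 = 3 := rfl
    simp only [w0, w1, w2, w3, pow_one]
    rw [bf_smul, bf_smul]
    have := hVpt.2
    linear_combination b ^ 6 * this
  · intro i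
    rw [one_pow, one_mul]
    exact hb.1 i
  · rw [one_pow, one_mul]
    exact hl
  · intro i
    show |β ^ wt i * W i - b ^ wt i * V i| ≤ sc H i / m
    have h1 : β ^ wt i * W i = sc H i * ζ i := by
      rw [hζ]; have := (sc_pos hH0 i).ne'; field_simp
    have h2 : β ^ wt i * W i - b ^ wt i * V i =
        sc H i * ((ζ i - ξ i) - (b ^ wt i - 1) * ξ i) := by
      rw [h1, hcoord]; ring
    rw [h2, abs_mul, abs_of_pos (sc_pos hH0 i)]
    have h3 : |(ζ i - ξ i) - (b ^ wt i - 1) * ξ i| ≤ 10 * δ := by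
      have h4 := abs_sub (ζ i - ξ i) ((b ^ wt i - 1) * ξ i)
      have h5 := hξζ i
      rw [abs_sub_comm] at h5
      have h6 : |(b ^ wt i - 1) * ξ i| ≤ 7 * δ * (101 / 100) := by
        rw [abs_mul]
        exact mul_le_mul (pow_near hδ0.le hδ1 hbb (wt3 i)) ((hξle i).trans (by linarith))
          (abs_nonneg _) (by positivity)
      linarith
    calc sc H i * |(ζ i - ξ i) - (b ^ wt i - 1) * ξ i| ≤ sc H i * (1 / m) :=
          mul_le_mul_of_nonneg_left (h3.trans hδm) (sc_pos hH0 i).le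
      _ = sc H i / m := by ring
  · show H ^ 3 / M ≤ |b ^ wt 3 * V 3|
    have w3 : wt 3 = 3 := rfl
    rw [hV, w3, s3, x3, abs_mul, abs_mul, abs_of_pos (by positivity : 0 < b ^ 3),
      abs_of_pos (by positivity : 0 < H ^ 3)]
    have h1 : (1 / 2 : ℝ) ≤ b := by linarith
    have h2 : (1 / 8 : ℝ) ≤ b ^ 3 := by
      calc (1 / 8 : ℝ) = (1 / 2) ^ 3 := by norm_num
        _ ≤ b ^ 3 := pow_le_pow_left₀ (by norm_num) h1 3
    have h3 : 1 / (M : ℝ) ≤ γ / 8 := by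
      rw [div_le_iff₀ hM0]
      have h4 : 8 ≤ M * γ := (div_le_iff₀ hγ0).1 hMγ
      linarith
    have h5 : γ / 8 ≤ b ^ 3 * |y'| := by
      calc γ / 8 = (1 / 8) * γ := by ring
        _ ≤ b ^ 3 * |y'| := mul_le_mul h2 hyγ hγ0.le (by positivity)
    have h6 : 1 / (M : ℝ) ≤ b ^ 3 * |y'| := h3.trans h5
    calc H ^ 3 / M = H ^ 3 * (1 / M) := by ring
      _ ≤ H ^ 3 * (b ^ 3 * |y'|) := mul_le_mul_of_nonneg_left h6 (by positivity)
      _ = b ^ 3 * (H ^ 3 * |y'|) := by ring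

end Pool.Agent.DPO
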