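import Pool.Agent.DPO.Stm

/-!
# Project DPO, piece HENS
-/

set_option autoImplicit false

namespace Pool.Agent.DPO

open Finset

namespace HENS

/-- one step of the lifting of a square root -/
theorem step {p : ℕ} (hp : p.Prime) {n k : ℕ} (hn : 1 ≤ n) (hk : 4 * n ≤ k) {A z : ℤ}
    (h : (p : ℤ) ^ k ∣ z ^ 2 - A) (hz : ¬ (p : ℤ) ∣ z) :
    ∃ z' : ℤ, (p : ℤ) ^ (k + 1) ∣ z' ^ 2 - A ∧ (p : ℤ) ^ n ∣ z' - z ∧ ¬ (p : ℤ) ∣ z' := by
  obtain ⟨c, hc⟩ := h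
  have hpp : Prime (p : ℤ) := Nat.prime_iff_prime_int.1 hp
  rcases hp.eq_two_or_odd' with h2 | h2
  · subst h2
    rcases Int.even_or_odd c with ⟨d, hd⟩ | hodd
    · refine ⟨z, ⟨d, ?_⟩, by simp, hz⟩
      rw [hc, hd]
      push_cast
      ring
    · have hzo : Odd z := by
        rw [← Int.not_even_iff_odd, even_iff_two_dvd]
        exact_mod_cast hz
      obtain ⟨e, he⟩ := hodd.add_odd hzo
      obtain ⟨m, rfl⟩ : ∃ m, k = m + 3 := ⟨k - 3, by omega⟩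
      refine ⟨z + 2 ^ (m + 2), ⟨e + 2 ^ m, ?_⟩, ?_, ?_⟩
      · push_cast at hc ⊢
        have h1 : z ^ 2 = A + 2 ^ (m + 3) * c := by linarith
        have h2 : c = e + e - z := by linarith
        have h3 : (z + 2 ^ (m + 2)) ^ 2 - A = (z ^ 2 - A) + 2 ^ (m + 3) * z + (2 ^ (m + 2)) ^ 2 := by
          ring
        rw [h3, h1, h2]
        ring
      · rw [add_sub_cancel_left]
        exact_mod_cast pow_dvd_pow (2 : ℤ) (by omega : n ≤ m + 2)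
      · intro h
        have h3 : ((2 : ℕ) : ℤ) ∣ 2 ^ (m + 2) := by
          push_cast
          exact dvd_pow_self 2 (by omega)
        exact hz ((dvd_add_left h3).1 h)
  · have hcop : IsCoprime (2 * z) (p : ℤ) := by
      rw [isCoprime_comm]
      refine (Prime.coprime_iff_not_dvd hpp).2 fun h => ?_
      rcases hpp.dvd_or_dvd h with h3 | h3
      · have h4 : p ∣ 2 := by exact_mod_cast h3
        have h5 := (Nat.prime_dvd_prime_iff_eq hp Nat.prime_two).1 h4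
        rw [h5] at h2
        exact absurd h2 (by decide)
      · exact hz h3
    obtain ⟨α, β, hαβ⟩ := hcop
    obtain ⟨m, rfl⟩ : ∃ m, k = m + 1 := ⟨k - 1, by omega⟩
    refine ⟨z + (p : ℤ) ^ (m + 1) * (-(c * α)), ⟨c * β + (p : ℤ) ^ m * (c * α) ^ 2, ?_⟩, ?_, ?_⟩
    · have h1 : z ^ 2 = A + (p : ℤ) ^ (m + 1) * c := by linarith
      have h3 : (z + (p : ℤ) ^ (m + 1) * (-(c * α))) ^ 2 - A = (z ^ 2 - A) -
          (p : ℤ) ^ (m + 1) * c * (α * (2 * z)) + ((p : ℤ) ^ (m + 1) * (c * α)) ^ 2 := by ring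
      have h4 : α * (2 * z) = 1 - β * p := by linarith
      rw [h3, h1, h4]
      ring
    · rw [add_sub_cancel_left]
      exact Dvd.dvd.mul_right (pow_dvd_pow _ (by omega)) _
    · intro h
      have h3 : (p : ℤ) ∣ (p : ℤ) ^ (m + 1) * (-(c * α)) :=
        Dvd.dvd.mul_right (dvd_pow_self _ (by omega)) _
      exact hz ((dvd_add_left h3).1 h)

/-- square roots lift -/
theorem lift {p : ℕ} (hp : p.Prime) {n : ℕ} (hn : 1 ≤ n) {A z : ℤ}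
    (h : (p : ℤ) ^ (4 * n) ∣ z ^ 2 - A) (hz : ¬ (p : ℤ) ∣ z) (E : ℕ) :
    ∃ z' : ℤ, (p : ℤ) ^ (4 * n + E) ∣ z' ^ 2 - A ∧ (p : ℤ) ^ n ∣ z' - z ∧ ¬ (p : ℤ) ∣ z' := by
  induction E with
  | zero => exact ⟨z, h, by simp, hz⟩
  | succ E ih =>
    obtain ⟨z₁, h1, h2, h3⟩ := ih
    obtain ⟨z₂, h4, h5, h6⟩ := step hp hn (by omega) h1 h3
    refine ⟨z₂, h4, ?_, h6⟩
    have := dvd_add h5 h2
    rwa [sub_add_sub_cancel] at this

/-- the value of a form at `(u, 0)` -/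
theorem bf_zero {d : ℕ} (g : Fin (d + 1) → ℤ) (u : ℤ) : bf g u (0 : ℤ) = g 0 * u ^ d := by
  unfold bf
  rw [Fin.sum_univ_succ]
  simp

end HENS

open HENS in
theorem t_HENS : S_HENS := by
  intro p n hp hn x y hx hy h a f E
  have h0 : ((p : ℤ) ^ n * 0) = 0 := mul_zero _
  have hdiv : (p : ℤ) ^ (4 * n) ∣ y ^ 2 -
      (x ^ 3 + a 0 * ((p : ℤ) ^ n * 1) ^ 4 * x + f 0 * ((p : ℤ) ^ n * 1) ^ 6) := by
    have h1 : y ^ 2 - (x ^ 3 + a 0 * ((p : ℤ) ^ n * 1) ^ 4 * x + f 0 * ((p : ℤ) ^ n * 1) ^ 6) =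
        (y ^ 2 - x ^ 3) - (p : ℤ) ^ (4 * n) * (a 0 * x + f 0 * (p : ℤ) ^ (2 * n)) := by ring
    rw [h1]
    exact dvd_sub h (dvd_mul_right _ _)
  obtain ⟨y', h1, h2, h3⟩ := lift hp hn hdiv hy E
  refine ⟨y', ?_, h2, h3⟩
  rw [h0]
  unfold Psi
  rw [bf_zero, bf_zero]
  have h4 : y' ^ 2 - x ^ 3 - a 0 * ((p : ℤ) ^ n * 1) ^ 4 * x - f 0 * ((p : ℤ) ^ n * 1) ^ 6 =
      y' ^ 2 - (x ^ 3 + a 0 * ((p : ℤ) ^ n * 1) ^ 4 * x + f 0 * ((p : ℤ) ^ n * 1) ^ 6) := by ring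
  rw [h4]
  exact (pow_dvd_pow _ (by omega)).trans h1

end Pool.Agent.DPO
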