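import Pool.Agent.DPO.Stm

/-!
# Project DPO, piece ICNT: counting integers in a class in an interval
-/

set_option autoImplicit false

namespace Pool.Agent.DPO

open Finset

theorem t_ICNT : S_ICNT := by
  refine ⟨?_, ?_⟩
  · intro s m L hm hL h
    have hm' : (0 : ℝ) < m := by exact_mod_cast hm
    have hLm : 0 ≤ L / m := by positivity
    rcases s.eq_empty_or_nonempty with rfl | hne
    · simp only [card_empty, Nat.cast_zero]; linarith
    · set x₀ := s.min' hne with hx0
      have hx0s : x₀ ∈ s := s.min'_mem hne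
      have hmin : ∀ a ∈ s, x₀ ≤ a := fun a ha => s.min'_le a ha
      have hinj : Set.InjOn (fun a : ℤ => (a - x₀) / m) s := by
        intro a ha b hb hab
        obtain ⟨k, hk⟩ := (h a ha x₀ hx0s).1
        obtain ⟨l, hl⟩ := (h b hb x₀ hx0s).1
        have hm0 : (m : ℤ) ≠ 0 := by exact_mod_cast hm.ne'
        simp only [hk, hl, Int.mul_ediv_cancel_left _ hm0] at hab
        subst hab
        omega
      have hmaps : ∀ a ∈ s, (fun a : ℤ => (a - x₀) / m) a ∈ Finset.Icc (0 : ℤ) ⌊L / m⌋ := by
        intro a ha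
        obtain ⟨k, hk⟩ := (h a ha x₀ hx0s).1
        have hm0 : (m : ℤ) ≠ 0 := by exact_mod_cast hm.ne'
        simp only [hk, Int.mul_ediv_cancel_left _ hm0]
        rw [Finset.mem_Icc]
        constructor
        · have h1 : 0 ≤ a - x₀ := by have := hmin a ha; omega
          rw [hk] at h1
          have hm1 : (0 : ℤ) < m := by exact_mod_cast hm
          exact nonneg_of_mul_nonneg_right h1 hm1
        · rw [Int.le_floor, le_div_iff₀ hm']
          have h2 := (h a ha x₀ hx0s).2
          have h3 : ((a : ℝ) - x₀) = m * k := by exact_mod_cast hk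
          have h4 := le_abs_self ((a : ℝ) - x₀)
          nlinarith
      have hc := Finset.card_le_card_of_injOn _ hmaps hinj
      rw [Int.card_Icc] at hc
      have hfl : 0 ≤ ⌊L / m⌋ := Int.floor_nonneg.mpr hLm
      have h5 : ((s.card : ℤ)) ≤ ⌊L / m⌋ + 1 := by omega
      have h6 : ((s.card : ℝ)) ≤ ⌊L / m⌋ + 1 := by exact_mod_cast h5
      have h7 := Int.floor_le (L / m)
      linarith
  · intro lo hi m r hm
    have hm' : (0 : ℝ) < m := by exact_mod_cast hm
    have hm1 : (0 : ℤ) < m := by exact_mod_cast hm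
    have hm0 : (m : ℤ) ≠ 0 := hm1.ne'
    set p : ℤ := ⌈(lo - r) / m⌉ with hp
    set q : ℤ := ⌊(hi - r) / m⌋ with hq
    have hinj : Set.InjOn (fun k : ℤ => r + m * k) (Finset.Icc p q : Finset ℤ) := by
      intro a _ b _ hab
      have : (m : ℤ) * a = m * b := by simpa using hab
      exact mul_left_cancel₀ hm0 this
    have hmaps : ∀ k ∈ Finset.Icc p q, (fun k : ℤ => r + m * k) k ∈ setI lo hi m r := by
      intro k hk
      rw [Finset.mem_Icc] at hk
      rw [setI, Finset.mem_filter, Finset.mem_Icc, Int.ceil_le, Int.le_floor]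
      refine ⟨⟨?_, ?_⟩, ?_⟩
      · have h1 := hk.1
        rw [hp, Int.ceil_le, div_le_iff₀ hm'] at h1
        push_cast
        linarith
      · have h1 := hk.2
        rw [hq, Int.le_floor, le_div_iff₀ hm'] at h1
        push_cast
        linarith
      · exact ⟨k, by ring⟩
    have hc := Finset.card_le_card_of_injOn _ hmaps hinj
    rw [Int.card_Icc] at hc
    have h5 : q + 1 - p ≤ ((setI lo hi m r).card : ℤ) := by omega
    have h6 : (q : ℝ) + 1 - p ≤ ((setI lo hi m r).card : ℝ) := by exact_mod_cast h5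
    have h7 := Int.lt_floor_add_one ((hi - r) / (m : ℝ))
    have h8 := Int.ceil_lt_add_one ((lo - r) / (m : ℝ))
    rw [← hq] at h7
    rw [← hp] at h8
    have h9 : (hi - lo) / (m : ℝ) = (hi - r) / m - (lo - r) / m := by ring
    rw [h9]
    linarith

end Pool.Agent.DPO
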