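import Pool.Agent.DPO.Stm

/-!
# Project DPO, piece LDAT
-/

set_option autoImplicit false

namespace Pool.Agent.DPO

open Finset

namespace LDAT

/-- the valuation of a nonzero integer -/
theorem val_ex {p : ℕ} (hp : p.Prime) {m : ℤ} (hm : m ≠ 0) :
    ∃ j : ℕ, (p : ℤ) ^ j ∣ m ∧ ¬ (p : ℤ) ^ (j + 1) ∣ m := by
  have hf : FiniteMultiplicity (p : ℤ) m := by
    rw [Int.finiteMultiplicity_iff]
    exact ⟨by simpa using hp.one_lt.ne', hm⟩
  exact ⟨multiplicity (p : ℤ) m, pow_multiplicity_dvd _ _,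
    hf.not_pow_dvd_of_multiplicity_lt (Nat.lt_succ_self _)⟩

/-- the valuation of `2 y` -/
theorem val_two {p : ℕ} (hp : p.Prime) {M : ℕ} {y : ℤ} (hy : ¬ (p : ℤ) ^ (M + 1) ∣ y) :
    ∃ j : ℕ, j ≤ M + 1 ∧ (p : ℤ) ^ j ∣ 2 * y ∧ ¬ (p : ℤ) ^ (j + 1) ∣ 2 * y := by
  have hy0 : y ≠ 0 := by
    rintro rfl
    exact hy (dvd_zero _)
  obtain ⟨j, h1, h2⟩ := val_ex hp (m := 2 * y) (by omega)
  refine ⟨j, ?_, h1, h2⟩
  by_contra hj
  apply hy
  have h3 : (p : ℤ) ^ (M + 2) ∣ 2 * y := (pow_dvd_pow _ (by omega)).trans h1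
  rcases hp.eq_two_or_odd' with h4 | h4
  · subst h4
    obtain ⟨c, hc⟩ := h3
    refine ⟨c, ?_⟩
    have h5 : (2 : ℤ) * y = 2 * (((2 : ℕ) : ℤ) ^ (M + 1) * c) := by
      rw [hc]
      push_cast
      ring
    exact mul_left_cancel₀ (by norm_num) h5
  · have hcop : IsCoprime ((p : ℤ) ^ (M + 2)) 2 := by
      refine IsCoprime.pow_left ?_
      rw [Prime.coprime_iff_not_dvd (Nat.prime_iff_prime_int.1 hp)]
      intro h
      have h5 : p ∣ 2 := by exact_mod_cast h
      have h6 := (Nat.prime_dvd_prime_iff_eq hp Nat.prime_two).1 h5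
      rw [h6] at h4
      exact absurd h4 (by decide)
    exact (pow_dvd_pow _ (by omega)).trans (hcop.dvd_of_dvd_mul_left h3)

/-- a form at a point divisible by `q` -/
theorem bf_dvd {d : ℕ} (g : Fin (d + 1) → ℤ) {q u v : ℤ} (hu : q ∣ u) (hv : q ∣ v) :
    q ^ d ∣ bf g u v := by
  unfold bf
  refine Finset.dvd_sum fun i _ => ?_
  have h1 : q ^ d = q ^ (d - (i : ℕ)) * q ^ (i : ℕ) := by
    rw [← pow_add]
    congr 1
    have := i.2
    omega
  rw [h1, mul_assoc]
  exact Dvd.dvd.mul_left (mul_dvd_mul (pow_dvd_pow_of_dvd hu _) (pow_dvd_pow_of_dvd hv _)) _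

end LDAT

open LDAT in
theorem t_LDAT (h1 : S_HENS) : S_LDAT := by
  intro N M t a f hN hloc p hp E
  have hpp : Prime (p : ℤ) := Nat.prime_iff_prime_int.1 hp
  by_cases hpN : p ∣ N
  · -- the valuation of `N`
    obtain ⟨n, hn1, hn2⟩ := val_ex hp (m := (N : ℤ)) (by exact_mod_cast (by omega : N ≠ 0))
    have hn1' : p ^ n ∣ N := by exact_mod_cast hn1
    have hn2' : ¬ p ^ (n + 1) ∣ N := fun h => hn2 (by exact_mod_cast h)
    have hn0 : 1 ≤ n := by
      by_contra h
      have h0 : n = 0 := by omega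
      subst h0
      exact hn2' (by simpa using hpN)
    have hnN : n ≤ N := by
      have h2 : n < p ^ n := Nat.lt_pow_self hp.one_lt
      have h3 := Nat.le_of_dvd (by omega) hn1'
      omega
    have hkn : ∀ k : ℕ, p ^ k ∣ N → k ≤ n := by
      intro k hk
      by_contra h
      exact hn2' ((pow_dvd_pow p (by omega : n + 1 ≤ k)).trans hk)
    obtain ⟨u, v, x, y, ⟨hs1, hs2⟩, hy, hcong⟩ := hloc p hp hpN (E + 4 * n)
    by_cases huv : (p : ℤ) ^ n ∣ u ∧ (p : ℤ) ^ n ∣ v
    · obtain ⟨hu, hv⟩ := huv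
      have hpn : (p : ℤ) ∣ (p : ℤ) ^ n := dvd_pow_self _ (by omega)
      have hxy : ¬ (p : ℤ) ∣ x ∧ ¬ (p : ℤ) ∣ y := by
        rcases hs2 with h | h
        · exact absurd ⟨hpn.trans hu, hpn.trans hv⟩ h
        · exact h
      have h4 : (p : ℤ) ^ (4 * n) ∣ y ^ 2 - x ^ 3 := by
        have e1 : y ^ 2 - x ^ 3 = Psi a f u v x y + (bf a u v * x + bf f u v) := by
          unfold Psi
          ring
        rw [e1]
        refine dvd_add ((pow_dvd_pow _ (by omega)).trans hs1) (dvd_add ?_ ?_)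
        · have h5 := bf_dvd a hu hv
          rw [← pow_mul, mul_comm n 4] at h5
          exact Dvd.dvd.mul_right h5 _
        · have h5 := bf_dvd f hu hv
          rw [← pow_mul] at h5
          exact (pow_dvd_pow _ (by omega)).trans h5
      obtain ⟨y', g1, g2, g3⟩ := h1 p n hp hn0 x y hxy.1 hxy.2 h4 a f E
      obtain ⟨j, j1, j2, j3⟩ := val_two hp (M := 0) (y := y') (by simpa using g3)
      refine ⟨n, j, 1, 0, x, y', by omega, by omega, ⟨?_, g1, j2, j3⟩, ?_⟩
      · rintro ⟨h, _⟩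
        exact hpp.not_dvd_one h
      · intro k hk
        obtain ⟨c1, c2, c3, c4⟩ := hcong k hk
        have hkn' := pow_dvd_pow (p : ℤ) (hkn k hk)
        refine ⟨?_, ?_, c3, ?_⟩
        · have e1 : (p : ℤ) ^ n * 1 - t.cu = (u - t.cu) - u + (p : ℤ) ^ n := by ring
          rw [e1]
          exact dvd_add (dvd_sub c1 (hkn'.trans hu)) hkn'
        · have e1 : (p : ℤ) ^ n * 0 - t.cv = (v - t.cv) - v := by ring
          rw [e1]
          exact dvd_sub c2 (hkn'.trans hv)
        · have e1 : y' - t.cy = (y' - y) + (y - t.cy) := by ring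
          rw [e1]
          exact dvd_add (hkn'.trans g2) c4
    · -- the valuation of the pair
      have hg0 : ((Int.gcd u v : ℕ) : ℤ) ≠ 0 := by
        intro h
        have h2 : Int.gcd u v = 0 := by exact_mod_cast h
        rw [Int.gcd_eq_zero_iff] at h2
        exact huv ⟨by rw [h2.1]; exact dvd_zero _, by rw [h2.2]; exact dvd_zero _⟩
      obtain ⟨s, s1, s2⟩ := val_ex hp hg0
      have hsu : (p : ℤ) ^ s ∣ u := s1.trans (Int.gcd_dvd_left ..)
      have hsv : (p : ℤ) ^ s ∣ v := s1.trans (Int.gcd_dvd_right ..)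
      have hsn : s < n := by
        by_contra h
        have h2 := pow_dvd_pow (p : ℤ) (by omega : n ≤ s)
        exact huv ⟨h2.trans hsu, h2.trans hsv⟩
      obtain ⟨u', hu'⟩ := hsu
      obtain ⟨v', hv'⟩ := hsv
      obtain ⟨j, j1, j2, j3⟩ := val_two hp hy
      refine ⟨s, j, u', v', x, y, by omega, j1, ⟨?_, ?_, j2, j3⟩, ?_⟩
      · rintro ⟨h2, h3⟩
        apply s2
        have h4 : (p : ℤ) ^ (s + 1) ∣ u := by
          rw [hu', pow_succ]
          exact mul_dvd_mul_left _ h2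
        have h5 : (p : ℤ) ^ (s + 1) ∣ v := by
          rw [hv', pow_succ]
          exact mul_dvd_mul_left _ h3
        exact Int.dvd_coe_gcd h4 h5
      · rw [← hu', ← hv']
        exact (pow_dvd_pow _ (by omega)).trans hs1
      · intro k hk
        rw [← hu', ← hv']
        exact hcong k hk
  · obtain ⟨y', g1, g2, g3⟩ := h1 p 1 hp le_rfl 1 1 hpp.not_dvd_one hpp.not_dvd_one (by simp) a f E
    obtain ⟨j, j1, j2, j3⟩ := val_two hp (M := 0) (y := y') (by simpa using g3)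
    refine ⟨1, j, 1, 0, 1, y', by omega, by omega, ⟨?_, g1, j2, j3⟩, ?_⟩
    · rintro ⟨h, _⟩
      exact hpp.not_dvd_one h
    · intro k hk
      have hk0 : k = 0 := by
        by_contra h
        exact hpN ((dvd_pow_self p h).trans hk)
      subst hk0
      simp [CongT]

end Pool.Agent.DPO
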