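import Pool.Agent.DPO.Stm

/-!
# Project DPO, piece LOW: the first moment
-/

set_option autoImplicit false

namespace Pool.Agent.DPO

open Finset

namespace LOW

theorem bf_sub {d : ℕ} (g r : Fin (d + 1) → ℤ) (u v : ℤ) :
    bf (g - r) u v = bf g u v - bf r u v := by
  unfold bf
  rw [← Finset.sum_sub_distrib]
  refine Finset.sum_congr rfl fun i _ => ?_
  simp only [Pi.sub_apply, Int.cast_sub, Int.cast_id]
  ring

theorem bf_cong {d : ℕ} (g : Fin (d + 1) → ℤ) {m u v u' v' : ℤ} (hu : m ∣ u - u') (hv : m ∣ v - v') :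
    m ∣ bf g u v - bf g u' v' := by
  unfold bf
  rw [← Finset.sum_sub_distrib]
  refine Finset.dvd_sum fun i _ => ?_
  have h1 : u' ≡ u [ZMOD m] := (Int.modEq_iff_dvd).mpr hu
  have h2 : v' ≡ v [ZMOD m] := (Int.modEq_iff_dvd).mpr hv
  have h3 := ((Int.ModEq.refl (g i)).mul (h1.pow (d - (i : ℕ)))).mul (h2.pow (i : ℕ))
  exact (Int.modEq_iff_dvd).mp h3

/-- the divisibility of `Psi` in a class -/
theorem psi_dvd {w : ℕ} {C : Cls} (hw : 2 ≤ w) (hPD : PD w C) {u v x y : ℤ}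
    (hu : ((C.S * C.J : ℕ) : ℤ) ∣ u - C.uc) (hv : ((C.S * C.J : ℕ) : ℤ) ∣ v - C.vc)
    (hx : ((C.S * C.J : ℕ) : ℤ) ∣ x - C.xc) (hy : (C.S : ℤ) ∣ y - C.yc) :
    ((C.S * C.J : ℕ) : ℤ) ∣ Psi C.b C.c u v x y := by
  set m : ℤ := ((C.S * C.J : ℕ) : ℤ) with hm
  have h0 := hPD.hdvd
  rw [← hm] at h0
  have hb := bf_cong C.b hu hv
  have hcc := bf_cong C.c hu hv
  have h1 : C.xc ≡ x [ZMOD m] := (Int.modEq_iff_dvd).mpr hx
  have h2 : bf C.b C.uc C.vc ≡ bf C.b u v [ZMOD m] := (Int.modEq_iff_dvd).mpr hb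
  have h3 : bf C.c C.uc C.vc ≡ bf C.c u v [ZMOD m] := (Int.modEq_iff_dvd).mpr hcc
  have h4 : C.yc ^ 2 ≡ y ^ 2 [ZMOD m] := by
    rw [Int.modEq_iff_dvd]
    obtain ⟨k, hk⟩ := hy
    obtain ⟨y₁, hy₁, _⟩ := hPD.hy
    have hJS : C.J ∣ C.S := (Dvd.intro_left _ rfl).trans (hPD.hpJ 2 Nat.prime_two hw)
    obtain ⟨t, ht⟩ := hJS
    have e1 : y = C.yc + C.S * k := by linarith
    refine ⟨k * (y₁ + t * k), ?_⟩
    have e2 : (C.S : ℤ) = C.J * t := by exact_mod_cast ht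
    calc y ^ 2 - C.yc ^ 2 = C.S * k * (2 * C.yc + C.S * k) := by rw [e1]; ring
      _ = C.S * k * (C.J * y₁ + C.J * t * k) := by rw [hy₁, ← e2]
      _ = m * (k * (y₁ + t * k)) := by rw [hm]; push_cast; ring
  have h5 : Psi C.b C.c C.uc C.vc C.xc C.yc ≡ Psi C.b C.c u v x y [ZMOD m] := by
    unfold Psi
    exact ((h4.sub (h1.pow 3)).sub (h2.mul h1)).sub h3
  exact h5.dvd_iff.mp h0

/-- the number of the forms with a given value, lower bound -/
theorem fib {A B' D : ℝ} (hAB : B' + D ≤ A) (u v : ℤ) (Ra : Finset ℤ)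
    (hR : ∀ a ∈ Ra, ∃ r ∈ box 7 D, bf r u v = a) (s : ℤ) :
    ((box 7 B').filter (fun g => bf g u v - s ∈ Ra)).card ≤
      ((box 7 A).filter (fun g => bf g u v = s)).card * Ra.card := by
  classical
  choose! r hr1 hr2 using hR
  rw [← Finset.card_product]
  refine Finset.card_le_card_of_injOn
    (fun g => (g - r (bf g u v - s), bf g u v - s)) ?_ ?_
  · intro g hg
    rw [Finset.mem_coe, Finset.mem_filter] at hg
    rw [Finset.mem_coe, Finset.mem_product, Finset.mem_filter]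
    refine ⟨⟨?_, ?_⟩, hg.2⟩
    · rw [mem_box]
      intro i
      have h1 := mem_box.mp hg.1 i
      have h2 := mem_box.mp (hr1 _ hg.2) i
      simp only [Pi.sub_apply, Int.cast_sub]
      exact (abs_sub _ _).trans (by linarith)
    · simp only [bf_sub, hr2 _ hg.2]; ring
  · intro g hg g' hg' h
    simp only [Prod.mk.injEq] at h
    have h1 := h.1
    rw [h.2] at h1
    simpa using h1

/-- the number of the `y` for given `x` and `z` -/
theorem cnty (h3 : S_ICNT) (Y₁ Y₂ z M : ℝ) (hY1 : 0 < Y₁) (hY12 : Y₁ ≤ Y₂) (hM : 0 < M)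
    (hz1 : Y₁ ^ 2 + M ≤ z) (hz2 : z ≤ Y₂ ^ 2 - M) (S : ℕ) (hS : 0 < S) (yc : ℤ) :
    M / (S * Y₂) - 1 ≤ (((setI Y₁ Y₂ S yc).filter (fun y : ℤ => |(y : ℝ) ^ 2 - z| ≤ M)).card : ℝ) := by
  have hY2 : 0 < Y₂ := by linarith
  have hSR : (0 : ℝ) < S := by exact_mod_cast hS
  set a := Real.sqrt (z - M) with ha
  set b := Real.sqrt (z + M) with hb
  have hzM : 0 ≤ z - M := by nlinarith [sq_nonneg Y₁]
  have ha2 : a ^ 2 = z - M := Real.sq_sqrt hzM
  have hb2 : b ^ 2 = z + M := Real.sq_sqrt (by linarith)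
  have ha0 : 0 ≤ a := Real.sqrt_nonneg _
  have hb0 : 0 ≤ b := Real.sqrt_nonneg _
  have haY : Y₁ ≤ a := by
    rw [ha]; exact Real.le_sqrt_of_sq_le (by linarith)
  have hbY : b ≤ Y₂ := by
    rw [hb]
    rw [Real.sqrt_le_left hY2.le]
    linarith
  have hab : a ≤ b := by
    rw [ha, hb]; exact Real.sqrt_le_sqrt (by linarith)
  have h1 := h3.2 a b S yc hS
  have h2 : M / Y₂ ≤ b - a := by
    rw [div_le_iff₀ hY2]
    have : (b - a) * (b + a) = 2 * M := by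
      calc (b - a) * (b + a) = b ^ 2 - a ^ 2 := by ring
        _ = 2 * M := by rw [ha2, hb2]; ring
    nlinarith
  have h4 : M / (S * Y₂) ≤ (b - a) / S := by
    rw [mul_comm, ← div_div]
    exact div_le_div_of_nonneg_right h2 hSR.le
  have h5 : (setI a b S yc) ⊆ ((setI Y₁ Y₂ S yc).filter (fun y : ℤ => |(y : ℝ) ^ 2 - z| ≤ M)) := by
    intro y hy
    rw [mem_setI] at hy
    rw [Finset.mem_filter, mem_setI]
    obtain ⟨⟨e1, e2⟩, e3⟩ := hy
    refine ⟨⟨⟨by linarith, by linarith⟩, e3⟩, ?_⟩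
    have e4 : (0 : ℝ) ≤ y := by linarith
    have e5 : a ^ 2 ≤ (y : ℝ) ^ 2 := pow_le_pow_left₀ ha0 e1 2
    have e6 : (y : ℝ) ^ 2 ≤ b ^ 2 := pow_le_pow_left₀ e4 e2 2
    rw [abs_le]
    constructor <;> linarith
  have h6 : ((setI a b S yc).card : ℝ) ≤
    (((setI Y₁ Y₂ S yc).filter (fun y : ℤ => |(y : ℝ) ^ 2 - z| ≤ M)).card : ℝ) := by
    exact_mod_cast Finset.card_le_card h5
  linarith

/-- double counting -/
theorem first {G : Type*} (T : Finset (ℤ × ℤ)) (F s : ℤ × ℤ → ℤ) (B B' : Finset G) (e : G → ℤ) (m : ℤ)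
    (hm : m ≠ 0) (hs : ∀ q ∈ T, F q = m * s q) (Ra : Finset ℤ)
    (hf : ∀ q ∈ T, (B'.filter (fun g => e g - s q ∈ Ra)).card ≤
      (B.filter (fun g => e g = s q)).card * Ra.card) (N : ℝ)
    (hN : ∀ g ∈ B', N ≤ ((T.filter (fun q => e g - s q ∈ Ra)).card : ℝ)) :
    (B'.card : ℝ) * N ≤ (Ra.card : ℝ) * ∑ g ∈ B, ((T.filter (fun q => F q = m * e g)).card : ℝ) := by
  classical
  have h1 : ∑ g ∈ B, (T.filter (fun q => F q = m * e g)).card =
      ∑ q ∈ T, (B.filter (fun g => e g = s q)).card := by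
    simp only [Finset.card_filter]
    rw [Finset.sum_comm]
    refine Finset.sum_congr rfl fun q hq => ?_
    refine Finset.sum_congr rfl fun g _ => ?_
    rw [hs q hq]
    congr 1
    apply propext
    constructor
    · intro h; exact (mul_left_cancel₀ hm h).symm
    · intro h; rw [h]
  have h2 : ∑ g ∈ B', (T.filter (fun q => e g - s q ∈ Ra)).card =
      ∑ q ∈ T, (B'.filter (fun g => e g - s q ∈ Ra)).card := by
    simp only [Finset.card_filter]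
    rw [Finset.sum_comm]
  have h3 : ∑ q ∈ T, (B'.filter (fun g => e g - s q ∈ Ra)).card ≤
      Ra.card * ∑ q ∈ T, (B.filter (fun g => e g = s q)).card := by
    rw [Finset.mul_sum]
    refine Finset.sum_le_sum fun q hq => ?_
    rw [mul_comm]
    exact hf q hq
  rw [← h1, ← h2] at h3
  have h4 : (∑ g ∈ B', ((T.filter (fun q => e g - s q ∈ Ra)).card : ℝ)) ≤
      (Ra.card : ℝ) * ∑ g ∈ B, ((T.filter (fun q => F q = m * e g)).card : ℝ) := by
    exact_mod_cast h3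
  refine le_trans ?_ h4
  calc (B'.card : ℝ) * N = ∑ g ∈ B', N := by rw [Finset.sum_const, nsmul_eq_mul]
    _ ≤ _ := Finset.sum_le_sum hN

end LOW

open LOW in
theorem t_LOW (h1 : S_SH1) (h2 : S_BOXC) (h3 : S_ICNT) : S_LOW := by
  classical
  intro γ C₀ ρ η κ τ ε hc hε Q₀
  have hρ := hc.ρ0
  have hη := hc.η0
  have hκ := hc.κ0
  have hγ := hc.γ0
  have hC0 : 0 < C₀ := lt_of_lt_of_le one_pos hc.C1
  -- the small parameter
  obtain ⟨δ, hδ0, hδ1, hδε⟩ : ∃ δ : ℝ, 0 < δ ∧ δ ≤ 1 / 11 ∧ 11 * δ ≤ ε := by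
    refine ⟨min ε 1 / 11, by positivity, ?_, ?_⟩
    · have := min_le_right ε 1
      linarith
    · have := min_le_left ε 1
      linarith
  obtain ⟨c₁, H₁, hc₁, hH₁, hSH⟩ := h1 γ C₀ (δ * η) hc.γ0 hc.C1 (by positivity)
  obtain ⟨A₀, hA₀, hBX⟩ := h2 δ hδ0 (by linarith)
  set c : ℝ := min c₁ (κ / (Q₀ + 1)) with hcdef
  have hc0 : 0 < c := by
    rw [hcdef]; exact lt_min hc₁ (by positivity)
  have hcc₁ : c ≤ c₁ := min_le_left _ _
  have hcκ : Q₀ * c ≤ κ := by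
    have e1 : c ≤ κ / (Q₀ + 1) := min_le_right _ _
    rw [le_div_iff₀ (by positivity)] at e1
    nlinarith
  refine ⟨max H₁ (max (A₀ / η) (max (Q₀ / (2 * ρ * δ)) (max (C₀ / (c * δ)) (1 / (2 * c * δ))))),
    le_trans hH₁ (le_max_left _ _), ?_⟩
  intro H hH w C R hw hPD hRD hQ p hp
  have hHa : H₁ ≤ H := le_trans (le_max_left _ _) hH
  have hH' := le_trans (le_max_right _ _) hH
  have hHb : A₀ / η ≤ H := le_trans (le_max_left _ _) hH'
  have hH'' := le_trans (le_max_right _ _) hH'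
  have hHc : Q₀ / (2 * ρ * δ) ≤ H := le_trans (le_max_left _ _) hH''
  have hH''' := le_trans (le_max_right _ _) hH''
  have hHd : C₀ / (c * δ) ≤ H := le_trans (le_max_left _ _) hH'''
  have hHe : 1 / (2 * c * δ) ≤ H := le_trans (le_max_right _ _) hH'''
  have hH0 : 1 ≤ H := le_trans hH₁ hHa
  have hHp : 0 < H := by linarith
  obtain ⟨hpU, hp1, hp2, hpg⟩ := mem_setU.mp hp
  obtain ⟨hu1, hu2, hu3⟩ := hRD.hu p.1 p.2 hpU
  set m : ℕ := C.S * C.J with hm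
  have hS0 := hPD.hS
  have hJ0 := hPD.hJ
  have hm0 : 0 < m := Nat.mul_pos hS0 hJ0
  have hmR : (0 : ℝ) < m := by exact_mod_cast hm0
  have hSR : (0 : ℝ) < C.S := by exact_mod_cast hS0
  have hJR : (0 : ℝ) < C.J := by exact_mod_cast hJ0
  have hJ1 : (1 : ℝ) ≤ C.J := by exact_mod_cast hJ0
  have hmSJ : (m : ℝ) = C.S * C.J := by rw [hm]; push_cast; ring
  have hmQ : (m : ℝ) ≤ Q₀ := by exact_mod_cast hQ
  have hQ0 : (0 : ℝ) < Q₀ := by linarith
  have hY1 : 0 < R.Y₁ := by linarith [hRD.hY1]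
  have hY2 : 0 < R.Y₂ := by linarith [hRD.hY12]
  set A := η * H ^ 6 with hA
  have hAp : 0 < A := by positivity
  have hAA : A₀ ≤ A := by
    have : H ≤ H ^ 6 := le_self_pow₀ hH0 (by norm_num)
    rw [div_le_iff₀ hη] at hHb
    nlinarith
  have hB2 := (hBX A hAA).2.1
  set Ra : Finset ℤ := Finset.Icc (-⌊c * H ^ 18⌋) ⌊c * H ^ 18⌋ with hRa
  have hmemRa : ∀ a : ℤ, a ∈ Ra ↔ |(a : ℝ)| ≤ c * H ^ 18 := by
    intro a
    rw [hRa, Finset.mem_Icc, ← abs_le, Int.le_floor]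
    push_cast
    rfl
  have hRa1 : (Ra.card : ℝ) ≤ 2 * (c * H ^ 18) + 1 := by
    have hfl : 0 ≤ ⌊c * H ^ 18⌋ := Int.floor_nonneg.mpr (by positivity)
    have e1 : ((Ra.card : ℕ) : ℤ) = 2 * ⌊c * H ^ 18⌋ + 1 := by
      rw [hRa, Int.card_Icc, Int.toNat_of_nonneg (by omega)]; ring
    have e2 : (Ra.card : ℝ) = 2 * (⌊c * H ^ 18⌋ : ℝ) + 1 := by exact_mod_cast e1
    have e3 := Int.floor_le (c * H ^ 18)
    rw [e2]; linarith
  have hRa2 : ∀ a ∈ Ra, ∃ r ∈ box 7 (δ * η * H ^ 6), bf r p.1 p.2 = a := by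
    intro a ha
    refine hSH H hHa p.1 p.2 hpg hu1 hu2 hu3 a ?_
    refine ((hmemRa a).mp ha).trans ?_
    exact mul_le_mul_of_nonneg_right hcc₁ (by positivity)
  -- the values
  set T := setX H ρ C R ×ˢ setY H C R with hT
  have hdiv : ∀ q ∈ T, ∃ s : ℤ, Psi C.b C.c p.1 p.2 q.1 q.2 = (m : ℤ) * s := by
    intro q hq
    rw [hT, Finset.mem_product] at hq
    exact psi_dvd (by omega) hPD hp1 hp2 (mem_setX.mp hq.1).2 (mem_setY.mp hq.2).2
  choose! s hs using hdiv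
  have hmZ : ((m : ℕ) : ℤ) ≠ 0 := by exact_mod_cast hm0.ne'
  set M : ℝ := m * (c * H ^ 18) with hM
  have hMp : 0 < M := by positivity
  have hMκ : M ≤ κ * H ^ 18 := by
    rw [hM, ← mul_assoc]
    apply mul_le_mul_of_nonneg_right _ (by positivity)
    exact (mul_le_mul_of_nonneg_right hmQ hc0.le).trans hcκ
  have hXc : 2 * ρ * H ^ 6 / m - 1 ≤ ((setX H ρ C R).card : ℝ) := by
    have := h3.2 (R.x₀ * H ^ 6 - ρ * H ^ 6) (R.x₀ * H ^ 6 + ρ * H ^ 6) m C.xc hm0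
    have e : (R.x₀ * H ^ 6 + ρ * H ^ 6 - (R.x₀ * H ^ 6 - ρ * H ^ 6)) = 2 * ρ * H ^ 6 := by ring
    rw [e] at this
    exact this
  have hyl : C.J * c * H ^ 9 / R.Y₂ - 1 = M / (C.S * (R.Y₂ * H ^ 9)) - 1 := by
    rw [hM, hmSJ]
    field_simp
  have hylow : C₀ ≤ δ * (C.J * c * H ^ 9) := by
    rw [div_le_iff₀ (by positivity)] at hHd
    have e1 : H ≤ H ^ 9 := le_self_pow₀ hH0 (by norm_num)
    calc C₀ ≤ H * (c * δ) := hHd
      _ ≤ H ^ 9 * (c * δ) := mul_le_mul_of_nonneg_right e1 (by positivity)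
      _ = δ * (1 * c * H ^ 9) := by ring
      _ ≤ δ * (C.J * c * H ^ 9) := by gcongr
  have hyl1 : 1 ≤ δ * (C.J * c * H ^ 9 / R.Y₂) := by
    rw [← mul_div_assoc, le_div_iff₀ hY2, one_mul]
    exact hRD.hY2.trans hylow
  have hyl2 : (1 - δ) * (C.J * c * H ^ 9 / R.Y₂) ≤ C.J * c * H ^ 9 / R.Y₂ - 1 := by linarith
  have hyl3 : 0 ≤ (1 - δ) * (C.J * c * H ^ 9 / R.Y₂) := by
    have : 0 ≤ 1 - δ := by linarith
    positivity
  have hxl1 : 1 ≤ δ * (2 * ρ * H ^ 6 / m) := by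
    rw [← mul_div_assoc, le_div_iff₀ hmR, one_mul]
    rw [div_le_iff₀ (by positivity)] at hHc
    have e1 : H ≤ H ^ 6 := le_self_pow₀ hH0 (by norm_num)
    calc (m : ℝ) ≤ Q₀ := hmQ
      _ ≤ H * (2 * ρ * δ) := hHc
      _ ≤ H ^ 6 * (2 * ρ * δ) := mul_le_mul_of_nonneg_right e1 (by positivity)
      _ = δ * (2 * ρ * H ^ 6) := by ring
  have hxl2 : (1 - δ) * (2 * ρ * H ^ 6 / m) ≤ 2 * ρ * H ^ 6 / m - 1 := by linarith
  have hxl3 : 0 ≤ (1 - δ) * (2 * ρ * H ^ 6 / m) := by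
    have : 0 ≤ 1 - δ := by linarith
    positivity
  -- the count for a given form
  have hN : ∀ g ∈ box 7 ((1 - δ) * A),
      ((1 - δ) * (2 * ρ * H ^ 6 / m)) * ((1 - δ) * (C.J * c * H ^ 9 / R.Y₂)) ≤
      ((T.filter (fun q => bf g p.1 p.2 - s q ∈ Ra)).card : ℝ) := by
    intro g hg
    have hgbox : g ∈ box 7 (2 * η * H ^ 6) := by
      rw [mem_box] at hg ⊢
      intro i
      refine (hg i).trans ?_
      rw [hA]
      have : 0 < η * H ^ 6 := by positivity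
      nlinarith
    have e0 : (T.filter (fun q => bf g p.1 p.2 - s q ∈ Ra)).card =
        ∑ x ∈ setX H ρ C R, ((setY H C R).filter (fun y => bf g p.1 p.2 - s (x, y) ∈ Ra)).card := by
      simp only [Finset.card_filter, hT]
      rw [Finset.sum_product]
    have e1 : ∀ x ∈ setX H ρ C R, (1 - δ) * (C.J * c * H ^ 9 / R.Y₂) ≤
        (((setY H C R).filter (fun y => bf g p.1 p.2 - s (x, y) ∈ Ra)).card : ℝ) := by
      intro x hx
      obtain ⟨hz1, hz2⟩ := hRD.hz p.1 p.2 x hpU (mem_setX.mp hx).1 g hgbox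
      rw [← hm] at hz1 hz2
      set z : ℤ := x ^ 3 + bf C.b p.1 p.2 * x + bf C.c p.1 p.2 + (m : ℕ) * bf g p.1 p.2 with hz
      have e2 := cnty h3 (R.Y₁ * H ^ 9) (R.Y₂ * H ^ 9) (z : ℝ) M (by positivity)
        (mul_le_mul_of_nonneg_right hRD.hY12 (by positivity)) hMp (by linarith) (by linarith)
        C.S hS0 C.yc
      refine hyl2.trans ?_
      rw [hyl]
      refine e2.trans ?_
      have e3 : ((setI (R.Y₁ * H ^ 9) (R.Y₂ * H ^ 9) C.S C.yc).filter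
          (fun y : ℤ => |(y : ℝ) ^ 2 - (z : ℝ)| ≤ M)) ⊆
          ((setY H C R).filter (fun y => bf g p.1 p.2 - s (x, y) ∈ Ra)) := by
        intro y hy
        rw [Finset.mem_filter] at hy ⊢
        have hyY : y ∈ setY H C R := hy.1
        refine ⟨hyY, ?_⟩
        rw [hmemRa]
        have e4 := hs (x, y) (by rw [hT, Finset.mem_product]; exact ⟨hx, hyY⟩)
        simp only at e4
        have e5 : (y : ℤ) ^ 2 - z = (m : ℤ) * (s (x, y) - bf g p.1 p.2) := by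
          rw [hz, mul_sub, ← e4]
          unfold Psi
          push_cast
          ring
        have e6 : (y : ℝ) ^ 2 - (z : ℝ) = m * ((s (x, y) : ℝ) - ((bf g p.1 p.2 : ℤ) : ℝ)) := by
          exact_mod_cast e5
        have e7 := hy.2
        rw [e6, abs_mul, abs_of_pos hmR, hM] at e7
        have e8 := le_of_mul_le_mul_left e7 hmR
        rw [abs_sub_comm] at e8
        push_cast
        exact e8
      exact_mod_cast Finset.card_le_card e3
    rw [e0]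
    push_cast
    calc ((1 - δ) * (2 * ρ * H ^ 6 / m)) * ((1 - δ) * (C.J * c * H ^ 9 / R.Y₂))
        ≤ ((setX H ρ C R).card : ℝ) * ((1 - δ) * (C.J * c * H ^ 9 / R.Y₂)) :=
          mul_le_mul_of_nonneg_right (hxl2.trans hXc) hyl3
      _ = ∑ x ∈ setX H ρ C R, (1 - δ) * (C.J * c * H ^ 9 / R.Y₂) := by
          rw [Finset.sum_const, nsmul_eq_mul]
      _ ≤ _ := Finset.sum_le_sum e1
  have hAB : (1 - δ) * A + δ * η * H ^ 6 ≤ A := by
    rw [hA]; apply le_of_eq; ring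
  have hfirst := first T (fun q => Psi C.b C.c p.1 p.2 q.1 q.2) s (box 7 A) (box 7 ((1 - δ) * A))
    (fun g => bf g p.1 p.2) (m : ℤ) hmZ hs Ra
    (fun q _ => fib hAB p.1 p.2 Ra hRa2 (s q)) _ hN
  set Sg : ℝ := ∑ g ∈ box 7 A, (cnt H ρ C R g p : ℝ) with hSg
  have hSg' : ∑ g ∈ box 7 A, ((T.filter (fun q => Psi C.b C.c p.1 p.2 q.1 q.2 =
      (m : ℤ) * bf g p.1 p.2)).card : ℝ) = Sg := rfl
  rw [hSg'] at hfirst
  have hSg0 : 0 ≤ Sg := by rw [hSg]; positivity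
  set B : ℝ := ((box 7 A).card : ℝ) with hB
  have hB0 : 0 ≤ B := Nat.cast_nonneg _
  have hδ' : 0 ≤ 1 - δ := by linarith
  -- conclusion
  have hcH : 1 ≤ δ * (2 * (c * H ^ 18)) := by
    rw [div_le_iff₀ (by positivity)] at hHe
    have e1 : H ≤ H ^ 18 := le_self_pow₀ hH0 (by norm_num)
    calc 1 ≤ H * (2 * c * δ) := hHe
      _ ≤ H ^ 18 * (2 * c * δ) := mul_le_mul_of_nonneg_right e1 (by positivity)
      _ = δ * (2 * (c * H ^ 18)) := by ring
  set L : ℝ := ρ / (C.S * R.Y₂ * H ^ 3) with hL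
  have hL0 : 0 < L := by positivity
  have k1 : ((1 - δ) ^ 8 * B) *
      (((1 - δ) * (2 * ρ * H ^ 6 / m)) * ((1 - δ) * (C.J * c * H ^ 9 / R.Y₂))) ≤
      ((1 + δ) * (2 * (c * H ^ 18))) * Sg := by
    calc _ ≤ ((box 7 ((1 - δ) * A)).card : ℝ) *
          (((1 - δ) * (2 * ρ * H ^ 6 / m)) * ((1 - δ) * (C.J * c * H ^ 9 / R.Y₂))) :=
          mul_le_mul_of_nonneg_right hB2 (mul_nonneg hxl3 hyl3)
      _ ≤ (Ra.card : ℝ) * Sg := hfirst
      _ ≤ ((1 + δ) * (2 * (c * H ^ 18))) * Sg := by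
          apply mul_le_mul_of_nonneg_right _ hSg0
          linarith
  have k2 : ((1 - δ) ^ 8 * B) *
      (((1 - δ) * (2 * ρ * H ^ 6 / m)) * ((1 - δ) * (C.J * c * H ^ 9 / R.Y₂))) =
      (2 * (c * H ^ 18)) * ((1 - δ) ^ 10 * L * B) := by
    rw [hL, hmSJ]
    field_simp
  rw [k2] at k1
  have k3 : (1 - δ) ^ 10 * L * B ≤ (1 + δ) * Sg := by
    have e1 : 0 < 2 * (c * H ^ 18) := by positivity
    have e2 : (2 * (c * H ^ 18)) * ((1 - δ) ^ 10 * L * B) ≤ (2 * (c * H ^ 18)) * ((1 + δ) * Sg) := by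
      calc _ ≤ _ := k1
        _ = _ := by ring
    exact le_of_mul_le_mul_left e2 e1
  have k4 : 1 - ε ≤ (1 - δ) ^ 11 := by
    have e1 := one_add_mul_le_pow (a := -δ) (by linarith) 11
    push_cast at e1
    have e2 : (1 + -δ) = 1 - δ := by ring
    rw [e2] at e1
    linarith
  have k5 : (1 - δ) * ((1 + δ) * Sg) ≤ Sg := by
    have e1 : 0 ≤ δ ^ 2 * Sg := by positivity
    have e2 : (1 - δ) * ((1 + δ) * Sg) = Sg - δ ^ 2 * Sg := by ring
    rw [e2]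
    linarith
  calc (1 - ε) * L * B ≤ (1 - δ) ^ 11 * L * B := by gcongr
    _ = (1 - δ) * ((1 - δ) ^ 10 * L * B) := by ring
    _ ≤ (1 - δ) * ((1 + δ) * Sg) := mul_le_mul_of_nonneg_left k3 hδ'
    _ ≤ Sg := k5

end Pool.Agent.DPO
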