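import Pool.Agent.DPO.Stm

/-!
# Project DPO, piece LR
-/

set_option autoImplicit false

namespace Pool.Agent.DPO

namespace LR

theorem bf_smul {K : Type*} [Field K] {d : ℕ} (g : Fin (d + 1) → ℤ) (β u v : K) :
    bf g (β * u) (β * v) = β ^ d * bf g u v := by
  unfold bf
  rw [Finset.mul_sum]
  refine Finset.sum_congr rfl fun i _ => ?_
  have h : β ^ d = β ^ (d - (i : ℕ)) * β ^ (i : ℕ) := by
    rw [← pow_add]; congr 1; have := i.2; omega
  rw [h, mul_pow, mul_pow]
  ring

theorem wt_pos (i : Fin 4) : 0 < wt i := by fin_cases i <;> simp [wt]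

theorem sc_pos {H : ℝ} (hH : 0 < H) (i : Fin 4) : 0 < sc H i := by
  fin_cases i <;> simp [sc] <;> positivity

end LR

open LR in
theorem t_LR : S_LR := by
  intro H a f W hH hW
  obtain ⟨h01, heq⟩ := hW
  -- the sizes of the coordinates
  obtain ⟨r, hr⟩ : ∃ r : Fin 4 → ℝ, r = fun i => (|W i| / sc H i) ^ (1 / (wt i : ℝ)) := ⟨_, rfl⟩
  have hr0 : ∀ i, 0 ≤ r i := by
    intro i
    rw [hr]
    exact Real.rpow_nonneg (div_nonneg (abs_nonneg _) (sc_pos hH i).le) _
  have hrp : ∀ i, r i ^ wt i = |W i| / sc H i := by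
    intro i
    rw [hr]
    simp only
    rw [← Real.rpow_natCast, ← Real.rpow_mul (div_nonneg (abs_nonneg _) (sc_pos hH i).le),
      one_div, inv_mul_cancel₀ (by exact_mod_cast (wt_pos i).ne'), Real.rpow_one]
  obtain ⟨k, hk⟩ := Finite.exists_max r
  have hk0 : 0 < r k := by
    rcases (hr0 k).lt_or_eq with h | h
    · exact h
    · exfalso
      have h1 : ∀ i, W i = 0 := by
        intro i
        have h2 : r i = 0 := le_antisymm (by rw [h]; exact hk i) (hr0 i)
        have h3 := hrp i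
        rw [h2, zero_pow (wt_pos i).ne'] at h3
        have h4 : |W i| = 0 := by
          rcases div_eq_zero_iff.1 h3.symm with h5 | h5
          · exact h5
          · exact absurd h5 (sc_pos hH i).ne'
        exact abs_eq_zero.1 h4
      rcases h01 with h5 | h5
      · exact h5 (h1 0)
      · exact h5 (h1 1)
  have hval : ∀ i, |(1 / r k) ^ wt i * W i| = (r i / r k) ^ wt i * sc H i := by
    intro i
    rw [abs_mul, abs_pow, abs_of_pos (by positivity : 0 < 1 / r k), div_pow, div_pow, hrp i]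
    have := (sc_pos hH i).ne'
    rw [one_pow]
    field_simp
  refine ⟨1 / r k, by positivity, ⟨?_, k, ?_⟩, ?_⟩
  · intro i
    rw [hval i]
    have h1 : r i / r k ≤ 1 := (div_le_one hk0).2 (hk i)
    have h2 : (r i / r k) ^ wt i ≤ 1 := pow_le_one₀ (div_nonneg (hr0 i) hk0.le) h1
    calc (r i / r k) ^ wt i * sc H i ≤ 1 * sc H i :=
          mul_le_mul_of_nonneg_right h2 (sc_pos hH i).le
      _ = sc H i := one_mul _
  · rw [hval k, div_self hk0.ne', one_pow, one_mul]
  · rw [bf_smul, bf_smul]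
    have e1 : ((1 / r k) ^ 3 * W 3 / H ^ 3) ^ 2 = (1 / r k) ^ 6 * W 3 ^ 2 / H ^ 6 := by ring
    rw [e1, heq]
    have hH' := hH.ne'
    field_simp

end Pool.Agent.DPO
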