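import Pool.Agent.DPO.Stm2

/-!
# Project DPO, piece MOVR: moving a real point away from `y = 0`
-/

set_option autoImplicit false

namespace Pool.Agent.DPO

namespace MOVR

/-- the second order Taylor estimate for a power -/
theorem pow_taylor (u s : ℝ) (hu : |u| ≤ 1) (hs : |s| ≤ 1) (k : ℕ) :
    |(u + s) ^ k - u ^ k - s * ((k : ℝ) * u ^ (k - 1))| + ((k : ℝ) + 1) * s ^ 2 ≤
      2 ^ k * s ^ 2 := by
  induction k with
  | zero => simp
  | succ k ih =>
    have hs2 : 0 ≤ s ^ 2 := sq_nonneg s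
    have e1 : (u + s) ^ (k + 1) - u ^ (k + 1) - s * (((k + 1 : ℕ) : ℝ) * u ^ (k + 1 - 1)) =
        s ^ 2 * ((k : ℝ) * u ^ (k - 1)) +
          (u + s) * ((u + s) ^ k - u ^ k - s * ((k : ℝ) * u ^ (k - 1))) := by
      rcases Nat.eq_zero_or_pos k with rfl | hk
      · simp
      · have h1 : u * u ^ (k - 1) = u ^ k := by
          rw [← pow_succ']; congr 1; omega
        rw [Nat.add_sub_cancel]
        push_cast
        have h2 : u ^ k = u * u ^ (k - 1) := h1.symm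
        rw [pow_succ, pow_succ u k, h2]
        ring
    rw [e1]
    have h1 : |s ^ 2 * ((k : ℝ) * u ^ (k - 1))| ≤ s ^ 2 * k := by
      rw [abs_mul, abs_of_nonneg hs2, abs_mul, abs_of_nonneg (Nat.cast_nonneg k : (0 : ℝ) ≤ k),
        abs_pow]
      apply mul_le_mul_of_nonneg_left _ hs2
      exact mul_le_of_le_one_right (Nat.cast_nonneg k) (pow_le_one₀ (abs_nonneg _) hu)
    have h2 : |(u + s) * ((u + s) ^ k - u ^ k - s * ((k : ℝ) * u ^ (k - 1)))| ≤
        2 * |(u + s) ^ k - u ^ k - s * ((k : ℝ) * u ^ (k - 1))| := by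
      rw [abs_mul]
      apply mul_le_mul_of_nonneg_right _ (abs_nonneg _)
      exact (abs_add_le u s).trans (by linarith)
    have h3 := abs_add_le (s ^ 2 * ((k : ℝ) * u ^ (k - 1)))
      ((u + s) * ((u + s) ^ k - u ^ k - s * ((k : ℝ) * u ^ (k - 1))))
    have h4 : (2 : ℝ) ^ (k + 1) * s ^ 2 = 2 * (2 ^ k * s ^ 2) := by ring
    rw [h4]
    push_cast
    nlinarith

theorem pow_taylor' (u s : ℝ) (hu : |u| ≤ 1) (hs : |s| ≤ 1) (k : ℕ) (hk : k ≤ 6) :
    |(u + s) ^ k - u ^ k - s * ((k : ℝ) * u ^ (k - 1))| ≤ 64 * s ^ 2 := by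
  have h1 := pow_taylor u s hu hs k
  have h2 : (2 : ℝ) ^ k ≤ 2 ^ 6 := pow_le_pow_right₀ (by norm_num) hk
  have hs2 : 0 ≤ s ^ 2 := sq_nonneg s
  have h3 : 0 ≤ ((k : ℝ) + 1) * s ^ 2 := by positivity
  nlinarith

/-- Taylor estimate for a form, first variable -/
theorem bf_taylor_u {d : ℕ} (hd : d ≤ 6) (g : Fin (d + 1) → ℤ) (K : ℝ) (hK : 0 < K)
    (hg : ∀ i, |(g i : ℝ)| ≤ K) (u v s : ℝ) (hu : |u| ≤ 1) (hv : |v| ≤ 1) (hs : |s| ≤ 1) :
    |bf g (u + s) v / K - bf g u v / K - s * (bfu g u v / K)| ≤ (d + 1) * (64 * s ^ 2) := by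
  have e1 : bf g (u + s) v / K - bf g u v / K - s * (bfu g u v / K) =
      ∑ i : Fin (d + 1), ((g i : ℝ) / K) * (((u + s) ^ (d - (i : ℕ)) - u ^ (d - (i : ℕ)) -
        s * ((((d - (i : ℕ) : ℕ)) : ℝ) * u ^ (d - (i : ℕ) - 1))) * v ^ (i : ℕ)) := by
    unfold bf bfu
    rw [← mul_div_assoc, Finset.mul_sum, Finset.sum_div, Finset.sum_div, Finset.sum_div,
      ← Finset.sum_sub_distrib, ← Finset.sum_sub_distrib]
    refine Finset.sum_congr rfl fun i _ => ?_
    ring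
  rw [e1]
  refine (Finset.abs_sum_le_sum_abs _ _).trans ?_
  have h1 : ∀ i ∈ (Finset.univ : Finset (Fin (d + 1))),
      |((g i : ℝ) / K) * (((u + s) ^ (d - (i : ℕ)) - u ^ (d - (i : ℕ)) -
        s * ((((d - (i : ℕ) : ℕ)) : ℝ) * u ^ (d - (i : ℕ) - 1))) * v ^ (i : ℕ))| ≤
        64 * s ^ 2 := by
    intro i _
    rw [abs_mul, abs_mul, abs_div, abs_of_pos hK, abs_pow]
    have h2 : |(g i : ℝ)| / K ≤ 1 := (div_le_one hK).2 (hg i)
    have h3 := pow_taylor' u s hu hs (d - (i : ℕ)) (by omega)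
    have h4 : |v| ^ (i : ℕ) ≤ 1 := pow_le_one₀ (abs_nonneg _) hv
    have h5 : 0 ≤ |(g i : ℝ)| / K := by positivity
    have h6 : |((u + s) ^ (d - (i : ℕ)) - u ^ (d - (i : ℕ)) -
        s * ((((d - (i : ℕ) : ℕ)) : ℝ) * u ^ (d - (i : ℕ) - 1)))| * |v| ^ (i : ℕ) ≤
        64 * s ^ 2 :=
      (mul_le_of_le_one_right (abs_nonneg _) h4).trans h3
    exact (mul_le_of_le_one_left (by positivity) h2).trans h6
  refine (Finset.sum_le_sum h1).trans ?_
  rw [Finset.sum_const, Finset.card_univ, Fintype.card_fin, nsmul_eq_mul]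
  push_cast
  exact le_rfl

/-- Taylor estimate for a form, second variable -/
theorem bf_taylor_v {d : ℕ} (hd : d ≤ 6) (g : Fin (d + 1) → ℤ) (K : ℝ) (hK : 0 < K)
    (hg : ∀ i, |(g i : ℝ)| ≤ K) (u v s : ℝ) (hu : |u| ≤ 1) (hv : |v| ≤ 1) (hs : |s| ≤ 1) :
    |bf g u (v + s) / K - bf g u v / K - s * (bfv g u v / K)| ≤ (d + 1) * (64 * s ^ 2) := by
  have e1 : bf g u (v + s) / K - bf g u v / K - s * (bfv g u v / K) =
      ∑ i : Fin (d + 1), ((g i : ℝ) / K) * (u ^ (d - (i : ℕ)) * (((v + s) ^ (i : ℕ) -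
        v ^ (i : ℕ) - s * (((i : ℕ) : ℝ) * v ^ ((i : ℕ) - 1))))) := by
    unfold bf bfv
    rw [← mul_div_assoc, Finset.mul_sum, Finset.sum_div, Finset.sum_div, Finset.sum_div,
      ← Finset.sum_sub_distrib, ← Finset.sum_sub_distrib]
    refine Finset.sum_congr rfl fun i _ => ?_
    ring
  rw [e1]
  refine (Finset.abs_sum_le_sum_abs _ _).trans ?_
  have h1 : ∀ i ∈ (Finset.univ : Finset (Fin (d + 1))),
      |((g i : ℝ) / K) * (u ^ (d - (i : ℕ)) * (((v + s) ^ (i : ℕ) -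
        v ^ (i : ℕ) - s * (((i : ℕ) : ℝ) * v ^ ((i : ℕ) - 1)))))| ≤ 64 * s ^ 2 := by
    intro i _
    rw [abs_mul, abs_mul, abs_div, abs_of_pos hK, abs_pow]
    have h2 : |(g i : ℝ)| / K ≤ 1 := (div_le_one hK).2 (hg i)
    have h3 := pow_taylor' v s hv hs (i : ℕ) (by omega)
    have h4 : |u| ^ (d - (i : ℕ)) ≤ 1 := pow_le_one₀ (abs_nonneg _) hu
    have h6 : |u| ^ (d - (i : ℕ)) * |((v + s) ^ (i : ℕ) -
        v ^ (i : ℕ) - s * (((i : ℕ) : ℝ) * v ^ ((i : ℕ) - 1)))| ≤ 64 * s ^ 2 :=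
      (mul_le_of_le_one_left (abs_nonneg _) h4).trans h3
    exact (mul_le_of_le_one_left (by positivity) h2).trans h6
  refine (Finset.sum_le_sum h1).trans ?_
  rw [Finset.sum_const, Finset.card_univ, Fintype.card_fin, nsmul_eq_mul]
  push_cast
  exact le_rfl

theorem bf_le {d : ℕ} (g : Fin (d + 1) → ℤ) (K : ℝ) (hK : 0 < K)
    (hg : ∀ i, |(g i : ℝ)| ≤ K) (u v r : ℝ) (hu : |u| ≤ r) (hv : |v| ≤ r) :
    |bf g u v / K| ≤ (d + 1) * r ^ d := by
  have hr : 0 ≤ r := (abs_nonneg _).trans hu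
  unfold bf
  rw [Finset.sum_div]
  refine (Finset.abs_sum_le_sum_abs _ _).trans ?_
  have h1 : ∀ i ∈ (Finset.univ : Finset (Fin (d + 1))),
      |(g i : ℝ) * u ^ (d - (i : ℕ)) * v ^ (i : ℕ) / K| ≤ r ^ d := by
    intro i _
    have e1 : (g i : ℝ) * u ^ (d - (i : ℕ)) * v ^ (i : ℕ) / K =
        ((g i : ℝ) / K) * (u ^ (d - (i : ℕ)) * v ^ (i : ℕ)) := by ring
    rw [e1, abs_mul, abs_mul, abs_div, abs_of_pos hK, abs_pow, abs_pow]
    have h2 : |(g i : ℝ)| / K ≤ 1 := (div_le_one hK).2 (hg i)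
    have h3 : |u| ^ (d - (i : ℕ)) * |v| ^ (i : ℕ) ≤ r ^ (d - (i : ℕ)) * r ^ (i : ℕ) :=
      mul_le_mul (pow_le_pow_left₀ (abs_nonneg _) hu _) (pow_le_pow_left₀ (abs_nonneg _) hv _)
        (by positivity) (by positivity)
    have h4 : r ^ (d - (i : ℕ)) * r ^ (i : ℕ) = r ^ d := by
      rw [← pow_add]; congr 1; have := i.2; omega
    rw [h4] at h3
    exact (mul_le_of_le_one_left (by positivity) h2).trans h3
  refine (Finset.sum_le_sum h1).trans ?_
  rw [Finset.sum_const, Finset.card_univ, Fintype.card_fin, nsmul_eq_mul]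
  push_cast
  exact le_rfl

theorem bf_smul {K : Type*} [Field K] {d : ℕ} (g : Fin (d + 1) → ℤ) (β u v : K) :
    bf g (β * u) (β * v) = β ^ d * bf g u v := by
  unfold bf
  rw [Finset.mul_sum]
  refine Finset.sum_congr rfl fun i _ => ?_
  have h : β ^ d = β ^ (d - (i : ℕ)) * β ^ (i : ℕ) := by
    rw [← pow_add]; congr 1; have := i.2; omega
  rw [h, mul_pow, mul_pow]
  ring

theorem bfu_smul {K : Type*} [Field K] {d : ℕ} (g : Fin (d + 1 + 1) → ℤ) (β u v : K) :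
    bfu g (β * u) (β * v) = β ^ d * bfu g u v := by
  unfold bfu
  rw [Finset.mul_sum]
  refine Finset.sum_congr rfl fun i _ => ?_
  rcases Nat.lt_or_ge (i : ℕ) (d + 1) with hi | hi
  · have h : β ^ d = β ^ (d + 1 - (i : ℕ) - 1) * β ^ (i : ℕ) := by
      rw [← pow_add]; congr 1; omega
    rw [h, mul_pow, mul_pow]
    ring
  · have h1 : d + 1 - (i : ℕ) = 0 := by omega
    rw [h1]
    simp

theorem bfv_smul {K : Type*} [Field K] {d : ℕ} (g : Fin (d + 1 + 1) → ℤ) (β u v : K) :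
    bfv g (β * u) (β * v) = β ^ d * bfv g u v := by
  unfold bfv
  rw [Finset.mul_sum]
  refine Finset.sum_congr rfl fun i _ => ?_
  rcases Nat.eq_zero_or_pos (i : ℕ) with hi | hi
  · rw [hi]
    simp
  · have h : β ^ d = β ^ (d + 1 - (i : ℕ)) * β ^ ((i : ℕ) - 1) := by
      rw [← pow_add]; congr 1; have := i.2; omega
    rw [h, mul_pow, mul_pow]
    ring

/-- the step along one coordinate -/
theorem step (F : ℝ → ℝ) (D y γ θ δ : ℝ) (hθ : 0 < θ) (hγ : 0 < γ) (hγ1 : 2000 * γ ≤ θ)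
    (hγ2 : 2000 * γ ≤ δ) (hδ : δ ≤ 1 / 4) (hD : θ < 32 * |D|) (hy : |y| < γ) (hF0 : F 0 = y ^ 2)
    (hF : ∀ s, |s| ≤ 1 → |F s - F 0 - s * D| ≤ 800 * s ^ 2) :
    ∃ s y' : ℝ, |s| ≤ δ ∧ y' ^ 2 = F s ∧ |y' - y| ≤ δ ∧ γ ≤ |y'| := by
  have hD0 : D ≠ 0 := by
    rintro rfl
    rw [abs_zero] at hD
    linarith
  have hDp : 0 < |D| := abs_pos.2 hD0
  obtain ⟨s, hs⟩ : ∃ s, s = 2 * γ ^ 2 / D := ⟨_, rfl⟩
  have hsD : s * D = 2 * γ ^ 2 := by rw [hs]; field_simp
  have hsabs : |s| * |D| = 2 * γ ^ 2 := by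
    rw [← abs_mul, hsD, abs_of_pos (by positivity)]
  have hsθ : |s| * θ ≤ 64 * γ ^ 2 := by
    have h1 : |s| * θ ≤ |s| * (32 * |D|) := mul_le_mul_of_nonneg_left hD.le (abs_nonneg _)
    have h2 : |s| * (32 * |D|) = 32 * (|s| * |D|) := by ring
    rw [h2, hsabs] at h1
    linarith
  have hs1 : |s| ≤ γ * (64 / 2000) := by
    -- `|s| θ ≤ 64 γ ^ 2 ≤ (64 / 2000) γ θ`
    have h1 : |s| * θ ≤ (γ * (64 / 2000)) * θ := by nlinarith
    exact le_of_mul_le_mul_right h1 hθ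
  have hsδ : |s| ≤ δ := by linarith
  have hs2 : s ^ 2 ≤ (γ * (64 / 2000)) ^ 2 := by
    rw [← sq_abs]
    exact pow_le_pow_left₀ (abs_nonneg _) hs1 2
  have h600 : 800 * s ^ 2 ≤ γ ^ 2 := by nlinarith [sq_nonneg γ]
  have h1 := hF s (by linarith)
  rw [hF0, hsD] at h1
  have h2 := abs_le.1 (h1.trans h600)
  have hy2 : y ^ 2 < γ ^ 2 := by
    rw [← sq_abs]
    exact pow_lt_pow_left₀ hy (abs_nonneg _) two_ne_zero
  have hFs1 : γ ^ 2 ≤ F s := by nlinarith [sq_nonneg y, h2.1]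
  have hFs2 : F s ≤ (2 * γ) ^ 2 := by nlinarith [h2.2]
  have hFs0 : 0 ≤ F s := le_trans (by positivity) hFs1
  refine ⟨s, Real.sqrt (F s), hsδ, Real.sq_sqrt hFs0, ?_, ?_⟩
  · have h3 : Real.sqrt (F s) ≤ 2 * γ := by
      rw [Real.sqrt_le_left (by positivity)]
      exact hFs2
    have h4 := Real.sqrt_nonneg (F s)
    have h5 := abs_le.1 hy.le
    rw [abs_le]
    constructor <;> linarith
  · rw [abs_of_nonneg (Real.sqrt_nonneg _)]
    exact Real.le_sqrt_of_sq_le hFs1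

end MOVR

open MOVR in
theorem t_MOVR : S_MOVR := by
  intro δ₀ θ₀ hδ₀ hθ₀
  obtain ⟨δ, hδ⟩ : ∃ δ, δ = min δ₀ (1 / 4) := ⟨_, rfl⟩
  obtain ⟨θ, hθ⟩ : ∃ θ, θ = min θ₀ 1 := ⟨_, rfl⟩
  have hδ0 : 0 < δ := by rw [hδ]; exact lt_min hδ₀ (by norm_num)
  have hθ0 : 0 < θ := by rw [hθ]; exact lt_min hθ₀ (by norm_num)
  have hδ1 : δ ≤ δ₀ := by rw [hδ]; exact min_le_left _ _
  have hδ2 : δ ≤ 1 / 4 := by rw [hδ]; exact min_le_right _ _
  have hθ1 : θ ≤ θ₀ := by rw [hθ]; exact min_le_left _ _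
  have hθ2 : θ ≤ 1 := by rw [hθ]; exact min_le_right _ _
  obtain ⟨γ, hγ⟩ : ∃ γ, γ = min δ θ / 2000 := ⟨_, rfl⟩
  have hγ0 : 0 < γ := by rw [hγ]; exact div_pos (lt_min hδ0 hθ0) (by norm_num)
  have hγδ : 2000 * γ ≤ δ := by
    rw [hγ]; have := min_le_left δ θ; linarith
  have hγθ : 2000 * γ ≤ θ := by
    rw [hγ]; have := min_le_right δ θ; linarith
  refine ⟨γ, hγ0, by linarith, ?_⟩
  intro H hH a ha f hf hbad u v x y heq hu hv hx hy hmax
  have hH0 : 0 < H := by linarith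
  have ha' := mem_box.1 ha
  have hf' := mem_box.1 hf
  have hH4 : 0 < H ^ 4 := by positivity
  have hH6 : 0 < H ^ 6 := by positivity
  rcases le_or_gt γ |y| with hyγ | hyγ
  · refine ⟨u, v, x, y, heq, ?_, ?_, ?_, ?_, hyγ, fun h => h⟩ <;>
      rw [sub_self, abs_zero] <;> exact hδ₀.le
  have hy2 : y ^ 2 < γ ^ 2 := by
    rw [← sq_abs]
    exact pow_lt_pow_left₀ hyγ (abs_nonneg _) two_ne_zero
  have hγ4 : γ ≤ 1 / 8000 := by linarith
  have hy3 : y ^ 2 ≤ 1 / 100 := by nlinarith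
  -- `u` or `v` is not small
  have hbig : 1 / 2 < max |u| |v| := by
    by_contra hcon
    have h1 := not_lt.1 hcon
    have hu' : |u| ≤ 1 / 2 := (le_max_left _ _).trans h1
    have hv' : |v| ≤ 1 / 2 := (le_max_right _ _).trans h1
    have h2 := bf_le a (H ^ 4) hH4 ha' u v (1 / 2) hu' hv'
    have h3 := bf_le f (H ^ 6) hH6 hf' u v (1 / 2) hu' hv'
    norm_num at h2 h3
    have h4 : |x| ^ 3 < 1 := by
      have e1 : x ^ 3 = y ^ 2 - bf a u v / H ^ 4 * x - bf f u v / H ^ 6 := by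
        rw [heq]; unfold Fr; ring
      have h5 : |x ^ 3| ≤ y ^ 2 + |bf a u v / H ^ 4| * 1 + |bf f u v / H ^ 6| := by
        rw [e1]
        have h6 := abs_sub (y ^ 2 - bf a u v / H ^ 4 * x) (bf f u v / H ^ 6)
        have h7 := abs_sub (y ^ 2) (bf a u v / H ^ 4 * x)
        have h8 : |bf a u v / H ^ 4 * x| ≤ |bf a u v / H ^ 4| * 1 := by
          rw [abs_mul]
          exact mul_le_mul_of_nonneg_left hx (abs_nonneg _)
        have h9 : |y ^ 2| = y ^ 2 := abs_of_nonneg (sq_nonneg y)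
        linarith
      rw [abs_pow] at h5
      linarith
    have h5 : |x| < 1 := by
      by_contra hc
      have h6 := one_le_pow₀ (not_lt.1 hc) (n := 3)
      linarith
    have h6 : |y| < 1 := by linarith
    rcases hmax with h | h | h | h <;> linarith
  -- the large partial derivative
  obtain ⟨t, ht⟩ : ∃ t, t = 1 / max |u| |v| := ⟨_, rfl⟩
  have hm0 : 0 < max |u| |v| := by linarith
  have hm1 : max |u| |v| ≤ 1 := max_le hu hv
  have ht0 : 0 < t := by rw [ht]; positivity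
  have ht1 : 1 ≤ t := by rw [ht, le_div_iff₀ hm0, one_mul]; exact hm1
  have ht2 : t ≤ 2 := by
    rw [ht, div_le_iff₀ hm0]; linarith
  have htu : |t * u| ≤ 1 := by
    rw [abs_mul, abs_of_pos ht0, ht, div_mul_eq_mul_div, one_mul, div_le_one hm0]
    exact le_max_left _ _
  have htv : |t * v| ≤ 1 := by
    rw [abs_mul, abs_of_pos ht0, ht, div_mul_eq_mul_div, one_mul, div_le_one hm0]
    exact le_max_right _ _
  have htuv : |t * u| = 1 ∨ |t * v| = 1 := by
    rw [abs_mul, abs_mul, abs_of_pos ht0, ht]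
    rcases max_choice |u| |v| with h | h
    · left; rw [h] at hm0 ⊢; field_simp
    · right; rw [h] at hm0 ⊢; field_simp
  have ht4 : t ^ 2 ≤ 4 := by nlinarith
  have htx : |t ^ 2 * x| ≤ 4 := by
    rw [abs_mul, abs_of_pos (by positivity : 0 < t ^ 2)]
    calc t ^ 2 * |x| ≤ 4 * 1 := mul_le_mul ht4 hx (abs_nonneg _) (by norm_num)
      _ = 4 := by norm_num
  have ht6 : t ^ 6 ≤ 64 := by
    calc t ^ 6 ≤ 2 ^ 6 := pow_le_pow_left₀ ht0.le ht2 6
      _ = 64 := by norm_num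
  have ht5 : t ^ 5 ≤ 32 := by
    calc t ^ 5 ≤ 2 ^ 5 := pow_le_pow_left₀ ht0.le ht2 5
      _ = 32 := by norm_num
  have ht44 : t ^ 4 ≤ 32 := by
    calc t ^ 4 ≤ 2 ^ 4 := pow_le_pow_left₀ ht0.le ht2 4
      _ ≤ 32 := by norm_num
  have hFt : Fr H a f (t * u) (t * v) (t ^ 2 * x) = t ^ 6 * y ^ 2 := by
    rw [heq]; unfold Fr; rw [bf_smul, bf_smul]; ring
  have hFt2 : |Fr H a f (t * u) (t * v) (t ^ 2 * x)| ≤ θ₀ := by
    rw [hFt, abs_of_nonneg (by positivity)]
    have h1 : t ^ 6 * y ^ 2 ≤ 64 * γ ^ 2 :=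
      mul_le_mul ht6 hy2.le (sq_nonneg y) (by norm_num)
    nlinarith
  have hpart : θ < 32 * |3 * x ^ 2 + bf a u v / H ^ 4| ∨
      θ < 32 * |bfu f u v / H ^ 6 + bfu a u v / H ^ 4 * x| ∨
      θ < 32 * |bfv f u v / H ^ 6 + bfv a u v / H ^ 4 * x| := by
    by_contra hcon
    push Not at hcon
    obtain ⟨h1, h2, h3⟩ := hcon
    apply hbad
    refine ⟨t * u, t * v, t ^ 2 * x, htu, htv, htuv, htx, hFt2, ?_, ?_, ?_⟩
    · have e1 : 3 * (t ^ 2 * x) ^ 2 + bf a (t * u) (t * v) / H ^ 4 =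
          t ^ 4 * (3 * x ^ 2 + bf a u v / H ^ 4) := by
        rw [bf_smul]; ring
      rw [e1, abs_mul, abs_of_pos (by positivity : 0 < t ^ 4)]
      calc t ^ 4 * |3 * x ^ 2 + bf a u v / H ^ 4| ≤ 32 * |3 * x ^ 2 + bf a u v / H ^ 4| :=
            mul_le_mul_of_nonneg_right ht44 (abs_nonneg _)
        _ ≤ θ := h1
        _ ≤ θ₀ := hθ1
    · have e1 : bfu f (t * u) (t * v) / H ^ 6 + bfu a (t * u) (t * v) / H ^ 4 * (t ^ 2 * x) =
          t ^ 5 * (bfu f u v / H ^ 6 + bfu a u v / H ^ 4 * x) := by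
        rw [bfu_smul, bfu_smul]; ring
      rw [e1, abs_mul, abs_of_pos (by positivity : 0 < t ^ 5)]
      calc t ^ 5 * |bfu f u v / H ^ 6 + bfu a u v / H ^ 4 * x| ≤
            32 * |bfu f u v / H ^ 6 + bfu a u v / H ^ 4 * x| :=
            mul_le_mul_of_nonneg_right ht5 (abs_nonneg _)
        _ ≤ θ := h2
        _ ≤ θ₀ := hθ1
    · have e1 : bfv f (t * u) (t * v) / H ^ 6 + bfv a (t * u) (t * v) / H ^ 4 * (t ^ 2 * x) =
          t ^ 5 * (bfv f u v / H ^ 6 + bfv a u v / H ^ 4 * x) := by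
        rw [bfv_smul, bfv_smul]; ring
      rw [e1, abs_mul, abs_of_pos (by positivity : 0 < t ^ 5)]
      calc t ^ 5 * |bfv f u v / H ^ 6 + bfv a u v / H ^ 4 * x| ≤
            32 * |bfv f u v / H ^ 6 + bfv a u v / H ^ 4 * x| :=
            mul_le_mul_of_nonneg_right ht5 (abs_nonneg _)
        _ ≤ θ := h3
        _ ≤ θ₀ := hθ1
  have hself : ∀ z : ℝ, |z - z| ≤ δ₀ := by
    intro z; rw [sub_self, abs_zero]; exact hδ₀.le
  rcases hpart with hD | hD | hD
  · -- move `x`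
    obtain ⟨s, y', h1, h2, h3, h4⟩ := step (fun s => Fr H a f u v (x + s)) _ y γ θ δ hθ0 hγ0 hγθ
      hγδ hδ2 hD hyγ (by simp only [add_zero]; exact heq.symm) (by
        intro s hs
        simp only [add_zero]
        have e1 : Fr H a f u v (x + s) - Fr H a f u v x -
            s * (3 * x ^ 2 + bf a u v / H ^ 4) = (3 * x + s) * s ^ 2 := by
          unfold Fr; ring
        rw [e1, abs_mul, abs_of_nonneg (sq_nonneg s)]
        apply mul_le_mul_of_nonneg_right _ (sq_nonneg s)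
        have h5 := abs_le.1 hx
        have h6 := abs_le.1 hs
        rw [abs_le]
        constructor <;> linarith)
    refine ⟨u, v, x + s, y', h2, hself u, hself v, ?_, by linarith, h4, fun h => h⟩
    rw [add_sub_cancel_left]; linarith
  · -- move `u`
    obtain ⟨s, y', h1, h2, h3, h4⟩ := step (fun s => Fr H a f (u + s) v x) _ y γ θ δ hθ0 hγ0 hγθ
      hγδ hδ2 hD hyγ (by simp only [add_zero]; exact heq.symm) (by
        intro s hs
        simp only [add_zero]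
        have e1 : Fr H a f (u + s) v x - Fr H a f u v x -
            s * (bfu f u v / H ^ 6 + bfu a u v / H ^ 4 * x) =
            (bf f (u + s) v / H ^ 6 - bf f u v / H ^ 6 - s * (bfu f u v / H ^ 6)) +
            (bf a (u + s) v / H ^ 4 - bf a u v / H ^ 4 - s * (bfu a u v / H ^ 4)) * x := by
          unfold Fr; ring
        rw [e1]
        have h5 := bf_taylor_u (by norm_num) f (H ^ 6) hH6 hf' u v s hu hv hs
        have h6 := bf_taylor_u (by norm_num) a (H ^ 4) hH4 ha' u v s hu hv hs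
        have h7 := abs_add_le
          (bf f (u + s) v / H ^ 6 - bf f u v / H ^ 6 - s * (bfu f u v / H ^ 6))
          ((bf a (u + s) v / H ^ 4 - bf a u v / H ^ 4 - s * (bfu a u v / H ^ 4)) * x)
        have h8 : |(bf a (u + s) v / H ^ 4 - bf a u v / H ^ 4 - s * (bfu a u v / H ^ 4)) * x| ≤
            |bf a (u + s) v / H ^ 4 - bf a u v / H ^ 4 - s * (bfu a u v / H ^ 4)| := by
          rw [abs_mul]
          exact mul_le_of_le_one_right (abs_nonneg _) hx
        norm_num at h5 h6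
        nlinarith [sq_nonneg s])
    refine ⟨u + s, v, x, y', h2, ?_, hself v, hself x, by linarith, h4, ?_⟩
    · rw [add_sub_cancel_left]; linarith
    · intro _
      rcases lt_max_iff.1 hbig with h5 | h5
      · left
        intro h6
        have h7 : |u| = |s| := by
          have : u = -s := by linarith
          rw [this, abs_neg]
        linarith
      · right
        intro h6
        rw [h6, abs_zero] at h5
        linarith
  · -- move `v`
    obtain ⟨s, y', h1, h2, h3, h4⟩ := step (fun s => Fr H a f u (v + s) x) _ y γ θ δ hθ0 hγ0 hγθ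
      hγδ hδ2 hD hyγ (by simp only [add_zero]; exact heq.symm) (by
        intro s hs
        simp only [add_zero]
        have e1 : Fr H a f u (v + s) x - Fr H a f u v x -
            s * (bfv f u v / H ^ 6 + bfv a u v / H ^ 4 * x) =
            (bf f u (v + s) / H ^ 6 - bf f u v / H ^ 6 - s * (bfv f u v / H ^ 6)) +
            (bf a u (v + s) / H ^ 4 - bf a u v / H ^ 4 - s * (bfv a u v / H ^ 4)) * x := by
          unfold Fr; ring
        rw [e1]
        have h5 := bf_taylor_v (by norm_num) f (H ^ 6) hH6 hf' u v s hu hv hs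
        have h6 := bf_taylor_v (by norm_num) a (H ^ 4) hH4 ha' u v s hu hv hs
        have h7 := abs_add_le
          (bf f u (v + s) / H ^ 6 - bf f u v / H ^ 6 - s * (bfv f u v / H ^ 6))
          ((bf a u (v + s) / H ^ 4 - bf a u v / H ^ 4 - s * (bfv a u v / H ^ 4)) * x)
        have h8 : |(bf a u (v + s) / H ^ 4 - bf a u v / H ^ 4 - s * (bfv a u v / H ^ 4)) * x| ≤
            |bf a u (v + s) / H ^ 4 - bf a u v / H ^ 4 - s * (bfv a u v / H ^ 4)| := by
          rw [abs_mul]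
          exact mul_le_of_le_one_right (abs_nonneg _) hx
        norm_num at h5 h6
        nlinarith [sq_nonneg s])
    refine ⟨u, v + s, x, y', h2, hself u, ?_, hself x, by linarith, h4, ?_⟩
    · rw [add_sub_cancel_left]; linarith
    · intro _
      rcases lt_max_iff.1 hbig with h5 | h5
      · left
        intro h6
        rw [h6, abs_zero] at h5
        linarith
      · right
        intro h6
        have h7 : |v| = |s| := by
          have : v = -s := by linarith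
          rw [this, abs_neg]
        linarith

end Pool.Agent.DPO
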