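import Pool.Agent.DPO.Stm

/-!
# Project DPO, piece PAIR (helper52)
-/

set_option autoImplicit false

namespace Pool.Agent.DPO

open Finset

namespace PairAux

theorem bf_add {d : ℕ} {R : Type*} [CommRing R] (g r : Fin (d + 1) → ℤ) (u v : R) :
    bf (fun i => g i + r i) u v = bf g u v + bf r u v := by
  unfold bf
  rw [← sum_add_distrib]
  refine sum_congr rfl fun i _ => ?_
  push_cast
  ring

theorem bf_mul {d : ℕ} {R : Type*} [CommRing R] (g : Fin (d + 1) → ℤ) (l u v : R) :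
    bf g (l * u) (l * v) = l ^ d * bf g u v := by
  unfold bf
  rw [mul_sum]
  refine sum_congr rfl fun i _ => ?_
  have h : (i : ℕ) ≤ d := Nat.lt_succ_iff.1 i.2
  have e : l ^ d = l ^ (d - (i : ℕ)) * l ^ (i : ℕ) := by rw [← pow_add, Nat.sub_add_cancel h]
  rw [mul_pow, mul_pow, e]
  ring

/-- congruent arguments give congruent values -/
theorem bf_congr {d : ℕ} (g : Fin (d + 1) → ℤ) {D u v u' v' : ℤ} (h1 : D ∣ u' - u) (h2 : D ∣ v' - v) :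
    D ∣ bf g u' v' - bf g u v := by
  unfold bf
  rw [← sum_sub_distrib]
  refine dvd_sum fun i _ => ?_
  have e : (((g i : ℤ) : ℤ) * u' ^ (d - (i : ℕ)) * v' ^ (i : ℕ) - ((g i : ℤ) : ℤ) * u ^ (d - (i : ℕ)) *
      v ^ (i : ℕ)) = g i * ((u' ^ (d - (i : ℕ)) - u ^ (d - (i : ℕ))) * v' ^ (i : ℕ) +
      u ^ (d - (i : ℕ)) * (v' ^ (i : ℕ) - v ^ (i : ℕ))) := by
    push_cast
    ring
  have e' : ((((g i : ℤ)) : ℤ) * u' ^ (d - (i : ℕ)) * v' ^ (i : ℕ) - ((g i : ℤ) : ℤ) *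
      u ^ (d - (i : ℕ)) * v ^ (i : ℕ)) = (g i : ℤ) * u' ^ (d - (i : ℕ)) * v' ^ (i : ℕ) -
        (g i : ℤ) * u ^ (d - (i : ℕ)) * v ^ (i : ℕ) := rfl
  rw [← e'] at *
  refine dvd_trans ?_ (dvd_of_eq e.symm)
  refine Dvd.dvd.mul_left ?_ _
  refine dvd_add (Dvd.dvd.mul_right (h1.trans (sub_dvd_pow_sub_pow _ _ _)) _)
    (Dvd.dvd.mul_left (h2.trans (sub_dvd_pow_sub_pow _ _ _)) _)

theorem bf_scale {d : ℕ} (g : Fin (d + 1) → ℤ) {D l u v u' v' : ℤ} (h1 : D ∣ u' - l * u)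
    (h2 : D ∣ v' - l * v) : D ∣ bf g u' v' - l ^ d * bf g u v := by
  rw [← bf_mul]
  exact bf_congr g h1 h2

theorem exists_l (p q : ℤ × ℤ) (hp : Int.gcd p.1 p.2 = 1) :
    ∃ l : ℤ, det2 p q ∣ q.1 - l * p.1 ∧ det2 p q ∣ q.2 - l * p.2 := by
  obtain ⟨a, b, hab⟩ := Int.isCoprime_iff_gcd_eq_one.2 hp
  refine ⟨a * q.1 + b * q.2, ⟨-b, ?_⟩, ⟨a, ?_⟩⟩
  · unfold det2
    linear_combination (-q.1) * hab
  · unfold det2
    linear_combination (-q.2) * hab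

theorem exists_e {ε : ℝ} (hε : 0 < ε) : ∃ e : ℝ, 0 < e ∧ e < 1 ∧ (1 + e) ^ 9 ≤ (1 + ε) * (1 - e) ^ 2 := by
  have hc : Continuous (fun e : ℝ => (1 + ε) * (1 - e) ^ 2 - (1 + e) ^ 9) := by fun_prop
  have h0 : 0 < (fun e : ℝ => (1 + ε) * (1 - e) ^ 2 - (1 + e) ^ 9) 0 := by
    norm_num
    exact hε
  have hev := hc.continuousAt.eventually (lt_mem_nhds h0)
  rw [Metric.eventually_nhds_iff] at hev
  obtain ⟨δ, hδ, h⟩ := hev
  refine ⟨min (δ / 2) (1 / 2), by positivity, ?_, ?_⟩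
  · exact lt_of_le_of_lt (min_le_right _ _) (by norm_num)
  · have h1 : 0 < min (δ / 2) (1 / 2) := by positivity
    have h2 := h (y := min (δ / 2) (1 / 2)) (by
      rw [Real.dist_eq, sub_zero, abs_of_pos h1]
      exact lt_of_le_of_lt (min_le_left _ _) (by linarith))
    linarith

end PairAux

open PairAux

theorem t_PAIR (h1 : S_SH2) (h2 : S_FIBQ) (h3 : S_BOXC) (h4 : S_ICNT) : S_PAIR := by
  classical
  intro γ C₀ ρ η κ τ ε hCst hε Q₀
  obtain ⟨e, he0, he1, heε⟩ := exists_e hε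
  have hη := hCst.η0
  have hC1 := hCst.C1
  have hρ0 := hCst.ρ0
  have hγ0 := hCst.γ0
  obtain ⟨c, H₁, hc, hH₁, hsh⟩ := h1 γ C₀ (e * η) hγ0 hC1 (by positivity)
  obtain ⟨H₂, hH₂, hfib⟩ := h2 γ C₀ ρ η κ τ c e hCst hc he0 Q₀
  obtain ⟨A₀, hA₀1, hbox⟩ := h3 e he0 he1
  refine ⟨H₁ + H₂ + A₀ / η + 1 / (2 * c * e), ?_, ?_⟩
  · have : 0 < A₀ / η := by positivity
    have : 0 < 1 / (2 * c * e) := by positivity
    linarith
  intro H hH w C R hw hPD hRD hSJ p hp q hq hdet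
  have k1 : 0 < A₀ / η := by positivity
  have k2 : 0 < 1 / (2 * c * e) := by positivity
  have hHH1 : H₁ ≤ H := by linarith
  have hHH2 : H₂ ≤ H := by linarith
  have hH1 : 1 ≤ H := by linarith
  have hH0 : 0 < H := by linarith
  have hHa : A₀ ≤ η * H := by
    have : A₀ / η ≤ H := by linarith
    rw [div_le_iff₀ hη] at this
    linarith
  have hHb : 1 ≤ e * (2 * c * H) := by
    have : 1 / (2 * c * e) ≤ H := by linarith
    rw [div_le_iff₀ (by positivity)] at this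
    linarith
  have hS0 : 0 < C.S := hPD.hS
  have hJ0 : 0 < C.J := hPD.hJ
  have hSr : (0 : ℝ) < C.S := by exact_mod_cast hS0
  have hSJ0 : ((C.S * C.J : ℕ) : ℤ) ≠ 0 := by exact_mod_cast (Nat.mul_pos hS0 hJ0).ne'
  have hSJr : (0 : ℝ) < ((C.S * C.J : ℕ) : ℝ) := by exact_mod_cast Nat.mul_pos hS0 hJ0
  have hY1 : 0 < R.Y₁ := lt_of_lt_of_le hγ0 hRD.hY1
  have hp' := mem_setU.1 hp
  have hq' := mem_setU.1 hq
  obtain ⟨pu1, pu2, pu3⟩ := hRD.hu _ _ hp'.1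
  obtain ⟨qu1, qu2, qu3⟩ := hRD.hu _ _ hq'.1
  obtain ⟨l, hl1, hl2⟩ := exists_l p q hp'.2.2.2
  have hsh' := hsh H hHH1 p q hp'.2.2.2 hq'.2.2.2 pu1 pu2 pu3 qu1 qu2 qu3 hdet l hl1 hl2
  choose r hrbox hrp hrq using hsh'
  obtain ⟨D, hDdef⟩ : ∃ D : ℕ, D = (det2 p q).natAbs := ⟨_, rfl⟩
  have hD0 : 0 < D := by rw [hDdef]; exact Int.natAbs_pos.2 hdet
  have hDr : (0 : ℝ) < D := by exact_mod_cast hD0
  have hDabs : |(det2 p q : ℝ)| = D := by
    rw [hDdef, Nat.cast_natAbs]; push_cast; rfl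
  have hDdvd : ∀ z : ℤ, (D : ℤ) ∣ z → det2 p q ∣ z := by
    intro z hz
    rw [hDdef] at hz
    exact Int.natAbs_dvd.1 hz
  -- the lattice
  obtain ⟨Rg, hRg⟩ : ∃ Rg : Finset (Σ _ : ℤ, ℤ), Rg = (setI (-(c * H ^ 18)) (c * H ^ 18) 1 0).sigma
      (fun a => setI (((q.1 : ℝ) / p.1) ^ 6 * a - c * D * H ^ 14)
        (((q.1 : ℝ) / p.1) ^ 6 * a + c * D * H ^ 14) D (l ^ 6 * a)) := ⟨_, rfl⟩
  have hRgm : ∀ x ∈ Rg, |(x.1 : ℝ)| ≤ c * H ^ 18 ∧
      |(x.2 : ℝ) - ((q.1 : ℝ) / p.1) ^ 6 * x.1| ≤ c * |(det2 p q : ℝ)| * H ^ 14 ∧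
      det2 p q ∣ x.2 - l ^ 6 * x.1 := by
    intro x hx
    rw [hRg, mem_sigma, mem_setI, mem_setI] at hx
    obtain ⟨⟨⟨a1, a2⟩, -⟩, ⟨⟨b1, b2⟩, b3⟩⟩ := hx
    refine ⟨abs_le.2 ⟨a1, a2⟩, ?_, hDdvd _ b3⟩
    rw [hDabs, abs_le]
    constructor <;> linarith
  have hRgcard : (2 * c * H ^ 18 - 1) * (2 * c * H ^ 14 - 1) ≤ (Rg.card : ℝ) := by
    have b1 : ∀ a : ℤ, 2 * c * H ^ 14 - 1 ≤ ((setI (((q.1 : ℝ) / p.1) ^ 6 * a - c * D * H ^ 14)
        (((q.1 : ℝ) / p.1) ^ 6 * a + c * D * H ^ 14) D (l ^ 6 * a)).card : ℝ) := by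
      intro a
      refine le_trans (le_of_eq ?_) (h4.2 _ _ D _ hD0)
      field_simp
      ring
    have b2 : 2 * c * H ^ 18 - 1 ≤ ((setI (-(c * H ^ 18)) (c * H ^ 18) 1 0).card : ℝ) := by
      refine le_trans (le_of_eq ?_) (h4.2 _ _ 1 _ one_pos)
      push_cast
      ring
    have b3 : 0 ≤ 2 * c * H ^ 14 - 1 := by
      have e1 : H ≤ H ^ 14 := by
        calc H = H ^ 1 := (pow_one H).symm
          _ ≤ H ^ 14 := pow_le_pow_right₀ hH1 (by norm_num)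
      have e2 : e * (2 * c * H) ≤ 1 * (2 * c * H ^ 14) :=
        mul_le_mul he1.le (mul_le_mul_of_nonneg_left e1 (by positivity)) (by positivity) (by norm_num)
      linarith
    rw [hRg, card_sigma]
    push_cast
    calc (2 * c * H ^ 18 - 1) * (2 * c * H ^ 14 - 1)
        ≤ ((setI (-(c * H ^ 18)) (c * H ^ 18) 1 0).card : ℝ) * (2 * c * H ^ 14 - 1) :=
          mul_le_mul_of_nonneg_right b2 b3
      _ = ∑ a ∈ setI (-(c * H ^ 18)) (c * H ^ 18) 1 0, (2 * c * H ^ 14 - 1) := by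
          rw [sum_const, nsmul_eq_mul]
      _ ≤ _ := sum_le_sum fun a _ => b1 a
  -- the double counting
  obtain ⟨Za, hZa⟩ : ∃ Za, Za = (setX H ρ C R ×ˢ setY H C R) ×ˢ (setX H ρ C R ×ˢ setY H C R) :=
    ⟨_, rfl⟩
  obtain ⟨T, hT⟩ : ∃ T, T = ((box 7 (η * H ^ 6)) ×ˢ Za).filter (fun u =>
      Psi C.b C.c p.1 p.2 u.2.1.1 u.2.1.2 = (C.S * C.J : ℕ) * bf u.1 p.1 p.2 ∧
      Psi C.b C.c q.1 q.2 u.2.2.1 u.2.2.2 = (C.S * C.J : ℕ) * bf u.1 q.1 q.2) := ⟨_, rfl⟩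
  have hTcard : (T.card : ℝ) = ∑ g ∈ box 7 (η * H ^ 6), (cnt H ρ C R g p : ℝ) * cnt H ρ C R g q := by
    have e1 : T.card = ∑ g ∈ box 7 (η * H ^ 6), cnt H ρ C R g p * cnt H ρ C R g q := by
      rw [hT, card_filter, sum_product]
      refine sum_congr rfl fun g _ => ?_
      rw [← card_filter, hZa]
      unfold cnt
      rw [← card_product]
      congr 1
      ext z
      simp only [mem_filter, mem_product]
      tauto
    rw [e1]
    push_cast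
    rfl
  obtain ⟨T', hT'⟩ : ∃ T', T' = ((box 7 ((1 + e) * (η * H ^ 6))) ×ˢ Za).filter (fun u =>
      |((Psi C.b C.c p.1 p.2 u.2.1.1 u.2.1.2 - (C.S * C.J : ℕ) * bf u.1 p.1 p.2 : ℤ) : ℝ)| ≤
        (C.S * C.J : ℕ) * (c * H ^ 18) ∧
      |((Psi C.b C.c q.1 q.2 u.2.2.1 u.2.2.2 - (C.S * C.J : ℕ) * bf u.1 q.1 q.2 : ℤ) : ℝ) -
        ((q.1 : ℝ) / p.1) ^ 6 *
        ((Psi C.b C.c p.1 p.2 u.2.1.1 u.2.1.2 - (C.S * C.J : ℕ) * bf u.1 p.1 p.2 : ℤ) : ℝ)| ≤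
        (C.S * C.J : ℕ) * (c * |(det2 p q : ℝ)| * H ^ 14) ∧
      ((C.S * C.J : ℕ) : ℤ) * det2 p q ∣ Psi C.b C.c q.1 q.2 u.2.2.1 u.2.2.2 -
        l ^ 6 * Psi C.b C.c p.1 p.2 u.2.1.1 u.2.1.2) := ⟨_, rfl⟩
  have hT'card : (T'.card : ℝ) ≤ ((box 7 ((1 + e) * (η * H ^ 6))).card : ℝ) *
      ((1 + e) * Gf C.S (det2 p q).natAbs * (2 * ρ * c / (C.S * R.Y₁)) ^ 2 * H ^ 26) := by
    have e1 : T'.card = ∑ g ∈ box 7 ((1 + e) * (η * H ^ 6)), (Za.filter (fun z =>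
      |((Psi C.b C.c p.1 p.2 z.1.1 z.1.2 - (C.S * C.J : ℕ) * bf g p.1 p.2 : ℤ) : ℝ)| ≤
        (C.S * C.J : ℕ) * (c * H ^ 18) ∧
      |((Psi C.b C.c q.1 q.2 z.2.1 z.2.2 - (C.S * C.J : ℕ) * bf g q.1 q.2 : ℤ) : ℝ) -
        ((q.1 : ℝ) / p.1) ^ 6 *
        ((Psi C.b C.c p.1 p.2 z.1.1 z.1.2 - (C.S * C.J : ℕ) * bf g p.1 p.2 : ℤ) : ℝ)| ≤
        (C.S * C.J : ℕ) * (c * |(det2 p q : ℝ)| * H ^ 14) ∧
      ((C.S * C.J : ℕ) : ℤ) * det2 p q ∣ Psi C.b C.c q.1 q.2 z.2.1 z.2.2 -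
        l ^ 6 * Psi C.b C.c p.1 p.2 z.1.1 z.1.2)).card := by
      rw [hT', card_filter, sum_product]
      refine sum_congr rfl fun g _ => ?_
      rw [card_filter]
    have e2 : ((box 7 ((1 + e) * (η * H ^ 6))).card : ℝ) *
      ((1 + e) * Gf C.S (det2 p q).natAbs * (2 * ρ * c / (C.S * R.Y₁)) ^ 2 * H ^ 26) =
      ∑ _g ∈ box 7 ((1 + e) * (η * H ^ 6)),
        ((1 + e) * Gf C.S (det2 p q).natAbs * (2 * ρ * c / (C.S * R.Y₁)) ^ 2 * H ^ 26) := by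
      rw [sum_const, nsmul_eq_mul]
    rw [e1, Nat.cast_sum, e2]
    refine sum_le_sum fun g _ => ?_
    have h5 := hfib H hHH2 w C R hw hPD hRD hSJ p hp q hq hdet l hl1 hl2
      ((C.S * C.J : ℕ) * bf g p.1 p.2) ((C.S * C.J : ℕ) * bf g q.1 q.2)
    rw [← hZa] at h5
    exact h5
  have hinj : (T.card : ℝ) * Rg.card ≤ T'.card := by
    have e1 : (T ×ˢ Rg).card ≤ T'.card := by
      refine card_le_card_of_injOn (fun u => ((fun i => u.1.1 i + (if hx : u.2 ∈ Rg then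
        r u.2.1 u.2.2 (hRgm _ hx).1 (hRgm _ hx).2.1 (hRgm _ hx).2.2 i else 0)), u.1.2)) ?_ ?_
      · rintro ⟨⟨g, z⟩, x⟩ hu
        rw [mem_coe, mem_product] at hu
        obtain ⟨hu1, hx⟩ := hu
        have hx' : x ∈ Rg := hx
        rw [hT, mem_filter, mem_product] at hu1
        obtain ⟨⟨hg, hz⟩, hP, hP'⟩ := hu1
        obtain ⟨x1, x2, x3⟩ := hRgm x hx'
        have rp := hrp x.1 x.2 x1 x2 x3
        have rq := hrq x.1 x.2 x1 x2 x3
        have rb := hrbox x.1 x.2 x1 x2 x3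
        simp only at hg hz hP hP'
        rw [mem_coe, hT', mem_filter, mem_product]
        simp only [dif_pos hx']
        obtain ⟨g', hg'⟩ : ∃ g' : Fin 7 → ℤ, g' = fun i => g i + r x.1 x.2 x1 x2 x3 i := ⟨_, rfl⟩
        rw [← hg']
        have ep : bf g' p.1 p.2 = bf g p.1 p.2 + x.1 := by rw [hg', bf_add, rp]
        have eq' : bf g' q.1 q.2 = bf g q.1 q.2 + x.2 := by rw [hg', bf_add, rq]
        rw [ep, eq', hP, hP']
        refine ⟨⟨?_, hz⟩, ?_, ?_, ?_⟩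
        · rw [mem_box] at hg rb ⊢
          intro i
          rw [hg']
          push_cast
          refine (abs_add_le _ _).trans ?_
          have := hg i
          have := rb i
          nlinarith
        · have e2 : (((C.S * C.J : ℕ) * bf g p.1 p.2 - (C.S * C.J : ℕ) * (bf g p.1 p.2 + x.1) : ℤ) : ℝ)
              = -(((C.S * C.J : ℕ) : ℝ) * x.1) := by push_cast; ring
          rw [e2, abs_neg, abs_mul, abs_of_pos hSJr]
          exact mul_le_mul_of_nonneg_left x1 hSJr.le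
        · have e2 : (((C.S * C.J : ℕ) * bf g q.1 q.2 - (C.S * C.J : ℕ) * (bf g q.1 q.2 + x.2) : ℤ) : ℝ) -
              ((q.1 : ℝ) / p.1) ^ 6 *
              (((C.S * C.J : ℕ) * bf g p.1 p.2 - (C.S * C.J : ℕ) * (bf g p.1 p.2 + x.1) : ℤ) : ℝ)
              = -(((C.S * C.J : ℕ) : ℝ) * ((x.2 : ℝ) - ((q.1 : ℝ) / p.1) ^ 6 * x.1)) := by
            push_cast; ring
          rw [e2, abs_neg, abs_mul, abs_of_pos hSJr]
          exact mul_le_mul_of_nonneg_left x2 hSJr.le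
        · have e2 : ((C.S * C.J : ℕ) : ℤ) * bf g q.1 q.2 - l ^ 6 * (((C.S * C.J : ℕ) : ℤ) * bf g p.1 p.2)
              = ((C.S * C.J : ℕ) : ℤ) * (bf g q.1 q.2 - l ^ 6 * bf g p.1 p.2) := by ring
          rw [e2]
          exact mul_dvd_mul_left _ (bf_scale g hl1 hl2)
      · rintro ⟨⟨g, z⟩, x⟩ hu ⟨⟨g₂, z₂⟩, x₂⟩ hu₂ huu
        rw [mem_coe, mem_product] at hu hu₂
        obtain ⟨hu1, hx⟩ := hu
        obtain ⟨hu1₂, hx₂⟩ := hu₂
        have hx' : x ∈ Rg := hx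
        have hx₂' : x₂ ∈ Rg := hx₂
        rw [hT, mem_filter, mem_product] at hu1 hu1₂
        obtain ⟨⟨hg, hz⟩, hP, hP'⟩ := hu1
        obtain ⟨⟨hg₂, hz₂⟩, hP₂, hP₂'⟩ := hu1₂
        simp only at hP hP' hP₂ hP₂'
        simp only [dif_pos hx', dif_pos hx₂'] at huu
        obtain ⟨hgg, hzz⟩ := Prod.mk.inj huu
        subst hzz
        obtain ⟨x1, x2, x3⟩ := hRgm x hx'
        obtain ⟨x₂1, x₂2, x₂3⟩ := hRgm x₂ hx₂'
        have cp : bf g p.1 p.2 = bf g₂ p.1 p.2 := by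
          have := hP.symm.trans hP₂
          exact mul_left_cancel₀ hSJ0 this
        have cq : bf g q.1 q.2 = bf g₂ q.1 q.2 := by
          have := hP'.symm.trans hP₂'
          exact mul_left_cancel₀ hSJ0 this
        have dp := congrArg (fun f : Fin 7 → ℤ => bf f p.1 p.2) hgg
        have dq := congrArg (fun f : Fin 7 → ℤ => bf f q.1 q.2) hgg
        rw [bf_add, bf_add, hrp x.1 x.2 x1 x2 x3, hrp x₂.1 x₂.2 x₂1 x₂2 x₂3, cp] at dp
        rw [bf_add, bf_add, hrq x.1 x.2 x1 x2 x3, hrq x₂.1 x₂.2 x₂1 x₂2 x₂3, cq] at dq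
        have e1 : x.1 = x₂.1 := add_left_cancel dp
        have e2 : x.2 = x₂.2 := add_left_cancel dq
        have exx : x = x₂ := by
          cases x; cases x₂; simp only at e1 e2; subst e1; subst e2; rfl
        subst exx
        have egg : g = g₂ := by
          funext i
          have := congrFun hgg i
          exact add_right_cancel this
        rw [egg]
    rw [card_product] at e1
    exact_mod_cast e1
  rw [← hTcard]
  -- the numerical part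
  have hboxA := (hbox (η * H ^ 6) (by
    refine hHa.trans ?_
    apply mul_le_mul_of_nonneg_left _ hη.le
    calc H = H ^ 1 := (pow_one H).symm
      _ ≤ H ^ 6 := pow_le_pow_right₀ hH1 (by norm_num))).1
  have hGf0 : 0 ≤ Gf C.S (det2 p q).natAbs := by
    unfold Gf
    exact sum_nonneg fun i _ => by positivity
  have hRglow : (1 - e) ^ 2 * (4 * c ^ 2 * H ^ 32) ≤ (Rg.card : ℝ) := by
    refine le_trans ?_ hRgcard
    have e1 : H ≤ H ^ 14 := by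
      calc H = H ^ 1 := (pow_one H).symm
        _ ≤ H ^ 14 := pow_le_pow_right₀ hH1 (by norm_num)
    have e1' : H ≤ H ^ 18 := by
      calc H = H ^ 1 := (pow_one H).symm
        _ ≤ H ^ 18 := pow_le_pow_right₀ hH1 (by norm_num)
    have e2 : e * (2 * c * H) ≤ e * (2 * c * H ^ 14) :=
      mul_le_mul_of_nonneg_left (mul_le_mul_of_nonneg_left e1 (by positivity)) he0.le
    have e2' : e * (2 * c * H) ≤ e * (2 * c * H ^ 18) :=
      mul_le_mul_of_nonneg_left (mul_le_mul_of_nonneg_left e1' (by positivity)) he0.le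
    calc (1 - e) ^ 2 * (4 * c ^ 2 * H ^ 32) =
        ((1 - e) * (2 * c * H ^ 18)) * ((1 - e) * (2 * c * H ^ 14)) := by ring
      _ ≤ (2 * c * H ^ 18 - 1) * (2 * c * H ^ 14 - 1) := by
          apply mul_le_mul
          · linarith
          · linarith
          · have : 0 < 1 - e := by linarith
            positivity
          · have h6 : 0 ≤ (1 - e) * (2 * c * H ^ 18) := by
              have : 0 < 1 - e := by linarith
              positivity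
            linarith
  have hpos : 0 < (1 - e) ^ 2 * (4 * c ^ 2 * H ^ 32) := by
    have : 0 < 1 - e := by linarith
    positivity
  have hB0 : (0 : ℝ) ≤ ((box 7 (η * H ^ 6)).card : ℝ) := Nat.cast_nonneg _
  have hfin : (T.card : ℝ) * ((1 - e) ^ 2 * (4 * c ^ 2 * H ^ 32)) ≤
      ((1 + ε) * Gf C.S (det2 p q).natAbs * (ρ / (C.S * R.Y₁ * H ^ 3)) ^ 2 *
        (box 7 (η * H ^ 6)).card) * ((1 - e) ^ 2 * (4 * c ^ 2 * H ^ 32)) := by
    calc (T.card : ℝ) * ((1 - e) ^ 2 * (4 * c ^ 2 * H ^ 32)) ≤ (T.card : ℝ) * Rg.card :=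
          mul_le_mul_of_nonneg_left hRglow (Nat.cast_nonneg _)
      _ ≤ T'.card := hinj
      _ ≤ ((box 7 ((1 + e) * (η * H ^ 6))).card : ℝ) *
            ((1 + e) * Gf C.S (det2 p q).natAbs * (2 * ρ * c / (C.S * R.Y₁)) ^ 2 * H ^ 26) := hT'card
      _ ≤ ((1 + e) ^ 8 * (box 7 (η * H ^ 6)).card) *
            ((1 + e) * Gf C.S (det2 p q).natAbs * (2 * ρ * c / (C.S * R.Y₁)) ^ 2 * H ^ 26) :=
          mul_le_mul_of_nonneg_right hboxA (by positivity)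
      _ = (1 + e) ^ 9 * (Gf C.S (det2 p q).natAbs * (ρ / (C.S * R.Y₁ * H ^ 3)) ^ 2 *
            (box 7 (η * H ^ 6)).card * (4 * c ^ 2 * H ^ 32)) := by
          field_simp
          ring
      _ ≤ ((1 + ε) * (1 - e) ^ 2) * (Gf C.S (det2 p q).natAbs * (ρ / (C.S * R.Y₁ * H ^ 3)) ^ 2 *
            (box 7 (η * H ^ 6)).card * (4 * c ^ 2 * H ^ 32)) :=
          mul_le_mul_of_nonneg_right heε (by positivity)
      _ = _ := by ring
  exact le_of_mul_le_mul_right hfin hpos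

end Pool.Agent.DPO
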