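import Pool.Agent.DPO.Stm

/-!
# Project DPO, piece QUAD (helper52)
-/

set_option autoImplicit false

namespace Pool.Agent.DPO

open Finset

namespace QuadAux

/-- the number of the solutions of `v w = h` -/
theorem quad_ker (n : ℕ) [NeZero n] (v h : ZMod n) :
    (univ.filter (fun w : ZMod n => v * w = h)).card ≤ Nat.gcd v.val n := by
  classical
  rcases (univ.filter (fun w : ZMod n => v * w = h)).eq_empty_or_nonempty with he | ⟨w₀, hw₀⟩
  · rw [he]; simp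
  rw [mem_filter] at hw₀
  have hn : 0 < n := Nat.pos_of_ne_zero (NeZero.ne n)
  have hg : 0 < Nat.gcd v.val n := Nat.gcd_pos_of_pos_right _ hn
  -- translate
  have h1 : (univ.filter (fun w : ZMod n => v * w = h)).card ≤
      (univ.filter (fun w : ZMod n => v * w = 0)).card := by
    refine card_le_card_of_injOn (fun w => w - w₀) ?_ ?_
    · intro w hw
      rw [mem_coe, mem_filter] at hw
      rw [mem_coe, mem_filter]
      refine ⟨mem_univ _, ?_⟩
      rw [mul_sub, hw.2, hw₀.2, sub_self]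
    · intro a _ b _ hab
      exact sub_left_injective hab
  refine h1.trans ?_
  have hdvd : ∀ w : ZMod n, v * w = 0 → n / Nat.gcd v.val n ∣ w.val := by
    intro w hw
    have h2 : ((v.val * w.val : ℕ) : ZMod n) = 0 := by
      push_cast
      rw [ZMod.natCast_zmod_val, ZMod.natCast_zmod_val, hw]
    rw [ZMod.natCast_eq_zero_iff] at h2
    have h3 : n / Nat.gcd v.val n ∣ (v.val / Nat.gcd v.val n) * w.val := by
      rw [Nat.div_dvd_iff_dvd_mul (Nat.gcd_dvd_right _ _) hg]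
      rw [← mul_assoc, Nat.mul_div_cancel' (Nat.gcd_dvd_left _ _)]
      exact h2
    have hcop : Nat.Coprime (n / Nat.gcd v.val n) (v.val / Nat.gcd v.val n) := by
      have := Nat.coprime_div_gcd_div_gcd hg
      exact this.symm
    exact hcop.dvd_of_dvd_mul_left h3
  have hpos : 0 < n / Nat.gcd v.val n :=
    Nat.div_pos (Nat.le_of_dvd hn (Nat.gcd_dvd_right _ _)) hg
  calc (univ.filter (fun w : ZMod n => v * w = 0)).card
      ≤ (range (Nat.gcd v.val n)).card := by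
        refine card_le_card_of_injOn (fun w => w.val / (n / Nat.gcd v.val n)) ?_ ?_
        · intro w hw
          rw [mem_coe, mem_filter] at hw
          rw [mem_coe, mem_range]
          rw [Nat.div_lt_iff_lt_mul hpos, Nat.mul_div_cancel' (Nat.gcd_dvd_right _ _)]
          exact ZMod.val_lt w
        · intro a ha b hb hab
          rw [mem_coe, mem_filter] at ha hb
          have e1 := Nat.div_mul_cancel (hdvd a ha.2)
          have e2 := Nat.div_mul_cancel (hdvd b hb.2)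
          apply ZMod.val_injective n
          rw [← e1, ← e2]
          exact congrArg (· * (n / Nat.gcd v.val n)) hab
    _ = Nat.gcd v.val n := card_range _

/-- the number of the `v` with a given greatest common divisor -/
theorem quad_gcd (n : ℕ) [NeZero n] (δ : ℕ) (hδ : δ ∣ n) :
    (univ.filter (fun v : ZMod n => Nat.gcd v.val n = δ)).card ≤ n / δ := by
  have hn : 0 < n := Nat.pos_of_ne_zero (NeZero.ne n)
  have hδ0 : 0 < δ := Nat.pos_of_dvd_of_pos hδ hn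
  calc (univ.filter (fun v : ZMod n => Nat.gcd v.val n = δ)).card
      ≤ (range (n / δ)).card := by
        refine card_le_card_of_injOn (fun w => w.val / δ) ?_ ?_
        · intro w hw
          rw [mem_coe, mem_filter] at hw
          rw [mem_coe, mem_range]
          rw [Nat.div_lt_iff_lt_mul hδ0, Nat.div_mul_cancel hδ]
          exact ZMod.val_lt w
        · intro a ha b hb hab
          rw [mem_coe, mem_filter] at ha hb
          have d1 : δ ∣ a.val := by rw [← ha.2]; exact Nat.gcd_dvd_left _ _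
          have d2 : δ ∣ b.val := by rw [← hb.2]; exact Nat.gcd_dvd_left _ _
          apply ZMod.val_injective n
          rw [← Nat.div_mul_cancel d1, ← Nat.div_mul_cancel d2]
          exact congrArg (· * δ) hab
    _ = n / δ := card_range _

theorem rough_dvd {n δ : ℕ} (h : Rough n) (hδ : δ ∣ n) : Rough δ :=
  ⟨Nat.pos_of_dvd_of_pos hδ h.1, fun p hp hd => h.2 p hp (hd.trans hδ)⟩

/-- the roots in `ZMod n` of a cubic polynomial modulo a divisor -/
theorem quad_cub (h : S_CUB) (n : ℕ) [NeZero n] (hR : Rough n) (δ : ℕ) (hδ : δ ∣ n) (b c : ℤ) :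
    ((univ.filter (fun X : ZMod n => (δ : ℤ) ∣ ((X.val : ℕ) : ℤ) ^ 3 + b * ((X.val : ℕ) : ℤ) - c)).card : ℝ)
      ≤ (n / δ : ℕ) * (δ : ℝ) ^ (5 / 6 : ℝ) := by
  have hn : 0 < n := Nat.pos_of_ne_zero (NeZero.ne n)
  have hδ0 : 0 < δ := Nat.pos_of_dvd_of_pos hδ hn
  have h1 := h δ (rough_dvd hR hδ) b c
  have h2 : (univ.filter (fun X : ZMod n =>
      (δ : ℤ) ∣ ((X.val : ℕ) : ℤ) ^ 3 + b * ((X.val : ℕ) : ℤ) - c)).card ≤
      (((Finset.range δ).filter (fun x : ℕ => (δ : ℤ) ∣ (x : ℤ) ^ 3 + b * x - c)) ×ˢ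
        range (n / δ)).card := by
    refine card_le_card_of_injOn (fun X => (X.val % δ, X.val / δ)) ?_ ?_
    · intro X hX
      rw [mem_coe, mem_filter] at hX
      rw [mem_coe, mem_product, mem_filter, mem_range, mem_range]
      refine ⟨⟨Nat.mod_lt _ hδ0, ?_⟩, ?_⟩
      · have h3 : (δ : ℤ) ∣ ((X.val : ℕ) : ℤ) - ((X.val % δ : ℕ) : ℤ) := by
          have := Nat.div_add_mod X.val δ
          refine ⟨((X.val / δ : ℕ) : ℤ), ?_⟩
          have h4 : ((δ * (X.val / δ) + X.val % δ : ℕ) : ℤ) = ((X.val : ℕ) : ℤ) := by rw [this]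
          push_cast at h4
          push_cast
          linarith
        have h5 : ((X.val % δ : ℕ) : ℤ) ^ 3 + b * ((X.val % δ : ℕ) : ℤ) - c =
            (((X.val : ℕ) : ℤ) ^ 3 + b * ((X.val : ℕ) : ℤ) - c) -
            (((X.val : ℕ) : ℤ) - ((X.val % δ : ℕ) : ℤ)) *
              (((X.val : ℕ) : ℤ) ^ 2 + ((X.val : ℕ) : ℤ) * ((X.val % δ : ℕ) : ℤ) +
                ((X.val % δ : ℕ) : ℤ) ^ 2 + b) := by ring
        show (δ : ℤ) ∣ ((X.val % δ : ℕ) : ℤ) ^ 3 + b * ((X.val % δ : ℕ) : ℤ) - c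
        rw [h5]
        exact dvd_sub hX.2 (h3.mul_right _)
      · show X.val / δ < n / δ
        rw [Nat.div_lt_iff_lt_mul hδ0, Nat.div_mul_cancel hδ]
        exact ZMod.val_lt X
    · intro a _ b' _ hab
      have e1 : a.val % δ = b'.val % δ := congrArg Prod.fst hab
      have e2 : a.val / δ = b'.val / δ := congrArg Prod.snd hab
      apply ZMod.val_injective n
      rw [← Nat.div_add_mod a.val δ, ← Nat.div_add_mod b'.val δ, e1, e2]
  rw [card_product, card_range] at h2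
  calc ((univ.filter (fun X : ZMod n =>
      (δ : ℤ) ∣ ((X.val : ℕ) : ℤ) ^ 3 + b * ((X.val : ℕ) : ℤ) - c)).card : ℝ)
      ≤ ((((Finset.range δ).filter (fun x : ℕ => (δ : ℤ) ∣ (x : ℤ) ^ 3 + b * x - c)).card *
        (n / δ) : ℕ) : ℝ) := by exact_mod_cast h2
    _ = (((Finset.range δ).filter (fun x : ℕ => (δ : ℤ) ∣ (x : ℤ) ^ 3 + b * x - c)).card : ℝ) *
        (n / δ : ℕ) := by push_cast; ring
    _ ≤ (δ : ℝ) ^ (5 / 6 : ℝ) * (n / δ : ℕ) := mul_le_mul_of_nonneg_right h1 (Nat.cast_nonneg _)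
    _ = _ := by ring

/-- two divides no rough number -/
theorem rough_two {n : ℕ} (h : Rough n) : Nat.Coprime 2 n := by
  rw [Nat.Prime.coprime_iff_not_dvd Nat.prime_two]
  intro hd
  have := h.2 2 Nat.prime_two hd
  omega

/-- if `v w = X ^ 3 + β X - x ^ 3 - β x` then the greatest common divisor of `v` and `n` divides it -/
theorem quad_dvd (n : ℕ) [NeZero n] (β v w x X : ZMod n) (hvw : v * w = X ^ 3 + β * X - x ^ 3 - β * x) :
    ((Nat.gcd v.val n : ℕ) : ℤ) ∣ ((X.val : ℕ) : ℤ) ^ 3 + ((β.val : ℕ) : ℤ) * ((X.val : ℕ) : ℤ) -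
      (((x.val : ℕ) : ℤ) ^ 3 + ((β.val : ℕ) : ℤ) * ((x.val : ℕ) : ℤ)) := by
  have h1 : ((((v.val : ℕ) : ℤ) * ((w.val : ℕ) : ℤ) - (((X.val : ℕ) : ℤ) ^ 3 +
      ((β.val : ℕ) : ℤ) * ((X.val : ℕ) : ℤ) - (((x.val : ℕ) : ℤ) ^ 3 +
      ((β.val : ℕ) : ℤ) * ((x.val : ℕ) : ℤ))) : ℤ) : ZMod n) = 0 := by
    push_cast
    simp only [ZMod.natCast_zmod_val]
    rw [hvw]
    ring
  rw [ZMod.intCast_zmod_eq_zero_iff_dvd] at h1
  have h2 : ((Nat.gcd v.val n : ℕ) : ℤ) ∣ (n : ℤ) :=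
    Int.natCast_dvd_natCast.2 (Nat.gcd_dvd_right _ _)
  have h3 : ((Nat.gcd v.val n : ℕ) : ℤ) ∣ ((v.val : ℕ) : ℤ) :=
    Int.natCast_dvd_natCast.2 (Nat.gcd_dvd_left _ _)
  have h4 := h2.trans h1
  have h5 := dvd_sub (h3.mul_right ((w.val : ℕ) : ℤ)) h4
  rwa [sub_sub_cancel] at h5

end QuadAux

open QuadAux

theorem t_QUAD (h : S_CUB) : S_QUAD := by
  classical
  intro n _ hR β l hl
  have hn : 0 < n := Nat.pos_of_ne_zero (NeZero.ne n)
  have hn0 : (0 : ℝ) < n := by exact_mod_cast hn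
  obtain ⟨m, hm⟩ := hl.exists_left_inv
  -- two is a unit
  have h2 : IsUnit (2 : ZMod n) := by
    have := (ZMod.isUnit_iff_coprime 2 n).2 (rough_two hR)
    simpa using this
  have hcan2 : ∀ a b : ZMod n, 2 * a = 2 * b → a = b := fun a b hab => h2.mul_left_cancel hab
  obtain ⟨hh, hhdef⟩ : ∃ hh : ZMod n → ZMod n → ZMod n,
      ∀ x X, hh x X = X ^ 3 + β * X - x ^ 3 - β * x := ⟨_, fun _ _ => rfl⟩
  -- the bound for a fixed `v`
  have hv : ∀ v : ZMod n, ((∑ x : ZMod n, ∑ X : ZMod n,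
      (univ.filter (fun w : ZMod n => v * w = hh x X)).card : ℕ) : ℝ) ≤
      (n : ℝ) ^ 2 * ((Nat.gcd v.val n : ℕ) : ℝ) ^ (5 / 6 : ℝ) := by
    intro v
    obtain ⟨δ, hδdef⟩ : ∃ δ, δ = Nat.gcd v.val n := ⟨_, rfl⟩
    have hδn : δ ∣ n := by rw [hδdef]; exact Nat.gcd_dvd_right _ _
    have hδ0 : 0 < δ := Nat.pos_of_dvd_of_pos hδn hn
    rw [← hδdef]
    have h3 : ∀ x : ZMod n, ((∑ X : ZMod n,
        (univ.filter (fun w : ZMod n => v * w = hh x X)).card : ℕ) : ℝ) ≤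
        (n : ℝ) * (δ : ℝ) ^ (5 / 6 : ℝ) := by
      intro x
      have h4 : (∑ X : ZMod n, (univ.filter (fun w : ZMod n => v * w = hh x X)).card) ≤
          ∑ X : ZMod n, if (δ : ℤ) ∣ ((X.val : ℕ) : ℤ) ^ 3 + ((β.val : ℕ) : ℤ) * ((X.val : ℕ) : ℤ) -
            (((x.val : ℕ) : ℤ) ^ 3 + ((β.val : ℕ) : ℤ) * ((x.val : ℕ) : ℤ)) then δ else 0 := by
        refine sum_le_sum fun X _ => ?_
        split_ifs with hP
        · rw [hδdef]; exact quad_ker n v _
        · rw [Nat.le_zero, card_eq_zero, filter_eq_empty_iff]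
          intro w _ hw
          apply hP
          rw [hδdef]
          exact quad_dvd n β v w x X (by rw [hw, hhdef])
      rw [← sum_filter, sum_const, smul_eq_mul] at h4
      have h5 := quad_cub h n hR δ hδn ((β.val : ℕ) : ℤ)
        (((x.val : ℕ) : ℤ) ^ 3 + ((β.val : ℕ) : ℤ) * ((x.val : ℕ) : ℤ))
      calc ((∑ X : ZMod n, (univ.filter (fun w : ZMod n => v * w = hh x X)).card : ℕ) : ℝ)
          ≤ (((univ.filter (fun X : ZMod n => (δ : ℤ) ∣ ((X.val : ℕ) : ℤ) ^ 3 +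
              ((β.val : ℕ) : ℤ) * ((X.val : ℕ) : ℤ) - (((x.val : ℕ) : ℤ) ^ 3 +
              ((β.val : ℕ) : ℤ) * ((x.val : ℕ) : ℤ)))).card * δ : ℕ) : ℝ) := by
            exact_mod_cast h4
        _ = ((univ.filter (fun X : ZMod n => (δ : ℤ) ∣ ((X.val : ℕ) : ℤ) ^ 3 +
              ((β.val : ℕ) : ℤ) * ((X.val : ℕ) : ℤ) - (((x.val : ℕ) : ℤ) ^ 3 +
              ((β.val : ℕ) : ℤ) * ((x.val : ℕ) : ℤ)))).card : ℝ) * (δ : ℝ) := by push_cast; ring
        _ ≤ ((n / δ : ℕ) * (δ : ℝ) ^ (5 / 6 : ℝ)) * δ :=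
            mul_le_mul_of_nonneg_right h5 (Nat.cast_nonneg _)
        _ = (((n / δ) * δ : ℕ) : ℝ) * (δ : ℝ) ^ (5 / 6 : ℝ) := by push_cast; ring
        _ = _ := by rw [Nat.div_mul_cancel hδn]
    calc ((∑ x : ZMod n, ∑ X : ZMod n,
        (univ.filter (fun w : ZMod n => v * w = hh x X)).card : ℕ) : ℝ)
        = ∑ x : ZMod n, ((∑ X : ZMod n,
          (univ.filter (fun w : ZMod n => v * w = hh x X)).card : ℕ) : ℝ) := by push_cast; rfl
      _ ≤ ∑ x : ZMod n, (n : ℝ) * (δ : ℝ) ^ (5 / 6 : ℝ) := sum_le_sum fun x _ => h3 x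
      _ = _ := by
          rw [sum_const, nsmul_eq_mul, card_univ, ZMod.card]
          ring
  -- the map
  have hcard : (univ.filter (fun z : (ZMod n × ZMod n) × (ZMod n × ZMod n) =>
      z.2.2 ^ 2 - z.2.1 ^ 3 - l ^ 4 * β * z.2.1 =
        l ^ 6 * (z.1.2 ^ 2 - z.1.1 ^ 3 - β * z.1.1))).card ≤
      (univ.filter (fun u : ZMod n × (ZMod n × (ZMod n × ZMod n)) =>
        u.1 * u.2.2.2 = hh u.2.1 u.2.2.1)).card := by
    refine card_le_card_of_injOn (fun z => (m ^ 3 * z.2.2 - z.1.2, (z.1.1, (m ^ 2 * z.2.1,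
      m ^ 3 * z.2.2 + z.1.2)))) ?_ ?_
    · rintro ⟨⟨x, y⟩, ⟨x', y'⟩⟩ hz
      rw [mem_coe, mem_filter] at hz
      rw [mem_coe, mem_filter]
      refine ⟨mem_univ _, ?_⟩
      have hz' : y' ^ 2 - x' ^ 3 - l ^ 4 * β * x' = l ^ 6 * (y ^ 2 - x ^ 3 - β * x) := hz.2
      show (m ^ 3 * y' - y) * (m ^ 3 * y' + y) = hh x (m ^ 2 * x')
      rw [hhdef]
      have e4 : (m * l) ^ 4 = 1 := by rw [hm, one_pow]
      have e6 : (m * l) ^ 6 = 1 := by rw [hm, one_pow]
      have e1 : (m ^ 3 * y' - y) * (m ^ 3 * y' + y) = m ^ 6 * y' ^ 2 - y ^ 2 := by ring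
      rw [e1]
      have e2 : m ^ 6 * y' ^ 2 = m ^ 6 * (x' ^ 3 + l ^ 4 * β * x' +
          l ^ 6 * (y ^ 2 - x ^ 3 - β * x)) := by
        rw [← hz']; ring
      rw [e2]
      linear_combination (m ^ 2 * β * x') * e4 + (y ^ 2 - x ^ 3 - β * x) * e6
    · rintro ⟨⟨x, y⟩, ⟨x', y'⟩⟩ _ ⟨⟨x₁, y₁⟩, ⟨x₁', y₁'⟩⟩ _ hab
      have a1 : m ^ 3 * y' - y = m ^ 3 * y₁' - y₁ := congrArg (fun u => u.1) hab
      have a2 : x = x₁ := congrArg (fun u => u.2.1) hab
      have a3 : m ^ 2 * x' = m ^ 2 * x₁' := congrArg (fun u => u.2.2.1) hab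
      have a4 : m ^ 3 * y' + y = m ^ 3 * y₁' + y₁ := congrArg (fun u => u.2.2.2) hab
      have b1 : y = y₁ := hcan2 _ _ (by linear_combination a4 - a1)
      have b2 : m ^ 3 * y' = m ^ 3 * y₁' := hcan2 _ _ (by linear_combination a4 + a1)
      have hml : ∀ (k : ℕ) (a b : ZMod n), m ^ k * a = m ^ k * b → a = b := by
        intro k a b hab'
        have e := congrArg (fun t => l ^ k * t) hab'
        simp only [← mul_assoc, ← mul_pow] at e
        rwa [mul_comm l m, hm, one_pow, one_mul, one_mul] at e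
      have b3 := hml 3 _ _ b2
      have b4 := hml 2 _ _ a3
      rw [a2, b1, b3, b4]
  have hU : (univ.filter (fun u : ZMod n × (ZMod n × (ZMod n × ZMod n)) =>
        u.1 * u.2.2.2 = hh u.2.1 u.2.2.1)).card =
      ∑ v : ZMod n, ∑ x : ZMod n, ∑ X : ZMod n,
        (univ.filter (fun w : ZMod n => v * w = hh x X)).card := by
    rw [card_filter, Fintype.sum_prod_type]
    refine sum_congr rfl fun v _ => ?_
    rw [Fintype.sum_prod_type]
    refine sum_congr rfl fun x _ => ?_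
    rw [Fintype.sum_prod_type]
    refine sum_congr rfl fun X _ => ?_
    rw [card_filter]
  have hmaps : ∀ v ∈ (univ : Finset (ZMod n)), Nat.gcd v.val n ∈ n.divisors := by
    intro v _
    rw [Nat.mem_divisors]
    exact ⟨Nat.gcd_dvd_right _ _, hn.ne'⟩
  calc ((univ.filter (fun z : (ZMod n × ZMod n) × (ZMod n × ZMod n) =>
      z.2.2 ^ 2 - z.2.1 ^ 3 - l ^ 4 * β * z.2.1 =
        l ^ 6 * (z.1.2 ^ 2 - z.1.1 ^ 3 - β * z.1.1))).card : ℝ)
      ≤ ((∑ v : ZMod n, ∑ x : ZMod n, ∑ X : ZMod n,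
        (univ.filter (fun w : ZMod n => v * w = hh x X)).card : ℕ) : ℝ) := by
        rw [← hU]; exact_mod_cast hcard
    _ = ∑ v : ZMod n, ((∑ x : ZMod n, ∑ X : ZMod n,
        (univ.filter (fun w : ZMod n => v * w = hh x X)).card : ℕ) : ℝ) := by push_cast; rfl
    _ ≤ ∑ v : ZMod n, (n : ℝ) ^ 2 * ((Nat.gcd v.val n : ℕ) : ℝ) ^ (5 / 6 : ℝ) :=
        sum_le_sum fun v _ => hv v
    _ = ∑ δ ∈ n.divisors, ∑ v ∈ univ.filter (fun v : ZMod n => Nat.gcd v.val n = δ),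
          (n : ℝ) ^ 2 * ((Nat.gcd v.val n : ℕ) : ℝ) ^ (5 / 6 : ℝ) :=
        (sum_fiberwise_of_maps_to hmaps _).symm
    _ ≤ ∑ δ ∈ n.divisors, (n : ℝ) ^ 3 * ((δ : ℝ) ^ (1 / 6 : ℝ))⁻¹ := by
        refine sum_le_sum fun δ hδ => ?_
        rw [Nat.mem_divisors] at hδ
        have hδ0 : 0 < δ := Nat.pos_of_dvd_of_pos hδ.1 hn
        have hδr : (0 : ℝ) < δ := by exact_mod_cast hδ0
        have e1 : ∑ v ∈ univ.filter (fun v : ZMod n => Nat.gcd v.val n = δ),
            (n : ℝ) ^ 2 * ((Nat.gcd v.val n : ℕ) : ℝ) ^ (5 / 6 : ℝ) =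
            ((univ.filter (fun v : ZMod n => Nat.gcd v.val n = δ)).card : ℝ) *
              ((n : ℝ) ^ 2 * (δ : ℝ) ^ (5 / 6 : ℝ)) := by
          rw [← nsmul_eq_mul, ← sum_const]
          refine sum_congr rfl fun v hv' => ?_
          rw [mem_filter] at hv'
          rw [hv'.2]
        rw [e1]
        have e2 : ((univ.filter (fun v : ZMod n => Nat.gcd v.val n = δ)).card : ℝ) ≤ (n : ℝ) / δ := by
          have h3 := quad_gcd n δ hδ.1
          have h4 : (((n / δ : ℕ)) : ℝ) = (n : ℝ) / δ := Nat.cast_div hδ.1 hδr.ne'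
          rw [← h4]
          exact_mod_cast h3
        have e3 : (δ : ℝ) ^ (5 / 6 : ℝ) = δ * ((δ : ℝ) ^ (1 / 6 : ℝ))⁻¹ := by
          rw [← Real.rpow_neg hδr.le, ← Real.rpow_one_add' hδr.le (by norm_num)]
          norm_num
        calc ((univ.filter (fun v : ZMod n => Nat.gcd v.val n = δ)).card : ℝ) *
              ((n : ℝ) ^ 2 * (δ : ℝ) ^ (5 / 6 : ℝ))
            ≤ (n : ℝ) / δ * ((n : ℝ) ^ 2 * (δ : ℝ) ^ (5 / 6 : ℝ)) :=
              mul_le_mul_of_nonneg_right e2 (by positivity)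
          _ = _ := by rw [e3]; field_simp
    _ = (n : ℝ) ^ 3 * ∑ δ ∈ n.divisors, ((δ : ℝ) ^ (1 / 6 : ℝ))⁻¹ := by rw [mul_sum]

end Pool.Agent.DPO
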