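import Pool.Agent.DPO.Stm

/-!
# Project DPO, piece REAL: the real data
-/

set_option autoImplicit false

namespace Pool.Agent.DPO

open Finset

namespace RealAux

theorem bf_cast {d : ℕ} (g : Fin (d + 1) → ℤ) (u v : ℤ) :
    ((bf g u v : ℤ) : ℝ) = bf g (u : ℝ) (v : ℝ) := by
  unfold bf
  push_cast
  simp

theorem bf_scale {d : ℕ} (g : Fin (d + 1) → ℤ) (t U V : ℝ) :
    bf g (t * U) (t * V) = t ^ d * bf g U V := by
  unfold bf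
  rw [Finset.mul_sum]
  refine Finset.sum_congr rfl fun i _ => ?_
  have h : t ^ d = t ^ (d - (i : ℕ)) * t ^ (i : ℕ) := by
    rw [← pow_add]
    congr 1
    have := i.2
    omega
  rw [h, mul_pow, mul_pow]
  ring

theorem bf_mul {d : ℕ} {R : Type*} [CommRing R] (c : ℤ) (g : Fin (d + 1) → ℤ) (u v : R) :
    bf (fun i => c * g i) u v = c * bf g u v := by
  unfold bf
  rw [Finset.mul_sum]
  refine Finset.sum_congr rfl fun i _ => ?_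
  push_cast
  ring

theorem bf_add {d : ℕ} {R : Type*} [CommRing R] (g h : Fin (d + 1) → ℤ) (u v : R) :
    bf (fun i => g i + h i) u v = bf g u v + bf h u v := by
  unfold bf
  rw [← Finset.sum_add_distrib]
  refine Finset.sum_congr rfl fun i _ => ?_
  push_cast
  ring

theorem pow_bd {B U : ℝ} (hU : |U| ≤ B) (n : ℕ) : |U ^ n| ≤ B ^ n := by
  rw [abs_pow]
  exact pow_le_pow_left₀ (abs_nonneg _) hU n

theorem bf_bd {d : ℕ} (g : Fin (d + 1) → ℤ) {A B U V : ℝ} (hg : ∀ i, |(g i : ℝ)| ≤ A)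
    (hU : |U| ≤ B) (hV : |V| ≤ B) : |bf g U V| ≤ (d + 1) * (A * B ^ d) := by
  have hB : 0 ≤ B := (abs_nonneg _).trans hU
  have hA : 0 ≤ A := (abs_nonneg _).trans (hg 0)
  unfold bf
  calc |∑ i : Fin (d + 1), (g i : ℝ) * U ^ (d - (i : ℕ)) * V ^ (i : ℕ)|
      ≤ ∑ i : Fin (d + 1), |(g i : ℝ) * U ^ (d - (i : ℕ)) * V ^ (i : ℕ)| :=
        Finset.abs_sum_le_sum_abs _ _
    _ ≤ ∑ _i : Fin (d + 1), A * B ^ d := by
        refine Finset.sum_le_sum fun i _ => ?_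
        rw [abs_mul, abs_mul, mul_assoc]
        refine mul_le_mul (hg i) ?_ (by positivity) hA
        have h : B ^ d = B ^ (d - (i : ℕ)) * B ^ (i : ℕ) := by
          rw [← pow_add]
          congr 1
          have := i.2
          omega
        rw [h]
        exact mul_le_mul (pow_bd hU _) (pow_bd hV _) (abs_nonneg _) (by positivity)
    _ = (d + 1) * (A * B ^ d) := by
        rw [Finset.sum_const, Finset.card_univ, Fintype.card_fin, nsmul_eq_mul]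
        push_cast
        ring

theorem pow_lip {B e U U' : ℝ} (hB : 1 ≤ B) (hU : |U| ≤ B) (hU' : |U'| ≤ B) (he : |U - U'| ≤ e)
    (n : ℕ) : |U ^ n - U' ^ n| ≤ n * B ^ n * e := by
  have he0 : 0 ≤ e := (abs_nonneg _).trans he
  induction n with
  | zero => simp
  | succ n ih =>
    have h1 : U ^ (n + 1) - U' ^ (n + 1) = (U ^ n - U' ^ n) * U + U' ^ n * (U - U') := by ring
    rw [h1]
    calc |(U ^ n - U' ^ n) * U + U' ^ n * (U - U')|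
        ≤ |(U ^ n - U' ^ n) * U| + |U' ^ n * (U - U')| := abs_add_le _ _
      _ = |U ^ n - U' ^ n| * |U| + |U' ^ n| * |U - U'| := by rw [abs_mul, abs_mul]
      _ ≤ (n * B ^ n * e) * B + B ^ n * e := by
          refine add_le_add (mul_le_mul ih hU (abs_nonneg _) (by positivity))
            (mul_le_mul (pow_bd hU' n) he (abs_nonneg _) (by positivity))
      _ ≤ ((n + 1 : ℕ) : ℝ) * B ^ (n + 1) * e := by
          push_cast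
          have h2 : B ^ n * e ≤ B ^ n * e * B := by
            have : 0 ≤ B ^ n * e := by positivity
            nlinarith
          calc n * B ^ n * e * B + B ^ n * e ≤ n * B ^ n * e * B + B ^ n * e * B := by linarith
            _ = (n + 1) * B ^ (n + 1) * e := by ring

theorem mon_lip {B e U U' V V' : ℝ} (hB : 1 ≤ B) (hU : |U| ≤ B) (hU' : |U'| ≤ B)
    (hV : |V| ≤ B) (hV' : |V'| ≤ B) (heU : |U - U'| ≤ e) (heV : |V - V'| ≤ e) (m n : ℕ) :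
    |U ^ m * V ^ n - U' ^ m * V' ^ n| ≤ (m + n) * B ^ (m + n) * e := by
  have he0 : 0 ≤ e := (abs_nonneg _).trans heU
  have h1 : U ^ m * V ^ n - U' ^ m * V' ^ n =
      (U ^ m - U' ^ m) * V ^ n + U' ^ m * (V ^ n - V' ^ n) := by ring
  rw [h1]
  calc |(U ^ m - U' ^ m) * V ^ n + U' ^ m * (V ^ n - V' ^ n)|
      ≤ |(U ^ m - U' ^ m) * V ^ n| + |U' ^ m * (V ^ n - V' ^ n)| := abs_add_le _ _
    _ = |U ^ m - U' ^ m| * |V ^ n| + |U' ^ m| * |V ^ n - V' ^ n| := by rw [abs_mul, abs_mul]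
    _ ≤ (m * B ^ m * e) * B ^ n + B ^ m * (n * B ^ n * e) := by
        refine add_le_add (mul_le_mul (pow_lip hB hU hU' heU m) (pow_bd hV n) (abs_nonneg _)
          (by positivity)) (mul_le_mul (pow_bd hU' m) (pow_lip hB hV hV' heV n) (abs_nonneg _)
          (by positivity))
    _ = (m + n) * B ^ (m + n) * e := by rw [pow_add]; ring

theorem bf_lip {d : ℕ} (g : Fin (d + 1) → ℤ) {A B e U U' V V' : ℝ} (hg : ∀ i, |(g i : ℝ)| ≤ A)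
    (hB : 1 ≤ B) (hU : |U| ≤ B) (hU' : |U'| ≤ B) (hV : |V| ≤ B) (hV' : |V'| ≤ B)
    (heU : |U - U'| ≤ e) (heV : |V - V'| ≤ e) :
    |bf g U V - bf g U' V'| ≤ (d + 1) * (A * (d * B ^ d * e)) := by
  have hA : 0 ≤ A := (abs_nonneg _).trans (hg 0)
  have he0 : 0 ≤ e := (abs_nonneg _).trans heU
  unfold bf
  rw [← Finset.sum_sub_distrib]
  calc |∑ i : Fin (d + 1), ((g i : ℝ) * U ^ (d - (i : ℕ)) * V ^ (i : ℕ) -
        (g i : ℝ) * U' ^ (d - (i : ℕ)) * V' ^ (i : ℕ))|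
      ≤ ∑ i : Fin (d + 1), |(g i : ℝ) * U ^ (d - (i : ℕ)) * V ^ (i : ℕ) -
        (g i : ℝ) * U' ^ (d - (i : ℕ)) * V' ^ (i : ℕ)| :=
        Finset.abs_sum_le_sum_abs _ _
    _ ≤ ∑ _i : Fin (d + 1), A * (d * B ^ d * e) := by
        refine Finset.sum_le_sum fun i _ => ?_
        have h1 : (g i : ℝ) * U ^ (d - (i : ℕ)) * V ^ (i : ℕ) -
            (g i : ℝ) * U' ^ (d - (i : ℕ)) * V' ^ (i : ℕ) =
            (g i : ℝ) * (U ^ (d - (i : ℕ)) * V ^ (i : ℕ) - U' ^ (d - (i : ℕ)) * V' ^ (i : ℕ)) := by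
          ring
        rw [h1, abs_mul]
        refine mul_le_mul (hg i) ?_ (abs_nonneg _) hA
        have h2 := mon_lip hB hU hU' hV hV' heU heV (d - (i : ℕ)) (i : ℕ)
        have h3 : d - (i : ℕ) + (i : ℕ) = d := by
          have := i.2
          omega
        have h4 : ((d - (i : ℕ) : ℕ) : ℝ) + ((i : ℕ) : ℝ) = (d : ℝ) := by
          exact_mod_cast congrArg (Nat.cast (R := ℝ)) h3
        rw [h3, h4] at h2
        exact h2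
    _ = (d + 1) * (A * (d * B ^ d * e)) := by
        rw [Finset.sum_const, Finset.card_univ, Fintype.card_fin, nsmul_eq_mul]
        push_cast
        ring

/-- the scaled form `bf g / H ^ k` has coefficients at most `1` -/
theorem bfs_bd {d : ℕ} (g : Fin (d + 1) → ℤ) {K A B U V : ℝ} (hK : 0 < K)
    (hg : ∀ i, |(g i : ℝ)| ≤ A * K) (hU : |U| ≤ B) (hV : |V| ≤ B) :
    |bf g U V / K| ≤ (d + 1) * (A * B ^ d) := by
  rw [abs_div, abs_of_pos hK, div_le_iff₀ hK]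
  refine (bf_bd g hg hU hV).trans (le_of_eq ?_)
  ring

theorem bfs_lip {d : ℕ} (g : Fin (d + 1) → ℤ) {K A B e U U' V V' : ℝ} (hK : 0 < K)
    (hg : ∀ i, |(g i : ℝ)| ≤ A * K)
    (hB : 1 ≤ B) (hU : |U| ≤ B) (hU' : |U'| ≤ B) (hV : |V| ≤ B) (hV' : |V'| ≤ B)
    (heU : |U - U'| ≤ e) (heV : |V - V'| ≤ e) :
    |bf g U V / K - bf g U' V' / K| ≤ (d + 1) * (A * (d * B ^ d * e)) := by
  rw [← sub_div, abs_div, abs_of_pos hK, div_le_iff₀ hK]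
  refine (bf_lip g hg hB hU hU' hV hV' heU heV).trans (le_of_eq ?_)
  ring

/-- the equation at `ξ` instead of `u` -/
theorem zstar {H δ₁ u v x y ξ : ℝ} (a : Fin 5 → ℤ) (f : Fin 7 → ℤ) (hH : 0 < H)
    (ha : ∀ i, |(a i : ℝ)| ≤ H ^ 4) (hf : ∀ i, |(f i : ℝ)| ≤ H ^ 6)
    (hu : |u| ≤ 1) (hv : |v| ≤ 1) (hx : |x| ≤ 1) (hξ : |ξ - u| ≤ δ₁) (hδ : δ₁ ≤ 1)
    (hy : y ^ 2 = x ^ 3 + bf a u v / H ^ 4 * x + bf f u v / H ^ 6) :
    |(x ^ 3 + bf a ξ v / H ^ 4 * x + bf f ξ v / H ^ 6) - y ^ 2| ≤ 3008 * δ₁ := by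
  have hδ0 : 0 ≤ δ₁ := (abs_nonneg _).trans hξ
  have hξ2 : |ξ| ≤ 2 := by
    have := abs_add_le (ξ - u) u
    rw [sub_add_cancel] at this
    linarith
  have h1 := bfs_lip (B := 2) (A := 1) (K := H ^ 4) (e := δ₁) (U := ξ) (U' := u) (V := v)
    (V' := v) a (by positivity) (by simpa using ha) (by norm_num) hξ2 (by linarith) (by linarith)
    (by linarith) hξ (by simpa using hδ0)
  have h2 := bfs_lip (B := 2) (A := 1) (K := H ^ 6) (e := δ₁) (U := ξ) (U' := u) (V := v)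
    (V' := v) f (by positivity) (by simpa using hf) (by norm_num) hξ2 (by linarith) (by linarith)
    (by linarith) hξ (by simpa using hδ0)
  rw [hy]
  have h3 : (x ^ 3 + bf a ξ v / H ^ 4 * x + bf f ξ v / H ^ 6) -
      (x ^ 3 + bf a u v / H ^ 4 * x + bf f u v / H ^ 6) =
      (bf a ξ v / H ^ 4 - bf a u v / H ^ 4) * x + (bf f ξ v / H ^ 6 - bf f u v / H ^ 6) := by ring
  rw [h3]
  calc |(bf a ξ v / H ^ 4 - bf a u v / H ^ 4) * x + (bf f ξ v / H ^ 6 - bf f u v / H ^ 6)|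
      ≤ |(bf a ξ v / H ^ 4 - bf a u v / H ^ 4) * x| + |bf f ξ v / H ^ 6 - bf f u v / H ^ 6| :=
        abs_add_le _ _
    _ ≤ ((4 : ℕ) + 1) * (1 * ((4 : ℕ) * 2 ^ 4 * δ₁)) * 1 + ((6 : ℕ) + 1) * (1 * ((6 : ℕ) * 2 ^ 6 * δ₁)) := by
        rw [abs_mul]
        exact add_le_add (mul_le_mul h1 hx (abs_nonneg _) (by positivity)) h2
    _ = 3008 * δ₁ := by push_cast; ring

/-- the integral expression in scaled coordinates -/
theorem scaleE {H : ℝ} (hH : 0 < H) (a : Fin 5 → ℤ) (f g₀ g : Fin 7 → ℤ) (M₀ S J Q : ℕ)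
    (u v x : ℤ) :
    ((x ^ 3 + bf (fun i => (M₀ : ℤ) ^ 4 * a i) u v * x +
      bf (fun i => (M₀ : ℤ) ^ 6 * (f i + Q * g₀ i)) u v + (S * J : ℕ) * bf g u v : ℤ) : ℝ) =
    H ^ 18 * (((x : ℝ) / H ^ 6) ^ 3 +
      (M₀ : ℝ) ^ 4 * ((bf a ((u : ℝ) / H ^ 2) ((v : ℝ) / H ^ 2) / H ^ 4) * ((x : ℝ) / H ^ 6)) +
      (M₀ : ℝ) ^ 6 * (bf f ((u : ℝ) / H ^ 2) ((v : ℝ) / H ^ 2) / H ^ 6) +
      ((M₀ : ℝ) ^ 6 * (Q * (bf g₀ ((u : ℝ) / H ^ 2) ((v : ℝ) / H ^ 2) / H ^ 6)) +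
        (S * J : ℕ) * (bf g ((u : ℝ) / H ^ 2) ((v : ℝ) / H ^ 2) / H ^ 6))) := by
  have hu : (u : ℝ) = H ^ 2 * ((u : ℝ) / H ^ 2) := by field_simp
  have hv : (v : ℝ) = H ^ 2 * ((v : ℝ) / H ^ 2) := by field_simp
  have h1 : (bf a (u : ℝ) (v : ℝ)) = (H ^ 2) ^ 4 * bf a ((u : ℝ) / H ^ 2) ((v : ℝ) / H ^ 2) := by
    conv_lhs => rw [hu, hv]
    exact bf_scale a _ _ _
  have h2 : ∀ h : Fin 7 → ℤ, (bf h (u : ℝ) (v : ℝ)) =
      (H ^ 2) ^ 6 * bf h ((u : ℝ) / H ^ 2) ((v : ℝ) / H ^ 2) := by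
    intro h
    conv_lhs => rw [hu, hv]
    exact bf_scale h _ _ _
  rw [bf_mul, bf_mul, bf_add, bf_mul]
  push_cast
  rw [bf_cast, bf_cast, bf_cast, bf_cast, h1, h2 f, h2 g₀, h2 g]
  field_simp
  ring

/-- the main estimate in scaled coordinates -/
theorem errE {H B m U V ξ υ X x ρ η s Q₀ Q : ℝ} (a : Fin 5 → ℤ) (f g₀ g : Fin 7 → ℤ) (hH : 0 < H)
    (ha : ∀ i, |(a i : ℝ)| ≤ H ^ 4) (hf : ∀ i, |(f i : ℝ)| ≤ H ^ 6)
    (hg₀ : ∀ i, |(g₀ i : ℝ)| ≤ η * H ^ 6) (hg : ∀ i, |(g i : ℝ)| ≤ 2 * η * H ^ 6)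
    (hB : 1 ≤ B) (hm0 : 0 ≤ m) (hm : m ≤ B) (hρ : 0 ≤ ρ) (hη : 0 ≤ η) (hU : |U| ≤ B)
    (hV : |V| ≤ B) (hξ : |ξ| ≤ B) (hυ : |υ| ≤ B) (hX : |X| ≤ B) (hX' : |m ^ 2 * x| ≤ B)
    (hUξ : |U - ξ| ≤ ρ) (hVυ : |V - υ| ≤ ρ) (hXx : |X - m ^ 2 * x| ≤ ρ) (hs0 : 0 ≤ s)
    (hs : s ≤ Q₀) (hQ : 0 ≤ Q) :
    |(X ^ 3 + m ^ 4 * ((bf a U V / H ^ 4) * X) + m ^ 6 * (bf f U V / H ^ 6) +
      (m ^ 6 * (Q * (bf g₀ U V / H ^ 6)) + s * (bf g U V / H ^ 6))) -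
      m ^ 6 * (x ^ 3 + bf a ξ υ / H ^ 4 * x + bf f ξ υ / H ^ 6)| ≤
      70 * B ^ 12 * (Q + Q₀ + 1) * (ρ + η) := by
  have hB0 : 0 ≤ B := by linarith
  have hQ₀ : 0 ≤ Q₀ := hs0.trans hs
  have a1 := bfs_lip (B := B) (A := 1) (K := H ^ 4) (e := ρ) (U := U) (U' := ξ) (V := V)
    (V' := υ) a (by positivity) (by simpa using ha) hB hU hξ hV hυ hUξ hVυ
  have a2 := bfs_bd (B := B) (A := 1) (K := H ^ 4) (U := ξ) (V := υ) a (by positivity)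
    (by simpa using ha) hξ hυ
  have f1 := bfs_lip (B := B) (A := 1) (K := H ^ 6) (e := ρ) (U := U) (U' := ξ) (V := V)
    (V' := υ) f (by positivity) (by simpa using hf) hB hU hξ hV hυ hUξ hVυ
  have g1 := bfs_bd (B := B) (A := η) (K := H ^ 6) (U := U) (V := V) g₀ (by positivity)
    hg₀ hU hV
  have g2 := bfs_bd (B := B) (A := 2 * η) (K := H ^ 6) (U := U) (V := V) g (by positivity)
    hg hU hV
  have x1 := pow_lip hB hX hX' hXx 3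
  push_cast at a1 a2 f1 g1 g2 x1
  set α := bf a U V / H ^ 4
  set α' := bf a ξ υ / H ^ 4
  set φ := bf f U V / H ^ 6
  set φ' := bf f ξ υ / H ^ 6
  set ψ₀ := bf g₀ U V / H ^ 6
  set ψ := bf g U V / H ^ 6
  have hid : (X ^ 3 + m ^ 4 * (α * X) + m ^ 6 * φ + (m ^ 6 * (Q * ψ₀) + s * ψ)) -
      m ^ 6 * (x ^ 3 + α' * x + φ') =
      (X ^ 3 - (m ^ 2 * x) ^ 3) + m ^ 4 * ((α - α') * X) + m ^ 4 * (α' * (X - m ^ 2 * x)) +
        m ^ 6 * (φ - φ') + m ^ 6 * (Q * ψ₀) + s * ψ := by ring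
  rw [hid]
  have mp : ∀ n : ℕ, m ^ n ≤ B ^ n := fun n => pow_le_pow_left₀ hm0 hm n
  have e1 : |X ^ 3 - (m ^ 2 * x) ^ 3| ≤ 3 * B ^ 3 * ρ := x1
  have e2 : |m ^ 4 * ((α - α') * X)| ≤ B ^ 4 * ((4 + 1) * (1 * (4 * B ^ 4 * ρ)) * B) := by
    rw [abs_mul, abs_mul, abs_of_nonneg (by positivity : 0 ≤ m ^ 4)]
    exact mul_le_mul (mp 4) (mul_le_mul a1 hX (abs_nonneg _) (by positivity)) (by positivity)
      (by positivity)
  have e3 : |m ^ 4 * (α' * (X - m ^ 2 * x))| ≤ B ^ 4 * ((4 + 1) * (1 * B ^ 4) * ρ) := by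
    rw [abs_mul, abs_mul, abs_of_nonneg (by positivity : 0 ≤ m ^ 4)]
    exact mul_le_mul (mp 4) (mul_le_mul a2 hXx (abs_nonneg _) (by positivity)) (by positivity)
      (by positivity)
  have e4 : |m ^ 6 * (φ - φ')| ≤ B ^ 6 * ((6 + 1) * (1 * (6 * B ^ 6 * ρ))) := by
    rw [abs_mul, abs_of_nonneg (by positivity : 0 ≤ m ^ 6)]
    exact mul_le_mul (mp 6) f1 (by positivity) (by positivity)
  have e5 : |m ^ 6 * (Q * ψ₀)| ≤ B ^ 6 * (Q * ((6 + 1) * (η * B ^ 6))) := by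
    rw [abs_mul, abs_mul, abs_of_nonneg (by positivity : 0 ≤ m ^ 6), abs_of_nonneg hQ]
    exact mul_le_mul (mp 6) (mul_le_mul_of_nonneg_left g1 hQ) (by positivity) (by positivity)
  have e6 : |s * ψ| ≤ Q₀ * ((6 + 1) * (2 * η * B ^ 6)) := by
    rw [abs_mul, abs_of_nonneg hs0]
    exact mul_le_mul hs g2 (by positivity) (by positivity)
  have hsum : |(X ^ 3 - (m ^ 2 * x) ^ 3) + m ^ 4 * ((α - α') * X) + m ^ 4 * (α' * (X - m ^ 2 * x)) +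
        m ^ 6 * (φ - φ') + m ^ 6 * (Q * ψ₀) + s * ψ| ≤
      3 * B ^ 3 * ρ + B ^ 4 * ((4 + 1) * (1 * (4 * B ^ 4 * ρ)) * B) +
        B ^ 4 * ((4 + 1) * (1 * B ^ 4) * ρ) + B ^ 6 * ((6 + 1) * (1 * (6 * B ^ 6 * ρ))) +
        B ^ 6 * (Q * ((6 + 1) * (η * B ^ 6))) + Q₀ * ((6 + 1) * (2 * η * B ^ 6)) := by
    refine (abs_add_le _ _).trans (add_le_add ((abs_add_le _ _).trans (add_le_add
      ((abs_add_le _ _).trans (add_le_add ((abs_add_le _ _).trans (add_le_add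
      ((abs_add_le _ _).trans (add_le_add e1 e2)) e3)) e4)) e5)) e6)
  refine hsum.trans ?_
  have b3 : B ^ 3 ≤ B ^ 12 := pow_le_pow_right₀ hB (by norm_num)
  have b9 : B ^ 9 ≤ B ^ 12 := pow_le_pow_right₀ hB (by norm_num)
  have b8 : B ^ 8 ≤ B ^ 12 := pow_le_pow_right₀ hB (by norm_num)
  have b6 : B ^ 6 ≤ B ^ 12 := pow_le_pow_right₀ hB (by norm_num)
  have r3 : B ^ 3 * ρ ≤ B ^ 12 * ρ := mul_le_mul_of_nonneg_right b3 hρ
  have r9 : B ^ 9 * ρ ≤ B ^ 12 * ρ := mul_le_mul_of_nonneg_right b9 hρ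
  have r8 : B ^ 8 * ρ ≤ B ^ 12 * ρ := mul_le_mul_of_nonneg_right b8 hρ
  have r6 : B ^ 6 * (Q₀ * η) ≤ B ^ 12 * (Q₀ * η) := mul_le_mul_of_nonneg_right b6 (by positivity)
  have n1 : 0 ≤ B ^ 12 * ρ := by positivity
  have n2 : 0 ≤ B ^ 12 * (Q₀ * η) := by positivity
  have n3 : 0 ≤ B ^ 12 * (Q * η) := by positivity
  have n4 : 0 ≤ B ^ 12 * η := by positivity
  have n5 : 0 ≤ B ^ 12 * (Q * ρ) := by positivity
  have n6 : 0 ≤ B ^ 12 * (Q₀ * ρ) := by positivity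
  nlinarith

/-- square root against absolute value -/
theorem sqrt_sub {z y e M : ℝ} (hM : 0 < M) (hy : 1 / M ≤ |y|) (hz : 0 ≤ z)
    (h : |z - y ^ 2| ≤ e) : |Real.sqrt z - abs y| ≤ e * M := by
  have hy0 : 0 < |y| := lt_of_lt_of_le (by positivity) hy
  have h1 : z - y ^ 2 = (Real.sqrt z - |y|) * (Real.sqrt z + |y|) := by
    have h2 := Real.mul_self_sqrt hz
    have h3 := abs_mul_abs_self y
    nlinarith
  have h4 : 0 < Real.sqrt z + |y| := by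
    have := Real.sqrt_nonneg z
    linarith
  have h5 : |Real.sqrt z - abs y| * (Real.sqrt z + |y|) ≤ e := by
    rw [h1, abs_mul, abs_of_pos h4] at h
    exact h
  have h6 : |Real.sqrt z - abs y| * (1 / M) ≤ e := by
    refine le_trans (mul_le_mul_of_nonneg_left ?_ (abs_nonneg _)) h5
    have := Real.sqrt_nonneg z
    linarith
  rw [mul_one_div, div_le_iff₀ hM] at h6
  exact h6

end RealAux

open RealAux

theorem t_REAL : S_REAL := by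
  intro M M₁ Q₀ Q δ τ hM hδ0 hδ1 hτ0 hτ1
  have hMr : (1 : ℝ) ≤ M := by exact_mod_cast hM
  have hM0 : (0 : ℝ) < M := by linarith
  obtain ⟨B, hBdef⟩ : ∃ B : ℝ, B = (M₁ : ℝ) ^ 2 + 3 := ⟨_, rfl⟩
  have hM₁0 : (0 : ℝ) ≤ M₁ := by positivity
  have hB3 : 3 ≤ B := by rw [hBdef]; nlinarith
  have hB1 : 1 ≤ B := by linarith
  have hM₁B : (M₁ : ℝ) ≤ B := by rw [hBdef]; nlinarith [sq_nonneg ((M₁ : ℝ) - 1)]
  obtain ⟨τ₁, hτ₁def⟩ : ∃ τ₁ : ℝ, τ₁ = min τ δ / 4 := ⟨_, rfl⟩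
  have hτ₁0 : 0 < τ₁ := by rw [hτ₁def]; have := lt_min hτ0 hδ0; linarith
  have hτ₁τ : 4 * τ₁ ≤ τ := by rw [hτ₁def]; have := min_le_left τ δ; linarith
  have hτ₁δ : 4 * τ₁ ≤ δ := by rw [hτ₁def]; have := min_le_right τ δ; linarith
  obtain ⟨κ, hκdef⟩ : ∃ κ : ℝ, κ = τ₁ / (4 * (M : ℝ) ^ 2) := ⟨_, rfl⟩
  have hκ0 : 0 < κ := by rw [hκdef]; positivity
  have hκ1 : κ ≤ 1 := by
    rw [hκdef, div_le_one (by positivity)]
    nlinarith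
  obtain ⟨δ₁, hδ₁def⟩ : ∃ δ₁ : ℝ, δ₁ = δ / (6016 * (M : ℝ) ^ 2) := ⟨_, rfl⟩
  have hδ₁0 : 0 < δ₁ := by rw [hδ₁def]; positivity
  have hδ₁M : 3008 * δ₁ * (2 * (M : ℝ) ^ 2) = δ := by
    rw [hδ₁def]; field_simp; norm_num
  have hMM : (1 : ℝ) ≤ (M : ℝ) ^ 2 := one_le_pow₀ hMr
  have hδ₁δ : 3008 * δ₁ ≤ δ / 2 := by
    have h1 : 3008 * δ₁ * 2 * 1 ≤ 3008 * δ₁ * 2 * (M : ℝ) ^ 2 :=
      mul_le_mul_of_nonneg_left hMM (by linarith)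
    linarith
  have hδ₁1 : δ₁ ≤ 1 / 6016 := by linarith
  obtain ⟨L, hLdef⟩ : ∃ L : ℝ, L = 70 * B ^ 12 * (Q + Q₀ + 1) := ⟨_, rfl⟩
  have hB12 : 1 ≤ B ^ 12 := one_le_pow₀ hB1
  have hL : 70 * ((Q : ℝ) + Q₀ + 1) ≤ L := by
    rw [hLdef]
    have : (0 : ℝ) ≤ (Q : ℝ) + Q₀ + 1 := by positivity
    nlinarith
  have hL0 : 0 < L := lt_of_lt_of_le (by positivity) hL
  obtain ⟨ρ, hρdef⟩ : ∃ ρ : ℝ, ρ = min (δ₁ / 2) (κ / (2 * L)) := ⟨_, rfl⟩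
  have hρ0 : 0 < ρ := by rw [hρdef]; exact lt_min (by positivity) (by positivity)
  have hρδ : ρ ≤ δ₁ / 2 := by rw [hρdef]; exact min_le_left _ _
  have hρκ : ρ ≤ κ / (2 * L) := by rw [hρdef]; exact min_le_right _ _
  have hρκ' : L * (ρ + ρ) ≤ κ := by
    rw [le_div_iff₀ (by positivity)] at hρκ
    linarith
  have hρQ : (Q : ℝ) * ρ ≤ 1 := by
    have hq : (0 : ℝ) ≤ Q := by positivity
    have hq₀ : (0 : ℝ) ≤ Q₀ := by positivity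
    nlinarith
  refine ⟨δ₁ / 2, 4 * B ^ 3, ρ, ρ, κ, ⟨by positivity, ?_, hρ0, by linarith, hρ0, by linarith, hκ0,
    hτ0, hτ1⟩, hρQ, ?_⟩
  · have := one_le_pow₀ hB1 (n := 3)
    linarith
  intro H hH t a f g₀ ha hf hg₀ hR M₀ S J uc vc xc yc hM₀ hM₀₁ hSJ
  obtain ⟨u, v, x, y, heq, hu, hv, hx, hy, hyM, htu, htv, htx, hty⟩ := hR
  have hH0 : 0 < H := by linarith
  rw [mem_box] at ha hf hg₀
  have hm1 : (1 : ℝ) ≤ M₀ := by exact_mod_cast hM₀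
  have hmM₁ : (M₀ : ℝ) ≤ M₁ := by exact_mod_cast hM₀₁
  have hmB : (M₀ : ℝ) ≤ B := hmM₁.trans hM₁B
  -- the sign of `u`
  obtain ⟨ξ, hξu, hξ1⟩ : ∃ ξ : ℝ, |ξ - u| ≤ δ₁ ∧ δ₁ ≤ |ξ| := by
    rcases le_total 0 u with h | h
    · refine ⟨u + δ₁, ?_, ?_⟩
      · rw [add_sub_cancel_left, abs_of_pos hδ₁0]
      · rw [abs_of_nonneg (by linarith)]; linarith
    · refine ⟨u - δ₁, ?_, ?_⟩
      · rw [sub_sub_cancel_left, abs_neg, abs_of_pos hδ₁0]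
      · rw [abs_of_nonpos (by linarith)]; linarith
  have hz := zstar (ξ := ξ) a f hH0 ha hf hu hv hx hξu (by linarith) heq
  obtain ⟨z, hzdef⟩ : ∃ z : ℝ, z = x ^ 3 + bf a ξ v / H ^ 4 * x + bf f ξ v / H ^ 6 := ⟨_, rfl⟩
  rw [← hzdef] at hz
  have hyM2 : 1 / (M : ℝ) ^ 2 ≤ y ^ 2 := by
    rw [← sq_abs y, ← one_div_pow]
    exact pow_le_pow_left₀ (by positivity) hyM 2
  have hy2 : y ^ 2 ≤ 1 := by
    rw [← sq_abs y]
    exact pow_le_one₀ (abs_nonneg _) hy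
  have hδM : 3008 * δ₁ ≤ 1 / (2 * (M : ℝ) ^ 2) := by
    rw [le_div_iff₀ (by positivity), hδ₁M]
    exact hδ1
  have hhalf : 1 / (M : ℝ) ^ 2 = 1 / (2 * (M : ℝ) ^ 2) + 1 / (2 * (M : ℝ) ^ 2) := by
    field_simp; norm_num
  have hz1 : 1 / (2 * (M : ℝ) ^ 2) ≤ z := by
    have := (abs_le.mp hz).1
    linarith
  have hz0 : 0 < z := lt_of_lt_of_le (by positivity) hz1
  have hz2 : z ≤ 2 := by
    have := (abs_le.mp hz).2
    linarith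
  have hsq := sqrt_sub hM0 hyM hz0.le hz
  have hsqz := Real.sq_sqrt hz0.le
  have hsn := Real.sqrt_nonneg z
  have hs2 : Real.sqrt z ≤ 2 := by
    rw [show (2 : ℝ) = Real.sqrt 4 by
      rw [show (4 : ℝ) = 2 ^ 2 by norm_num, Real.sqrt_sq (by norm_num)]]
    exact Real.sqrt_le_sqrt (by linarith)
  have hsM : 1 / (2 * (M : ℝ)) ≤ Real.sqrt z := by
    have h1 : 3008 * δ₁ * M ≤ 1 / (2 * M) := by
      rw [le_div_iff₀ (by positivity)]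
      have h0 : 3008 * δ₁ * M * (2 * M) = 3008 * δ₁ * (2 * (M : ℝ) ^ 2) := by ring
      rw [h0, hδ₁M]
      exact hδ1
    have h2 := (abs_le.mp hsq).1
    have h3 : 1 / (M : ℝ) = 1 / (2 * M) + 1 / (2 * M) := by field_simp; norm_num
    linarith
  obtain ⟨y₀, hy₀⟩ : ∃ y₀ : ℝ, y₀ = (M₀ : ℝ) ^ 3 * Real.sqrt z := ⟨_, rfl⟩
  have hm3 : (1 : ℝ) ≤ (M₀ : ℝ) ^ 3 := one_le_pow₀ hm1
  have hm30 : (0 : ℝ) < (M₀ : ℝ) ^ 3 := by linarith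
  have hy₀M : 1 / (2 * (M : ℝ)) ≤ y₀ := by
    rw [hy₀]
    have h0 : 1 * Real.sqrt z ≤ (M₀ : ℝ) ^ 3 * Real.sqrt z := mul_le_mul_of_nonneg_right hm3 hsn
    linarith
  have hy₀0 : 0 < y₀ := lt_of_lt_of_le (by positivity) hy₀M
  have hy₀2 : y₀ ^ 2 = (M₀ : ℝ) ^ 6 * z := by
    rw [hy₀, mul_pow, hsqz]
    ring
  have hy₀le : y₀ ≤ 2 * (M₀ : ℝ) ^ 3 := by
    rw [hy₀, mul_comm]
    exact mul_le_mul_of_nonneg_right hs2 hm30.le
  have hy₀κ : 2 * κ ≤ y₀ ^ 2 * τ₁ := by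
    rw [hκdef, hy₀2]
    have hm6 : (1 : ℝ) ≤ (M₀ : ℝ) ^ 6 := one_le_pow₀ hm1
    have h1 : 1 / (2 * (M : ℝ) ^ 2) ≤ (M₀ : ℝ) ^ 6 * z := by
      have h0 : 1 * z ≤ (M₀ : ℝ) ^ 6 * z := mul_le_mul_of_nonneg_right hm6 hz0.le
      linarith
    have h2 : 2 * (τ₁ / (4 * (M : ℝ) ^ 2)) = 1 / (2 * (M : ℝ) ^ 2) * τ₁ := by
      field_simp; norm_num
    rw [h2]
    exact mul_le_mul_of_nonneg_right h1 hτ₁0.le
  have hB3' : B ≤ B ^ 3 := le_self_pow₀ hB1 (by norm_num)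
  -- the scaled coordinates
  have hscU : ∀ w : ℤ, ∀ c r : ℝ, |(w : ℝ) - c * H ^ 2| ≤ r * H ^ 2 → |(w : ℝ) / H ^ 2 - c| ≤ r := by
    intro w c r h
    have h1 : (w : ℝ) / H ^ 2 - c = ((w : ℝ) - c * H ^ 2) / H ^ 2 := by field_simp
    rw [h1, abs_div, abs_of_pos (by positivity : 0 < H ^ 2), div_le_iff₀ (by positivity)]
    exact h
  have hscX : ∀ w : ℤ, ∀ c r : ℝ, |(w : ℝ) - c * H ^ 6| ≤ r * H ^ 6 → |(w : ℝ) / H ^ 6 - c| ≤ r := by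
    intro w c r h
    have h1 : (w : ℝ) / H ^ 6 - c = ((w : ℝ) - c * H ^ 6) / H ^ 6 := by field_simp
    rw [h1, abs_div, abs_of_pos (by positivity : 0 < H ^ 6), div_le_iff₀ (by positivity)]
    exact h
  have hξ2 : |ξ| ≤ 2 := by
    have := abs_add_le (ξ - u) u
    rw [sub_add_cancel] at this
    linarith
  have hm2x : |(M₀ : ℝ) ^ 2 * x| ≤ (M₁ : ℝ) ^ 2 := by
    rw [abs_mul, abs_of_nonneg (by positivity : (0 : ℝ) ≤ (M₀ : ℝ) ^ 2)]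
    have h1 := pow_le_pow_left₀ (by linarith : (0 : ℝ) ≤ M₀) hmM₁ 2
    have h2 := mul_le_mul h1 hx (abs_nonneg _) (by positivity)
    linarith
  obtain ⟨σ, hσ, hσy⟩ : ∃ σ : ℤ, (σ = 1 ∨ σ = -1) ∧ (σ : ℝ) * |y| = y := by
    rcases le_total 0 y with h | h
    · exact ⟨1, Or.inl rfl, by rw [abs_of_nonneg h]; simp⟩
    · exact ⟨-1, Or.inr rfl, by rw [abs_of_nonpos h]; push_cast; ring⟩
  have hH2 : (0 : ℝ) < H ^ 2 := by positivity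
  have hH6 : (0 : ℝ) < H ^ 6 := by positivity
  have hH9 : (0 : ℝ) < H ^ 9 := by positivity
  have hH18 : (0 : ℝ) < H ^ 18 := by positivity
  have habsd : ∀ (w : ℤ) (k : ℕ), |(w : ℝ) / H ^ k| = |(w : ℝ)| / H ^ k := by
    intro w k
    rw [abs_div, abs_of_pos (by positivity : 0 < H ^ k)]
  have htri : ∀ A A' r : ℝ, |A - A'| ≤ r → |A| ≤ |A'| + r ∧ |A'| - r ≤ |A| := by
    intro A A' r h
    have h1 := abs_add_le (A - A') A'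
    have h2 := abs_add_le (A' - A) A
    rw [sub_add_cancel] at h1 h2
    rw [abs_sub_comm] at h2
    exact ⟨by linarith, by linarith⟩
  have hB3 : (1 : ℝ) ≤ B ^ 3 := one_le_pow₀ hB1
  have hm3B : (M₀ : ℝ) ^ 3 ≤ B ^ 3 := pow_le_pow_left₀ (by linarith) hmB 3
  have hd1 : 6016 * δ₁ * M ≤ 1 := by
    have h0 : 3008 * δ₁ * (2 * (M : ℝ) ^ 2) = 6016 * δ₁ * M * M := by ring
    rw [h0] at hδ₁M
    have h1 : 6016 * δ₁ * M * 1 ≤ 6016 * δ₁ * M * M :=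
      mul_le_mul_of_nonneg_left hMr (by positivity)
    linarith
  have hd2 : δ₁ / 2 ≤ 3 / 4 * y₀ := by
    have h1 : δ₁ ≤ 1 / (2 * M) := by
      rw [le_div_iff₀ (by positivity)]
      have h2 : 0 ≤ δ₁ * M := by positivity
      linarith
    linarith
  have hτy : τ₁ * y₀ ≤ 1 / 4 * y₀ := mul_le_mul_of_nonneg_right (by linarith) hy₀0.le
  have htyn : 0 ≤ τ₁ * y₀ := by positivity
  have hz' : ∀ u' v' x' : ℤ, InU H ρ ⟨ξ, v, (M₀ : ℝ) ^ 2 * x, (1 - τ₁) * y₀, (1 + τ₁) * y₀⟩ u' v' →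
      InX H ρ ⟨ξ, v, (M₀ : ℝ) ^ 2 * x, (1 - τ₁) * y₀, (1 + τ₁) * y₀⟩ x' →
      ∀ g ∈ box 7 (2 * ρ * H ^ 6),
      |((x' ^ 3 + bf (fun i => (M₀ : ℤ) ^ 4 * a i) u' v' * x' +
      bf (fun i => (M₀ : ℤ) ^ 6 * (f i + Q * g₀ i)) u' v' + (S * J : ℕ) * bf g u' v' : ℤ) : ℝ) -
        H ^ 18 * y₀ ^ 2| ≤ H ^ 18 * κ := by
    intro u' v' x' hU hX g hg
    rw [mem_box] at hg
    have hU1 := hscU u' ξ ρ hU.1
    have hV1 := hscU v' v ρ hU.2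
    have hX1 := hscX x' ((M₀ : ℝ) ^ 2 * x) ρ hX
    have key := errE (m := M₀) (s := ((S * J : ℕ) : ℝ)) (Q₀ := (Q₀ : ℝ)) (Q := (Q : ℝ)) (x := x)
      (η := ρ) (ρ := ρ) (B := B) (U := (u' : ℝ) / H ^ 2) (V := (v' : ℝ) / H ^ 2) (ξ := ξ) (υ := v)
      (X := (x' : ℝ) / H ^ 6) a f g₀ g hH0 ha hf hg₀ hg hB1 (by linarith) hmB hρ0.le hρ0.le
      (by have := (htri _ _ _ hU1).1; linarith) (by have := (htri _ _ _ hV1).1; linarith)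
      (by linarith) (by linarith)
      (by have := (htri _ _ _ hX1).1; linarith) (by linarith) hU1 hV1 hX1 (by positivity)
      (by exact_mod_cast hSJ) (by positivity)
    rw [scaleE hH0, ← mul_sub, abs_mul, abs_of_pos hH18, hy₀2, hzdef]
    refine mul_le_mul_of_nonneg_left (key.trans ?_) hH18.le
    rw [← hLdef]
    exact hρκ'
  refine ⟨⟨ξ, v, (M₀ : ℝ) ^ 2 * x, (1 - τ₁) * y₀, (1 + τ₁) * y₀⟩, σ, hσ,
    ⟨?_, ?_, ?_, ?_, ?_, ?_, ?_⟩, ?_, ?_, ?_⟩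
  · -- hu
    intro u' v' hU
    have hU1 := hscU u' ξ ρ hU.1
    have hV1 := hscU v' v ρ hU.2
    have h1 := htri _ _ _ hU1
    have h2 := htri _ _ _ hV1
    rw [habsd] at h1 h2
    refine ⟨?_, ?_, ?_⟩
    · rw [← le_div_iff₀ hH2]
      linarith
    · rw [← div_le_iff₀ hH2]
      linarith
    · rw [← div_le_iff₀ hH2]
      linarith
  · -- hx
    intro x' hX
    have hX1 := hscX x' ((M₀ : ℝ) ^ 2 * x) ρ hX
    have h1 := htri _ _ _ hX1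
    rw [habsd] at h1
    rw [← div_le_iff₀ hH6]
    linarith
  · -- hY1
    show δ₁ / 2 ≤ (1 - τ₁) * y₀
    linarith
  · -- hY2
    show (1 + τ₁) * y₀ ≤ 4 * B ^ 3
    linarith
  · show (1 - τ₁) * y₀ ≤ (1 + τ₁) * y₀
    linarith
  · show (1 + τ₁) * y₀ ≤ (1 + τ) * ((1 - τ₁) * y₀)
    have h0 : τ * τ₁ ≤ 1 * τ₁ := mul_le_mul_of_nonneg_right hτ1 hτ₁0.le
    have h1 : (1 + τ₁) ≤ (1 + τ) * (1 - τ₁) := by
      have h2 : (1 + τ) * (1 - τ₁) = 1 + τ - τ₁ - τ * τ₁ := by ring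
      rw [h2]
      linarith
    calc (1 + τ₁) * y₀ ≤ ((1 + τ) * (1 - τ₁)) * y₀ := mul_le_mul_of_nonneg_right h1 hy₀0.le
      _ = (1 + τ) * ((1 - τ₁) * y₀) := by ring
  · -- hz
    intro u' v' x' hU hX g hg
    have h := abs_le.mp (hz' u' v' x' hU hX g hg)
    have h18 : ∀ w : ℝ, (w * H ^ 9) ^ 2 = H ^ 18 * w ^ 2 := by intro w; ring
    have e1 : (1 - τ₁) ^ 2 * y₀ ^ 2 + 2 * κ ≤ y₀ ^ 2 := by
      have h3 : (1 - τ₁) ^ 2 ≤ 1 - τ₁ := by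
        have h5 : τ₁ * τ₁ ≤ 1 * τ₁ := mul_le_mul_of_nonneg_right (by linarith) hτ₁0.le
        have h6 : (1 - τ₁) ^ 2 = 1 - 2 * τ₁ + τ₁ * τ₁ := by ring
        rw [h6]
        linarith
      have h4 := mul_le_mul_of_nonneg_right h3 (sq_nonneg y₀)
      linarith
    have e2 : y₀ ^ 2 + 2 * κ ≤ (1 + τ₁) ^ 2 * y₀ ^ 2 := by
      have h3 : 1 + τ₁ ≤ (1 + τ₁) ^ 2 := by
        have h5 : 0 ≤ τ₁ * τ₁ := by positivity
        have h6 : (1 + τ₁) ^ 2 = 1 + 2 * τ₁ + τ₁ * τ₁ := by ring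
        rw [h6]
        linarith
      have h4 := mul_le_mul_of_nonneg_right h3 (sq_nonneg y₀)
      linarith
    have e3 := mul_le_mul_of_nonneg_left e1 hH18.le
    have e4 := mul_le_mul_of_nonneg_left e2 hH18.le
    constructor
    · show ((1 - τ₁) * y₀ * H ^ 9) ^ 2 + κ * H ^ 18 ≤ _
      rw [h18, mul_pow]
      linarith [h.1]
    · show _ ≤ ((1 + τ₁) * y₀ * H ^ 9) ^ 2 - κ * H ^ 18
      rw [h18, mul_pow]
      linarith [h.2]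
  · -- near the target: `u`, `v`
    intro u' v' hU
    have hU1 := hscU u' ξ ρ hU.1
    have hV1 := hscU v' v ρ hU.2
    have e1 : |(u' : ℝ) / H ^ 2 - t.zu| ≤ 2 * δ := by
      have h1 : (u' : ℝ) / H ^ 2 - t.zu = ((u' : ℝ) / H ^ 2 - ξ) + (ξ - u) + (u - t.zu) := by ring
      rw [h1]
      refine (abs_add_le _ _).trans ?_
      have h2 := abs_add_le ((u' : ℝ) / H ^ 2 - ξ) (ξ - u)
      linarith
    have e2 : |(v' : ℝ) / H ^ 2 - t.zv| ≤ 2 * δ := by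
      have h1 : (v' : ℝ) / H ^ 2 - t.zv = ((v' : ℝ) / H ^ 2 - v) + (v - t.zv) := by ring
      rw [h1]
      refine (abs_add_le _ _).trans ?_
      linarith
    have hmH : (0 : ℝ) < M₀ * H ^ 2 := by positivity
    have e3 : ∀ (w : ℤ) (c : ℝ), ((M₀ * w : ℤ) : ℝ) - (M₀ * H ^ 2) * c =
        (M₀ * H ^ 2) * ((w : ℝ) / H ^ 2 - c) := by
      intro w c
      push_cast
      field_simp
    rw [e3, e3, abs_mul ((M₀ : ℝ) * H ^ 2), abs_mul ((M₀ : ℝ) * H ^ 2), abs_of_pos hmH,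
      mul_comm (2 * δ)]
    exact ⟨mul_le_mul_of_nonneg_left e1 hmH.le, mul_le_mul_of_nonneg_left e2 hmH.le⟩
  · -- near the target: `x`
    intro x' hX
    have hX1 := hscX x' ((M₀ : ℝ) ^ 2 * x) ρ hX
    have hm2 : (1 : ℝ) ≤ (M₀ : ℝ) ^ 2 := one_le_pow₀ hm1
    have e1 : |(x' : ℝ) / H ^ 6 - (M₀ : ℝ) ^ 2 * t.zx| ≤ 2 * δ * (M₀ : ℝ) ^ 2 := by
      have h1 : (x' : ℝ) / H ^ 6 - (M₀ : ℝ) ^ 2 * t.zx =
          ((x' : ℝ) / H ^ 6 - (M₀ : ℝ) ^ 2 * x) + (M₀ : ℝ) ^ 2 * (x - t.zx) := by ring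
      rw [h1]
      refine (abs_add_le _ _).trans ?_
      rw [abs_mul, abs_of_nonneg (by positivity : (0 : ℝ) ≤ (M₀ : ℝ) ^ 2)]
      have h2 := mul_le_mul_of_nonneg_left htx (by positivity : (0 : ℝ) ≤ (M₀ : ℝ) ^ 2)
      have h3 : δ * 1 ≤ δ * (M₀ : ℝ) ^ 2 := mul_le_mul_of_nonneg_left hm2 hδ0.le
      linarith
    have e3 : (x' : ℝ) - H ^ 2 * (M₀ * H ^ 2) ^ 2 * t.zx =
        H ^ 6 * ((x' : ℝ) / H ^ 6 - (M₀ : ℝ) ^ 2 * t.zx) := by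
      field_simp
    rw [e3, abs_mul, abs_of_pos hH6]
    refine (mul_le_mul_of_nonneg_left e1 hH6.le).trans (le_of_eq ?_)
    ring
  · -- near the target: `y`
    intro y' hy1 hy2
    have hy1' : (1 - τ₁) * y₀ * H ^ 9 ≤ y' := hy1
    have hy2' : (y' : ℝ) ≤ (1 + τ₁) * y₀ * H ^ 9 := hy2
    rw [← le_div_iff₀ hH9] at hy1'
    rw [← div_le_iff₀ hH9] at hy2'
    have hσ1 : |(σ : ℝ)| = 1 := by
      rcases hσ with h | h <;> rw [h] <;> simp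
    have e0 : |(y' : ℝ) / H ^ 9 - y₀| ≤ τ₁ * y₀ := by
      rw [abs_le]
      constructor <;> linarith
    have e1 : |y₀ - (M₀ : ℝ) ^ 3 * abs y| ≤ (M₀ : ℝ) ^ 3 * (3008 * δ₁ * M) := by
      rw [hy₀, ← mul_sub, abs_mul, abs_of_pos hm30]
      exact mul_le_mul_of_nonneg_left hsq hm30.le
    have e2 : 3008 * δ₁ * M ≤ δ / 2 := by
      have h0 : 3008 * δ₁ * (2 * (M : ℝ) ^ 2) = (3008 * δ₁ * M) * 2 * M := by ring
      rw [h0] at hδ₁M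
      have h1 : (3008 * δ₁ * M) * 2 * 1 ≤ (3008 * δ₁ * M) * 2 * M :=
        mul_le_mul_of_nonneg_left hMr (by positivity)
      linarith
    have e4 : |(σ : ℝ) * ((y' : ℝ) / H ^ 9) - (M₀ : ℝ) ^ 3 * t.zy| ≤ 2 * δ * (M₀ : ℝ) ^ 3 := by
      have h1 : (σ : ℝ) * ((y' : ℝ) / H ^ 9) - (M₀ : ℝ) ^ 3 * t.zy =
          σ * (((y' : ℝ) / H ^ 9 - y₀) + (y₀ - (M₀ : ℝ) ^ 3 * abs y)) +
            (M₀ : ℝ) ^ 3 * (σ * |y| - t.zy) := by ring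
      rw [h1, hσy]
      refine (abs_add_le _ _).trans ?_
      rw [abs_mul, abs_mul, hσ1, one_mul, abs_of_pos hm30]
      have h2 := abs_add_le ((y' : ℝ) / H ^ 9 - y₀) (y₀ - (M₀ : ℝ) ^ 3 * abs y)
      have h3 := mul_le_mul_of_nonneg_left e2 hm30.le
      have h4 := mul_le_mul_of_nonneg_left hty hm30.le
      have h5 : 2 * δ * (M₀ : ℝ) ^ 3 = (M₀ : ℝ) ^ 3 * (δ / 2) + δ / 4 * (2 * (M₀ : ℝ) ^ 3) +
        (M₀ : ℝ) ^ 3 * δ := by ring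
      rw [h5]
      have h6 : τ₁ * y₀ ≤ δ / 4 * (2 * (M₀ : ℝ) ^ 3) :=
        mul_le_mul (by linarith) hy₀le hy₀0.le (by linarith)
      linarith
    have e5 : ((σ * y' : ℤ) : ℝ) - H ^ 3 * (M₀ * H ^ 2) ^ 3 * t.zy =
        H ^ 9 * (σ * ((y' : ℝ) / H ^ 9) - (M₀ : ℝ) ^ 3 * t.zy) := by
      push_cast
      field_simp
    rw [e5, abs_mul, abs_of_pos hH9]
    refine (mul_le_mul_of_nonneg_left e4 hH9.le).trans (le_of_eq ?_)
    ring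

end Pool.Agent.DPO
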