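import Pool.Agent.DPO.Stm

/-!
# Project DPO: small forms with a given value at one point
-/

set_option autoImplicit false

namespace Pool.Agent.DPO

open Finset

theorem t_SH1 (h : S_SHG) : S_SH1 := by
  intro γ C₀ ε hγ hC₀ hε
  set K : ℝ := max 1 (C₀ / γ) with hK
  have hK1 : 1 ≤ K := le_max_left _ _
  have hK2 : C₀ / γ ≤ K := le_max_right _ _
  set c : ℝ := ε * γ ^ 6 / 2 with hc
  have hc0 : 0 < c := by positivity
  set T : ℝ := 2 * (6 * K ^ 6 * C₀ + C₀) / ε + 1 with hT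
  have hT1 : 1 ≤ T := by
    have : 0 ≤ 2 * (6 * K ^ 6 * C₀ + C₀) / ε := by positivity
    linarith
  refine ⟨c, T, hc0, hT1, ?_⟩
  intro H hH u v hg hu1 hu2 hv a ha
  have hH1 : 1 ≤ H := hT1.trans hH
  have hH0 : 0 < H := by linarith
  have hupos : 0 < |(u : ℝ)| := lt_of_lt_of_le (by positivity) hu1
  have hu0 : u ≠ 0 := by
    rintro rfl
    simp at hupos
  have hv' : |(v : ℝ)| ≤ K * |(u : ℝ)| := by
    have h1 : C₀ * H ^ 2 ≤ K * (γ * H ^ 2) := by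
      have : C₀ ≤ K * γ := by
        rw [div_le_iff₀ hγ] at hK2
        exact hK2
      calc C₀ * H ^ 2 ≤ (K * γ) * H ^ 2 := by gcongr
        _ = K * (γ * H ^ 2) := by ring
    have h2 : K * (γ * H ^ 2) ≤ K * |(u : ℝ)| := by gcongr
    linarith
  obtain ⟨r, hr1, hr2, hr3⟩ := h 6 u v K hK1 hg hu0 hv' a
  refine ⟨r, ?_, hr1⟩
  rw [mem_box]
  -- the lower order terms
  have hH4 : T ≤ H ^ 4 := hH.trans (by nlinarith [sq_nonneg (H ^ 2), pow_le_pow_right₀ hH1 (show 1 ≤ 4 by norm_num)])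
  have hlow : (6 * K ^ 6 * C₀ + C₀) * H ^ 2 ≤ ε / 2 * H ^ 6 := by
    have h1 : 2 * (6 * K ^ 6 * C₀ + C₀) / ε ≤ H ^ 4 := by linarith
    rw [div_le_iff₀ hε] at h1
    calc (6 * K ^ 6 * C₀ + C₀) * H ^ 2 = (2 * (6 * K ^ 6 * C₀ + C₀)) * H ^ 2 / 2 := by ring
      _ ≤ (H ^ 4 * ε) * H ^ 2 / 2 := by gcongr
      _ = ε / 2 * H ^ 6 := by ring
  intro i
  by_cases hi : i = 0
  · rw [hi]
    refine hr3.trans ?_
    have h1 : |(a : ℝ)| / |(u : ℝ)| ^ 6 ≤ ε / 2 * H ^ 6 := by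
      rw [div_le_iff₀ (by positivity)]
      refine ha.trans ?_
      have h2 : (γ * H ^ 2) ^ 6 ≤ |(u : ℝ)| ^ 6 := by gcongr
      calc c * H ^ 18 = ε / 2 * H ^ 6 * (γ * H ^ 2) ^ 6 := by rw [hc]; ring
        _ ≤ ε / 2 * H ^ 6 * |(u : ℝ)| ^ 6 := by gcongr
    have h3 : ((6 : ℕ) : ℝ) * K ^ 6 * |(u : ℝ)| ≤ (6 * K ^ 6 * C₀ + C₀) * H ^ 2 := by
      push_cast
      calc (6 : ℝ) * K ^ 6 * |(u : ℝ)| ≤ 6 * K ^ 6 * (C₀ * H ^ 2) := by gcongr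
        _ ≤ (6 * K ^ 6 * C₀ + C₀) * H ^ 2 := by nlinarith [mul_pos (lt_of_lt_of_le one_pos hC₀) (pow_pos hH0 2)]
    calc |(a : ℝ)| / |(u : ℝ)| ^ 6 + ((6 : ℕ) : ℝ) * K ^ 6 * |(u : ℝ)| ≤
          ε / 2 * H ^ 6 + ε / 2 * H ^ 6 := add_le_add h1 (h3.trans hlow)
      _ = ε * H ^ 6 := by ring
  · refine (hr2 i hi).trans (hu2.trans ?_)
    have h0 : 0 ≤ 6 * K ^ 6 * C₀ * H ^ 2 := by positivity
    have h5 : 0 ≤ ε / 2 * H ^ 6 := by positivity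
    linarith

end Pool.Agent.DPO
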