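import Pool.Agent.DPO.Stm

/-!
# Project DPO, piece SH2: small binary forms with given values at two points
-/

set_option autoImplicit false

namespace Pool.Agent.DPO

open Finset

private theorem bf_cast {d : ℕ} (g : Fin (d + 1) → ℤ) (u v : ℤ) :
    ((bf g u v : ℤ) : ℝ) = bf g (u : ℝ) (v : ℝ) := by
  unfold bf
  push_cast
  rfl

private theorem bf_hom {d : ℕ} {R : Type*} [CommRing R] (g : Fin (d + 1) → ℤ) (t u v : R) :
    bf g (t * u) (t * v) = t ^ d * bf g u v := by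
  unfold bf
  rw [Finset.mul_sum]
  refine Finset.sum_congr rfl fun i _ => ?_
  have h : t ^ d = t ^ (d - (i : ℕ)) * t ^ (i : ℕ) := by
    rw [← pow_add, Nat.sub_add_cancel (Nat.lt_succ_iff.1 i.2)]
  rw [h, mul_pow, mul_pow]
  ring

private theorem bf_modEq {d : ℕ} (g : Fin (d + 1) → ℤ) {D u v u' v' : ℤ} (h1 : D ∣ u - u')
    (h2 : D ∣ v - v') : D ∣ bf g u v - bf g u' v' := by
  unfold bf
  rw [← Finset.sum_sub_distrib]
  refine Finset.dvd_sum fun i _ => ?_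
  have e1 : u' ≡ u [ZMOD D] := (Int.modEq_iff_dvd).2 h1
  have e2 : v' ≡ v [ZMOD D] := (Int.modEq_iff_dvd).2 h2
  have e3 := ((Int.ModEq.refl ((g i : ℤ) : ℤ)).mul (e1.pow (d - (i : ℕ)))).mul (e2.pow (i : ℕ))
  exact (Int.modEq_iff_dvd).1 e3

/-- the form `(v X - u Y) h (X, Y)` -/
private def mulL (u v : ℤ) (h : Fin 6 → ℤ) : Fin 7 → ℤ :=
  ![v * h 0, v * h 1 - u * h 0, v * h 2 - u * h 1, v * h 3 - u * h 2, v * h 4 - u * h 3,
    v * h 5 - u * h 4, - u * h 5]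

private theorem bf_mulL (u v : ℤ) (h : Fin 6 → ℤ) (x y : ℤ) :
    bf (mulL u v h) x y = (v * x - u * y) * bf h x y := by
  simp [bf, mulL, Fin.sum_univ_succ]
  ring

private theorem mulL_le {u v : ℤ} {h : Fin 6 → ℤ} {K A : ℝ} (hK : 0 ≤ K) (hA : 0 ≤ A)
    (hu : |(u : ℝ)| ≤ K) (hv : |(v : ℝ)| ≤ K) (hh : ∀ i, |(h i : ℝ)| ≤ A) (i : Fin 7) :
    |((mulL u v h i : ℤ) : ℝ)| ≤ 2 * K * A := by
  have a1 : ∀ i, |(v : ℝ) * (h i : ℝ)| ≤ K * A := fun i => by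
    rw [abs_mul]
    exact mul_le_mul hv (hh i) (abs_nonneg _) hK
  have a2 : ∀ i, |(u : ℝ) * (h i : ℝ)| ≤ K * A := fun i => by
    rw [abs_mul]
    exact mul_le_mul hu (hh i) (abs_nonneg _) hK
  have a3 : ∀ i j, |(v : ℝ) * (h i : ℝ) - (u : ℝ) * (h j : ℝ)| ≤ 2 * K * A := fun i j => by
    have := abs_sub (a := (v : ℝ) * (h i : ℝ)) (b := (u : ℝ) * (h j : ℝ))
    have b1 := a1 i
    have b2 := a2 j
    linarith
  have hKA : 0 ≤ K * A := mul_nonneg hK hA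
  fin_cases i
  · simp only [mulL]
    norm_num
    have := a1 0
    rw [abs_mul] at this
    linarith
  · simpa [mulL] using a3 1 0
  · simpa [mulL] using a3 2 1
  · simpa [mulL] using a3 3 2
  · simpa [mulL] using a3 4 3
  · simpa [mulL] using a3 5 4
  · simp only [mulL]
    norm_num
    have := a2 5
    rw [abs_mul] at this
    linarith

/-- the difference of the values at two points with the same first coordinate -/
private theorem bf_diff {g : Fin 7 → ℤ} {U V W K B δ : ℝ} (hK : 0 ≤ K) (hB : 0 ≤ B)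
    (hg : ∀ i, i ≠ 0 → |(g i : ℝ)| ≤ B) (hU : |U| ≤ K) (hV : |V| ≤ K) (hW : |W| ≤ K)
    (hd : |V - W| ≤ δ) : |bf g U V - bf g U W| ≤ 36 * (B * δ * K ^ 5) := by
  have hδ : 0 ≤ δ := (abs_nonneg _).trans hd
  unfold bf
  rw [← Finset.sum_sub_distrib, Fin.sum_univ_succ]
  have e0 : ((g 0 : ℤ) : ℝ) * U ^ (6 - ((0 : Fin 7) : ℕ)) * V ^ ((0 : Fin 7) : ℕ) -
      ((g 0 : ℤ) : ℝ) * U ^ (6 - ((0 : Fin 7) : ℕ)) * W ^ ((0 : Fin 7) : ℕ) = 0 := by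
    simp
  rw [e0, zero_add]
  refine (Finset.abs_sum_le_sum_abs _ _).trans ?_
  have h1 : ∀ i ∈ (Finset.univ : Finset (Fin 6)),
      |((g i.succ : ℤ) : ℝ) * U ^ (6 - ((i.succ : Fin 7) : ℕ)) * V ^ ((i.succ : Fin 7) : ℕ) -
        ((g i.succ : ℤ) : ℝ) * U ^ (6 - ((i.succ : Fin 7) : ℕ)) * W ^ ((i.succ : Fin 7) : ℕ)| ≤
        6 * (B * δ * K ^ 5) := by
    intro i _
    rw [← mul_sub, abs_mul, abs_mul, abs_pow, Fin.val_succ]
    have h2 : |((g i.succ : ℤ) : ℝ)| ≤ B := hg _ (Fin.succ_ne_zero i)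
    have h3 : |V ^ ((i : ℕ) + 1) - W ^ ((i : ℕ) + 1)| ≤ δ * 6 * K ^ (i : ℕ) := by
      refine (abs_pow_sub_pow_le (a := V) (b := W) ((i : ℕ) + 1)).trans ?_
      rw [Nat.add_sub_cancel]
      have h4 : (((i : ℕ) + 1 : ℕ) : ℝ) ≤ 6 := by
        have := i.2
        exact_mod_cast (show (i : ℕ) + 1 ≤ 6 by omega)
      have h5 : max |V| |W| ^ (i : ℕ) ≤ K ^ (i : ℕ) :=
        pow_le_pow_left₀ ((abs_nonneg V).trans (le_max_left _ _)) (max_le hV hW) _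
      have h6 : 0 ≤ max |V| |W| ^ (i : ℕ) :=
        pow_nonneg ((abs_nonneg V).trans (le_max_left _ _)) _
      gcongr
    calc |((g i.succ : ℤ) : ℝ)| * |U| ^ (6 - ((i : ℕ) + 1)) *
          |V ^ ((i : ℕ) + 1) - W ^ ((i : ℕ) + 1)|
        ≤ B * K ^ (6 - ((i : ℕ) + 1)) * (δ * 6 * K ^ (i : ℕ)) := by gcongr
      _ = 6 * (B * δ * (K ^ (6 - ((i : ℕ) + 1)) * K ^ (i : ℕ))) := by ring
      _ = 6 * (B * δ * K ^ 5) := by
          rw [← pow_add]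
          have h7 : 6 - ((i : ℕ) + 1) + (i : ℕ) = 5 := by
            have := i.2
            omega
          rw [h7]
  calc ∑ i : Fin 6,
      |((g i.succ : ℤ) : ℝ) * U ^ (6 - ((i.succ : Fin 7) : ℕ)) * V ^ ((i.succ : Fin 7) : ℕ) -
        ((g i.succ : ℤ) : ℝ) * U ^ (6 - ((i.succ : Fin 7) : ℕ)) * W ^ ((i.succ : Fin 7) : ℕ)|
      ≤ ∑ _i : Fin 6, 6 * (B * δ * K ^ 5) := Finset.sum_le_sum h1
    _ = 36 * (B * δ * K ^ 5) := by
        rw [Finset.sum_const, Finset.card_univ, Fintype.card_fin, nsmul_eq_mul]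
        push_cast
        ring

/-- the construction, with explicit bounds -/
private theorem sh2_core (h : S_SHG) {γ C₀ H c : ℝ} (hγ : 0 < γ) (hC₀ : 1 ≤ C₀) (hH : 1 ≤ H)
    (hc : 0 < c) {u v U V : ℤ} (hp : Int.gcd u v = 1) (hq : Int.gcd U V = 1)
    (hu1 : γ * H ^ 2 ≤ |(u : ℝ)|) (hu2 : |(u : ℝ)| ≤ C₀ * H ^ 2) (hv : |(v : ℝ)| ≤ C₀ * H ^ 2)
    (hU1 : γ * H ^ 2 ≤ |(U : ℝ)|) (hU2 : |(U : ℝ)| ≤ C₀ * H ^ 2) (hV : |(V : ℝ)| ≤ C₀ * H ^ 2)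
    {D : ℤ} (hD : D = u * V - v * U) (hD0 : D ≠ 0) {l : ℤ} (hl1 : D ∣ U - l * u)
    (hl2 : D ∣ V - l * v) {a a' : ℤ} (ha : |(a : ℝ)| ≤ c * H ^ 18)
    (ha' : |(a' : ℝ) - ((U : ℝ) / u) ^ 6 * a| ≤ c * |(D : ℝ)| * H ^ 14)
    (hdv : D ∣ a' - l ^ 6 * a) {C : ℝ} (hC : C = C₀ / γ) :
    ∃ r : Fin 7 → ℤ, bf r u v = a ∧ bf r U V = a' ∧ ∀ i, |(r i : ℝ)| ≤
      (c * (1 / γ ^ 6) * H ^ 6 + 6 * C ^ 6 * (C₀ * H ^ 2) + C₀ * H ^ 2) +
      2 * (C₀ * H ^ 2) * ((c * (1 / γ ^ 5) * H ^ 4 + 36 * C ^ 11) + 5 * C ^ 5 * (C₀ * H ^ 2) +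
        C₀ * H ^ 2) := by
  have hH0 : 0 < H := by linarith
  have hγH : 0 < γ * H ^ 2 := by positivity
  have hu0 : (u : ℝ) ≠ 0 := by
    intro h0
    rw [h0, abs_zero] at hu1
    linarith
  have hU0 : (U : ℝ) ≠ 0 := by
    intro h0
    rw [h0, abs_zero] at hU1
    linarith
  have huZ : u ≠ 0 := by exact_mod_cast hu0
  have hUZ : U ≠ 0 := by exact_mod_cast hU0
  have hC1 : 1 ≤ C := by
    rw [hC, one_le_div hγ]
    have h1 : γ * H ^ 2 ≤ C₀ * H ^ 2 := hu1.trans hu2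
    exact le_of_mul_le_mul_right h1 (by positivity)
  have hCC : ∀ x y : ℤ, γ * H ^ 2 ≤ |(x : ℝ)| → |(y : ℝ)| ≤ C₀ * H ^ 2 →
      |(y : ℝ)| ≤ C * |(x : ℝ)| := by
    intro x y hx hy
    calc |(y : ℝ)| ≤ C₀ * H ^ 2 := hy
      _ = C * (γ * H ^ 2) := by rw [hC]; field_simp
      _ ≤ C * |(x : ℝ)| := by gcongr
  have hK0 : 0 ≤ C₀ * H ^ 2 := by positivity
  obtain ⟨r₁, hr1, hr2, hr3⟩ := h 6 u v C hC1 hp huZ (hCC u v hu1 hv) a
  have hmod : D ∣ a' - bf r₁ U V := by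
    have h1 := bf_modEq r₁ hl1 hl2
    rw [bf_hom, hr1] at h1
    have h2 := dvd_sub hdv h1
    have e : a' - l ^ 6 * a - (bf r₁ U V - l ^ 6 * a) = a' - bf r₁ U V := by ring
    rwa [e] at h2
  obtain ⟨k, hk⟩ := hmod
  obtain ⟨g, hg1, hg2, hg3⟩ := h 5 U V C hC1 hq hUZ (hCC U V hU1 hV) (-k)
  have hDR : (D : ℝ) ≠ 0 := by exact_mod_cast hD0
  have hDp : 0 < |(D : ℝ)| := abs_pos.2 hDR
  -- the bound for `k`
  have hkb : |(k : ℝ)| ≤ c * H ^ 14 + 36 * (C ^ 6 * C₀ ^ 5 * H ^ 10) := by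
    have hsz : |bf r₁ (U : ℝ) (V : ℝ) - bf r₁ (U : ℝ) ((U : ℝ) / u * v)| ≤
        36 * ((C₀ * H ^ 2) * (|(D : ℝ)| / (γ * H ^ 2)) * (C * (C₀ * H ^ 2)) ^ 5) := by
      refine bf_diff (by positivity) hK0 (fun i hi => (hr2 i hi).trans hu2) ?_ ?_ ?_ ?_
      · calc |(U : ℝ)| ≤ 1 * (C₀ * H ^ 2) := by rw [one_mul]; exact hU2
          _ ≤ C * (C₀ * H ^ 2) := by gcongr
      · calc |(V : ℝ)| ≤ 1 * (C₀ * H ^ 2) := by rw [one_mul]; exact hV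
          _ ≤ C * (C₀ * H ^ 2) := by gcongr
      · rw [abs_mul, abs_div, div_mul_eq_mul_div, div_le_iff₀ (abs_pos.2 hu0)]
        calc |(U : ℝ)| * |(v : ℝ)| ≤ (C₀ * H ^ 2) * (C * |(u : ℝ)|) :=
              mul_le_mul hU2 (hCC u v hu1 hv) (abs_nonneg _) hK0
          _ = C * (C₀ * H ^ 2) * |(u : ℝ)| := by ring
      · have e : (V : ℝ) - (U : ℝ) / u * v = (D : ℝ) / u := by
          rw [hD]
          push_cast
          field_simp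
        rw [e, abs_div]
        gcongr
    have e1 : bf r₁ (U : ℝ) ((U : ℝ) / u * v) = ((U : ℝ) / u) ^ 6 * a := by
      have e2 : (U : ℝ) = (U : ℝ) / u * u := by field_simp
      have e3 : bf r₁ (U : ℝ) ((U : ℝ) / u * v) = bf r₁ ((U : ℝ) / u * u) ((U : ℝ) / u * v) := by
        rw [← e2]
      rw [e3, bf_hom, ← bf_cast, hr1]
    have e4 : (D : ℝ) * (k : ℝ) = ((a' : ℝ) - ((U : ℝ) / u) ^ 6 * a) -
        (bf r₁ (U : ℝ) (V : ℝ) - bf r₁ (U : ℝ) ((U : ℝ) / u * v)) := by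
      have h1 := congrArg (Int.cast (R := ℝ)) hk
      push_cast at h1
      rw [bf_cast] at h1
      rw [e1]
      linarith
    have e5 : |(D : ℝ)| * |(k : ℝ)| ≤ |(D : ℝ)| * (c * H ^ 14 + 36 * (C ^ 6 * C₀ ^ 5 * H ^ 10)) := by
      rw [← abs_mul, e4]
      refine (abs_sub _ _).trans ((add_le_add ha' hsz).trans (le_of_eq ?_))
      rw [hC]
      field_simp
    exact le_of_mul_le_mul_left e5 hDp
  refine ⟨fun i => r₁ i + mulL u v g i, ?_, ?_, ?_⟩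
  · have e : bf (R := ℤ) (fun i => r₁ i + mulL u v g i) u v = bf r₁ u v + bf (mulL u v g) u v := by
      unfold bf
      rw [← Finset.sum_add_distrib]
      refine Finset.sum_congr rfl fun i _ => ?_
      push_cast
      ring
    rw [e, bf_mulL, hr1]
    ring
  · have e : bf (R := ℤ) (fun i => r₁ i + mulL u v g i) U V = bf r₁ U V + bf (mulL u v g) U V := by
      unfold bf
      rw [← Finset.sum_add_distrib]
      refine Finset.sum_congr rfl fun i _ => ?_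
      push_cast
      ring
    rw [e, bf_mulL, hg1]
    linear_combination -hk - k * hD
  · intro i
    have b1 : |(r₁ i : ℝ)| ≤ c * (1 / γ ^ 6) * H ^ 6 + 6 * C ^ 6 * (C₀ * H ^ 2) + C₀ * H ^ 2 := by
      by_cases hi : i = 0
      · rw [hi]
        refine hr3.trans ?_
        have h1 : |(a : ℝ)| / |(u : ℝ)| ^ 6 ≤ (c * H ^ 18) / (γ * H ^ 2) ^ 6 := by gcongr
        have h2 : (c * H ^ 18) / (γ * H ^ 2) ^ 6 = c * (1 / γ ^ 6) * H ^ 6 := by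
          field_simp
        have h3 : (((6 : ℕ) : ℝ)) * C ^ 6 * |(u : ℝ)| ≤ 6 * C ^ 6 * (C₀ * H ^ 2) := by
          push_cast
          gcongr
        rw [h2] at h1
        exact (add_le_add h1 h3).trans (le_add_of_nonneg_right hK0)
      · have h1 := (hr2 i hi).trans hu2
        have h2 : 0 ≤ c * (1 / γ ^ 6) * H ^ 6 + 6 * C ^ 6 * (C₀ * H ^ 2) := by positivity
        linarith
    have b2 : ∀ j, |(g j : ℝ)| ≤ (c * (1 / γ ^ 5) * H ^ 4 + 36 * C ^ 11) +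
        5 * C ^ 5 * (C₀ * H ^ 2) + C₀ * H ^ 2 := by
      intro j
      by_cases hj : j = 0
      · rw [hj]
        refine hg3.trans ?_
        have h0 : |((-k : ℤ) : ℝ)| = |(k : ℝ)| := by push_cast; rw [abs_neg]
        rw [h0]
        have h1 : |(k : ℝ)| / |(U : ℝ)| ^ 5 ≤
            (c * H ^ 14 + 36 * (C ^ 6 * C₀ ^ 5 * H ^ 10)) / (γ * H ^ 2) ^ 5 := by gcongr
        have h2 : (c * H ^ 14 + 36 * (C ^ 6 * C₀ ^ 5 * H ^ 10)) / (γ * H ^ 2) ^ 5 =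
            c * (1 / γ ^ 5) * H ^ 4 + 36 * C ^ 11 := by
          rw [hC]
          field_simp
        have h3 : (((5 : ℕ) : ℝ)) * C ^ 5 * |(U : ℝ)| ≤ 5 * C ^ 5 * (C₀ * H ^ 2) := by
          push_cast
          gcongr
        rw [h2] at h1
        exact (add_le_add h1 h3).trans (le_add_of_nonneg_right hK0)
      · have h1 := (hg2 j hj).trans hU2
        have h2 : 0 ≤ c * (1 / γ ^ 5) * H ^ 4 + 36 * C ^ 11 + 5 * C ^ 5 * (C₀ * H ^ 2) := by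
          positivity
        linarith
    have b3 := mulL_le (h := g) hK0 ((abs_nonneg _).trans (b2 0)) hu2 hv b2 i
    push_cast
    exact (abs_add_le _ _).trans (add_le_add b1 b3)

theorem t_SH2 (h : S_SHG) : S_SH2 := by
  intro γ C₀ ε hγ hC₀ hε
  obtain ⟨C, hC⟩ : ∃ C, C = C₀ / γ := ⟨_, rfl⟩
  have hC0 : 0 < C := by rw [hC]; positivity
  obtain ⟨κ, hκ⟩ : ∃ κ, κ = 1 / γ ^ 6 + 2 * C₀ * (1 / γ ^ 5) := ⟨_, rfl⟩
  have hκ0 : 0 < κ := by rw [hκ]; positivity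
  obtain ⟨B, hB⟩ : ∃ B, B = (6 * C ^ 6 + 1) * C₀ + 72 * C₀ * C ^ 11 +
    2 * (5 * C ^ 5 + 1) * C₀ ^ 2 := ⟨_, rfl⟩
  have hB0 : 0 < B := by rw [hB]; positivity
  refine ⟨ε / (2 * κ), 1 + 2 * B / ε, by positivity, by
    have : 0 ≤ 2 * B / ε := by positivity
    linarith, ?_⟩
  intro H hH p q hp hq hp1 hp2 hp3 hq1 hq2 hq3 hD l hl1 hl2 a a' ha ha' hdv
  have hH1 : 1 ≤ H := by
    have : 0 ≤ 2 * B / ε := by positivity
    linarith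
  have hHB : 2 * B / ε ≤ H ^ 2 := by
    have : 2 * B / ε ≤ H := by linarith
    nlinarith
  have hc : 0 < ε / (2 * κ) := by positivity
  obtain ⟨r, h1, h2, h3⟩ := sh2_core h hγ hC₀ hH1 hc hp hq hp1 hp2 hp3 hq1 hq2 hq3
    (D := det2 p q) rfl hD hl1 hl2 ha ha' hdv hC
  refine ⟨r, mem_box.2 fun i => (h3 i).trans ?_, h1, h2⟩
  have hH24 : H ^ 2 ≤ H ^ 4 := pow_le_pow_right₀ hH1 (by norm_num)
  have e1 : ε / (2 * κ) * κ * H ^ 6 = ε / 2 * H ^ 6 := by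
    field_simp
  have e2 : B * H ^ 4 ≤ ε / 2 * H ^ 6 := by
    have h4 : 2 * B ≤ ε * H ^ 2 := by
      rw [div_le_iff₀ hε] at hHB
      linarith
    have h5 : 0 ≤ H ^ 4 := by positivity
    nlinarith [mul_le_mul_of_nonneg_right h4 h5]
  have e3 : (ε / (2 * κ) * (1 / γ ^ 6) * H ^ 6 + 6 * C ^ 6 * (C₀ * H ^ 2) + C₀ * H ^ 2) +
      2 * (C₀ * H ^ 2) * ((ε / (2 * κ) * (1 / γ ^ 5) * H ^ 4 + 36 * C ^ 11) +
        5 * C ^ 5 * (C₀ * H ^ 2) + C₀ * H ^ 2) =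
      ε / (2 * κ) * κ * H ^ 6 + ((6 * C ^ 6 + 1) * C₀ + 72 * C₀ * C ^ 11) * H ^ 2 +
        2 * (5 * C ^ 5 + 1) * C₀ ^ 2 * H ^ 4 := by
    rw [hκ]
    ring
  rw [e3, e1]
  have e4 : ((6 * C ^ 6 + 1) * C₀ + 72 * C₀ * C ^ 11) * H ^ 2 ≤
      ((6 * C ^ 6 + 1) * C₀ + 72 * C₀ * C ^ 11) * H ^ 4 := by
    have : 0 ≤ (6 * C ^ 6 + 1) * C₀ + 72 * C₀ * C ^ 11 := by positivity
    exact mul_le_mul_of_nonneg_left hH24 this
  have e5 : ((6 * C ^ 6 + 1) * C₀ + 72 * C₀ * C ^ 11) * H ^ 4 +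
      2 * (5 * C ^ 5 + 1) * C₀ ^ 2 * H ^ 4 = B * H ^ 4 := by
    rw [hB]
    ring
  linarith

end Pool.Agent.DPO
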