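import Pool.Agent.DPO.Stm

/-!
# Project DPO, piece SHG: small binary forms with a given value
-/

set_option autoImplicit false

namespace Pool.Agent.DPO

open Finset

private theorem shg_exists : ∀ (d : ℕ) (u v : ℤ), Int.gcd u v = 1 → u ≠ 0 → ∀ a : ℤ,
    ∃ r : Fin (d + 1) → ℤ, bf r u v = a ∧ ∀ i, i ≠ 0 → |(r i : ℝ)| ≤ |(u : ℝ)| := by
  intro d
  induction d with
  | zero =>
    intro u v _ _ a
    refine ⟨fun _ => a, by simp [bf], ?_⟩
    intro i hi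
    exact absurd (Fin.eq_zero i) hi
  | succ d ih =>
    intro u v huv hu a
    have hcop : IsCoprime u (v ^ (d + 1)) := (Int.isCoprime_iff_gcd_eq_one.2 huv).pow_right
    obtain ⟨x, y, hxy⟩ := hcop
    obtain ⟨s, hs⟩ : ∃ s : ℤ, s = (a * y) % u := ⟨_, rfl⟩
    have hs0 : 0 ≤ s := hs ▸ Int.emod_nonneg _ hu
    have hs1 : s < |u| := hs ▸ Int.emod_lt_abs _ hu
    obtain ⟨k, hk⟩ : ∃ k, s = a * y - u * k := ⟨a * y / u, by
      rw [hs]
      have := Int.emod_add_mul_ediv (a * y) u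
      linarith⟩
    obtain ⟨r', hr', hb'⟩ := ih u v huv hu (a * x + k * v ^ (d + 1))
    have hval : u * (a * x + k * v ^ (d + 1)) + s * v ^ (d + 1) = a := by
      rw [hk]
      linear_combination a * hxy
    refine ⟨Fin.snoc r' s, ?_, ?_⟩
    · have h1 : bf (R := ℤ) (Fin.snoc r' s : Fin (d + 1 + 1) → ℤ) u v =
          u * bf r' u v + s * v ^ (d + 1) := by
        unfold bf
        rw [Fin.sum_univ_castSucc]
        simp only [Fin.snoc_castSucc, Fin.snoc_last, Fin.val_castSucc, Fin.val_last, Nat.sub_self,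
          pow_zero, mul_one, Int.cast_id]
        rw [Finset.mul_sum]
        congr 1
        refine Finset.sum_congr rfl fun i _ => ?_
        have h2 : d + 1 - (i : ℕ) = (d - (i : ℕ)) + 1 := by
          have := i.2
          omega
        rw [h2, pow_succ]
        ring
      rw [h1, hr', hval]
    · intro i hi
      refine Fin.lastCases ?_ (fun j => ?_) i (motive := fun i => i ≠ 0 →
        |((Fin.snoc r' s : Fin (d + 1 + 1) → ℤ) i : ℝ)| ≤ |(u : ℝ)|) hi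
      · intro _
        rw [Fin.snoc_last]
        have h1 : |s| ≤ |u| := by rw [abs_of_nonneg hs0]; exact hs1.le
        exact_mod_cast h1
      · intro hj
        rw [Fin.snoc_castSucc]
        apply hb'
        rintro rfl
        exact hj rfl

theorem t_SHG : S_SHG := by
  intro d u v C hC huv hu hv a
  obtain ⟨r, hr, hb⟩ := shg_exists d u v huv hu a
  refine ⟨r, hr, hb, ?_⟩
  have hu0 : 0 < |(u : ℝ)| := abs_pos.2 (by exact_mod_cast hu)
  have hC0 : 0 ≤ C := by linarith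
  -- the equation for `r 0`
  have e1 : (r 0 : ℝ) * (u : ℝ) ^ d = a - ∑ i : Fin d, (r i.succ : ℝ) * (u : ℝ) ^ (d - ((i : ℕ) + 1)) *
      (v : ℝ) ^ ((i : ℕ) + 1) := by
    have h1 := congrArg (Int.cast (R := ℝ)) hr
    unfold bf at h1
    rw [Fin.sum_univ_succ] at h1
    simp only [Fin.val_zero, Nat.sub_zero, pow_zero, mul_one, Fin.val_succ, Int.cast_id] at h1
    push_cast at h1
    linarith
  have e2 : |∑ i : Fin d, (r i.succ : ℝ) * (u : ℝ) ^ (d - ((i : ℕ) + 1)) *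
      (v : ℝ) ^ ((i : ℕ) + 1)| ≤ d * (C ^ d * |(u : ℝ)| ^ (d + 1)) := by
    refine (Finset.abs_sum_le_sum_abs _ _).trans ?_
    have h1 : ∀ i ∈ (Finset.univ : Finset (Fin d)), |(r i.succ : ℝ) *
        (u : ℝ) ^ (d - ((i : ℕ) + 1)) * (v : ℝ) ^ ((i : ℕ) + 1)| ≤ C ^ d * |(u : ℝ)| ^ (d + 1) := by
      intro i _
      rw [abs_mul, abs_mul, abs_pow, abs_pow]
      have h2 : |(r i.succ : ℝ)| ≤ |(u : ℝ)| := hb _ (Fin.succ_ne_zero i)
      have h3 : |(v : ℝ)| ^ ((i : ℕ) + 1) ≤ (C * |(u : ℝ)|) ^ ((i : ℕ) + 1) :=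
        pow_le_pow_left₀ (abs_nonneg _) hv _
      have h4 : C ^ ((i : ℕ) + 1) ≤ C ^ d := pow_le_pow_right₀ hC i.2
      calc |(r i.succ : ℝ)| * |(u : ℝ)| ^ (d - ((i : ℕ) + 1)) * |(v : ℝ)| ^ ((i : ℕ) + 1)
          ≤ |(u : ℝ)| * |(u : ℝ)| ^ (d - ((i : ℕ) + 1)) * (C * |(u : ℝ)|) ^ ((i : ℕ) + 1) := by
            gcongr
        _ = C ^ ((i : ℕ) + 1) * (|(u : ℝ)| * (|(u : ℝ)| ^ (d - ((i : ℕ) + 1)) *
              |(u : ℝ)| ^ ((i : ℕ) + 1))) := by
            rw [mul_pow]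
            ring
        _ = C ^ ((i : ℕ) + 1) * |(u : ℝ)| ^ (d + 1) := by
            rw [← pow_add, Nat.sub_add_cancel i.2, ← pow_succ']
        _ ≤ C ^ d * |(u : ℝ)| ^ (d + 1) := by gcongr
    calc ∑ i : Fin d, |(r i.succ : ℝ) * (u : ℝ) ^ (d - ((i : ℕ) + 1)) * (v : ℝ) ^ ((i : ℕ) + 1)|
        ≤ ∑ _i : Fin d, C ^ d * |(u : ℝ)| ^ (d + 1) := Finset.sum_le_sum h1
      _ = d * (C ^ d * |(u : ℝ)| ^ (d + 1)) := by
          rw [Finset.sum_const, Finset.card_univ, Fintype.card_fin, nsmul_eq_mul]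
  have e3 : |(r 0 : ℝ)| * |(u : ℝ)| ^ d ≤ |(a : ℝ)| + d * (C ^ d * |(u : ℝ)| ^ (d + 1)) := by
    rw [← abs_pow, ← abs_mul, e1]
    exact (abs_sub _ _).trans (add_le_add le_rfl e2)
  have hup : 0 < |(u : ℝ)| ^ d := pow_pos hu0 d
  have e4 : |(r 0 : ℝ)| ≤ (|(a : ℝ)| + d * (C ^ d * |(u : ℝ)| ^ (d + 1))) / |(u : ℝ)| ^ d :=
    (le_div_iff₀ hup).2 e3
  refine e4.trans (le_of_eq ?_)
  rw [add_div, pow_succ]
  field_simp

end Pool.Agent.DPO
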