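import Pool.Agent.DPO.Stm

/-!
# Project DPO, piece STAB: the Chinese remainder theorem for the local data
-/

set_option autoImplicit false
set_option linter.all false

namespace Pool.Agent.DPO

open Finset

namespace STAB

theorem cop {p q : ℕ} (hp : p.Prime) (hq : q.Prime) (h : p ≠ q) (k l : ℕ) :
    IsCoprime ((p : ℤ) ^ k) ((q : ℤ) ^ l) := by
  apply IsCoprime.pow
  exact Nat.isCoprime_iff_coprime.2 ((Nat.coprime_primes hp hq).2 h)

theorem crt (P : Finset ℕ) (E : ℕ) (c : ℕ → ℤ) : (∀ p ∈ P, p.Prime) →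
    ∃ z : ℤ, ∀ p ∈ P, (p : ℤ) ^ E ∣ z - c p := by
  induction P using Finset.induction_on with
  | empty => intro _; exact ⟨0, fun p hp => by simp at hp⟩
  | insert q P hq ih =>
    intro hP
    obtain ⟨z, hz⟩ := ih fun p hp => hP p (Finset.mem_insert_of_mem hp)
    have hcop : IsCoprime (∏ p ∈ P, (p : ℤ) ^ E) ((q : ℤ) ^ E) := by
      apply IsCoprime.prod_left
      intro p hp
      exact cop (hP p (Finset.mem_insert_of_mem hp)) (hP q (Finset.mem_insert_self q P))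
        (by rintro rfl; exact hq hp) E E
    obtain ⟨α, β, hαβ⟩ := hcop
    refine ⟨z + (∏ p ∈ P, (p : ℤ) ^ E) * (α * (c q - z)), fun p hp => ?_⟩
    rcases Finset.mem_insert.1 hp with rfl | hp'
    · refine ⟨β * (z - c p), ?_⟩
      linear_combination (c p - z) * hαβ
    · have h1 : (p : ℤ) ^ E ∣ ∏ p ∈ P, (p : ℤ) ^ E := Finset.dvd_prod_of_mem _ hp'
      have h2 := dvd_add (hz p hp') (h1.mul_right (α * (c q - z)))
      have e : z + (∏ p ∈ P, (p : ℤ) ^ E) * (α * (c q - z)) - c p =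
        z - c p + (∏ p ∈ P, (p : ℤ) ^ E) * (α * (c q - z)) := by ring
      rw [e]
      exact h2

theorem prod_dvd (P : Finset ℕ) (hP : ∀ p ∈ P, p.Prime) (k : ℕ → ℕ) (z : ℤ)
    (h : ∀ p ∈ P, (p : ℤ) ^ k p ∣ z) : ((∏ p ∈ P, p ^ k p : ℕ) : ℤ) ∣ z := by
  push_cast
  apply Finset.prod_dvd_of_coprime _ h
  intro p hp q hq hpq
  exact cop (hP p hp) (hP q hq) hpq _ _

theorem bf_cong {d : ℕ} (g : Fin (d + 1) → ℤ) {m u u' v v' : ℤ} (hu : m ∣ u - u') (hv : m ∣ v - v') :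
    m ∣ bf g u v - bf g u' v' := by
  unfold bf
  rw [← Finset.sum_sub_distrib]
  apply Finset.dvd_sum
  intro i _
  have h1 : u ≡ u' [ZMOD m] := (Int.modEq_iff_dvd.2 (by
    rw [← neg_sub]; exact (dvd_neg.2 hu)))
  have h2 : v ≡ v' [ZMOD m] := (Int.modEq_iff_dvd.2 (by
    rw [← neg_sub]; exact (dvd_neg.2 hv)))
  have h3 := ((Int.ModEq.refl (g i)).mul (h1.pow (d - (i : ℕ)))).mul (h2.pow (i : ℕ))
  have h4 := (Int.modEq_iff_dvd.1 h3.symm)
  exact_mod_cast h4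

theorem psi_cong (a : Fin 5 → ℤ) (f : Fin 7 → ℤ) {m u u' v v' x x' y y' : ℤ} (hu : m ∣ u - u')
    (hv : m ∣ v - v') (hx : m ∣ x - x') (hy : m ∣ y - y') :
    m ∣ Psi a f u v x y - Psi a f u' v' x' y' := by
  have h1 := bf_cong a hu hv
  have h2 := bf_cong f hu hv
  have e : Psi a f u v x y - Psi a f u' v' x' y' = (y - y') * (y + y') -
      (x - x') * (x ^ 2 + x * x' + x' ^ 2) - (bf a u v - bf a u' v') * x - bf a u' v' * (x - x') -
      (bf f u v - bf f u' v') := by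
    unfold Psi
    ring
  rw [e]
  exact dvd_sub (dvd_sub (dvd_sub (dvd_sub (hy.mul_right _) (hx.mul_right _)) (h1.mul_right _))
    (hx.mul_left _)) h2

theorem bf_hom {d : ℕ} (g : Fin (d + 1) → ℤ) (m u v : ℤ) :
    bf g (m * u) (m * v) = bf (fun i => m ^ d * g i) u v := by
  unfold bf
  apply Finset.sum_congr rfl
  intro i _
  have h1 : (i : ℕ) ≤ d := by omega
  have h2 : m ^ d = m ^ (d - (i : ℕ)) * m ^ (i : ℕ) := by
    rw [← pow_add, Nat.sub_add_cancel h1]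
  rw [h2, mul_pow, mul_pow]
  push_cast
  ring

theorem psi_hom (a : Fin 5 → ℤ) (f : Fin 7 → ℤ) (m u v x y : ℤ) :
    Psi (fun i => m ^ 4 * a i) (fun i => m ^ 6 * f i) u v x y = Psi a f (m * u) (m * v) x y := by
  unfold Psi
  rw [bf_hom a, bf_hom f]

end STAB

open STAB in
theorem t_STAB : S_STAB := by
  intro w N M κ t a f hN hw hNw hκ hdat
  obtain ⟨E, hE⟩ : ∃ E, E = κ + 6 * (N + 1) + M + 2 := ⟨_, rfl⟩
  obtain ⟨P, hPdef⟩ : ∃ P : Finset ℕ, P = (Finset.range (w + 1)).filter Nat.Prime := ⟨_, rfl⟩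
  have hPm : ∀ p, p ∈ P ↔ p.Prime ∧ p ≤ w := by
    intro p
    rw [hPdef, Finset.mem_filter, Finset.mem_range]
    constructor
    · rintro ⟨h1, h2⟩; exact ⟨h2, by omega⟩
    · rintro ⟨h1, h2⟩; exact ⟨by omega, h1⟩
  have hPp : ∀ p ∈ P, p.Prime := fun p hp => ((hPm p).1 hp).1
  -- choice of the data
  have hd : ∀ p : ℕ, ∃ (s j : ℕ) (u v x y : ℤ), p.Prime → p ≤ w → s ≤ N + 1 ∧ j ≤ M + 1 ∧
      DatP a f p E s j u v x y ∧
      ∀ k : ℕ, p ^ k ∣ N → CongT ((p : ℤ) ^ k) t ((p : ℤ) ^ s * u) ((p : ℤ) ^ s * v) x y := by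
    intro p
    by_cases hp : p.Prime ∧ p ≤ w
    · obtain ⟨s, j, u, v, x, y, h⟩ := hdat p hp.1 hp.2 E
      exact ⟨s, j, u, v, x, y, fun _ _ => h⟩
    · exact ⟨0, 0, 0, 0, 0, 0, fun h1 h2 => absurd ⟨h1, h2⟩ hp⟩
  choose s j u v x y hD using hd
  have hs : ∀ p ∈ P, s p ≤ N + 1 := fun p hp => (hD p ((hPm p).1 hp).1 ((hPm p).1 hp).2).1
  have hj : ∀ p ∈ P, j p ≤ M + 1 := fun p hp => (hD p ((hPm p).1 hp).1 ((hPm p).1 hp).2).2.1
  have hdt : ∀ p ∈ P, DatP a f p E (s p) (j p) (u p) (v p) (x p) (y p) :=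
    fun p hp => (hD p ((hPm p).1 hp).1 ((hPm p).1 hp).2).2.2.1
  have hcg : ∀ p ∈ P, ∀ k : ℕ, p ^ k ∣ N →
      CongT ((p : ℤ) ^ k) t ((p : ℤ) ^ s p * u p) ((p : ℤ) ^ s p * v p) (x p) (y p) :=
    fun p hp => (hD p ((hPm p).1 hp).1 ((hPm p).1 hp).2).2.2.2
  obtain ⟨M₀, hM₀⟩ : ∃ M₀ : ℕ, M₀ = ∏ p ∈ P, p ^ s p := ⟨_, rfl⟩
  obtain ⟨J, hJ⟩ : ∃ J : ℕ, J = ∏ p ∈ P, p ^ j p := ⟨_, rfl⟩
  obtain ⟨S, hS⟩ : ∃ S : ℕ, S = ∏ p ∈ P, p ^ (κ + 6 * s p - j p) := ⟨_, rfl⟩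
  have hpos : ∀ k : ℕ → ℕ, 0 < ∏ p ∈ P, p ^ k p :=
    fun k => Finset.prod_pos fun p hp => pow_pos (hPp p hp).pos _
  -- the solution of `M₀ z = p ^ s u`
  have hsol : ∀ c : ℕ → ℤ, ∃ z : ℤ, ∀ p ∈ P, (p : ℤ) ^ E ∣ (M₀ : ℤ) * z - (p : ℤ) ^ s p * c p ∧
      ((p : ℤ) ∣ z → (p : ℤ) ∣ c p) := by
    intro c
    have h1 : ∀ p : ℕ, ∃ c' : ℤ, p ∈ P → (p : ℤ) ^ E ∣ ((∏ q ∈ P.erase p, q ^ s q : ℕ) : ℤ) * c' - c p := by
      intro p
      by_cases hp : p ∈ P
      · have hcop : IsCoprime ((∏ q ∈ P.erase p, q ^ s q : ℕ) : ℤ) ((p : ℤ) ^ E) := by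
          push_cast
          apply IsCoprime.prod_left
          intro q hq
          rw [Finset.mem_erase] at hq
          exact cop (hPp q hq.2) (hPp p hp) hq.1 _ _
        obtain ⟨α, β, hαβ⟩ := hcop
        refine ⟨α * c p, fun _ => ⟨- β * c p, ?_⟩⟩
        linear_combination c p * hαβ
      · exact ⟨0, fun h => absurd h hp⟩
    choose c' hc' using h1
    obtain ⟨z, hz⟩ := crt P E c' hPp
    refine ⟨z, fun p hp => ?_⟩
    have hM : (M₀ : ℤ) = (p : ℤ) ^ s p * ((∏ q ∈ P.erase p, q ^ s q : ℕ) : ℤ) := by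
      rw [hM₀, ← Finset.mul_prod_erase P (fun q => q ^ s q) hp]
      push_cast
      ring
    have h2 : (p : ℤ) ^ E ∣ ((∏ q ∈ P.erase p, q ^ s q : ℕ) : ℤ) * z - c p := by
      have h3 := dvd_add ((hz p hp).mul_left ((∏ q ∈ P.erase p, q ^ s q : ℕ) : ℤ)) (hc' p hp)
      have e : ((∏ q ∈ P.erase p, q ^ s q : ℕ) : ℤ) * (z - c' p) +
          (((∏ q ∈ P.erase p, q ^ s q : ℕ) : ℤ) * c' p - c p) =
          ((∏ q ∈ P.erase p, q ^ s q : ℕ) : ℤ) * z - c p := by ring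
      rwa [e] at h3
    constructor
    · rw [hM]
      have e : (p : ℤ) ^ s p * ((∏ q ∈ P.erase p, q ^ s q : ℕ) : ℤ) * z - (p : ℤ) ^ s p * c p =
        (p : ℤ) ^ s p * (((∏ q ∈ P.erase p, q ^ s q : ℕ) : ℤ) * z - c p) := by ring
      rw [e]
      exact h2.mul_left _
    · intro h4
      have h5 : (p : ℤ) ∣ (p : ℤ) ^ E := dvd_pow_self _ (by omega)
      have h6 := dvd_sub (h4.mul_left ((∏ q ∈ P.erase p, q ^ s q : ℕ) : ℤ)) (h5.trans h2)
      have e : ((∏ q ∈ P.erase p, q ^ s q : ℕ) : ℤ) * z -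
        (((∏ q ∈ P.erase p, q ^ s q : ℕ) : ℤ) * z - c p) = c p := by ring
      rwa [e] at h6
  obtain ⟨uc, huc⟩ := hsol u
  obtain ⟨vc, hvc⟩ := hsol v
  obtain ⟨xc, hxc⟩ := crt P E x hPp
  obtain ⟨yc, hyc⟩ := crt P E y hPp
  -- the number `N`
  have hfac : N = ∏ p ∈ P, p ^ N.factorization p := by
    have h1 := Nat.prod_factorization_pow_eq_self (n := N) (by omega)
    have h2 : N.factorization.prod (fun x1 x2 => x1 ^ x2) = ∏ p ∈ P, p ^ N.factorization p := by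
      apply Finsupp.prod_of_support_subset
      · intro p hp
        rw [Nat.support_factorization, Nat.mem_primeFactors] at hp
        exact (hPm p).2 ⟨hp.1, hNw p hp.1 hp.2.1⟩
      · intro p _
        exact pow_zero p
    rw [← h2]
    exact h1.symm
  have hv : ∀ p, N.factorization p ≤ N := fun p => (Nat.factorization_lt p (by omega)).le
  have hNd : ∀ z : ℤ, (∀ p ∈ P, (p : ℤ) ^ N.factorization p ∣ z) → (N : ℤ) ∣ z := by
    intro z h
    have := prod_dvd P hPp (fun p => N.factorization p) z h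
    rwa [← hfac] at this
  have hSJ : S * J = ∏ p ∈ P, p ^ (κ + 6 * s p) := by
    rw [hS, hJ, ← Finset.prod_mul_distrib]
    apply Finset.prod_congr rfl
    intro p hp
    have := hj p hp
    rw [← pow_add]
    congr 1
    omega
  -- `J` divides `2 yc`
  have hJy : (J : ℤ) ∣ 2 * yc := by
    rw [hJ]
    apply prod_dvd P hPp
    intro p hp
    have h1 := (hdt p hp).hj
    have h2 : (p : ℤ) ^ j p ∣ (p : ℤ) ^ E := pow_dvd_pow _ (by have := hj p hp; omega)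
    have h3 := dvd_add ((h2.trans (hyc p hp)).mul_left 2) h1
    have e : 2 * (yc - y p) + 2 * y p = 2 * yc := by ring
    rwa [e] at h3
  obtain ⟨y₁, hy₁⟩ := hJy
  refine ⟨M₀, S, J, uc, vc, xc, yc, ?_, ?_, ?_, ⟨?_, ?_, ?_, ?_, ?_, ⟨y₁, hy₁, ?_⟩, ?_⟩, ?_, ?_, ?_, ?_, ?_⟩
  · rw [hM₀]
    exact hpos s
  · have e : prim w ^ (N + 1) = ∏ p ∈ P, p ^ (N + 1) := by
      unfold prim
      rw [← hPdef, Finset.prod_pow]
    rw [e, hM₀]
    apply Finset.prod_le_prod'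
    intro p hp
    exact Nat.pow_le_pow_right (hPp p hp).pos (hs p hp)
  · have e : prim w ^ κ * M₀ ^ 6 = ∏ p ∈ P, p ^ (κ + 6 * s p) := by
      unfold prim
      rw [← hPdef, hM₀, ← Finset.prod_pow, ← Finset.prod_pow, ← Finset.prod_mul_distrib]
      apply Finset.prod_congr rfl
      intro p hp
      rw [← pow_mul, ← pow_add]
      congr 1
      ring
    rw [e, hSJ]
  · show 0 < S
    rw [hS]
    exact hpos _
  · show 0 < J
    rw [hJ]
    exact hpos _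
  · intro p hp hpw
    show p * J ∣ S
    have hpP : p ∈ P := (hPm p).2 ⟨hp, hpw⟩
    have e : S = (∏ p ∈ P, p ^ (κ + 6 * s p - j p - j p)) * J := by
      rw [hS, hJ, ← Finset.prod_mul_distrib]
      apply Finset.prod_congr rfl
      intro q hq
      have := hj q hq
      rw [← pow_add]
      congr 1
      omega
    rw [e]
    apply Nat.mul_dvd_mul_right
    have h1 : p ^ (κ + 6 * s p - j p - j p) ∣ ∏ p ∈ P, p ^ (κ + 6 * s p - j p - j p) :=
      Finset.dvd_prod_of_mem (fun p => p ^ (κ + 6 * s p - j p - j p)) hpP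
    exact (dvd_pow_self p (by have := hj p hpP; omega)).trans h1
  · intro p hp hpS
    have h1 : p ∣ S := hpS
    rw [hS, Prime.dvd_finset_prod_iff hp.prime] at h1
    obtain ⟨q, hq, h2⟩ := h1
    have h3 := hp.dvd_of_dvd_pow h2
    rw [(Nat.prime_dvd_prime_iff_eq hp (hPp q hq)).1 h3]
    exact ((hPm q).1 hq).2
  · intro p hp hpw
    have hpP : p ∈ P := (hPm p).2 ⟨hp, hpw⟩
    rintro ⟨h1, h2⟩
    exact (hdt p hpP).hprim ⟨(huc p hpP).2 h1, (hvc p hpP).2 h2⟩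
  · show IsCoprime y₁ (S : ℤ)
    rw [hS]
    push_cast
    apply IsCoprime.prod_right
    intro p hp
    apply IsCoprime.pow_right
    apply IsCoprime.symm
    have hpp : Prime (p : ℤ) := Nat.prime_iff_prime_int.1 (hPp p hp)
    rw [Prime.coprime_iff_not_dvd hpp]
    intro h1
    apply (hdt p hp).hj'
    have h2 : (p : ℤ) ^ (j p + 1) ∣ 2 * yc := by
      rw [hy₁, pow_succ]
      apply mul_dvd_mul _ h1
      rw [hJ]
      push_cast
      exact Finset.dvd_prod_of_mem (fun q : ℕ => (q : ℤ) ^ j q) hp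
    have h3 : (p : ℤ) ^ (j p + 1) ∣ (p : ℤ) ^ E := pow_dvd_pow _ (by have := hj p hp; omega)
    have h4 := dvd_sub h2 ((h3.trans (hyc p hp)).mul_left 2)
    have e : 2 * yc - 2 * (yc - y p) = 2 * y p := by ring
    rwa [e] at h4
  · show ((S * J : ℕ) : ℤ) ∣ Psi (fun i => (M₀ : ℤ) ^ 4 * a i) (fun i => (M₀ : ℤ) ^ 6 * f i) uc vc xc yc
    rw [hSJ]
    apply prod_dvd P hPp
    intro p hp
    rw [psi_hom]
    have h1 := psi_cong a f (huc p hp).1 (hvc p hp).1 (hxc p hp) (hyc p hp)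
    have h2 := dvd_add h1 (hdt p hp).hE
    rw [sub_add_cancel] at h2
    exact (pow_dvd_pow _ (by have := hs p hp; omega)).trans h2
  · rw [hfac, hS]
    apply Finset.prod_dvd_prod_of_dvd
    intro p hp
    exact pow_dvd_pow _ (by have := hj p hp; have := hv p; omega)
  · apply hNd
    intro p hp
    have h1 := (hcg p hp (N.factorization p) (Nat.ordProj_dvd N p)).1
    have h2 : (p : ℤ) ^ N.factorization p ∣ (p : ℤ) ^ E :=
      pow_dvd_pow _ (by have := hv p; omega)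
    have h3 := dvd_add (h2.trans (huc p hp).1) h1
    have e : (M₀ : ℤ) * uc - (p : ℤ) ^ s p * u p + ((p : ℤ) ^ s p * u p - t.cu) =
      (M₀ : ℤ) * uc - t.cu := by ring
    rwa [e] at h3
  · apply hNd
    intro p hp
    have h1 := (hcg p hp (N.factorization p) (Nat.ordProj_dvd N p)).2.1
    have h2 : (p : ℤ) ^ N.factorization p ∣ (p : ℤ) ^ E :=
      pow_dvd_pow _ (by have := hv p; omega)
    have h3 := dvd_add (h2.trans (hvc p hp).1) h1
    have e : (M₀ : ℤ) * vc - (p : ℤ) ^ s p * v p + ((p : ℤ) ^ s p * v p - t.cv) =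
      (M₀ : ℤ) * vc - t.cv := by ring
    rwa [e] at h3
  · apply hNd
    intro p hp
    have h1 := (hcg p hp (N.factorization p) (Nat.ordProj_dvd N p)).2.2.1
    have h2 : (p : ℤ) ^ N.factorization p ∣ (p : ℤ) ^ E :=
      pow_dvd_pow _ (by have := hv p; omega)
    have h3 := dvd_add (h2.trans (hxc p hp)) h1
    have e : xc - x p + (x p - t.cx) = xc - t.cx := by ring
    rwa [e] at h3
  · apply hNd
    intro p hp
    have h1 := (hcg p hp (N.factorization p) (Nat.ordProj_dvd N p)).2.2.2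
    have h2 : (p : ℤ) ^ N.factorization p ∣ (p : ℤ) ^ E :=
      pow_dvd_pow _ (by have := hv p; omega)
    have h3 := dvd_add (h2.trans (hyc p hp)) h1
    have e : yc - y p + (y p - t.cy) = yc - t.cy := by ring
    rwa [e] at h3

end Pool.Agent.DPO
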