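import Pool.Agent.DPO.Stm

/-!
# Project DPO, piece TAU: the divisor bound
-/

set_option autoImplicit false

namespace Pool.Agent.DPO

open Finset

namespace TAU

theorem small (e : ℕ) : (e + 1) ^ 6 ≤ 2100 * 2 ^ e := by
  by_cases h : e < 9
  · interval_cases e <;> norm_num
  · push Not at h
    induction e, h using Nat.le_induction with
    | base => norm_num
    | succ e he ih =>
      have h1 : (e + 1 + 1) ^ 6 ≤ 2 * (e + 1) ^ 6 := by
        obtain ⟨k, rfl⟩ := Nat.exists_eq_add_of_le he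
        ring_nf
        have : 0 ≤ k := Nat.zero_le k
        nlinarith [pow_nonneg this 2, pow_nonneg this 3, pow_nonneg this 4, pow_nonneg this 5,
          pow_nonneg this 6]
      calc (e + 1 + 1) ^ 6 ≤ 2 * (e + 1) ^ 6 := h1
        _ ≤ 2 * (2100 * 2 ^ e) := by omega
        _ = 2100 * 2 ^ (e + 1) := by ring

theorem fac {p : ℕ} (hp : p.Prime) (e : ℕ) :
    (e + 1) ^ 6 ≤ (if p < 64 then 2100 else 1) * p ^ e := by
  split_ifs with h
  · exact (small e).trans (Nat.mul_le_mul_left _ (Nat.pow_le_pow_left hp.two_le e))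
  · push Not at h
    rw [one_mul]
    calc (e + 1) ^ 6 ≤ (2 ^ e) ^ 6 := Nat.pow_le_pow_left (Nat.lt_two_pow_self) 6
      _ = 64 ^ e := by rw [← pow_mul, mul_comm, pow_mul]; norm_num
      _ ≤ p ^ e := Nat.pow_le_pow_left h e

theorem six {n : ℕ} (hn : n ≠ 0) : n.divisors.card ^ 6 ≤ 2100 ^ 64 * n := by
  rw [Nat.card_divisors hn, ← Finset.prod_pow]
  calc ∏ x ∈ n.primeFactors, (n.factorization x + 1) ^ 6
      ≤ ∏ x ∈ n.primeFactors, ((if x < 64 then 2100 else 1) * x ^ n.factorization x) :=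
        Finset.prod_le_prod' fun p hp => fac (Nat.prime_of_mem_primeFactors hp) _
    _ = (∏ x ∈ n.primeFactors, (if x < 64 then 2100 else 1)) *
        ∏ x ∈ n.primeFactors, x ^ n.factorization x := Finset.prod_mul_distrib
    _ = (∏ x ∈ n.primeFactors, (if x < 64 then 2100 else 1)) * n := by
        congr 1
        exact Nat.prod_factorization_pow_eq_self hn
    _ ≤ 2100 ^ 64 * n := by
        apply Nat.mul_le_mul_right
        rw [← Finset.prod_filter, Finset.prod_const]
        apply Nat.pow_le_pow_right (by norm_num)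
        calc (n.primeFactors.filter (fun x => x < 64)).card ≤ (Finset.range 64).card := by
              apply Finset.card_le_card
              intro x hx
              rw [Finset.mem_filter] at hx
              exact Finset.mem_range.mpr hx.2
          _ = 64 := Finset.card_range 64

end TAU

open TAU in
theorem t_TAU : S_TAU := by
  obtain ⟨K, hK0, hK⟩ : ∃ K : ℕ, 0 < K ∧ ∀ n : ℕ, n ≠ 0 → n.divisors.card ^ 6 ≤ K * n :=
    ⟨2100 ^ 64, Nat.pow_pos (by norm_num), fun n hn => six hn⟩
  have hK1 : (0 : ℝ) < K := by exact_mod_cast hK0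
  refine ⟨(K : ℝ) ^ (1 / 6 : ℝ), Real.rpow_pos_of_pos hK1 _, fun n hn => ?_⟩
  have h := hK n hn.ne'
  have h1 : ((n.divisors.card : ℝ)) ^ 6 ≤ (K : ℝ) * n := by exact_mod_cast h
  have h2 : (0 : ℝ) ≤ (n.divisors.card : ℝ) := Nat.cast_nonneg _
  have h3 : ((n.divisors.card : ℝ)) = (((n.divisors.card : ℝ)) ^ 6) ^ (1 / 6 : ℝ) := by
    rw [← Real.rpow_natCast, ← Real.rpow_mul h2]
    norm_num
  rw [h3, ← Real.mul_rpow (Nat.cast_nonneg _) (Nat.cast_nonneg _)]
  exact Real.rpow_le_rpow (pow_nonneg h2 6) h1 (by norm_num)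

end Pool.Agent.DPO
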