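import Pool.Agent.DPO.Stm

/-!
# Project DPO, piece UCARD: many primitive base points
-/

set_option autoImplicit false

namespace Pool.Agent.DPO

open Finset

namespace UCARD

/-- the number of the elements divisible by a prime `q` not dividing `m` -/
theorem divq (h3 : S_ICNT) (lo hi : ℝ) (hlh : lo ≤ hi) (m : ℕ) (hm : 0 < m) (r : ℤ) (q : ℕ)
    (hq : 0 < q) (hqm : Nat.Coprime m q) :
    (((setI lo hi m r).filter (fun x => (q : ℤ) ∣ x)).card : ℝ) ≤ (hi - lo) / m / q + 1 := by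
  have h := h3.1 ((setI lo hi m r).filter (fun x => (q : ℤ) ∣ x)) (m * q) (hi - lo)
    (Nat.mul_pos hm hq) (by linarith) (by
      intro a ha b hb
      rw [Finset.mem_filter, mem_setI] at ha hb
      refine ⟨?_, ?_⟩
      · push_cast
        have e1 : (m : ℤ) ∣ a - b := by
          have := dvd_sub ha.1.2 hb.1.2
          have e2 : a - r - (b - r) = a - b := by ring
          rwa [e2] at this
        have e2 : (q : ℤ) ∣ a - b := dvd_sub ha.2 hb.2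
        exact (Nat.isCoprime_iff_coprime.mpr hqm).mul_dvd e1 e2
      · rw [abs_le]
        constructor <;> linarith [ha.1.1.1, ha.1.1.2, hb.1.1.1, hb.1.1.2])
  push_cast at h
  rwa [← div_div] at h

/-- sum of the inverse squares -/
theorem invsq (k N : ℕ) (hk : k ≠ 0) :
    ∑ i ∈ Finset.Ioc k N, (((i : ℝ)) ^ 2)⁻¹ ≤ 1 / (k : ℝ) := by
  by_cases h : k ≤ N
  · have h1 := sum_Ioc_inv_sq_le_sub (α := ℝ) hk h
    have h2 : (0 : ℝ) ≤ (N : ℝ)⁻¹ := by positivity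
    refine h1.trans ?_
    rw [one_div]
    linarith
  · push Not at h
    rw [Finset.Ioc_eq_empty (by omega)]
    simp

end UCARD

open UCARD in
theorem t_UCARD (h3 : S_ICNT) : S_UCARD := by
  classical
  intro γ C₀ ρ η κ τ hc Q₀
  have hρ := hc.ρ0
  have hγ := hc.γ0
  have hC1 := hc.C1
  refine ⟨max 1 (max (4 * Q₀ / ρ) (2 * C₀ * Q₀ ^ 2 / ρ ^ 2)), le_max_left _ _, ?_⟩
  intro H hH w C R hw hPD hRD hQ
  have hH0 : 1 ≤ H := le_trans (le_max_left _ _) hH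
  have hHa : 4 * Q₀ / ρ ≤ H := le_trans (le_trans (le_max_left _ _) (le_max_right _ _)) hH
  have hHb : 2 * C₀ * Q₀ ^ 2 / ρ ^ 2 ≤ H :=
    le_trans (le_trans (le_max_right _ _) (le_max_right _ _)) hH
  have hHp : 0 < H := by linarith
  have hHH : H ≤ H ^ 2 := le_self_pow₀ hH0 (by norm_num)
  set m : ℕ := C.S * C.J with hm
  have hm0 : 0 < m := Nat.mul_pos hPD.hS hPD.hJ
  have hmR : (0 : ℝ) < m := by exact_mod_cast hm0
  have hmQ : (m : ℝ) ≤ Q₀ := by exact_mod_cast hQ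
  have hQ0 : (0 : ℝ) < Q₀ := by linarith
  set U₁ := setI (R.ξ * H ^ 2 - ρ * H ^ 2) (R.ξ * H ^ 2 + ρ * H ^ 2) m C.uc with hU₁
  set U₂ := setI (R.υ * H ^ 2 - ρ * H ^ 2) (R.υ * H ^ 2 + ρ * H ^ 2) m C.vc with hU₂
  set X : ℝ := 2 * ρ * H ^ 2 / m with hX
  have hX0 : 0 ≤ X := by positivity
  have hU1c : X - 1 ≤ (U₁.card : ℝ) := by
    have := h3.2 (R.ξ * H ^ 2 - ρ * H ^ 2) (R.ξ * H ^ 2 + ρ * H ^ 2) m C.uc hm0
    have e : (R.ξ * H ^ 2 + ρ * H ^ 2 - (R.ξ * H ^ 2 - ρ * H ^ 2)) = 2 * ρ * H ^ 2 := by ring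
    rwa [e] at this
  have hU2c : X - 1 ≤ (U₂.card : ℝ) := by
    have := h3.2 (R.υ * H ^ 2 - ρ * H ^ 2) (R.υ * H ^ 2 + ρ * H ^ 2) m C.vc hm0
    have e : (R.υ * H ^ 2 + ρ * H ^ 2 - (R.υ * H ^ 2 - ρ * H ^ 2)) = 2 * ρ * H ^ 2 := by ring
    rwa [e] at this
  have hsp : (setU H ρ C R).card +
      ((U₁ ×ˢ U₂).filter (fun p => ¬ Int.gcd p.1 p.2 = 1)).card = U₁.card * U₂.card := by
    rw [← Finset.card_product]
    exact Finset.card_filter_add_card_filter_not (s := U₁ ×ˢ U₂) (fun p => Int.gcd p.1 p.2 = 1)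
  set N : ℕ := ⌊C₀ * H ^ 2⌋₊ with hN
  obtain ⟨k, hk⟩ : ∃ k : ℕ, k = 729 := ⟨_, rfl⟩
  have hkR : (k : ℝ) = 729 := by rw [hk]; norm_num
  have hNle : (N : ℝ) ≤ C₀ * H ^ 2 := Nat.floor_le (by positivity)
  set P : Finset ℕ := (Finset.Ioc k N).filter (fun q => Nat.Coprime m q) with hP
  have hsub : (U₁ ×ˢ U₂).filter (fun p => ¬ Int.gcd p.1 p.2 = 1) ⊆
      P.biUnion (fun q => (U₁.filter (fun x => (q : ℤ) ∣ x)) ×ˢ (U₂.filter (fun x => (q : ℤ) ∣ x))) := by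
    rintro ⟨u, v⟩ huv
    rw [Finset.mem_filter, Finset.mem_product] at huv
    obtain ⟨⟨hu, hv⟩, hg⟩ := huv
    simp only at hu hv hg
    obtain ⟨q, hq, hqd⟩ := Nat.exists_prime_and_dvd hg
    have hqu : (q : ℤ) ∣ u := (Int.natCast_dvd_natCast.mpr hqd).trans (Int.gcd_dvd_left _ _)
    have hqv : (q : ℤ) ∣ v := (Int.natCast_dvd_natCast.mpr hqd).trans (Int.gcd_dvd_right _ _)
    have hu' := mem_setI.mp hu
    have hv' := mem_setI.mp hv
    have hInU : InU H ρ R u v := by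
      unfold InU
      rw [abs_le, abs_le]
      refine ⟨⟨?_, ?_⟩, ?_, ?_⟩ <;> linarith [hu'.1.1, hu'.1.2, hv'.1.1, hv'.1.2]
    obtain ⟨hb1, hb2, hb3⟩ := hRD.hu u v hInU
    have hqw : w < q := by
      by_contra hcon
      push Not at hcon
      have h1 : q ∣ C.S := (Dvd.intro _ rfl).trans (hPD.hpJ q hq hcon)
      have h2 : (q : ℤ) ∣ (m : ℤ) := by
        rw [hm]; exact_mod_cast h1.mul_right C.J
      refine hPD.hprim q hq hcon ⟨?_, ?_⟩
      · have h4 := dvd_sub hqu (h2.trans hu'.2)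
        have e : u - (u - C.uc) = C.uc := by ring
        rwa [e] at h4
      · have h4 := dvd_sub hqv (h2.trans hv'.2)
        have e : v - (v - C.vc) = C.vc := by ring
        rwa [e] at h4
    have hcop : Nat.Coprime m q := by
      rw [Nat.coprime_comm, hq.coprime_iff_not_dvd]
      intro hd
      rw [hm, hq.dvd_mul] at hd
      have hJS : C.J ∣ C.S := (Dvd.intro_left _ rfl).trans (hPD.hpJ 2 Nat.prime_two (by omega))
      have : q ∣ C.S := by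
        rcases hd with hd | hd
        · exact hd
        · exact hd.trans hJS
      have := hPD.hw q hq this
      omega
    have hqN : q ≤ N := by
      rw [hN]
      apply Nat.le_floor
      refine le_trans ?_ hb2
      have hu0 : u ≠ 0 := by
        rintro rfl
        rw [Int.cast_zero, abs_zero] at hb1
        have : 0 < γ * H ^ 2 := by positivity
        linarith
      have h5 : (q : ℤ) ≤ |u| := Int.le_of_dvd (abs_pos.mpr hu0) ((dvd_abs _ _).mpr hqu)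
      exact_mod_cast h5
    rw [Finset.mem_biUnion]
    refine ⟨q, ?_, ?_⟩
    · rw [hP, Finset.mem_filter, Finset.mem_Ioc]
      exact ⟨⟨by omega, hqN⟩, hcop⟩
    · rw [Finset.mem_product, Finset.mem_filter, Finset.mem_filter]
      exact ⟨⟨hu, hqu⟩, hv, hqv⟩
  have hbad : (((U₁ ×ˢ U₂).filter (fun p => ¬ Int.gcd p.1 p.2 = 1)).card : ℝ) ≤
      2 * X ^ 2 / 729 + 2 * (C₀ * H ^ 2) := by
    have e1 : ((U₁ ×ˢ U₂).filter (fun p => ¬ Int.gcd p.1 p.2 = 1)).card ≤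
        ∑ q ∈ P, ((U₁.filter (fun x => (q : ℤ) ∣ x)) ×ˢ (U₂.filter (fun x => (q : ℤ) ∣ x))).card :=
      (Finset.card_le_card hsub).trans Finset.card_biUnion_le
    have e2 : (((U₁ ×ˢ U₂).filter (fun p => ¬ Int.gcd p.1 p.2 = 1)).card : ℝ) ≤
        ∑ q ∈ P, (((U₁.filter (fun x => (q : ℤ) ∣ x)) ×ˢ
          (U₂.filter (fun x => (q : ℤ) ∣ x))).card : ℝ) := by exact_mod_cast e1
    have e3 : ∀ q ∈ P, (((U₁.filter (fun x => (q : ℤ) ∣ x)) ×ˢ
        (U₂.filter (fun x => (q : ℤ) ∣ x))).card : ℝ) ≤ 2 * X ^ 2 * ((q : ℝ) ^ 2)⁻¹ + 2 := by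
      intro q hq
      rw [hP, Finset.mem_filter, Finset.mem_Ioc] at hq
      have hq0 : 0 < q := by omega
      have hqR : (0 : ℝ) < q := by exact_mod_cast hq0
      have e4 := divq h3 (R.ξ * H ^ 2 - ρ * H ^ 2) (R.ξ * H ^ 2 + ρ * H ^ 2)
        (by have : 0 < ρ * H ^ 2 := by positivity
            linarith) m hm0 C.uc q hq0 hq.2
      have e5 := divq h3 (R.υ * H ^ 2 - ρ * H ^ 2) (R.υ * H ^ 2 + ρ * H ^ 2)
        (by have : 0 < ρ * H ^ 2 := by positivity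
            linarith) m hm0 C.vc q hq0 hq.2
      rw [show (R.ξ * H ^ 2 + ρ * H ^ 2 - (R.ξ * H ^ 2 - ρ * H ^ 2)) = 2 * ρ * H ^ 2 by ring,
        ← hX] at e4
      rw [show (R.υ * H ^ 2 + ρ * H ^ 2 - (R.υ * H ^ 2 - ρ * H ^ 2)) = 2 * ρ * H ^ 2 by ring,
        ← hX] at e5
      rw [Finset.card_product]
      push_cast
      calc _ ≤ (X / q + 1) * (X / q + 1) :=
            mul_le_mul e4 e5 (Nat.cast_nonneg _) (by positivity)
        _ ≤ 2 * (X / q) ^ 2 + 2 := by nlinarith [sq_nonneg (X / q - 1)]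
        _ = 2 * X ^ 2 * ((q : ℝ) ^ 2)⁻¹ + 2 := by rw [div_pow]; ring
    calc _ ≤ ∑ q ∈ P, (2 * X ^ 2 * ((q : ℝ) ^ 2)⁻¹ + 2) := e2.trans (Finset.sum_le_sum e3)
      _ ≤ ∑ q ∈ Finset.Ioc k N, (2 * X ^ 2 * ((q : ℝ) ^ 2)⁻¹ + 2) := by
          apply Finset.sum_le_sum_of_subset_of_nonneg (Finset.filter_subset _ _)
          intro q _ _
          positivity
      _ = 2 * X ^ 2 * ∑ q ∈ Finset.Ioc k N, ((q : ℝ) ^ 2)⁻¹ + 2 * ((Finset.Ioc k N).card : ℝ) := by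
          rw [Finset.sum_add_distrib, Finset.mul_sum, Finset.sum_const, nsmul_eq_mul]
          ring
      _ ≤ 2 * X ^ 2 * (1 / 729) + 2 * (C₀ * H ^ 2) := by
          have e6 := invsq k N (by omega)
          rw [hkR] at e6
          have e7 : ((Finset.Ioc k N).card : ℝ) ≤ C₀ * H ^ 2 := by
            refine le_trans ?_ hNle
            rw [Nat.card_Ioc]
            exact_mod_cast Nat.sub_le _ _
          have e8 : 2 * X ^ 2 * ∑ q ∈ Finset.Ioc k N, ((q : ℝ) ^ 2)⁻¹ ≤ 2 * X ^ 2 * (1 / 729) :=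
            mul_le_mul_of_nonneg_left e6 (by positivity)
          linarith
      _ = 2 * X ^ 2 / 729 + 2 * (C₀ * H ^ 2) := by ring
  -- the estimate
  have hX8 : 8 ≤ X := by
    rw [hX, le_div_iff₀ hmR]
    rw [div_le_iff₀ hρ] at hHa
    nlinarith
  have hXX : 8 * (C₀ * H ^ 2) ≤ X ^ 2 := by
    rw [div_le_iff₀ (by positivity)] at hHb
    rw [hX, div_pow, le_div_iff₀ (by positivity)]
    have e1 : (m : ℝ) ^ 2 ≤ (Q₀ : ℝ) ^ 2 := pow_le_pow_left₀ hmR.le hmQ 2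
    have e2 : 2 * C₀ * (Q₀ : ℝ) ^ 2 ≤ H ^ 2 * ρ ^ 2 :=
      hHb.trans (mul_le_mul_of_nonneg_right hHH (by positivity))
    calc 8 * (C₀ * H ^ 2) * (m : ℝ) ^ 2 ≤ 8 * (C₀ * H ^ 2) * (Q₀ : ℝ) ^ 2 :=
          mul_le_mul_of_nonneg_left e1 (by positivity)
      _ = 4 * H ^ 2 * (2 * C₀ * (Q₀ : ℝ) ^ 2) := by ring
      _ ≤ 4 * H ^ 2 * (H ^ 2 * ρ ^ 2) := mul_le_mul_of_nonneg_left e2 (by positivity)
      _ = (2 * ρ * H ^ 2) ^ 2 := by ring
  have hspR : ((setU H ρ C R).card : ℝ) +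
      (((U₁ ×ˢ U₂).filter (fun p => ¬ Int.gcd p.1 p.2 = 1)).card : ℝ) =
      (U₁.card : ℝ) * (U₂.card : ℝ) := by exact_mod_cast hsp
  have hprod : (X - 1) * (X - 1) ≤ (U₁.card : ℝ) * (U₂.card : ℝ) :=
    mul_le_mul hU1c hU2c (by linarith) (Nat.cast_nonneg _)
  have hfin : (ρ / (m : ℝ)) ^ 2 * H ^ 4 = X ^ 2 / 4 := by
    rw [hX, div_pow, div_pow]; ring
  rw [hfin]
  nlinarith

end Pool.Agent.DPO
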