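import Pool.Agent.DPO.Stm

/-!
Piece UNI: the divisibility lemma.
-/

set_option autoImplicit false

namespace Pool.Agent.DPO

theorem t_UNI : S_UNI := by
  intro w C hw hPD D hD hDS y y' hy hy' hdvd
  obtain ⟨y₁, h2y, hcop⟩ := hPD.hy
  have hJ : (C.J : ℤ) ≠ 0 := by exact_mod_cast hPD.hJ.ne'
  have hJS : C.J ∣ C.S := (Dvd.intro_left 2 rfl).trans (hPD.hpJ 2 Nat.prime_two hw)
  obtain ⟨S', hS'⟩ := hJS
  obtain ⟨k, hk⟩ := hy
  obtain ⟨k', hk'⟩ := hy'
  obtain ⟨z, hz⟩ : ∃ z : ℤ, z = y₁ + S' * (k + k') := ⟨_, rfl⟩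
  have hSc : (C.S : ℤ) = C.J * S' := by exact_mod_cast hS'
  have hsum : y + y' = C.J * z := by
    rw [hz]
    rw [hSc] at hk hk'
    linear_combination h2y + hk + hk'
  have hcopz : IsCoprime ((C.S * D : ℕ) : ℤ) z := by
    rw [Int.isCoprime_iff_gcd_eq_one]
    by_contra hne
    obtain ⟨p, hp, hpd⟩ := Nat.exists_prime_and_dvd hne
    have h1 : (p : ℤ) ∣ ((C.S * D : ℕ) : ℤ) :=
      (Int.natCast_dvd_natCast.2 hpd).trans (Int.gcd_dvd_left _ _)
    have h2 : (p : ℤ) ∣ z := (Int.natCast_dvd_natCast.2 hpd).trans (Int.gcd_dvd_right _ _)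
    have h3 : p ∣ C.S := by
      rcases hp.dvd_mul.1 (Int.natCast_dvd_natCast.1 h1) with h | h
      · exact h
      · exact hDS p hp h
    have h4 : p * C.J ∣ S' * C.J := by
      have h5 := hPD.hpJ p hp (hPD.hw p hp h3)
      rwa [hS', mul_comm C.J S'] at h5
    have h6 : (p : ℤ) ∣ S' := by
      exact_mod_cast (Nat.mul_dvd_mul_iff_right hPD.hJ).1 h4
    have h7 : (p : ℤ) ∣ y₁ := by
      have h8 : y₁ = z - S' * (k + k') := by rw [hz]; ring
      rw [h8]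
      exact dvd_sub h2 (h6.mul_right _)
    have h9 : IsUnit (p : ℤ) := hcop.isUnit_of_dvd' h7 (Int.natCast_dvd_natCast.2 h3)
    exact hp.one_lt.ne' (Int.ofNat_isUnit.1 h9 |> Nat.isUnit_iff.1)
  have h1 : ((C.S * D : ℕ) : ℤ) ∣ z * (y - y') := by
    have h2 : ((C.S * C.J * D : ℕ) : ℤ) = C.J * ((C.S * D : ℕ) : ℤ) := by
      push_cast
      ring
    have h3 : y ^ 2 - y' ^ 2 = C.J * (z * (y - y')) := by
      linear_combination (y - y') * hsum
    rw [h2, h3] at hdvd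
    exact (mul_dvd_mul_iff_left hJ).1 hdvd
  exact hcopz.dvd_of_dvd_mul_left h1

end Pool.Agent.DPO
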