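import Pool.Agent.DPO.Stm

/-!
# Project DPO, piece USUM: the average of `Gf`
-/

set_option autoImplicit false

namespace Pool.Agent.DPO

open Finset

namespace USumAux

theorem tail (e : ℝ) (he : 0 < e) : ∃ T : ℕ, ∀ s : Finset ℕ, (∀ δ ∈ s, T ≤ δ) →
    ∑ δ ∈ s, ((δ : ℝ) ^ (7 / 6 : ℝ))⁻¹ ≤ e := by
  have hs : Summable (fun n : ℕ => ((n : ℝ) ^ (7 / 6 : ℝ))⁻¹) :=
    Real.summable_nat_rpow_inv.mpr (by norm_num)
  obtain ⟨s₀, hs₀⟩ := summable_iff_vanishing_norm.mp hs e he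
  refine ⟨s₀.sup id + 1, fun s hsT => ?_⟩
  have hd : Disjoint s s₀ := by
    rw [Finset.disjoint_left]
    intro a ha ha'
    have h1 := hsT a ha
    have h2 : a ≤ s₀.sup id := Finset.le_sup (f := id) ha'
    omega
  have := hs₀ s hd
  rw [Real.norm_eq_abs] at this
  exact (le_abs_self _).trans this.le

/-- fibrewise bound of the number of elements -/
theorem card_fib {α β : Type*} [DecidableEq β] (s : Finset α) (t : Finset β) (f : α → β)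
    (hf : ∀ a ∈ s, f a ∈ t) (K : ℝ)
    (hK : ∀ b ∈ t, ((s.filter (fun a => f a = b)).card : ℝ) ≤ K) :
    (s.card : ℝ) ≤ t.card * K := by
  rw [Finset.card_eq_sum_card_fiberwise (f := f) (t := t) (fun a ha => hf a ha)]
  push_cast
  refine (Finset.sum_le_card_nsmul _ _ K hK).trans (le_of_eq ?_)
  rw [nsmul_eq_mul]

theorem cntA (h1 : S_ICNT) {H ρ : ℝ} {C : Cls} {R : Rcl} (hS : 0 < C.S) (hJ : 0 < C.J)
    (hρ : 0 ≤ ρ) (p : ℤ × ℤ) (hp : Int.gcd p.1 p.2 = 1) (δ : ℕ) (hδ : 0 < δ)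
    (hcop : Nat.Coprime (C.S * C.J) δ) :
    (((setU H ρ C R).filter (fun q => (δ : ℤ) ∣ det2 p q)).card : ℝ) ≤
      δ * (2 * ρ * H ^ 2 / ((C.S * C.J : ℕ) : ℝ) / δ + 1) ^ 2 := by
  have hbez : p.1 * Int.gcdA p.1 p.2 + p.2 * Int.gcdB p.1 p.2 = 1 := by
    have := Int.gcd_eq_gcd_ab p.1 p.2
    rw [hp] at this
    push_cast at this
    linarith
  set α := Int.gcdA p.1 p.2
  set β := Int.gcdB p.1 p.2
  have hδz : (0 : ℤ) < δ := by exact_mod_cast hδ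
  have h := card_fib ((setU H ρ C R).filter (fun q => (δ : ℤ) ∣ det2 p q))
    (Finset.Ico (0 : ℤ) δ) (fun q => (α * q.1 + β * q.2) % (δ : ℤ))
    (fun q _ => Finset.mem_Ico.mpr ⟨Int.emod_nonneg _ hδz.ne', Int.emod_lt_of_pos _ hδz⟩)
    ((2 * ρ * H ^ 2 / ((C.S * C.J : ℕ) : ℝ) / δ + 1) ^ 2) ?_
  · rw [Int.card_Ico, sub_zero, Int.toNat_natCast] at h
    exact h
  intro b _
  set F := ((setU H ρ C R).filter (fun q => (δ : ℤ) ∣ det2 p q)).filter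
    (fun q => (α * q.1 + β * q.2) % (δ : ℤ) = b) with hF
  have hcopz : IsCoprime ((C.S * C.J : ℕ) : ℤ) (δ : ℤ) := Nat.isCoprime_iff_coprime.mpr hcop
  have hdiff : ∀ q ∈ F, ∀ q' ∈ F, (((C.S * C.J * δ : ℕ) : ℤ) ∣ q.1 - q'.1 ∧
      |(q.1 : ℝ) - q'.1| ≤ 2 * ρ * H ^ 2) ∧ (((C.S * C.J * δ : ℕ) : ℤ) ∣ q.2 - q'.2 ∧
      |(q.2 : ℝ) - q'.2| ≤ 2 * ρ * H ^ 2) := by
    intro q hq q' hq'
    rw [hF, Finset.mem_filter, Finset.mem_filter, mem_setU] at hq hq'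
    obtain ⟨⟨⟨hU, hu, hv, _⟩, hd⟩, hl⟩ := hq
    obtain ⟨⟨⟨hU', hu', hv', _⟩, hd'⟩, hl'⟩ := hq'
    have hll : (δ : ℤ) ∣ (α * q.1 + β * q.2) - (α * q'.1 + β * q'.2) :=
      Int.ModEq.dvd (show (α * q'.1 + β * q'.2) % (δ : ℤ) = (α * q.1 + β * q.2) % (δ : ℤ) by
        rw [hl, hl'])
    obtain ⟨k, hk⟩ := hll
    obtain ⟨e, he⟩ := hd
    obtain ⟨e', he'⟩ := hd'
    unfold det2 at he he'
    have d1 : (δ : ℤ) ∣ q.1 - q'.1 := by
      refine ⟨p.1 * k - β * (e - e'), ?_⟩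
      linear_combination (q'.1 - q.1) * hbez + p.1 * hk - β * (he - he')
    have d2 : (δ : ℤ) ∣ q.2 - q'.2 := by
      refine ⟨p.2 * k + α * (e - e'), ?_⟩
      linear_combination (q'.2 - q.2) * hbez + p.2 * hk + α * (he - he')
    have s1 : ((C.S * C.J : ℕ) : ℤ) ∣ q.1 - q'.1 := by
      have := dvd_sub hu hu'
      rwa [sub_sub_sub_cancel_right] at this
    have s2 : ((C.S * C.J : ℕ) : ℤ) ∣ q.2 - q'.2 := by
      have := dvd_sub hv hv'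
      rwa [sub_sub_sub_cancel_right] at this
    have t1 := hcopz.mul_dvd s1 d1
    have t2 := hcopz.mul_dvd s2 d2
    have a1 := abs_le.mp hU.1
    have a2 := abs_le.mp hU.2
    have b1 := abs_le.mp hU'.1
    have b2 := abs_le.mp hU'.2
    refine ⟨⟨by exact_mod_cast t1, ?_⟩, ⟨by exact_mod_cast t2, ?_⟩⟩
    · rw [abs_le]
      constructor <;> linarith
    · rw [abs_le]
      constructor <;> linarith
  have hm : 0 < C.S * C.J * δ := by positivity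
  have hL : 0 ≤ 2 * ρ * H ^ 2 := by positivity
  have c1 := h1.1 (F.image Prod.fst) (C.S * C.J * δ) (2 * ρ * H ^ 2) hm hL (by
    intro a ha b hb
    rw [Finset.mem_image] at ha hb
    obtain ⟨q, hq, rfl⟩ := ha
    obtain ⟨q', hq', rfl⟩ := hb
    exact (hdiff q hq q' hq').1)
  have c2 := h1.1 (F.image Prod.snd) (C.S * C.J * δ) (2 * ρ * H ^ 2) hm hL (by
    intro a ha b hb
    rw [Finset.mem_image] at ha hb
    obtain ⟨q, hq, rfl⟩ := ha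
    obtain ⟨q', hq', rfl⟩ := hb
    exact (hdiff q hq q' hq').2)
  have hsub : F ⊆ (F.image Prod.fst) ×ˢ (F.image Prod.snd) := by
    intro q hq
    rw [Finset.mem_product]
    exact ⟨Finset.mem_image_of_mem _ hq, Finset.mem_image_of_mem _ hq⟩
  have hcard : (F.card : ℝ) ≤ ((F.image Prod.fst).card : ℝ) * ((F.image Prod.snd).card : ℝ) := by
    have := Finset.card_le_card hsub
    rw [Finset.card_product] at this
    exact_mod_cast this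
  have heq : 2 * ρ * H ^ 2 / ((C.S * C.J * δ : ℕ) : ℝ) =
      2 * ρ * H ^ 2 / ((C.S * C.J : ℕ) : ℝ) / δ := by
    rw [div_div]
    push_cast
    rfl
  rw [heq] at c1 c2
  calc (F.card : ℝ) ≤ _ := hcard
    _ ≤ _ := by
      rw [sq]
      exact mul_le_mul c1 c2 (by positivity) (by positivity)

theorem det_bd {H C₀ : ℝ} {p q : ℤ × ℤ} (hp1 : |(p.1 : ℝ)| ≤ C₀ * H ^ 2)
    (hp2 : |(p.2 : ℝ)| ≤ C₀ * H ^ 2) (hq1 : |(q.1 : ℝ)| ≤ C₀ * H ^ 2)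
    (hq2 : |(q.2 : ℝ)| ≤ C₀ * H ^ 2) : |(det2 p q : ℝ)| ≤ 2 * C₀ ^ 2 * H ^ 4 := by
  unfold det2
  push_cast
  have h1 := mul_le_mul hp1 hq2 (abs_nonneg _) ((abs_nonneg _).trans hp1)
  have h2 := mul_le_mul hp2 hq1 (abs_nonneg _) ((abs_nonneg _).trans hp1)
  rw [← abs_mul] at h1 h2
  have h3 := abs_sub (p.1 * q.2 : ℝ) (p.2 * q.1 : ℝ)
  have h4 : C₀ * H ^ 2 * (C₀ * H ^ 2) = C₀ ^ 2 * H ^ 4 := by ring
  rw [h4] at h1 h2
  linarith

theorem cntB (h1 : S_ICNT) {γ C₀ ρ H : ℝ} {C : Cls} {R : Rcl} (hγ : 0 < γ) (hC₀ : 0 < C₀)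
    (hH : 0 < H)
    (hu : ∀ u v : ℤ, InU H ρ R u v →
      γ * H ^ 2 ≤ |(u : ℝ)| ∧ |(u : ℝ)| ≤ C₀ * H ^ 2 ∧ |(v : ℝ)| ≤ C₀ * H ^ 2)
    (p : ℤ × ℤ) (hpU : p ∈ setU H ρ C R) (δ : ℕ) (hδ : 0 < δ) :
    (((setU H ρ C R).filter (fun q => det2 p q ≠ 0 ∧ (δ : ℤ) ∣ det2 p q)).card : ℝ) ≤
      (2 * (2 * C₀ ^ 2 * H ^ 4 / δ)) * (2 * C₀ / γ + 1) := by
  rw [mem_setU] at hpU
  obtain ⟨hpI, _, _, hpg⟩ := hpU
  obtain ⟨hp0, hp1, hp2⟩ := hu _ _ hpI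
  have hδz : (0 : ℤ) < δ := by exact_mod_cast hδ
  have hδr : (0 : ℝ) < δ := by exact_mod_cast hδ
  have hp1ne : p.1 ≠ 0 := by
    intro h
    rw [h] at hp0
    simp only [Int.cast_zero, abs_zero] at hp0
    have : 0 < γ * H ^ 2 := by positivity
    linarith
  have hT0 : 0 ≤ 2 * C₀ ^ 2 * H ^ 4 / δ := by positivity
  set B : ℕ := ⌊2 * C₀ ^ 2 * H ^ 4 / (δ : ℝ)⌋₊ with hB
  have h := card_fib ((setU H ρ C R).filter (fun q => det2 p q ≠ 0 ∧ (δ : ℤ) ∣ det2 p q))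
    ((Finset.Icc (-(B : ℤ)) B).erase 0) (fun q => det2 p q / (δ : ℤ)) ?_ (2 * C₀ / γ + 1) ?_
  · refine h.trans (mul_le_mul_of_nonneg_right ?_ (by positivity))
    have hc : ((Finset.Icc (-(B : ℤ)) B).erase 0).card = 2 * B := by
      rw [Finset.card_erase_of_mem (Finset.mem_Icc.mpr ⟨by omega, by omega⟩), Int.card_Icc]
      omega
    rw [hc]
    push_cast
    have := Nat.floor_le hT0
    linarith
  · intro q hq
    rw [Finset.mem_filter, mem_setU] at hq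
    obtain ⟨⟨hqI, _, _, _⟩, hne, hdv⟩ := hq
    obtain ⟨_, hq1, hq2⟩ := hu _ _ hqI
    have hdet := det_bd hp1 hp2 hq1 hq2
    obtain ⟨b, hb⟩ := hdv
    have hqb : det2 p q / (δ : ℤ) = b := by rw [hb, Int.mul_ediv_cancel_left _ hδz.ne']
    rw [hqb, Finset.mem_erase, Finset.mem_Icc, ← abs_le]
    refine ⟨?_, ?_⟩
    · rintro rfl
      rw [mul_zero] at hb
      exact hne hb
    · rw [hb] at hdet
      push_cast at hdet
      rw [abs_mul, abs_of_pos hδr] at hdet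
      have h2 : |(b : ℝ)| ≤ 2 * C₀ ^ 2 * H ^ 4 / δ := by
        rw [le_div_iff₀ hδr, mul_comm]
        exact hdet
      have h3 : ((b.natAbs : ℕ) : ℝ) ≤ 2 * C₀ ^ 2 * H ^ 4 / δ := by
        rw [Nat.cast_natAbs]
        push_cast
        exact h2
      have h4 : b.natAbs ≤ B := Nat.le_floor h3
      rw [Int.abs_eq_natAbs]
      exact_mod_cast h4
  · intro b _
    set F := ((setU H ρ C R).filter (fun q => det2 p q ≠ 0 ∧ (δ : ℤ) ∣ det2 p q)).filter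
      (fun q => det2 p q / (δ : ℤ) = b) with hF
    have hdet : ∀ q ∈ F, ∀ q' ∈ F, p.1 * (q.2 - q'.2) = p.2 * (q.1 - q'.1) := by
      intro q hq q' hq'
      rw [hF, Finset.mem_filter, Finset.mem_filter] at hq hq'
      have e1 : det2 p q = δ * b := by rw [← hq.2, Int.mul_ediv_cancel' hq.1.2.2]
      have e2 : det2 p q' = δ * b := by rw [← hq'.2, Int.mul_ediv_cancel' hq'.1.2.2]
      unfold det2 at e1 e2
      linarith
    have hinj : Set.InjOn Prod.fst (F : Set (ℤ × ℤ)) := by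
      intro q hq q' hq' heq
      have h3 := hdet q hq q' hq'
      rw [heq, sub_self, mul_zero] at h3
      rcases mul_eq_zero.mp h3 with h4 | h4
      · exact absurd h4 hp1ne
      · exact Prod.ext heq (by linarith)
    rw [← Finset.card_image_of_injOn hinj]
    have hm : 0 < p.1.natAbs := Int.natAbs_pos.mpr hp1ne
    have hL : 0 ≤ 2 * C₀ * H ^ 2 := by positivity
    have hcp : IsCoprime p.1 p.2 := Int.isCoprime_iff_gcd_eq_one.mpr hpg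
    have c1 := h1.1 (F.image Prod.fst) p.1.natAbs (2 * C₀ * H ^ 2) hm hL (by
      intro a ha b hb
      rw [Finset.mem_image] at ha hb
      obtain ⟨q, hq, rfl⟩ := ha
      obtain ⟨q', hq', rfl⟩ := hb
      constructor
      · rw [Int.natAbs_dvd]
        exact hcp.dvd_of_dvd_mul_left ⟨_, (hdet q hq q' hq').symm⟩
      · rw [hF, Finset.mem_filter, Finset.mem_filter, mem_setU] at hq hq'
        have a1 := abs_le.mp (hu _ _ hq.1.1.1).2.1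
        have b1 := abs_le.mp (hu _ _ hq'.1.1.1).2.1
        rw [abs_le]
        constructor <;> linarith)
    refine c1.trans ?_
    have hm' : ((p.1.natAbs : ℕ) : ℝ) = |(p.1 : ℝ)| := by
      rw [Nat.cast_natAbs]
      push_cast
      rfl
    rw [hm']
    have hle : 2 * C₀ * H ^ 2 / |(p.1 : ℝ)| ≤ 2 * C₀ / γ := by
      rw [div_le_div_iff₀ (by positivity) hγ]
      calc 2 * C₀ * H ^ 2 * γ = 2 * C₀ * (γ * H ^ 2) := by ring
        _ ≤ 2 * C₀ * |(p.1 : ℝ)| := mul_le_mul_of_nonneg_left hp0 (by positivity)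
    linarith

/-- interchange of the sums, for one `p` -/
theorem inter (A : Finset (ℤ × ℤ)) (p : ℤ × ℤ) (S N : ℕ)
    (hN : ∀ q ∈ A, det2 p q ≠ 0 → (det2 p q).natAbs ≤ N) :
    ∑ q ∈ A.filter (fun q => det2 p q ≠ 0), Gf S (det2 p q).natAbs =
      ∑ δ ∈ (Finset.Icc 1 N).filter (fun δ => Nat.Coprime δ S),
        ((δ : ℝ) ^ (1 / 6 : ℝ))⁻¹ *
          ((A.filter (fun q => det2 p q ≠ 0 ∧ (δ : ℤ) ∣ det2 p q)).card : ℝ) := by
  have h1 : ∀ q ∈ A.filter (fun q => det2 p q ≠ 0), Gf S (det2 p q).natAbs =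
      ∑ δ ∈ (Finset.Icc 1 N).filter (fun δ => Nat.Coprime δ S),
        if (δ : ℤ) ∣ det2 p q then ((δ : ℝ) ^ (1 / 6 : ℝ))⁻¹ else 0 := by
    intro q hq
    rw [Finset.mem_filter] at hq
    unfold Gf
    rw [← Finset.sum_filter]
    refine Finset.sum_congr ?_ fun _ _ => rfl
    ext δ
    rw [Finset.mem_filter, Finset.mem_filter, Finset.mem_filter, Nat.mem_divisors, Finset.mem_Icc]
    have hpos : 0 < (det2 p q).natAbs := Int.natAbs_pos.mpr hq.2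
    constructor
    · rintro ⟨⟨hd, _⟩, hc⟩
      refine ⟨⟨⟨Nat.pos_of_dvd_of_pos hd hpos, (Nat.le_of_dvd hpos hd).trans (hN q hq.1 hq.2)⟩, hc⟩,
        Int.natCast_dvd.mpr hd⟩
    · rintro ⟨⟨_, hc⟩, hd⟩
      exact ⟨⟨Int.natCast_dvd.mp hd, hpos.ne'⟩, hc⟩
  rw [Finset.sum_congr rfl h1, Finset.sum_comm]
  refine Finset.sum_congr rfl fun δ _ => ?_
  rw [← Finset.sum_filter, Finset.sum_const, Finset.filter_filter, nsmul_eq_mul, mul_comm]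

theorem un_le (s t : Finset ℕ) (f : ℕ → ℝ) (hf : ∀ δ, 0 ≤ f δ) :
    ∑ δ ∈ s ∪ t, f δ ≤ ∑ δ ∈ s, f δ + ∑ δ ∈ t, f δ := by
  rw [← Finset.sum_union_inter]
  have : 0 ≤ ∑ δ ∈ s ∩ t, f δ := Finset.sum_nonneg fun δ _ => hf δ
  linarith

theorem v_eq (δ : ℕ) (hδ : 0 < δ) :
    ((δ : ℝ) ^ (1 / 6 : ℝ))⁻¹ * (1 / δ) = ((δ : ℝ) ^ (7 / 6 : ℝ))⁻¹ := by
  have hδr : (0 : ℝ) < δ := by exact_mod_cast hδ
  have h : (δ : ℝ) ^ (7 / 6 : ℝ) = (δ : ℝ) ^ (1 / 6 : ℝ) * δ := by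
    rw [show (7 / 6 : ℝ) = 1 / 6 + 1 by norm_num, Real.rpow_add hδr, Real.rpow_one]
  rw [h, mul_inv, one_div (δ : ℝ)]

end USumAux

open USumAux

theorem t_USUM (h1 : S_ICNT) (h2 : S_UCARD) : S_USUM := by
  intro ε hε
  obtain ⟨T, hT⟩ := tail (ε / 32) (by positivity)
  refine ⟨max 729 T, le_max_left _ _, ?_⟩
  intro γ C₀ ρ η κ τ hC Q₀
  obtain ⟨H₁, hH₁, hcard⟩ := h2 γ C₀ ρ η κ τ hC Q₀
  have hγ := hC.γ0
  have hρ := hC.ρ0
  have hC₀ : 0 < C₀ := lt_of_lt_of_le one_pos hC.C1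
  obtain ⟨K, hK⟩ : ∃ K : ℝ, K = 2 * C₀ / γ + 1 := ⟨_, rfl⟩
  have hK0 : 0 < K := by rw [hK]; positivity
  have hQ1 : (0 : ℝ) < (Q₀ : ℝ) + 1 := by positivity
  obtain ⟨T', hT'⟩ := tail (ε / 2 * (ρ / (Q₀ + 1)) ^ 2 / (4 * C₀ ^ 2 * K)) (by positivity)
  refine ⟨max H₁ ((T' : ℝ) * (Q₀ + 1) / (2 * ρ)), le_max_of_le_left hH₁, ?_⟩
  intro H hH w C R hw hPD hRD hSJ
  have hHH₁ : H₁ ≤ H := (le_max_left _ _).trans hH
  have hHT : (T' : ℝ) * (Q₀ + 1) / (2 * ρ) ≤ H := (le_max_right _ _).trans hH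
  have hH1 : 1 ≤ H := hH₁.trans hHH₁
  have hH0 : 0 < H := by linarith
  have hw729 : 729 ≤ w := (le_max_left _ _).trans hw
  have hwT : T ≤ w := (le_max_right _ _).trans hw
  have hn := hcard H hHH₁ w C R hw729 hPD hRD hSJ
  have hS := hPD.hS
  have hJ := hPD.hJ
  have hJS : C.J ∣ C.S := (Dvd.intro_left 2 rfl).trans (hPD.hpJ 2 Nat.prime_two (by omega))
  have hSJ0 : 0 < C.S * C.J := Nat.mul_pos hS hJ
  have hSJr : (0 : ℝ) < ((C.S * C.J : ℕ) : ℝ) := by exact_mod_cast hSJ0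
  have hSJQ : ((C.S * C.J : ℕ) : ℝ) ≤ (Q₀ : ℝ) + 1 := by
    have : ((C.S * C.J : ℕ) : ℝ) ≤ (Q₀ : ℝ) := by exact_mod_cast hSJ
    linarith
  set A := setU H ρ C R with hA
  set n : ℝ := (A.card : ℝ) with hndef
  have hn0 : 0 ≤ n := by positivity
  set X : ℝ := 2 * ρ * H ^ 2 / ((C.S * C.J : ℕ) : ℝ) with hX
  have hX0 : 0 < X := by positivity
  have hXn : X ^ 2 ≤ 4 * n := by
    have : X ^ 2 = 4 * ((ρ / ((C.S * C.J : ℕ) : ℝ)) ^ 2 * H ^ 4) := by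
      rw [hX]
      field_simp
      ring
    rw [this]
    linarith
  have hXT : (T' : ℝ) ≤ X := by
    rw [hX, le_div_iff₀ hSJr]
    rw [div_le_iff₀ (by positivity)] at hHT
    have e1 : (T' : ℝ) * ((C.S * C.J : ℕ) : ℝ) ≤ T' * (Q₀ + 1) :=
      mul_le_mul_of_nonneg_left hSJQ (by positivity)
    have e2 : H ≤ H ^ 2 := by nlinarith
    have e3 : H * (2 * ρ) ≤ H ^ 2 * (2 * ρ) := mul_le_mul_of_nonneg_right e2 (by positivity)
    linarith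
  -- the bound for one `p`
  have hone : ∀ p ∈ A, ∑ q ∈ A.filter (fun q => det2 p q ≠ 0), Gf C.S (det2 p q).natAbs ≤
      (1 + ε) * n := by
    intro p hp
    have hp' := hp
    rw [hA, mem_setU] at hp'
    obtain ⟨hpI, _, _, hpg⟩ := hp'
    obtain ⟨_, hp1, hp2⟩ := hRD.hu _ _ hpI
    rw [inter A p C.S ⌊2 * C₀ ^ 2 * H ^ 4⌋₊ (by
      intro q hq _
      rw [hA, mem_setU] at hq
      obtain ⟨_, hq1, hq2⟩ := hRD.hu _ _ hq.1
      refine Nat.le_floor ?_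
      rw [Nat.cast_natAbs]
      push_cast
      exact det_bd hp1 hp2 hq1 hq2)]
    set c : ℕ → ℝ := fun δ => ((A.filter (fun q => det2 p q ≠ 0 ∧ (δ : ℤ) ∣ det2 p q)).card : ℝ)
      with hc
    set D := (Finset.Icc 1 ⌊2 * C₀ ^ 2 * H ^ 4⌋₊).filter (fun δ => Nat.Coprime δ C.S) with hD
    have hc0 : ∀ δ, 0 ≤ c δ := fun δ => by positivity
    have hcn : ∀ δ, c δ ≤ n := fun δ =>
      Nat.cast_le.mpr (Finset.card_le_card (Finset.filter_subset _ _))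
    have hcA : ∀ δ ∈ D, (δ : ℝ) ≤ X → c δ ≤ 16 * n * (1 / δ) := by
      intro δ hδ hδX
      rw [hD, Finset.mem_filter, Finset.mem_Icc] at hδ
      have hδ0 : 0 < δ := hδ.1.1
      have hδr : (0 : ℝ) < δ := by exact_mod_cast hδ0
      have hcop : Nat.Coprime (C.S * C.J) δ :=
        Nat.Coprime.mul_left hδ.2.symm (Nat.Coprime.coprime_dvd_left hJS hδ.2.symm)
      have e1 := cntA h1 (R := R) (H := H) hS hJ hρ.le p hpg δ hδ0 hcop
      have e2 : c δ ≤ (((setU H ρ C R).filter (fun q => (δ : ℤ) ∣ det2 p q)).card : ℝ) := by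
        rw [hc]
        refine Nat.cast_le.mpr (Finset.card_le_card ?_)
        intro q hq
        rw [Finset.mem_filter] at hq ⊢
        exact ⟨hq.1, hq.2.2⟩
      refine e2.trans (e1.trans ?_)
      rw [← hX]
      have e3 : X / δ + 1 ≤ 2 * (X / δ) := by
        have : 1 ≤ X / δ := (one_le_div hδr).mpr hδX
        linarith
      have e4 : (X / δ + 1) ^ 2 ≤ (2 * (X / δ)) ^ 2 := pow_le_pow_left₀ (by positivity) e3 2
      calc (δ : ℝ) * (X / δ + 1) ^ 2 ≤ δ * (2 * (X / δ)) ^ 2 :=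
            mul_le_mul_of_nonneg_left e4 hδr.le
        _ = 4 * X ^ 2 * (1 / δ) := by
            field_simp
            ring
        _ ≤ 16 * n * (1 / δ) := by
            refine mul_le_mul_of_nonneg_right ?_ (by positivity)
            linarith
    have hcB : ∀ δ ∈ D, c δ ≤ 4 * C₀ ^ 2 * K * H ^ 4 * (1 / δ) := by
      intro δ hδ
      rw [hD, Finset.mem_filter, Finset.mem_Icc] at hδ
      have hδ0 : 0 < δ := hδ.1.1
      have e1 := cntB h1 hγ hC₀ hH0 hRD.hu p hp δ hδ0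
      refine e1.trans (le_of_eq ?_)
      rw [hK]
      ring
    -- the three ranges
    have hw0 : ∀ δ : ℕ, 0 ≤ ((δ : ℝ) ^ (1 / 6 : ℝ))⁻¹ := fun δ => by positivity
    have hD1 : D ⊆ {1} ∪ ((D.filter (fun δ => w < δ ∧ (δ : ℝ) ≤ X)) ∪
        (D.filter (fun δ : ℕ => X < (δ : ℝ)))) := by
      intro δ hδ
      have hδ' := hδ
      rw [hD, Finset.mem_filter, Finset.mem_Icc] at hδ'
      by_cases h : δ = 1
      · exact Finset.mem_union_left _ (Finset.mem_singleton.mpr h)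
      refine Finset.mem_union_right _ ?_
      by_cases h' : (δ : ℝ) ≤ X
      · refine Finset.mem_union_left _ (Finset.mem_filter.mpr ⟨hδ, ?_, h'⟩)
        by_contra hle
        push Not at hle
        have hpr := Nat.minFac_prime h
        have hle' : δ.minFac ≤ w := (Nat.minFac_le hδ'.1.1).trans hle
        have hdS : δ.minFac ∣ C.S := (Dvd.intro _ rfl).trans (hPD.hpJ _ hpr hle')
        have hd1 : δ.minFac ∣ Nat.gcd δ C.S := Nat.dvd_gcd (Nat.minFac_dvd δ) hdS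
        rw [hδ'.2] at hd1
        exact hpr.one_lt.ne' (Nat.dvd_one.mp hd1)
      · exact Finset.mem_union_right _ (Finset.mem_filter.mpr ⟨hδ, not_le.mp h'⟩)
    have hnn : ∀ δ : ℕ, 0 ≤ ((δ : ℝ) ^ (1 / 6 : ℝ))⁻¹ * c δ := fun δ => mul_nonneg (hw0 δ) (hc0 δ)
    have s1 : ∑ δ ∈ ({1} : Finset ℕ), ((δ : ℝ) ^ (1 / 6 : ℝ))⁻¹ * c δ ≤ n := by
      rw [Finset.sum_singleton]
      have := hcn 1
      simpa using this
    have s2 : ∑ δ ∈ D.filter (fun δ => w < δ ∧ (δ : ℝ) ≤ X), ((δ : ℝ) ^ (1 / 6 : ℝ))⁻¹ * c δ ≤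
        ε / 2 * n := by
      calc ∑ δ ∈ D.filter (fun δ => w < δ ∧ (δ : ℝ) ≤ X), ((δ : ℝ) ^ (1 / 6 : ℝ))⁻¹ * c δ
          ≤ ∑ δ ∈ D.filter (fun δ => w < δ ∧ (δ : ℝ) ≤ X), 16 * n * ((δ : ℝ) ^ (7 / 6 : ℝ))⁻¹ := by
            refine Finset.sum_le_sum fun δ hδ => ?_
            have hδ := Finset.mem_filter.mp hδ
            have hδ0 : 0 < δ := lt_of_le_of_lt (Nat.zero_le _) hδ.2.1
            rw [← v_eq δ hδ0]
            calc ((δ : ℝ) ^ (1 / 6 : ℝ))⁻¹ * c δ ≤ ((δ : ℝ) ^ (1 / 6 : ℝ))⁻¹ * (16 * n * (1 / δ)) :=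
                  mul_le_mul_of_nonneg_left (hcA δ hδ.1 hδ.2.2) (hw0 δ)
              _ = _ := by ring
        _ = 16 * n * ∑ δ ∈ D.filter (fun δ => w < δ ∧ (δ : ℝ) ≤ X),
              ((δ : ℝ) ^ (7 / 6 : ℝ))⁻¹ := by rw [Finset.mul_sum]
        _ ≤ 16 * n * (ε / 32) := by
            refine mul_le_mul_of_nonneg_left (hT _ fun δ hδ => ?_) (by positivity)
            exact hwT.trans (Finset.mem_filter.mp hδ).2.1.le
        _ = ε / 2 * n := by ring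
    have s3 : ∑ δ ∈ D.filter (fun δ : ℕ => X < (δ : ℝ)), ((δ : ℝ) ^ (1 / 6 : ℝ))⁻¹ * c δ ≤
        ε / 2 * n := by
      calc ∑ δ ∈ D.filter (fun δ : ℕ => X < (δ : ℝ)), ((δ : ℝ) ^ (1 / 6 : ℝ))⁻¹ * c δ
          ≤ ∑ δ ∈ D.filter (fun δ : ℕ => X < (δ : ℝ)),
              4 * C₀ ^ 2 * K * H ^ 4 * ((δ : ℝ) ^ (7 / 6 : ℝ))⁻¹ := by
            refine Finset.sum_le_sum fun δ hδ => ?_
            have hδ := Finset.mem_filter.mp hδ
            have hδ0 : 0 < δ := by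
              have : (0 : ℝ) < δ := hX0.trans hδ.2
              exact_mod_cast this
            rw [← v_eq δ hδ0]
            calc ((δ : ℝ) ^ (1 / 6 : ℝ))⁻¹ * c δ ≤
                  ((δ : ℝ) ^ (1 / 6 : ℝ))⁻¹ * (4 * C₀ ^ 2 * K * H ^ 4 * (1 / δ)) :=
                  mul_le_mul_of_nonneg_left (hcB δ hδ.1) (hw0 δ)
              _ = _ := by ring
        _ = 4 * C₀ ^ 2 * K * H ^ 4 * ∑ δ ∈ D.filter (fun δ : ℕ => X < (δ : ℝ)),
              ((δ : ℝ) ^ (7 / 6 : ℝ))⁻¹ := by rw [Finset.mul_sum]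
        _ ≤ 4 * C₀ ^ 2 * K * H ^ 4 * (ε / 2 * (ρ / (Q₀ + 1)) ^ 2 / (4 * C₀ ^ 2 * K)) := by
            refine mul_le_mul_of_nonneg_left (hT' _ fun δ hδ => ?_) (by positivity)
            have : (T' : ℝ) ≤ δ := hXT.trans (Finset.mem_filter.mp hδ).2.le
            exact_mod_cast this
        _ = ε / 2 * ((ρ / (Q₀ + 1)) ^ 2 * H ^ 4) := by
            field_simp
        _ ≤ ε / 2 * n := by
            refine mul_le_mul_of_nonneg_left (le_trans ?_ hn) (by positivity)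
            refine mul_le_mul_of_nonneg_right ?_ (by positivity)
            refine pow_le_pow_left₀ (by positivity) ?_ 2
            exact div_le_div_of_nonneg_left hρ.le hSJr hSJQ
    calc ∑ δ ∈ D, ((δ : ℝ) ^ (1 / 6 : ℝ))⁻¹ * c δ
        ≤ ∑ δ ∈ {1} ∪ ((D.filter (fun δ => w < δ ∧ (δ : ℝ) ≤ X)) ∪
          (D.filter (fun δ : ℕ => X < (δ : ℝ)))), ((δ : ℝ) ^ (1 / 6 : ℝ))⁻¹ * c δ :=
          Finset.sum_le_sum_of_subset_of_nonneg hD1 fun δ _ _ => hnn δ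
      _ ≤ ∑ δ ∈ ({1} : Finset ℕ), ((δ : ℝ) ^ (1 / 6 : ℝ))⁻¹ * c δ +
          ∑ δ ∈ ((D.filter (fun δ => w < δ ∧ (δ : ℝ) ≤ X)) ∪
          (D.filter (fun δ : ℕ => X < (δ : ℝ)))), ((δ : ℝ) ^ (1 / 6 : ℝ))⁻¹ * c δ :=
          un_le _ _ _ hnn
      _ ≤ ∑ δ ∈ ({1} : Finset ℕ), ((δ : ℝ) ^ (1 / 6 : ℝ))⁻¹ * c δ +
          (∑ δ ∈ D.filter (fun δ => w < δ ∧ (δ : ℝ) ≤ X), ((δ : ℝ) ^ (1 / 6 : ℝ))⁻¹ * c δ +
          ∑ δ ∈ D.filter (fun δ : ℕ => X < (δ : ℝ)), ((δ : ℝ) ^ (1 / 6 : ℝ))⁻¹ * c δ) :=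
          add_le_add le_rfl (un_le _ _ _ hnn)
      _ ≤ n + (ε / 2 * n + ε / 2 * n) := add_le_add s1 (add_le_add s2 s3)
      _ = (1 + ε) * n := by ring
  calc ∑ z ∈ (A ×ˢ A).filter (fun z => det2 z.1 z.2 ≠ 0), Gf C.S (det2 z.1 z.2).natAbs
      = ∑ p ∈ A, ∑ q ∈ A.filter (fun q => det2 p q ≠ 0), Gf C.S (det2 p q).natAbs := by
        rw [Finset.sum_filter, Finset.sum_product]
        refine Finset.sum_congr rfl fun p _ => ?_
        rw [Finset.sum_filter]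
    _ ≤ ∑ _p ∈ A, (1 + ε) * n := Finset.sum_le_sum hone
    _ = (1 + ε) * n ^ 2 := by
        rw [Finset.sum_const, nsmul_eq_mul, ← hndef]
        ring

end Pool.Agent.DPO
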