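import Pool.Agent.DPO.Stm

/-!
# Project DPO, piece WAT
-/

set_option autoImplicit false

namespace Pool.Agent.DPO

namespace WAT

theorem cast_bf {K : Type*} [Field K] {d : ℕ} (g : Fin (d + 1) → ℤ) (u v : ℤ) :
    ((bf g u v : ℤ) : K) = bf g (u : K) (v : K) := by
  unfold bf
  rw [Int.cast_sum]
  refine Finset.sum_congr rfl fun i _ => ?_
  push_cast
  rfl

theorem prim_pos (m : ℕ) : 0 < prim m := by
  unfold prim
  exact Finset.prod_pos fun p hp => (Finset.mem_filter.1 hp).2.pos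

theorem le_of_dvd_prim {m p : ℕ} (hp : p.Prime) (h : p ∣ prim m) : p ≤ m := by
  unfold prim at h
  obtain ⟨q, hq, hpq⟩ := (hp.prime.dvd_finsetProd_iff _).1 h
  rw [Finset.mem_filter, Finset.mem_range] at hq
  have := (Nat.prime_dvd_prime_iff_eq hp hq.2).1 hpq
  omega

theorem dvd_prim {m p : ℕ} (hp : p.Prime) (h : p ≤ m) : p ∣ prim m := by
  unfold prim
  exact Finset.dvd_prod_of_mem _ (Finset.mem_filter.2 ⟨Finset.mem_range.2 (by omega), hp⟩)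

theorem not_sq_dvd_prim {m p : ℕ} (hp : p.Prime) (h : p ≤ m) : ∃ q, prim m = p * q ∧
    Nat.Coprime p q := by
  refine ⟨∏ q ∈ ((Finset.range (m + 1)).filter Nat.Prime).erase p, q, ?_, ?_⟩
  · unfold prim
    exact (Finset.mul_prod_erase _ _ (Finset.mem_filter.2 ⟨Finset.mem_range.2 (by omega), hp⟩)).symm
  · apply Nat.Coprime.prod_right
    intro q hq
    rw [Finset.mem_erase, Finset.mem_filter] at hq
    exact (Nat.coprime_primes hp hq.2.2).2 (Ne.symm hq.1)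

theorem pow_le {m p k : ℕ} (hp : p.Prime) (h : p ≤ m) (hk : p ^ k ∣ prim m ^ m) : k ≤ m := by
  obtain ⟨q, hq, hcop⟩ := not_sq_dvd_prim hp h
  rw [hq, mul_pow] at hk
  have h1 : Nat.Coprime (p ^ k) (q ^ m) := (hcop.pow_left k).pow_right m
  have h2 : p ^ k ∣ p ^ m := h1.dvd_of_dvd_mul_right hk
  exact (Nat.pow_dvd_pow_iff_le_right hp.one_lt).1 h2

theorem crt (m : ℕ) (c : ℕ → ℤ) : ∃ A : ℕ, A < prim m ^ m ∧ ∀ p : ℕ, p.Prime → p ≤ m →
    (p : ℤ) ^ m ∣ (A : ℤ) - c p := by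
  set T := (Finset.range (m + 1)).filter Nat.Prime with hT
  have hs : ∀ i ∈ T, (fun p : ℕ => p ^ m) i ≠ 0 := by
    intro i hi
    exact pow_ne_zero _ (Finset.mem_filter.1 hi).2.ne_zero
  have hpp : Set.Pairwise (T : Set ℕ) (Function.onFun Nat.Coprime (fun p : ℕ => p ^ m)) := by
    intro p hp q hq hne
    have hp' := (Finset.mem_filter.1 (Finset.mem_coe.1 hp)).2
    have hq' := (Finset.mem_filter.1 (Finset.mem_coe.1 hq)).2
    exact (((Nat.coprime_primes hp' hq').2 hne).pow_left m).pow_right m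
  obtain ⟨A, hA⟩ := Nat.chineseRemainderOfFinset
    (fun p : ℕ => (c p % ((p ^ m : ℕ) : ℤ)).toNat) (fun p : ℕ => p ^ m) T hs hpp
  have hprod : ∏ p ∈ T, p ^ m = prim m ^ m := by
    rw [Finset.prod_pow]
    rfl
  refine ⟨A % prim m ^ m, Nat.mod_lt _ (pow_pos (prim_pos m) m), ?_⟩
  intro p hp hpm
  have hpT : p ∈ T := Finset.mem_filter.2 ⟨Finset.mem_range.2 (by omega), hp⟩
  have h1 := hA p hpT
  have h2 : p ^ m ∣ prim m ^ m := pow_dvd_pow_of_dvd (dvd_prim hp hpm) m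
  have hpos : (0 : ℤ) < ((p ^ m : ℕ) : ℤ) := by exact_mod_cast pow_pos hp.pos m
  have h3 : ((p ^ m : ℕ) : ℤ) ∣ (A : ℤ) - c p := by
    have h4 : (((c p % ((p ^ m : ℕ) : ℤ)).toNat : ℕ) : ℤ) = c p % ((p ^ m : ℕ) : ℤ) :=
      Int.toNat_of_nonneg (Int.emod_nonneg _ hpos.ne')
    have h5 : ((p ^ m : ℕ) : ℤ) ∣ (((c p % ((p ^ m : ℕ) : ℤ)).toNat : ℕ) : ℤ) - (A : ℤ) :=
      (Nat.modEq_iff_dvd).1 h1
    rw [h4] at h5
    have h6 : ((p ^ m : ℕ) : ℤ) ∣ c p - c p % ((p ^ m : ℕ) : ℤ) := Int.dvd_self_sub_emod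
    have h7 := dvd_add h5 h6
    have h8 : c p % ((p ^ m : ℕ) : ℤ) - (A : ℤ) + (c p - c p % ((p ^ m : ℕ) : ℤ)) =
        -((A : ℤ) - c p) := by ring
    rw [h8, dvd_neg] at h7
    exact h7
  have h4 : ((p ^ m : ℕ) : ℤ) ∣ (A : ℤ) - ((A % prim m ^ m : ℕ) : ℤ) := by
    have h5 : ((prim m ^ m : ℕ) : ℤ) ∣ (A : ℤ) - ((A % prim m ^ m : ℕ) : ℤ) := by
      push_cast
      exact Int.dvd_self_sub_emod
    exact (Int.natCast_dvd_natCast.2 h2).trans h5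
  have h5 := dvd_sub h3 h4
  have h6 : (A : ℤ) - c p - ((A : ℤ) - ((A % prim m ^ m : ℕ) : ℤ)) =
      ((A % prim m ^ m : ℕ) : ℤ) - c p := by ring
  rw [h6] at h5
  exact_mod_cast h5

end WAT

open WAT in
theorem t_WAT (hP : S_LP) (hR : S_LR) : S_WAT := by
  intro m M H a f hm hM hH hsol Z W hZ hW hWy
  have hm0 : (0 : ℝ) < m := by exact_mod_cast hm
  have hM0 : (0 : ℝ) < M := by exact_mod_cast hM
  -- the primes
  have h1 : ∀ p : ℕ, ∃ c : Fin 4 → ℤ, ∀ (hp : p.Prime), p ≤ m →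
      have : Fact p.Prime := Fact.mk hp
      ∃ β : ℚ_[p], NormP p β (Z p) ∧
      (∀ E : ℕ, ∃ u v x y : ℤ, SolP a f p E u v x y ∧ ¬ (p : ℤ) ^ (M + 1) ∣ y ∧
        (p : ℤ) ^ m ∣ u - c 0 ∧ (p : ℤ) ^ m ∣ v - c 1 ∧ (p : ℤ) ^ m ∣ x - c 2 ∧
        (p : ℤ) ^ m ∣ y - c 3) ∧
      ∀ z : Fin 4 → ℤ, (∀ i, (p : ℤ) ^ m ∣ z i - c i) →
        ∀ i, ‖(z i : ℚ_[p]) - β ^ wt i * Z p i‖ ≤ (p : ℝ) ^ (-(m : ℤ)) := by
    intro p
    by_cases hp : p.Prime ∧ p ≤ m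
    · have : Fact p.Prime := Fact.mk hp.1
      obtain ⟨hz1, hz2⟩ := hZ p hp.2
      obtain ⟨β, c, h2, h3, h4⟩ := hP p m M a f (Z p) hM hz1 hz2
      exact ⟨c, fun _ _ => ⟨β, h2, h3, h4⟩⟩
    · exact ⟨0, fun h2 h3 => absurd ⟨h2, h3⟩ hp⟩
  choose c hc using h1
  choose A hA1 hA2 using fun i : Fin 4 => crt m (fun p => c p i)
  -- the real place
  obtain ⟨β, hβ0, hβ, heq⟩ := hR H a f W hH hW
  obtain ⟨ζ, hζ⟩ : ∃ ζ : Fin 4 → ℝ, ζ = fun i => β ^ wt i * W i / sc H i := ⟨_, rfl⟩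
  have hsc : ∀ i, 0 < sc H i := by
    intro i
    fin_cases i <;> simp [sc] <;> positivity
  have hζ1 : ∀ i, |ζ i| ≤ 1 := by
    intro i
    rw [hζ]
    simp only
    rw [abs_div, abs_of_pos (hsc i), div_le_one (hsc i)]
    exact hβ.1 i
  obtain ⟨B, hB⟩ : ∃ B : Fin 4 → ℤ, B = fun i => ⌊4 * m * ζ i⌋ := ⟨_, rfl⟩
  have hB1 : ∀ i, |ζ i - (B i : ℝ) / (4 * m)| ≤ 1 / (4 * m) := by
    intro i
    have h2 : ζ i - (B i : ℝ) / (4 * m) = (4 * m * ζ i - (B i : ℝ)) / (4 * m) := by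
      field_simp
    rw [h2, abs_div, abs_of_pos (by positivity : (0 : ℝ) < 4 * m)]
    apply div_le_div_of_nonneg_right _ (by positivity)
    rw [hB]
    simp only
    rw [abs_le]
    have h3 := Int.floor_le (4 * m * ζ i)
    have h4 := Int.lt_floor_add_one (4 * m * ζ i)
    constructor <;> linarith
  have hB2 : ∀ i, |B i| ≤ 4 * m := by
    intro i
    have h2 := abs_le.1 (hζ1 i)
    rw [hB, abs_le]
    constructor
    · simp only
      rw [Int.le_floor]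
      push_cast
      nlinarith
    · have h3 : (⌊4 * m * ζ i⌋ : ℝ) ≤ 4 * m := (Int.floor_le _).trans (by nlinarith)
      simp only
      exact_mod_cast h3
  -- the target
  obtain ⟨t, ht⟩ : ∃ t : Tgt, t = ⟨A 0, A 1, A 2, A 3, B 0 / (4 * m), B 1 / (4 * m),
    B 2 / (4 * m), B 3 / (4 * m)⟩ := ⟨_, rfl⟩
  have htm : t ∈ tgts m := by
    refine ⟨⟨A, hA1, ?_, ?_, ?_, ?_⟩, B, hB2, ?_, ?_, ?_, ?_⟩ <;> rw [ht]
  have e0 : ζ 0 = β * W 0 := by rw [hζ]; simp [wt, sc]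
  have e1 : ζ 1 = β * W 1 := by rw [hζ]; simp [wt, sc]
  have e2 : ζ 2 = β ^ 2 * W 2 / H ^ 2 := by rw [hζ]; simp [wt, sc]
  have e3 : ζ 3 = β ^ 3 * W 3 / H ^ 3 := by rw [hζ]; simp [wt, sc]
  have hLocP : LocP (prim m ^ m) M t a f := by
    intro p hp hpd E
    have hpm : p ≤ m := le_of_dvd_prim hp (hp.dvd_of_dvd_pow hpd)
    have : Fact p.Prime := Fact.mk hp
    obtain ⟨β', h2, h3, h4⟩ := hc p hp hpm
    obtain ⟨u, v, x, y, h5, h6, h7, h8, h9, h10⟩ := h3 E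
    refine ⟨u, v, x, y, h5, h6, ?_⟩
    intro k hk
    have hkm := pow_le hp hpm hk
    have key : ∀ (z : ℤ) (i : Fin 4), (p : ℤ) ^ m ∣ z - c p i → (p : ℤ) ^ k ∣ z - (A i : ℤ) := by
      intro z i hz
      have h11 := dvd_sub hz (hA2 i p hp hpm)
      have h12 : z - c p i - ((A i : ℤ) - c p i) = z - (A i : ℤ) := by ring
      rw [h12] at h11
      exact (pow_dvd_pow _ hkm).trans h11
    rw [ht]
    exact ⟨key _ 0 h7, key _ 1 h8, key _ 2 h9, key _ 3 h10⟩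
  have hLocR : LocR M (1 / (4 * m)) H t a f := by
    refine ⟨ζ 0, ζ 1, ζ 2, ζ 3, ?_, hζ1 0, hζ1 1, hζ1 2, hζ1 3, ?_, ?_, ?_, ?_, ?_⟩
    · rw [e0, e1, e2, e3]
      exact heq
    · rw [e3, abs_div, abs_of_pos (by positivity : (0 : ℝ) < H ^ 3), le_div_iff₀ (by positivity)]
      have h2 := hWy β hβ
      calc 1 / (M : ℝ) * H ^ 3 = H ^ 3 / M := by ring
        _ ≤ _ := h2
    · rw [ht]; exact hB1 0
    · rw [ht]; exact hB1 1
    · rw [ht]; exact hB1 2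
    · rw [ht]; exact hB1 3
  obtain ⟨u, v, x, y, huv, hPsi, hcong, P, hP0, hPu, hPv, hPx, hPy⟩ := hsol t htm hLocP hLocR
  -- the rational point
  obtain ⟨z', hz'⟩ : ∃ z' : Fin 4 → ℤ, z' = ![u, v, x, y] := ⟨_, rfl⟩
  have z0 : z' 0 = u := by rw [hz']; rfl
  have z1 : z' 1 = v := by rw [hz']; rfl
  have z2 : z' 2 = x := by rw [hz']; rfl
  have z3 : z' 3 = y := by rw [hz']; rfl
  refine ⟨fun i => (z' i : ℚ), ⟨?_, ?_⟩, ?_, 1 / P, β, by positivity, hβ, ?_⟩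
  · simp only [z0, z1]
    rcases huv with h2 | h2
    · left; exact_mod_cast h2
    · right; exact_mod_cast h2
  · simp only [z0, z1, z2, z3]
    unfold Psi at hPsi
    have h2 : (((y ^ 2 - x ^ 3 - bf a u v * x - bf f u v : ℤ)) : ℚ) = 0 := by
      exact_mod_cast hPsi
    rw [← cast_bf, ← cast_bf]
    push_cast at h2
    linear_combination h2
  · intro p _ hpm
    have hp : p.Prime := Fact.out
    obtain ⟨β', h2, h3, h4⟩ := hc p hp hpm
    refine ⟨1, β', one_ne_zero, h2, ?_⟩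
    intro i
    have hdvd : ∀ i, (p : ℤ) ^ m ∣ z' i - c p i := by
      intro i
      have h5 : (((prim m ^ m : ℕ) : ℤ)) ∣ z' i - (A i : ℤ) := by
        rw [ht] at hcong
        obtain ⟨h6, h7, h8, h9⟩ := hcong
        fin_cases i
        · show (((prim m ^ m : ℕ) : ℤ)) ∣ z' 0 - (A 0 : ℤ)
          rw [z0]; exact h6
        · show (((prim m ^ m : ℕ) : ℤ)) ∣ z' 1 - (A 1 : ℤ)
          rw [z1]; exact h7
        · show (((prim m ^ m : ℕ) : ℤ)) ∣ z' 2 - (A 2 : ℤ)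
          rw [z2]; exact h8
        · show (((prim m ^ m : ℕ) : ℤ)) ∣ z' 3 - (A 3 : ℤ)
          rw [z3]; exact h9
      have h6 : (p : ℤ) ^ m ∣ ((prim m ^ m : ℕ) : ℤ) := by
        have := pow_dvd_pow_of_dvd (dvd_prim hp hpm) m
        exact_mod_cast this
      have h7 := dvd_add (h6.trans h5) (hA2 i p hp hpm)
      have h8 : z' i - (A i : ℤ) + ((A i : ℤ) - c p i) = z' i - c p i := by ring
      rwa [h8] at h7
    have h5 := h4 z' hdvd i
    have h6 : ((1 : ℚ_[p]) ^ wt i * (((z' i : ℤ) : ℚ) : ℚ_[p])) = ((z' i : ℤ) : ℚ_[p]) := by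
      rw [one_pow, one_mul]
      push_cast
      rfl
    show ‖(1 : ℚ_[p]) ^ wt i * (((z' i : ℤ) : ℚ) : ℚ_[p]) - β' ^ wt i * Z p i‖ ≤ 1 / m
    rw [h6]
    refine h5.trans ?_
    rw [zpow_neg, zpow_natCast, ← one_div]
    apply one_div_le_one_div_of_le hm0
    have h7 : m ≤ p ^ m := (Nat.lt_pow_self hp.one_lt).le
    exact_mod_cast h7
  · have hP' := hP0.ne'
    have hH' := hH.ne'
    have hδ : 3 * (1 / (4 * (m : ℝ))) ≤ 1 / m := by
      rw [← mul_div_assoc, div_le_div_iff₀ (by positivity) hm0]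
      linarith
    -- a general estimate
    have key : ∀ (i : Fin 4) (s : ℝ), sc H i = s → ∀ w : ℕ, wt i = w → ∀ z₀ : ℤ, z' i = z₀ →
        ∀ b : ℝ, |ζ i - b| ≤ 1 / (4 * m) →
        |(z₀ : ℝ) - s * P ^ w * b| ≤ 2 * (1 / (4 * m)) * (s * P ^ w) →
        |(1 / P) ^ wt i * ((z' i : ℤ) : ℝ) - β ^ wt i * W i| ≤ sc H i / m := by
      intro i s hs w hw z₀ hz₀ b hb hz
      have hs0 : 0 < s := hs ▸ hsc i
      have e4 : β ^ wt i * W i = s * ζ i := by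
        rw [hζ]; simp only; rw [hs]; field_simp
      rw [e4, hz₀, hs, hw]
      have e5 : (1 / P) ^ w * (z₀ : ℝ) - s * ζ i =
          ((z₀ : ℝ) - s * P ^ w * b) / P ^ w - s * (ζ i - b) := by
        have h2 : P ^ w ≠ 0 := pow_ne_zero _ hP'
        rw [div_pow, one_pow, sub_div]
        have h3 : s * P ^ w * b / P ^ w = s * b := by field_simp
        rw [h3]
        ring
      rw [e5]
      have h2 : |((z₀ : ℝ) - s * P ^ w * b) / P ^ w| ≤ 2 * (1 / (4 * m)) * s := by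
        rw [abs_div, abs_of_pos (by positivity : (0 : ℝ) < P ^ w), div_le_iff₀ (by positivity)]
        linarith
      have h3 : |s * (ζ i - b)| ≤ s * (1 / (4 * m)) := by
        rw [abs_mul, abs_of_pos hs0]
        exact mul_le_mul_of_nonneg_left hb hs0.le
      calc |((z₀ : ℝ) - s * P ^ w * b) / P ^ w - s * (ζ i - b)|
          ≤ |((z₀ : ℝ) - s * P ^ w * b) / P ^ w| + |s * (ζ i - b)| := abs_sub _ _
        _ ≤ 2 * (1 / (4 * m)) * s + s * (1 / (4 * m)) := add_le_add h2 h3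
        _ = s * (3 * (1 / (4 * (m : ℝ)))) := by ring
        _ ≤ s * (1 / m) := mul_le_mul_of_nonneg_left hδ hs0.le
        _ = s / m := by ring
    rw [ht] at hPu hPv hPx hPy
    simp only at hPu hPv hPx hPy
    intro i
    show |(1 / P) ^ wt i * (((z' i : ℤ) : ℚ) : ℝ) - β ^ wt i * W i| ≤ sc H i / m
    rw [Rat.cast_intCast]
    fin_cases i
    · exact key 0 1 rfl 1 rfl u z0 _ (hB1 0) (by
        rw [one_mul, pow_one]; exact hPu)
    · exact key 1 1 rfl 1 rfl v z1 _ (hB1 1) (by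
        rw [one_mul, pow_one]; exact hPv)
    · exact key 2 (H ^ 2) rfl 2 rfl x z2 _ (hB1 2) hPx
    · exact key 3 (H ^ 3) rfl 3 rfl y z3 _ (hB1 3) hPy

end Pool.Agent.DPO
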