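import Pool.Agent.DPO.Stm2

/-!
# Piece WMF of project DPO: the final limit
-/

set_option autoImplicit false

namespace Pool.Agent.DPO

open Finset Filter

theorem WMF.goodP_mono {p : ℕ} [Fact p.Prime] {n M M' : ℕ} {a : Fin 5 → ℤ} {f : Fin 7 → ℤ}
    (hM : 1 ≤ M) (h : M ≤ M') (hg : GoodP p n M a f) : GoodP p n M' a f := by
  intro Z hZ
  obtain ⟨Z', β, h1, h2, h3, h4, h5⟩ := hg Z hZ
  refine ⟨Z', β, h1, h2, h3, h4, le_trans ?_ h5⟩
  have hM0 : (0 : ℝ) < M := by exact_mod_cast (show 0 < M from hM)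
  exact one_div_le_one_div_of_le hM0 (by exact_mod_cast h)

theorem WMF.goodR_mono {m M M' : ℕ} {H : ℝ} {a : Fin 5 → ℤ} {f : Fin 7 → ℤ} (hH : 0 < H)
    (hM : 1 ≤ M) (h : M ≤ M') (hg : GoodR m M H a f) : GoodR m M' H a f := by
  intro W hW
  obtain ⟨W', β, h1, h2, h3, h4, h5⟩ := hg W hW
  refine ⟨W', β, h1, h2, h3, h4, le_trans ?_ h5⟩
  have hM0 : (0 : ℝ) < M := by exact_mod_cast (show 0 < M from hM)
  exact div_le_div_of_nonneg_left (by positivity) hM0 (by exact_mod_cast h)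

theorem WMF.tgts_finite (m : ℕ) : (tgts m).Finite := by
  classical
  let g : (Fin 4 → ℕ) × (Fin 4 → ℤ) → Tgt := fun q =>
    ⟨q.1 0, q.1 1, q.1 2, q.1 3, q.2 0 / (4 * m), q.2 1 / (4 * m), q.2 2 / (4 * m),
      q.2 3 / (4 * m)⟩
  refine Set.Finite.subset ((((Fintype.piFinset (fun _ : Fin 4 => Finset.range (prim m ^ m))) ×ˢ
    (Fintype.piFinset (fun _ : Fin 4 => Finset.Icc (-(4 * m : ℤ)) (4 * m)))).image
      g).finite_toSet) ?_
  rintro t ⟨⟨A, hA, h1, h2, h3, h4⟩, B, hB, h5, h6, h7, h8⟩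
  rw [Finset.mem_coe, Finset.mem_image]
  refine ⟨(A, B), ?_, ?_⟩
  · rw [Finset.mem_product]
    constructor
    · rw [Fintype.mem_piFinset]
      exact fun i => Finset.mem_range.2 (hA i)
    · rw [Fintype.mem_piFinset]
      intro i
      rw [Finset.mem_Icc]
      exact abs_le.1 (hB i)
  · cases t
    simp only at h1 h2 h3 h4 h5 h6 h7 h8
    simp only [g, h1, h2, h3, h4, h5, h6, h7, h8]

theorem WMF.prim_pos (w : ℕ) : 0 < prim w := by
  unfold prim
  exact Finset.prod_pos fun p hp => ((Finset.mem_filter.1 hp).2).pos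

open scoped Classical in
theorem WMF.exc (hEXC : S_EXC) (hWAT : S_WAT) (hBADP : S_BADP) (hGOODP : S_GOODP)
    (hBADR : S_BADR) (hGOODR : S_GOODR) (hFULL : S_FULL) {m : ℕ} (hm : 1 ≤ m) {ε : ℝ}
    (hε : 0 < ε) :
    ∃ H₀ : ℝ, ∀ H, H₀ ≤ H → ∀ a ∈ box 5 (H ^ 4),
      (((box 7 (H ^ 6)).filter (fun f => ¬ WAF m H a f)).card : ℝ) ≤
        ε * (box 7 (H ^ 6)).card := by
  have hmr : (1 : ℝ) ≤ m := by exact_mod_cast hm
  have hP : ∀ p : ℕ, ∃ (ℓ : ℕ) (H₀ : ℝ) (M : ℕ), 1 ≤ M ∧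
      (p.Prime → ∀ H, H₀ ≤ H → ∀ a ∈ box 5 (H ^ 4),
        (((box 7 (H ^ 6)).filter (fun f => BadP p ℓ a f)).card : ℝ) ≤
          (ε / (4 * (2 * m + 1))) * (box 7 (H ^ 6)).card) ∧
      (∀ [Fact p.Prime] (a : Fin 5 → ℤ) (f : Fin 7 → ℤ), ¬ BadP p ℓ a f →
        GoodP p (2 * m) M a f) := by
    intro p
    by_cases hp : p.Prime
    · obtain ⟨ℓ, H₀, _, _, h⟩ := hBADP p (ε / (4 * (2 * m + 1))) hp (by positivity)
      have : Fact p.Prime := ⟨hp⟩
      obtain ⟨M, hM, h2⟩ := hGOODP p (2 * m) ℓ (by omega)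
      exact ⟨ℓ, H₀, M, hM, fun _ => h, fun a f => h2 a f⟩
    · exact ⟨0, 0, 1, le_rfl, fun h => absurd h hp, fun {hf} => absurd hf.out hp⟩
  choose ℓ Hp Mp hMp hbad hgood using hP
  obtain ⟨θ, HR, hθ, hHR1, hHR⟩ := hBADR (ε / 4) (by positivity)
  obtain ⟨MR, hMR, hGR⟩ := hGOODR (2 * m) θ (by omega) hθ
  obtain ⟨M, hM⟩ : ∃ M : ℕ, M = (∑ p ∈ range (2 * m + 1), Mp p) + MR := ⟨_, rfl⟩
  have hM1 : 1 ≤ M := by omega
  have hMpM : ∀ p, p ≤ 2 * m → Mp p ≤ M := by
    intro p hp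
    have h1 := Finset.single_le_sum (f := Mp) (fun i _ => Nat.zero_le _)
      (Finset.mem_range.2 (by omega : p < 2 * m + 1))
    omega
  obtain ⟨T, hT⟩ : ∃ T : Finset Tgt, T = (WMF.tgts_finite (2 * m)).toFinset := ⟨_, rfl⟩
  have hTm : ∀ t, t ∈ tgts (2 * m) → t ∈ T := by
    intro t ht
    rw [hT]
    exact (Set.Finite.mem_toFinset _).2 ht
  have hT0 : (0 : ℝ) ≤ T.card := Nat.cast_nonneg _
  have h2m : (1 : ℝ) ≤ ((2 * m : ℕ) : ℝ) := by
    have : 1 ≤ 2 * m := by omega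
    exact_mod_cast this
  have h1 := fun t : Tgt => hEXC (prim (2 * m) ^ (2 * m)) M t (1 / (4 * ((2 * m : ℕ) : ℝ)))
    (ε / (4 * (T.card + 1))) (Nat.one_le_pow _ _ (WMF.prim_pos _)) hM1 (by positivity)
    (by rw [div_le_one (by positivity)]; linarith) (by positivity)
  choose Hf hHf1 hHf using h1
  obtain ⟨H₁, hH₁⟩ := Finset.exists_le ((Finset.range (2 * m + 1)).image Hp)
  obtain ⟨H₂, hH₂⟩ := Finset.exists_le (T.image Hf)
  refine ⟨max (max H₁ H₂) HR, fun H hH a ha => ?_⟩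
  have hHH1 : H₁ ≤ H := ((le_max_left _ _).trans (le_max_left _ _)).trans hH
  have hHH2 : H₂ ≤ H := ((le_max_right _ _).trans (le_max_left _ _)).trans hH
  have hHHR : HR ≤ H := (le_max_right _ _).trans hH
  have hH1 : 1 ≤ H := hHR1.trans hHHR
  have hsub : (box 7 (H ^ 6)).filter (fun f => ¬ WAF m H a f) ⊆
      (((range (2 * m + 1)).filter Nat.Prime).biUnion
        (fun p => (box 7 (H ^ 6)).filter (fun f => BadP p (ℓ p) a f))) ∪
      ((box 7 (H ^ 6)).filter (fun f => BadR θ H a f) ∪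
      T.biUnion (fun t => (box 7 (H ^ 6)).filter (fun f =>
        (LocP (prim (2 * m) ^ (2 * m)) M t a f ∧
          LocR M (1 / (4 * ((2 * m : ℕ) : ℝ))) H t a f) ∧
        ¬ SolT (prim (2 * m) ^ (2 * m)) t (1 / (4 * ((2 * m : ℕ) : ℝ))) H a f))) := by
    intro f hf
    rw [Finset.mem_filter] at hf
    by_contra hcon
    rw [Finset.mem_union, Finset.mem_union, Finset.mem_biUnion, Finset.mem_biUnion] at hcon
    push Not at hcon
    obtain ⟨c1, c2, c3⟩ := hcon
    apply hf.2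
    refine hFULL m M H a f hm hM1 (by linarith) (fun p _ hp => ?_) ?_ ?_
    · refine WMF.goodP_mono (hMp p) (hMpM p hp) (hgood p a f ?_)
      intro hb
      refine c1 p ?_ (Finset.mem_filter.2 ⟨hf.1, hb⟩)
      exact Finset.mem_filter.2 ⟨Finset.mem_range.2 (by omega), Fact.out⟩
    · refine WMF.goodR_mono (by linarith) hMR (by omega) (hGR H hH1 a ha f hf.1 ?_)
      intro hb
      exact c2 (Finset.mem_filter.2 ⟨hf.1, hb⟩)
    · refine hWAT (2 * m) M H a f (by omega) hM1 (by linarith) (fun t ht h3 h4 => ?_)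
      by_contra h5
      exact c3 t (hTm t ht) (Finset.mem_filter.2 ⟨hf.1, ⟨h3, h4⟩, h5⟩)
  obtain ⟨N, hN⟩ : ∃ N : ℝ, N = ((box 7 (H ^ 6)).card : ℝ) := ⟨_, rfl⟩
  have hN0 : 0 ≤ N := by rw [hN]; exact Nat.cast_nonneg _
  have h2 := (Finset.card_le_card hsub).trans ((Finset.card_union_le _ _).trans
    (Nat.add_le_add Finset.card_biUnion_le ((Finset.card_union_le _ _).trans
      (Nat.add_le_add_left Finset.card_biUnion_le _))))
  have h3 := (Nat.cast_le (α := ℝ)).mpr h2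
  push_cast at h3
  have k1 : ∑ p ∈ (range (2 * m + 1)).filter Nat.Prime,
      (((box 7 (H ^ 6)).filter (fun f => BadP p (ℓ p) a f)).card : ℝ) ≤ ε / 4 * N := by
    calc _ ≤ ((range (2 * m + 1)).filter Nat.Prime).card • (ε / (4 * (2 * m + 1)) * N) := by
          apply Finset.sum_le_card_nsmul
          intro p hp
          rw [Finset.mem_filter] at hp
          rw [hN]
          exact hbad p hp.2 H ((hH₁ _ (Finset.mem_image_of_mem Hp hp.1)).trans hHH1) a ha
      _ ≤ (2 * m + 1 : ℕ) • (ε / (4 * (2 * m + 1)) * N) := by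
          refine nsmul_le_nsmul_left (by positivity) ?_
          exact (Finset.card_filter_le _ _).trans (by rw [Finset.card_range])
      _ = ε / 4 * N := by
          rw [nsmul_eq_mul]
          push_cast
          field_simp
  have k2 : (((box 7 (H ^ 6)).filter (fun f => BadR θ H a f)).card : ℝ) ≤ ε / 4 * N := by
    rw [hN]
    exact hHR H hHHR a ha
  have k3 : ∑ t ∈ T, (((box 7 (H ^ 6)).filter (fun f =>
        (LocP (prim (2 * m) ^ (2 * m)) M t a f ∧
          LocR M (1 / (4 * ((2 * m : ℕ) : ℝ))) H t a f) ∧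
        ¬ SolT (prim (2 * m) ^ (2 * m)) t (1 / (4 * ((2 * m : ℕ) : ℝ))) H a f)).card : ℝ) ≤
      ε / 4 * N := by
    calc _ ≤ T.card • (ε / (4 * (T.card + 1)) * N) := by
          apply Finset.sum_le_card_nsmul
          intro t ht
          rw [hN]
          exact hHf t H ((hH₂ _ (Finset.mem_image_of_mem Hf ht)).trans hHH2) a ha
      _ = (T.card / (T.card + 1)) * (ε / 4 * N) := by
          rw [nsmul_eq_mul]
          field_simp
      _ ≤ 1 * (ε / 4 * N) := by
          apply mul_le_mul_of_nonneg_right _ (by positivity)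
          rw [div_le_one (by positivity)]
          linarith
      _ = _ := one_mul _
  rw [← hN]
  have k4 : 0 ≤ ε * N := by positivity
  push_cast at k3
  linarith

open scoped Classical in
theorem t_WMF (hEXC : S_EXC) (hWAT : S_WAT) (hBADP : S_BADP) (hGOODP : S_GOODP)
    (hBADR : S_BADR) (hGOODR : S_GOODR) (hFULL : S_FULL) : S_WMF := by
  have h1 := fun m : ℕ => WMF.exc hEXC hWAT hBADP hGOODP hBADR hGOODR hFULL (m := m + 1)
    (by omega) (ε := 1 / ((m : ℝ) + 1)) (by positivity)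
  choose Hf hHf using h1
  obtain ⟨M, hM⟩ : ∃ M : ℕ → ℕ, M = fun H : ℕ => Nat.findGreatest
      (fun j => ∀ i, i < j → Hf i ≤ (H : ℝ)) H := ⟨_, rfl⟩
  have hMtop : Tendsto M atTop atTop := by
    rw [tendsto_atTop]
    intro b
    obtain ⟨B, hB⟩ := Finset.exists_le ((Finset.range b).image Hf)
    filter_upwards [eventually_ge_atTop b, eventually_ge_atTop ⌈B⌉₊] with H hH1 hH2
    rw [hM]
    apply Nat.le_findGreatest hH1
    intro i hi
    refine (hB _ (Finset.mem_image_of_mem Hf (Finset.mem_range.mpr hi))).trans ?_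
    exact (Nat.le_ceil B).trans (by exact_mod_cast hH2)
  have hMspec : ∀ H : ℕ, 1 ≤ M H → Hf (M H - 1) ≤ (H : ℝ) := by
    intro H hH
    have h2 : ∀ i, i < M H → Hf i ≤ (H : ℝ) := by
      have := Nat.findGreatest_spec (P := fun j => ∀ i, i < j → Hf i ≤ (H : ℝ)) (m := 0) (n := H)
        (Nat.zero_le _) (fun i hi => absurd hi (Nat.not_lt_zero i))
      rw [hM]
      exact this
    exact h2 _ (by omega)
  refine ⟨M, fun H => if M H = 0 then 1 else 1 / (M H : ℝ), hMtop, ?_, ?_⟩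
  · have h2 : Tendsto (fun H => 1 / (M H : ℝ)) atTop (nhds 0) :=
      tendsto_one_div_atTop_nhds_zero_nat.comp hMtop
    refine h2.congr' ?_
    filter_upwards [tendsto_atTop.1 hMtop 1] with H hH
    rw [if_neg (by omega)]
  · intro H hH a ha
    by_cases h0 : M H = 0
    · simp only [h0, if_true, one_mul]
      exact_mod_cast Finset.card_filter_le _ _
    · have h2 := hHf (M H - 1) H (hMspec H (by omega)) a ha
      have h3 : M H - 1 + 1 = M H := by omega
      rw [h3] at h2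
      have h4 : (((M H - 1 : ℕ) : ℝ) + 1) = (M H : ℝ) := by exact_mod_cast h3
      rw [h4] at h2
      simp only [h0, if_false]
      exact h2

end Pool.Agent.DPO
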