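import Pool.Agent.DPO.Conv
import Pool.Agent.DPO.ICNT
import Pool.Agent.DPO.BOXC
import Pool.Agent.DPO.TAU
import Pool.Agent.DPO.SHG
import Pool.Agent.DPO.SH1
import Pool.Agent.DPO.SH2
import Pool.Agent.DPO.CUB
import Pool.Agent.DPO.QUAD
import Pool.Agent.DPO.UNI
import Pool.Agent.DPO.FIBQ
import Pool.Agent.DPO.PAIR
import Pool.Agent.DPO.LOW
import Pool.Agent.DPO.DIAG
import Pool.Agent.DPO.UCARD
import Pool.Agent.DPO.USUM
import Pool.Agent.DPO.CLASS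
import Pool.Agent.DPO.HENS
import Pool.Agent.DPO.LDAT
import Pool.Agent.DPO.STAB
import Pool.Agent.DPO.REAL
import Pool.Agent.DPO.EXC
import Pool.Agent.DPO.LP
import Pool.Agent.DPO.LR
import Pool.Agent.DPO.WAT
import Pool.Agent.DPO.BADP
import Pool.Agent.DPO.GOODP
import Pool.Agent.DPO.BADR
import Pool.Agent.DPO.MOVR
import Pool.Agent.DPO.GOODR
import Pool.Agent.DPO.FULL
import Pool.Agent.DPO.WMF

/-!
# Project DPO: assembly
-/

set_option autoImplicit false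

namespace Pool.Agent.DPO

theorem m_SH1 : S_SH1 := t_SH1 t_SHG

theorem m_SH2 : S_SH2 := t_SH2 t_SHG

theorem m_QUAD : S_QUAD := t_QUAD t_CUB

theorem m_FIBQ : S_FIBQ := t_FIBQ t_ICNT m_QUAD t_UNI

theorem m_PAIR : S_PAIR := t_PAIR m_SH2 m_FIBQ t_BOXC t_ICNT

theorem m_LOW : S_LOW := t_LOW m_SH1 t_BOXC t_ICNT

theorem m_DIAG : S_DIAG := t_DIAG m_SH1 t_BOXC t_ICNT t_TAU

theorem m_UCARD : S_UCARD := t_UCARD t_ICNT

theorem m_USUM : S_USUM := t_USUM t_ICNT m_UCARD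

theorem m_CLASS : S_CLASS := t_CLASS m_LOW m_PAIR m_DIAG m_UCARD m_USUM

theorem m_LDAT : S_LDAT := t_LDAT t_HENS

theorem m_EXC : S_EXC := t_EXC m_CLASS m_LDAT t_STAB t_REAL t_BOXC

theorem m_WAT : S_WAT := t_WAT t_LP t_LR

theorem m_GOODR : S_GOODR := t_GOODR t_MOVR t_LR

theorem main : S_WMF := t_WMF m_EXC m_WAT t_BADP t_GOODP t_BADR m_GOODR t_FULL

end Pool.Agent.DPO
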