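import Pool.Agent.DPO.Defs

/-!
# Project DPO: the statements

For every fixed binary quartic form `a` and 100 percent of the binary sextic forms `f` the del Pezzo
surface of degree one `y ^ 2 = x ^ 3 + a (u, v) x + f (u, v)` satisfies weak approximation
(to a precision `1 / m`, `m → ∞`). Idea: second moment, in a class `f = c + S J g`, of the number
`∑_{(u, v)} cnt` of the points with `(u, v) ∈ setU`, `x ∈ setX`, `y ∈ setY`. For two fibres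
`p = (u, v)`, `q = (u', v')` with determinant `D = det2 p q ≠ 0` the pair `(g p, g q)` runs through the
lattice `g q ≡ l ^ 6 g p mod D`; as `x`, `y` run through intervals much longer than `D`, the number of
the pairs of points is governed by the number of the solutions of
`y' ^ 2 - x' ^ 3 - β x' ≡ y ^ 2 - x ^ 3 - β x` modulo the divisors of `D`.

Naming: piece `X` is the theorem `t_X : S_X` in the file `Pool/Agent/DPO/X.lean` (namespace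
`Pool.Agent.DPO`, `import Pool.Agent.DPO.Stm`); the pieces it uses are hypotheses, for instance
`theorem t_PAIR (h1 : S_SH2) (h2 : S_FIBQ) (h3 : S_BOXC) (h4 : S_ICNT) : S_PAIR`.
-/

set_option autoImplicit false

namespace Pool.Agent.DPO

open Finset

/-! ## Counting tools -/

/-- **ICNT** (30 lines). (1) integers in one class modulo `m` with differences at most `L`: the map
`x ↦ (x - x₀) / m` (`x₀` the smallest) sends `s` injectively to the integers in `[0, L / m]`.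
(2) lower bound for an interval: the elements are `r + m k` with `(lo - r) / m ≤ k ≤ (hi - r) / m`. -/
def S_ICNT : Prop :=
  (∀ (s : Finset ℤ) (m : ℕ) (L : ℝ), 0 < m → 0 ≤ L →
    (∀ a ∈ s, ∀ b ∈ s, (m : ℤ) ∣ a - b ∧ |(a : ℝ) - b| ≤ L) → (s.card : ℝ) ≤ L / m + 1) ∧
  ∀ (lo hi : ℝ) (m : ℕ) (r : ℤ), 0 < m → (hi - lo) / m - 1 ≤ ((setI lo hi m r).card : ℝ)

/-- **BOXC** (50 lines). `card (box 7 A) = (2 ⌊A⌋ + 1) ^ 7` for `A ≥ 0`, and for large `A`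
`(2 (1 + τ) A + 1) / (2 A - 1) ≤ (1 + τ) ^ (8 / 7)` etc. (for instance: the quotient of the seventh
powers tends to `(1 + τ) ^ 7 < (1 + τ) ^ 8`). -/
def S_BOXC : Prop :=
  ∀ τ : ℝ, 0 < τ → τ < 1 → ∃ A₀ : ℝ, 1 ≤ A₀ ∧ ∀ A, A₀ ≤ A →
    ((box 7 ((1 + τ) * A)).card : ℝ) ≤ (1 + τ) ^ 8 * (box 7 A).card ∧
    (1 - τ) ^ 8 * ((box 7 A).card : ℝ) ≤ (box 7 ((1 - τ) * A)).card ∧
    ((box 7 (2 * A)).card : ℝ) ≤ 2 ^ 8 * (box 7 A).card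

/-- **TAU** (60 lines): the divisor bound. `τ(n) / n ^ (1 / 6) = ∏ (e + 1) / p ^ (e / 6)`; the factor is
at most `1` if `p ≥ 64` (as `e + 1 ≤ 2 ^ e`), and at most a constant for the finitely many smaller `p`
(`(e + 1) ≤ 100 · 2 ^ (e / 6)`, say). Induction `Nat.recOnPosPrimePosCoprime` with the bound
`∏_{p ∣ n, p < 64} 100`, or any other proof. -/
def S_TAU : Prop :=
  ∃ C : ℝ, 0 < C ∧ ∀ n : ℕ, 0 < n → (n.divisors.card : ℝ) ≤ C * (n : ℝ) ^ (1 / 6 : ℝ)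

/-! ## Small forms with given values at one or two points -/

/-- **SHG** (60 lines). Induction on `d`. `d = 0`: `r 0 = a`. Step `d + 1`: as `v` is invertible modulo
`u`, there is `r_{d + 1}` with `0 ≤ r_{d + 1} < |u|` and `u ∣ a - r_{d + 1} v ^ (d + 1)`; apply the
induction to `(a - r_{d + 1} v ^ (d + 1)) / u` (`bf r u v = u * bf r' u v + r_{d + 1} v ^ (d + 1)`,
`Fin.sum_univ_castSucc`). The bound of `r 0` follows from the equation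
`r 0 u ^ d = a - ∑_{i ≥ 1} r i u ^ (d - i) v ^ i`. -/
def S_SHG : Prop :=
  ∀ (d : ℕ) (u v : ℤ) (C : ℝ), 1 ≤ C → Int.gcd u v = 1 → u ≠ 0 → |(v : ℝ)| ≤ C * |(u : ℝ)| →
    ∀ a : ℤ, ∃ r : Fin (d + 1) → ℤ, bf r u v = a ∧ (∀ i, i ≠ 0 → |(r i : ℝ)| ≤ |(u : ℝ)|) ∧
      |(r 0 : ℝ)| ≤ |(a : ℝ)| / |(u : ℝ)| ^ d + d * C ^ d * |(u : ℝ)|

/-- **SH1** (40 lines, from `S_SHG` with `d = 6`): `c = ε γ ^ 6 / 2`; the other terms are `O (H ^ 2)`,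
at most `(ε / 2) H ^ 6` for large `H`. -/
def S_SH1 : Prop :=
  ∀ γ C₀ ε : ℝ, 0 < γ → 1 ≤ C₀ → 0 < ε → ∃ c H₀ : ℝ, 0 < c ∧ 1 ≤ H₀ ∧ ∀ H, H₀ ≤ H →
    ∀ u v : ℤ, Int.gcd u v = 1 → γ * H ^ 2 ≤ |(u : ℝ)| → |(u : ℝ)| ≤ C₀ * H ^ 2 →
    |(v : ℝ)| ≤ C₀ * H ^ 2 → ∀ a : ℤ, |(a : ℝ)| ≤ c * H ^ 18 →
    ∃ r ∈ box 7 (ε * H ^ 6), bf r u v = a

/-- **SH2** (150 lines, from `S_SHG` with `d = 6` and `d = 5`). Write `p = (u, v)`, `q = (u', v')`,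
`D = det2 p q = u v' - v u'`. Take `r₁` from `S_SHG` for `p` and `a` (`d = 6`). Then
`r₁ (q) ≡ l ^ 6 r₁ (p) = l ^ 6 a` modulo `D`, so `D ∣ a' - r₁ (q)`. Take `h` (`d = 5`) from `S_SHG` for
`q` and the value `-(a' - r₁ (q)) / D` and `r = r₁ + (v U - u V) h` (the linear form `v U - u V` is
zero at `p` and `- D` at `q`): coefficients `r i = r₁ i + v h i - u h (i - 1)`. Bounds:
`r₁ (q) - (u' / u) ^ 6 a = ∑_{i ≥ 1} r₁ i u' ^ 6 ((v' / u') ^ i - (v / u) ^ i)`, and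
`v' / u' - v / u = D / (u u')`, so it is `O (H ^ 2 H ^ 12 D / H ^ 4) = O (D H ^ 10)`; hence the value of
`h` is at most `c H ^ 14 + O (H ^ 10)`, `|h 0| ≤ (c H ^ 14 + O (H ^ 10)) / (γ H ^ 2) ^ 5 + O (H ^ 2)`,
and the coefficients of `r` are at most `(c / γ ^ 6) H ^ 6 + 2 C₀ H ^ 2 (c / γ ^ 5) H ^ 4 + O (H ^ 4)`,
at most `ε H ^ 6` for small `c` and large `H`. -/
def S_SH2 : Prop :=
  ∀ γ C₀ ε : ℝ, 0 < γ → 1 ≤ C₀ → 0 < ε → ∃ c H₀ : ℝ, 0 < c ∧ 1 ≤ H₀ ∧ ∀ H, H₀ ≤ H →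
    ∀ p q : ℤ × ℤ, Int.gcd p.1 p.2 = 1 → Int.gcd q.1 q.2 = 1 →
    γ * H ^ 2 ≤ |(p.1 : ℝ)| → |(p.1 : ℝ)| ≤ C₀ * H ^ 2 → |(p.2 : ℝ)| ≤ C₀ * H ^ 2 →
    γ * H ^ 2 ≤ |(q.1 : ℝ)| → |(q.1 : ℝ)| ≤ C₀ * H ^ 2 → |(q.2 : ℝ)| ≤ C₀ * H ^ 2 →
    det2 p q ≠ 0 → ∀ l : ℤ, det2 p q ∣ q.1 - l * p.1 → det2 p q ∣ q.2 - l * p.2 →
    ∀ a a' : ℤ, |(a : ℝ)| ≤ c * H ^ 18 →
    |(a' : ℝ) - ((q.1 : ℝ) / p.1) ^ 6 * a| ≤ c * |(det2 p q : ℝ)| * H ^ 14 →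
    det2 p q ∣ a' - l ^ 6 * a →
    ∃ r ∈ box 7 (ε * H ^ 6), bf r p.1 p.2 = a ∧ bf r q.1 q.2 = a'

/-! ## Congruences -/

/-- **CUB** (120 lines): the number of the roots of `x ^ 3 + b x = c` modulo `n`. For `n = p ^ e`, put
`r = ⌈e / 3⌉`. The roots lie in at most `3` classes modulo `p ^ r`: if `x₀, x₁, x₂, x₃` are roots which
are pairwise incongruent modulo `p ^ r`, then, as `p ^ e ∣ (x₀ - x₁) (x₀ ^ 2 + x₀ x₁ + x₁ ^ 2 + b)` and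
`p ^ r ∤ x₀ - x₁`, `p ^ (e - r + 1) ∣ x₀ ^ 2 + x₀ x₁ + x₁ ^ 2 + b`, also with `x₂` for `x₁`, so
`p ^ (e - r + 1) ∣ (x₁ - x₂) (x₀ + x₁ + x₂)` and `p ^ (e - 2 (r - 1)) ∣ x₀ + x₁ + x₂`, also with `x₃` for
`x₂`, so `p ^ (e - 2 (r - 1)) ∣ x₂ - x₃`, but `e - 2 (r - 1) ≥ r`. Hence at most
`3 p ^ (e - r) ≤ p ^ (5 e / 6)` roots modulo `p ^ e`, as `3 ≤ 729 ^ (1 / 6)` and `r - e / 6 ≥ 1 / 6`.
For coprime `n`, `n'` the number for `n n'` is at most the product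
(`Nat.recOnPosPrimePosCoprime`). -/
def S_CUB : Prop :=
  ∀ n : ℕ, Rough n → ∀ b c : ℤ,
    (((Finset.range n).filter (fun x : ℕ => (n : ℤ) ∣ (x : ℤ) ^ 3 + b * x - c)).card : ℝ) ≤
      (n : ℝ) ^ (5 / 6 : ℝ)

/-- **QUAD** (150 lines, from `S_CUB`). Put `x' = l ^ 2 X`, `y' = l ^ 3 Y` (a bijection): the equation is
`Y ^ 2 - y ^ 2 = X ^ 3 + β X - x ^ 3 - β x =: h`. As `n` is odd, `(v, w) = (Y - y, Y + y)` is a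
bijection: `v w = h`. For a given `h` (a natural number `< n`) the number of `(v, w)` is at most
`∑_v [gcd (v, n) ∣ h] gcd (v, n) ≤ ∑_{δ ∣ n, δ ∣ h} δ (n / δ) = n #{δ : δ ∣ n, δ ∣ h}` (the number of
the `v` with `gcd (v, n) = δ` is at most `n / δ`). So the number of the solutions is at most
`n ∑_{δ ∣ n} #{(x, X) : δ ∣ h} ≤ n ∑_{δ ∣ n} (n / δ) ^ 2 δ δ ^ (5 / 6)`, by `S_CUB` for `δ`, `X` being a
root of `X ^ 3 + β X = x ^ 3 + β x` modulo `δ`. -/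
def S_QUAD : Prop :=
  ∀ (n : ℕ) [NeZero n], Rough n → ∀ β l : ZMod n, IsUnit l →
    ((Finset.univ.filter (fun z : (ZMod n × ZMod n) × (ZMod n × ZMod n) =>
      z.2.2 ^ 2 - z.2.1 ^ 3 - l ^ 4 * β * z.2.1 =
        l ^ 6 * (z.1.2 ^ 2 - z.1.1 ^ 3 - β * z.1.1))).card : ℝ) ≤
      (n : ℝ) ^ 3 * ∑ δ ∈ n.divisors, ((δ : ℝ) ^ (1 / 6 : ℝ))⁻¹

/-- **UNI** (40 lines): if `y`, `y'` are in the class, all the prime factors of `D` divide `S`, and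
`S J D ∣ y ^ 2 - y' ^ 2`, then `S D ∣ y - y'`. Proof: `y + y' = 2 yc + S k = J z`, `z = y₁ + (S / J) k`;
every prime `p ∣ S` divides `S / J` (`hpJ`, `hw`) and not `y₁`, so `z` is coprime to `S` and `D`. (As
`w ≥ 2`, `J ∣ S` by `hpJ`.) -/
def S_UNI : Prop :=
  ∀ (w : ℕ) (C : Cls), 2 ≤ w → PD w C → ∀ D : ℕ, 0 < D → (∀ p : ℕ, p.Prime → p ∣ D → p ∣ C.S) →
    ∀ y y' : ℤ, (C.S : ℤ) ∣ y - C.yc → (C.S : ℤ) ∣ y' - C.yc →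
    ((C.S * C.J * D : ℕ) : ℤ) ∣ y ^ 2 - y' ^ 2 → ((C.S * D : ℕ) : ℤ) ∣ y - y'

/-- **FIBQ** (250 lines, from `S_ICNT`, `S_QUAD`, `S_UNI`): the quadruples `((x, y), (x', y'))` of the
class for two fibres `p`, `q`, `D = |det2 p q|`, `t`, `t'` arbitrary integers. Write `D = D₁ D₂`, the
prime factors of `D₁` divide `S`, `D₂` is coprime to `S` (so `Rough D₂`, its prime factors are `> w`);
`Gf S D` is the sum over the divisors of `D₂`. `q` primitive: `l` is a unit modulo `D₂`. Modulo `D₂` the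
form values satisfy `b (q) = l ^ 4 b (p)`, `c (q) = l ^ 6 c (p)`, so by the third condition the
residues of `z` modulo `D₂` are in the set of `S_QUAD` (`β = b (p)`). Fix the residues of `z`. By
`S_ICNT`: number of `x`: at most `2 ρ H ^ 6 / (S J D₂) + 1`, same for `x'`. For given `x` the number of
`y`: `y ^ 2` is in an interval of length `2 S J c H ^ 18`, `y ≥ Y₁ H ^ 9`, so two `y` differ by at most
`S J c H ^ 18 / (Y₁ H ^ 9)`; modulus `S D₂`: at most `J c H ^ 9 / (Y₁ D₂) + 1`. For given `x, y, x'` two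
`y'` satisfy `S J D ∣ y' ^ 2 - y'' ^ 2`, so `S D₁ ∣ y' - y''` (`S_UNI`) and `S D₁ D₂ ∣ y' - y''`; and
`|y' - y''| ≤ S J c D H ^ 14 / (Y₁ H ^ 9)`: at most `J c H ^ 5 / Y₁ + 1`. Here `D₂ ≤ D ≤ 2 C₀ ^ 2 H ^ 4`,
so all terms `1` are negligible: the total is at most
`(1 + ε) #(S_QUAD) (2 ρ H ^ 6 / (S J D₂)) ^ 2 (J c H ^ 9 / (Y₁ D₂)) (J c H ^ 5 / Y₁)`. -/
def S_FIBQ : Prop :=
  ∀ γ C₀ ρ η κ τ c ε : ℝ, Cst γ C₀ ρ η κ τ → 0 < c → 0 < ε → ∀ Q₀ : ℕ, ∃ H₀ : ℝ, 1 ≤ H₀ ∧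
    ∀ H, H₀ ≤ H → ∀ (w : ℕ) (C : Cls) (R : Rcl), 729 ≤ w → PD w C → RD γ C₀ ρ η κ τ H C R →
    C.S * C.J ≤ Q₀ → ∀ p ∈ setU H ρ C R, ∀ q ∈ setU H ρ C R, det2 p q ≠ 0 →
    ∀ l : ℤ, det2 p q ∣ q.1 - l * p.1 → det2 p q ∣ q.2 - l * p.2 → ∀ t t' : ℤ,
    ((((setX H ρ C R ×ˢ setY H C R) ×ˢ (setX H ρ C R ×ˢ setY H C R)).filter (fun z =>
      |((Psi C.b C.c p.1 p.2 z.1.1 z.1.2 - t : ℤ) : ℝ)| ≤ (C.S * C.J : ℕ) * (c * H ^ 18) ∧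
      |((Psi C.b C.c q.1 q.2 z.2.1 z.2.2 - t' : ℤ) : ℝ) - ((q.1 : ℝ) / p.1) ^ 6 *
        ((Psi C.b C.c p.1 p.2 z.1.1 z.1.2 - t : ℤ) : ℝ)| ≤
        (C.S * C.J : ℕ) * (c * |(det2 p q : ℝ)| * H ^ 14) ∧
      ((C.S * C.J : ℕ) : ℤ) * det2 p q ∣ Psi C.b C.c q.1 q.2 z.2.1 z.2.2 -
        l ^ 6 * Psi C.b C.c p.1 p.2 z.1.1 z.1.2)).card : ℝ) ≤
      (1 + ε) * Gf C.S (det2 p q).natAbs * (2 * ρ * c / (C.S * R.Y₁)) ^ 2 * H ^ 26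

/-! ## Moments -/

/-- **PAIR** (200 lines, from `S_SH2`, `S_FIBQ`, `S_BOXC`, `S_ICNT`). The left side is the sum over the
quadruples `z = ((x, y), (x', y'))` of the number of the `g` in the box (`A = η H ^ 6`) with
`g (p) = s`, `g (q) = s'`, where `S J s = Psi (p; x, y)`, `S J s' = Psi (q; x', y')` (`PD`: both are
divisible by `S J`: see `hdvd`, `SJ ∣ 2 yc S`, `SJ ∣ S ^ 2`). If this number is not zero, then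
`D ∣ s' - l ^ 6 s` (`l` exists, as `p` is primitive). Let `τ₁` be small, `c` from `S_SH2` for
`ε = τ₁ η`; for all `(a, a')` in `Rg = {|a| ≤ c H ^ 18, |a' - (q.1 / p.1) ^ 6 a| ≤ c |D| H ^ 14,
D ∣ a' - l ^ 6 a}` choose `r_{a, a'}`. The map `(g, (a, a')) ↦ g + r_{a, a'}` is injective (`z` fixed)
into the `g' ∈ box 7 ((1 + τ₁) A)` with `(g' (p) - s, g' (q) - s') ∈ Rg`, and
`card Rg ≥ (2 c H ^ 18 - 1) (2 c H ^ 14 - 1)` (`S_ICNT`). Sum over `z`, interchange, and apply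
`S_FIBQ` for every `g'` with `t = S J g' (p)`, `t' = S J g' (q)`; finally `S_BOXC`:
`(2 ρ c / (S Y₁)) ^ 2 H ^ 26 / (4 c ^ 2 H ^ 32) = (ρ / (S Y₁ H ^ 3)) ^ 2`. -/
def S_PAIR : Prop :=
  ∀ γ C₀ ρ η κ τ ε : ℝ, Cst γ C₀ ρ η κ τ → 0 < ε → ∀ Q₀ : ℕ, ∃ H₀ : ℝ, 1 ≤ H₀ ∧
    ∀ H, H₀ ≤ H → ∀ (w : ℕ) (C : Cls) (R : Rcl), 729 ≤ w → PD w C → RD γ C₀ ρ η κ τ H C R →
    C.S * C.J ≤ Q₀ → ∀ p ∈ setU H ρ C R, ∀ q ∈ setU H ρ C R, det2 p q ≠ 0 →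
    ∑ g ∈ box 7 (η * H ^ 6), (cnt H ρ C R g p : ℝ) * cnt H ρ C R g q ≤
      (1 + ε) * Gf C.S (det2 p q).natAbs * (ρ / (C.S * R.Y₁ * H ^ 3)) ^ 2 *
        (box 7 (η * H ^ 6)).card

/-- **LOW** (130 lines, from `S_SH1`, `S_BOXC`, `S_ICNT`): the first moment. Let `A = η H ^ 6`, `τ₁`
small, `c ≤ κ / Q₀` and `c` at most the one of `S_SH1` for `ε = τ₁ η` (a smaller `c` is allowed there).
For `(x, y)` in the class let `S J s = Psi (p; x, y)`. For `|a| ≤ c H ^ 18` choose `r_a`. The map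
`g' ↦ g' - r_a` (`a = g' (p) - s`) from `{g' ∈ box 7 ((1 - τ₁) A) : |g' (p) - s| ≤ c H ^ 18}` to
`{g ∈ box 7 A : g (p) = s}` has fibres of at most `2 c H ^ 18 + 1` elements (given `a` it is injective).
So the left side times `2 c H ^ 18 + 1` is at least
`∑_{g'} #{(x, y) : |S J g' (p) - Psi| ≤ S J c H ^ 18}`. For given `g'`, `x` put
`z = x ^ 3 + b (p) x + c (p) + S J g' (p)`; by `hz` all `y ≡ yc mod S` with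
`√(z - S J c H ^ 18) ≤ y ≤ √(z + S J c H ^ 18)` are in `setY`, and the length of the interval is at
least `S J c H ^ 18 / (Y₂ H ^ 9)`; number at least `J c H ^ 9 / Y₂ - 1`; number of the `x` at least
`2 ρ H ^ 6 / (S J) - 1` (`S_ICNT`). -/
def S_LOW : Prop :=
  ∀ γ C₀ ρ η κ τ ε : ℝ, Cst γ C₀ ρ η κ τ → 0 < ε → ∀ Q₀ : ℕ, ∃ H₀ : ℝ, 1 ≤ H₀ ∧
    ∀ H, H₀ ≤ H → ∀ (w : ℕ) (C : Cls) (R : Rcl), 729 ≤ w → PD w C → RD γ C₀ ρ η κ τ H C R →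
    C.S * C.J ≤ Q₀ → ∀ p ∈ setU H ρ C R,
    (1 - ε) * (ρ / (C.S * R.Y₂ * H ^ 3)) * (box 7 (η * H ^ 6)).card ≤
      ∑ g ∈ box 7 (η * H ^ 6), (cnt H ρ C R g p : ℝ)

/-- **DIAG** (150 lines, from `S_SH1`, `S_BOXC`, `S_ICNT`, `S_TAU`): the second moment in one fibre.
For every `s` the number of the `g ∈ box 7 A` with `g (p) = s` is at most
`card (box 7 (2 A)) / (2 c H ^ 18 - 1)` (add the `r_a`, `|a| ≤ c H ^ 18`, of `S_SH1` with `ε = η`). So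
the sum is at most this times the number of `(x, y, x', y')` with
`y ^ 2 - y' ^ 2 = h := x ^ 3 - x' ^ 3 + b (p) (x - x')`. If `h = 0` then `y = y'`, and `x' = x` or `x'`
is one of the two roots of `x ^ 2 + x x' + x' ^ 2 + b (p)`: at most
`3 #setX #setY = O (H ^ 15)` (`S_ICNT`: `#setX ≤ 2 H ^ 6 + 1`, `#setY ≤ C₀ H ^ 9 + 1`). If `h ≠ 0`, then
`y + y'` is a divisor of `|h|` and determines `y - y'`: at most `τ (|h|)` pairs, and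
`|h| ≤ C₀ ^ 2 H ^ 18` by `hz` with `g = 0` for `x` and `x'`: `O (H ^ 12 H ^ 3)` quadruples (`S_TAU`).
Total `O (H ^ 15 / H ^ 18)`. -/
def S_DIAG : Prop :=
  ∀ γ C₀ ρ η κ τ : ℝ, Cst γ C₀ ρ η κ τ → ∃ C₁ H₀ : ℝ, 0 < C₁ ∧ 1 ≤ H₀ ∧
    ∀ H, H₀ ≤ H → ∀ (w : ℕ) (C : Cls) (R : Rcl), 729 ≤ w → PD w C → RD γ C₀ ρ η κ τ H C R →
    ∀ p ∈ setU H ρ C R,
    ∑ g ∈ box 7 (η * H ^ 6), (cnt H ρ C R g p : ℝ) ^ 2 ≤ C₁ / H ^ 3 * (box 7 (η * H ^ 6)).card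

/-- **UCARD** (120 lines, from `S_ICNT`): many primitive base points. The box has at least
`(2 ρ H ^ 2 / (S J) - 1) ^ 2` points of the class. If `(u, v)` of the class is not primitive, a prime
`p` divides both, `p > w` by `hprim` (`p ∣ S J` for `p ≤ w`), `p ≤ |u| ≤ C₀ H ^ 2`; for given `p` their
number is at most `(2 ρ H ^ 2 / (S J p) + 1) ^ 2 ≤ 8 (ρ H ^ 2 / (S J)) ^ 2 / p ^ 2 + 2` (`S_ICNT`,
modulus `S J p`). Sum: at most `8 (ρ H ^ 2 / (S J)) ^ 2 / 728 + 2 C₀ H ^ 2`. -/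
def S_UCARD : Prop :=
  ∀ γ C₀ ρ η κ τ : ℝ, Cst γ C₀ ρ η κ τ → ∀ Q₀ : ℕ, ∃ H₀ : ℝ, 1 ≤ H₀ ∧
    ∀ H, H₀ ≤ H → ∀ (w : ℕ) (C : Cls) (R : Rcl), 729 ≤ w → PD w C → RD γ C₀ ρ η κ τ H C R →
    C.S * C.J ≤ Q₀ → (ρ / (C.S * C.J : ℕ)) ^ 2 * H ^ 4 ≤ ((setU H ρ C R).card : ℝ)

/-- **USUM** (250 lines, from `S_ICNT`, `S_UCARD`): the average of `Gf`. Interchange: the sum is
`∑_δ δ ^ (-1 / 6) #{(p, q) : δ ∣ det2 p q ≠ 0}`, `δ` coprime to `S`, `δ ≤ 2 C₀ ^ 2 H ^ 4`. `δ = 1` gives at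
most `card ^ 2`. The other `δ` have a prime factor `> w`, so `δ > w`. Let `X = 2 ρ H ^ 2 / (S J)`.
(a) `w < δ ≤ X`: for given `p` (primitive), `q ≡ λ p` modulo `δ` for some `λ mod δ`, and for each `λ`
the number of `q` is at most `(X / δ + 1) ^ 2 ≤ 4 X ^ 2 / δ ^ 2` (`S_ICNT`, modulus `S J δ`); so at most
`4 X ^ 2 / δ = 16 (ρ H ^ 2 / (S J)) ^ 2 / δ ≤ 16 card / δ` (`S_UCARD`). The total is at most
`16 card ^ 2 ∑_{δ > w} δ ^ (-7 / 6) ≤ 16 card ^ 2 · 6 w ^ (-1 / 6)`.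
(b) `δ > X`: for given `p` choose `q₀` with `det2 p q₀ = 1`; `q = α p + β q₀`, `β = det2 p q ≠ 0` is
divisible by `δ`, `|β| ≤ 2 C₀ ^ 2 H ^ 4`: at most `4 C₀ ^ 2 H ^ 4 / δ` values of `β`, and for given `β`
two `q` differ by a multiple of `p`, `|q.1| ≤ C₀ H ^ 2`, `|p.1| ≥ γ H ^ 2`: at most `2 C₀ / γ + 1` values.
The total is at most `card · O (H ^ 4) ∑_{δ > X} δ ^ (-7 / 6) = card · O (H ^ 4 H ^ (-1 / 3))`, small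
compared to `card ^ 2` (`S_UCARD`). (`∑_{δ > X} δ ^ (-7 / 6) ≤ 12 X ^ (-1 / 6)` for `X ≥ 1`: telescoping
or comparison with the integral.) -/
def S_USUM : Prop :=
  ∀ ε : ℝ, 0 < ε → ∃ w₀ : ℕ, 729 ≤ w₀ ∧
    ∀ γ C₀ ρ η κ τ : ℝ, Cst γ C₀ ρ η κ τ → ∀ Q₀ : ℕ, ∃ H₀ : ℝ, 1 ≤ H₀ ∧
    ∀ H, H₀ ≤ H → ∀ (w : ℕ) (C : Cls) (R : Rcl), w₀ ≤ w → PD w C → RD γ C₀ ρ η κ τ H C R →
    C.S * C.J ≤ Q₀ →
    ∑ z ∈ (setU H ρ C R ×ˢ setU H ρ C R).filter (fun z => det2 z.1 z.2 ≠ 0),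
      Gf C.S (det2 z.1 z.2).natAbs ≤ (1 + ε) * ((setU H ρ C R).card : ℝ) ^ 2

/-- the form `c + S J g` has a point in the class -/
def HasPt (H ρ : ℝ) (C : Cls) (R : Rcl) (g : Fin 7 → ℤ) : Prop :=
  ∃ p ∈ setU H ρ C R, ∃ x ∈ setX H ρ C R, ∃ y ∈ setY H C R,
    Psi C.b C.c p.1 p.2 x y = (C.S * C.J : ℕ) * bf g p.1 p.2

open scoped Classical in
/-- **CLASS** (150 lines, from `S_LOW`, `S_PAIR`, `S_DIAG`, `S_UCARD`, `S_USUM`): Cauchy-Schwarz for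
`N (g) = ∑_{p ∈ setU} cnt g p`: `(∑ N) ^ 2 ≤ #{g : N (g) > 0} ∑ N ^ 2`. With
`B = card (box 7 (η H ^ 6))`, `U = card setU`: `∑ N ≥ (1 - ε₁) U ρ / (S Y₂ H ^ 3) B`, `Y₂ ≤ (1 + τ) Y₁`.
`∑ N ^ 2`: the pairs with `det2 ≠ 0` give at most `(1 + ε₁) ^ 2 U ^ 2 (ρ / (S Y₁ H ^ 3)) ^ 2 B`
(`S_PAIR`, `S_USUM`); if `det2 p q = 0` then `q = ± p` (both primitive), and `q = p`, because the
interval of the first coordinates does not contain `0` (`hu`) (if `u > 0`, `- u < 0` were both in the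
interval, so would be `0`); by `S_DIAG` these pairs give at most `U C₁ / H ^ 3 B`, which is at most
`ε₁ U ^ 2 (ρ / (S Y₁ H ^ 3)) ^ 2 B` for large `H`, as `U ≥ (ρ / (S J)) ^ 2 H ^ 4` (`S_UCARD`). Choose `ε₁`
and `τ` such that `(1 - ε₁) ^ 2 / ((1 + τ) ^ 2 ((1 + ε₁) ^ 2 + ε₁)) ≥ 1 - ε`. -/
def S_CLASS : Prop :=
  ∀ ε : ℝ, 0 < ε → ∃ τ : ℝ, 0 < τ ∧ τ ≤ 1 ∧ ∃ w₀ : ℕ, 729 ≤ w₀ ∧
    ∀ γ C₀ ρ η κ : ℝ, Cst γ C₀ ρ η κ τ → ∀ Q₀ : ℕ, ∃ H₀ : ℝ, 1 ≤ H₀ ∧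
    ∀ H, H₀ ≤ H → ∀ (w : ℕ) (C : Cls) (R : Rcl), w₀ ≤ w → PD w C → RD γ C₀ ρ η κ τ H C R →
    C.S * C.J ≤ Q₀ →
    (((box 7 (η * H ^ 6)).filter (fun g => ¬ HasPt H ρ C R g)).card : ℝ) ≤
      ε * (box 7 (η * H ^ 6)).card

/-! ## Local data -/

/-- **HENS** (60 lines): near the point `(0, 0, 1, 1)` there are always points, with `(u, v) = (p ^ n, 0)`:
`y' ^ 2 = x ^ 3 + p ^ (4 n) a₀ x + p ^ (6 n) f₀ =: A ≡ y ^ 2` modulo `p ^ (4 n)`. Hensel: for odd `p`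
there is `y' ≡ y` modulo `p ^ (4 n)`, for `p = 2` `y' ≡ y` modulo `2 ^ (4 n - 1)` (by induction: if
`y ^ 2 ≡ A` modulo `2 ^ k`, `k ≥ 3`, then one of `y`, `y + 2 ^ (k - 1)` works modulo `2 ^ (k + 1)`). -/
def S_HENS : Prop :=
  ∀ (p n : ℕ), p.Prime → 1 ≤ n → ∀ x y : ℤ, ¬ (p : ℤ) ∣ x → ¬ (p : ℤ) ∣ y →
    (p : ℤ) ^ (4 * n) ∣ y ^ 2 - x ^ 3 → ∀ (a : Fin 5 → ℤ) (f : Fin 7 → ℤ) (E : ℕ),
    ∃ y' : ℤ, (p : ℤ) ^ E ∣ Psi a f ((p : ℤ) ^ n * 1) ((p : ℤ) ^ n * 0) x y' ∧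
      (p : ℤ) ^ n ∣ y' - y ∧ ¬ (p : ℤ) ∣ y'

/-- **LDAT** (120 lines, from `S_HENS`): local data at all primes. If `p ∤ N`: `S_HENS` with `n = 1`,
`x = y = 1` (`CongT` is needed for `k = 0` only). If `p ∣ N`, let `n` be the valuation of `N` at `p`
(`n ≤ N`) and take `(u, v, x, y)` of `LocP` for a large exponent (`≥ E + 6 n + M + 2`). If `p ^ n`
divides `u` and `v`, then `p ∤ x`, `p ∤ y` and `p ^ (4 n) ∣ y ^ 2 - x ^ 3`: `S_HENS` with `s = n`. If not,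
let `s < n` be the minimum of the valuations of `u` and `v`, and divide by `p ^ s`. `j` is the
valuation of `2 y`: at most `M + 1` (if `p ∤ y` at most `1`). -/
def S_LDAT : Prop :=
  ∀ (N M : ℕ) (t : Tgt) (a : Fin 5 → ℤ) (f : Fin 7 → ℤ), 1 ≤ N → LocP N M t a f →
    ∀ p : ℕ, p.Prime → ∀ E : ℕ, ∃ (s j : ℕ) (u v x y : ℤ), s ≤ N + 1 ∧ j ≤ M + 1 ∧
      DatP a f p E s j u v x y ∧
      ∀ k : ℕ, p ^ k ∣ N → CongT ((p : ℤ) ^ k) t ((p : ℤ) ^ s * u) ((p : ℤ) ^ s * v) x y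

/-- **STAB** (180 lines): Chinese remainder theorem. For `p ≤ w` take the data for the exponent
`E = κ + 6 (N + 1) + M + 2`. `M₀ = ∏ p ^ (s p)`, `J = ∏ p ^ (j p)`, `S = ∏ p ^ (κ + 6 s p - j p)`. Choose
`uc` with `p ^ E ∣ (M₀ / p ^ (s p)) uc - u p`, the same for `vc`, and `xc ≡ x p`, `yc ≡ y p` modulo
`p ^ E`. `Psi (M₀ ^ 4 a) (M₀ ^ 6 f) uc vc xc yc = Psi a f (M₀ uc) (M₀ vc) xc yc` and
`M₀ uc ≡ p ^ (s p) u p` modulo `p ^ E`. `S J = (prim w) ^ κ M₀ ^ 6`. `hpJ`: `j + 1 ≤ κ + 6 s - j`. `hy`: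
`2 yc` has the valuation `j p` at `p`. `N ∣ S`: the valuation of `N` at `p` is at most `N`, and
`N ≤ κ - M - 1`. -/
def S_STAB : Prop :=
  ∀ (w N M κ : ℕ) (t : Tgt) (a : Fin 5 → ℤ) (f : Fin 7 → ℤ), 1 ≤ N → 2 ≤ w →
    (∀ p : ℕ, p.Prime → p ∣ N → p ≤ w) → N + 2 * M + 10 ≤ κ →
    (∀ p : ℕ, p.Prime → p ≤ w → ∀ E : ℕ, ∃ (s j : ℕ) (u v x y : ℤ), s ≤ N + 1 ∧ j ≤ M + 1 ∧
      DatP a f p E s j u v x y ∧
      ∀ k : ℕ, p ^ k ∣ N → CongT ((p : ℤ) ^ k) t ((p : ℤ) ^ s * u) ((p : ℤ) ^ s * v) x y) →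
    ∃ (M₀ S J : ℕ) (uc vc xc yc : ℤ), 1 ≤ M₀ ∧ M₀ ≤ prim w ^ (N + 1) ∧
      S * J = prim w ^ κ * M₀ ^ 6 ∧
      PD w ⟨fun i => (M₀ : ℤ) ^ 4 * a i, fun i => (M₀ : ℤ) ^ 6 * f i, S, J, uc, vc, xc, yc⟩ ∧
      N ∣ S ∧ CongT N t (M₀ * uc) (M₀ * vc) xc yc

/-- **REAL** (200 lines): the real data. Let `(u*, v*, x*, y*)` be the point of `LocR`, `σ` the sign of
`y*`, `σ y* ≥ 1 / M`. Write `a~ = a / H ^ 4`, `f~ = f / H ^ 6` (coefficients at most `1`). With a small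
`δ₁` (depending on `M`, `δ`, `τ`, `M₁`) put `ξ = u* ± δ₁` (the sign of `u*`, so `|ξ| ≥ δ₁`), `υ = v*`,
`x₀ = M₀ ^ 2 x*`, `z* = x* ^ 3 + a~ (ξ, υ) x* + f~ (ξ, υ)`, which differs from `y* ^ 2` by `O (δ₁)`;
`y₀ = M₀ ^ 3 √z*`, `Y₁ = (1 - τ₁) y₀`, `Y₂ = (1 + τ₁) y₀` with `τ₁ = min (τ, δ) / 4`. Then
`|y₀ - M₀ ^ 3 |y*|| ` is small. `hz`: for `U = u / H ^ 2` etc. the expression divided by `H ^ 18` is
`X ^ 3 + M₀ ^ 4 a~ (U, V) X + M₀ ^ 6 f~ (U, V) + (M₀ ^ 6 Q g₀ (U, V) + S J g (U, V)) / H ^ 6`, where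
`X = x / H ^ 6`, and it differs from `M₀ ^ 6 z* = y₀ ^ 2` by `O (ρ + (Q + Q₀) η)`, the constants
depending on `M₁`. Choose first `δ₁`, `γ = δ₁ / 2`..., then `ρ ≤ δ₁ / 2`, `η`, `κ` small. -/
def S_REAL : Prop :=
  ∀ (M M₁ Q₀ Q : ℕ) (δ τ : ℝ), 1 ≤ M → 0 < δ → δ ≤ 1 → 0 < τ → τ ≤ 1 →
    ∃ γ C₀ ρ η κ : ℝ, Cst γ C₀ ρ η κ τ ∧ Q * η ≤ 1 ∧
    ∀ (H : ℝ), 1 ≤ H → ∀ (t : Tgt) (a : Fin 5 → ℤ) (f g₀ : Fin 7 → ℤ), a ∈ box 5 (H ^ 4) →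
    f ∈ box 7 (H ^ 6) → g₀ ∈ box 7 (η * H ^ 6) → LocR M δ H t a f →
    ∀ (M₀ S J : ℕ) (uc vc xc yc : ℤ), 1 ≤ M₀ → M₀ ≤ M₁ → S * J ≤ Q₀ →
    ∃ (R : Rcl) (σ : ℤ), (σ = 1 ∨ σ = -1) ∧
      RD γ C₀ ρ η κ τ H ⟨fun i => (M₀ : ℤ) ^ 4 * a i,
        fun i => (M₀ : ℤ) ^ 6 * (f i + Q * g₀ i), S, J, uc, vc, xc, yc⟩ R ∧
      (∀ u v : ℤ, InU H ρ R u v →
        |((M₀ * u : ℤ) : ℝ) - (M₀ * H ^ 2) * t.zu| ≤ 2 * δ * (M₀ * H ^ 2) ∧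
        |((M₀ * v : ℤ) : ℝ) - (M₀ * H ^ 2) * t.zv| ≤ 2 * δ * (M₀ * H ^ 2)) ∧
      (∀ x : ℤ, InX H ρ R x → |(x : ℝ) - H ^ 2 * (M₀ * H ^ 2) ^ 2 * t.zx| ≤
        2 * δ * (H ^ 2 * (M₀ * H ^ 2) ^ 2)) ∧
      (∀ y : ℤ, R.Y₁ * H ^ 9 ≤ y → (y : ℝ) ≤ R.Y₂ * H ^ 9 →
        |((σ * y : ℤ) : ℝ) - H ^ 3 * (M₀ * H ^ 2) ^ 3 * t.zy| ≤
          2 * δ * (H ^ 3 * (M₀ * H ^ 2) ^ 3))

open scoped Classical in
/-- **EXC** (200 lines, from `S_CLASS`, `S_LDAT`, `S_STAB`, `S_REAL`, `S_BOXC`). Let `ε' = ε / 2 ^ 9`,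
`τ`, `w₀` from `S_CLASS`, `w ≥ w₀` at least `N`; `κ = N + 2 M + 10`, `Q = prim w ^ κ`,
`M₁ = prim w ^ (N + 1)`, `Q₀ = Q M₁ ^ 6`; constants from `S_REAL`. Let `E` be the set of the `f` in
question, `Bη = box 7 (η H ^ 6)`. Double counting: `(f, g) ↦ (f + Q g, g)` is injective from `E × Bη` to
`{(f', g) : f' ∈ box 7 (2 H ^ 6), g ∈ Bη, f' - Q g ∈ E}`. For a given `f'` for which there is `g₀` with
`f = f' - Q g₀ ∈ E`: `S_LDAT`, `S_STAB` for `f` give `M₀, S, J, uc, ...`, `S_REAL` gives `R`, `σ`. The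
class `C = ⟨M₀ ^ 4 a, M₀ ^ 6 f', S, J, uc, vc, xc, σ yc⟩` satisfies `PD` (as
`M₀ ^ 6 (f' - f) = S J g₀`; `σ yc` for `yc`: `y₁` becomes `σ y₁`) and `RD`. If `C` has a point for
`- g` (`Psi = S J (- g) (p) = - M₀ ^ 6 Q g (p)`), then `f' - Q g` has the integral point
`(M₀ u, M₀ v, x, σ y)`, which satisfies `SolT` with `P = M₀ H ^ 2` (`N ∣ S` and
`M₀ u ≡ M₀ uc` modulo `S J`). So by `S_CLASS` for given `f'` the number of `g` is at most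
`ε' card Bη` (`g ↦ - g`). Hence `card E ≤ ε' card (box 7 (2 H ^ 6)) ≤ ε' 2 ^ 8 card (box 7 (H ^ 6))`. -/
def S_EXC : Prop :=
  ∀ (N M : ℕ) (t : Tgt) (δ ε : ℝ), 1 ≤ N → 1 ≤ M → 0 < δ → δ ≤ 1 → 0 < ε →
    ∃ H₀ : ℝ, 1 ≤ H₀ ∧ ∀ H, H₀ ≤ H → ∀ a ∈ box 5 (H ^ 4),
    (((box 7 (H ^ 6)).filter (fun f =>
      (LocP N M t a f ∧ LocR M δ H t a f) ∧ ¬ SolT N t δ H a f)).card : ℝ) ≤
      ε * (box 7 (H ^ 6)).card

/-! ## Weak approximation -/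

/-- **LP** (150 lines): a `p`-adic point, normalized, and approximated by integers. Multiply by a power
of `p` such that `(u, v)` is primitive. If `x` is then integral, so is `y`. If not,
`v (y ^ 2) = v (x ^ 3)`, so `v (x) = - 2 s`, `v (y) = - 3 s`, and multiplication by `p ^ s` makes `x`, `y`
units and `(u, v)` divisible by `p`. The integers `cu, ...` are approximations modulo `p ^ n`
(`PadicInt.appr` or density), those for `E` are approximations modulo `p ^ (E + n + M + 1)`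
(`Psi` of congruent integers). If `p ^ (M + 1) ∣ y`, then `‖β ^ 3 Z 3‖ ≤ p ^ (-(M + 1)) < 1 / M`. -/
def S_LP : Prop :=
  ∀ (p : ℕ) [Fact p.Prime] (n M : ℕ) (a : Fin 5 → ℤ) (f : Fin 7 → ℤ) (Z : Fin 4 → ℚ_[p]),
    1 ≤ M → IsPt a f Z → (∀ β, NormP p β Z → 1 / (M : ℝ) ≤ ‖β ^ 3 * Z 3‖) →
    ∃ (β : ℚ_[p]) (c : Fin 4 → ℤ), NormP p β Z ∧
      (∀ E : ℕ, ∃ u v x y : ℤ, SolP a f p E u v x y ∧ ¬ (p : ℤ) ^ (M + 1) ∣ y ∧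
        (p : ℤ) ^ n ∣ u - c 0 ∧ (p : ℤ) ^ n ∣ v - c 1 ∧ (p : ℤ) ^ n ∣ x - c 2 ∧
        (p : ℤ) ^ n ∣ y - c 3) ∧
      ∀ z : Fin 4 → ℤ, (∀ i, (p : ℤ) ^ n ∣ z i - c i) →
        ∀ i, ‖(z i : ℚ_[p]) - β ^ wt i * Z i‖ ≤ (p : ℝ) ^ (-(n : ℤ))

/-- **LR** (80 lines): a real point, normalized: `β = 1 / max_i (|W i| / sc H i) ^ (1 / wt i)` (or the
intermediate value theorem); the scaled coordinates satisfy the scaled equation. -/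
def S_LR : Prop :=
  ∀ (H : ℝ) (a : Fin 5 → ℤ) (f : Fin 7 → ℤ) (W : Fin 4 → ℝ), 0 < H → IsPt a f W →
    ∃ β : ℝ, 0 < β ∧ NormR H β W ∧
      (β ^ 3 * W 3 / H ^ 3) ^ 2 = (β ^ 2 * W 2 / H ^ 2) ^ 3 +
        bf a (β * W 0) (β * W 1) / H ^ 4 * (β ^ 2 * W 2 / H ^ 2) +
        bf f (β * W 0) (β * W 1) / H ^ 6

/-- **WAT** (200 lines, from `S_LP`, `S_LR`): weak approximation from the targets. For the primes `p ≤ m`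
take the data of `S_LP` for `n = m` (the valuation of `prim m ^ m` at `p` is `m`), and the numbers
`A i < prim m ^ m` congruent to `c i` modulo `p ^ m` for all `p ≤ m` (Chinese remainder theorem); for
the real coordinates (in `[-1, 1]`) the nearest `B i / (4 m)`, distance at most `δ = 1 / (4 m)`. The
point of `SolT` is the rational point; `α = 1` and `p ^ (-m) ≤ 1 / m` at the primes; `α = 1 / P` at the
real place: `3 δ ≤ 1 / m`. -/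
def S_WAT : Prop :=
  ∀ (m M : ℕ) (H : ℝ) (a : Fin 5 → ℤ) (f : Fin 7 → ℤ), 1 ≤ m → 1 ≤ M → 0 < H →
    (∀ t ∈ tgts m, LocP (prim m ^ m) M t a f → LocR M (1 / (4 * m)) H t a f →
      SolT (prim m ^ m) t (1 / (4 * m)) H a f) → WA m M H a f

open scoped Classical in
/-- **WM** (120 lines, from `S_EXC`, `S_WAT`). `tgts m` is finite. For all `m ≥ 1` there is `H₀ (m)`
such that for `H ≥ H₀ (m)` and all `a` at most `card (box) / m` of the `f` fail `WA m m H a f` (union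
bound over `tgts m` with `ε = 1 / (m (card + 1))`). Take `m (H)` = the largest `m ≤ H` with
`H₀ (m') ≤ H` for all `m' ≤ m` (`0` if there is none), `e (H) = 1 / m (H)` (`1` if `m (H) = 0`). -/
def S_WM : Prop :=
  ∃ (m : ℕ → ℕ) (e : ℕ → ℝ), Filter.Tendsto m Filter.atTop Filter.atTop ∧
    Filter.Tendsto e Filter.atTop (nhds 0) ∧ ∀ H : ℕ, 1 ≤ H → ∀ a ∈ box 5 ((H : ℝ) ^ 4),
    (((box 7 ((H : ℝ) ^ 6)).filter (fun f => ¬ WA (m H) (m H) H a f)).card : ℝ) ≤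
      e H * (box 7 ((H : ℝ) ^ 6)).card

end Pool.Agent.DPO
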