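import Pool.Agent.DPO.Stm

/-!
# Project DPO, stage 2: all local points

For all but a small proportion of the `f` every local point is close to a local point whose last
coordinate `y` is not small; so the condition on `y` in `WA` can be removed. (Following helper90's
H90S/Stm2.lean.)
-/

set_option autoImplicit false

namespace Pool.Agent.DPO

open Finset

/-- the partial derivative of `bf g` with respect to `u` -/
def bfu {d : ℕ} {R : Type*} [CommRing R] (g : Fin (d + 1) → ℤ) (u v : R) : R :=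
  ∑ i : Fin (d + 1), (g i : R) * ((((d - (i : ℕ) : ℕ) : R)) * u ^ (d - (i : ℕ) - 1) * v ^ (i : ℕ))

/-- the partial derivative of `bf g` with respect to `v` -/
def bfv {d : ℕ} {R : Type*} [CommRing R] (g : Fin (d + 1) → ℤ) (u v : R) : R :=
  ∑ i : Fin (d + 1), (g i : R) * (((i : ℕ) : R) * u ^ (d - (i : ℕ)) * v ^ ((i : ℕ) - 1))

/-- a singular point of `x ^ 3 + a (u, v) x + f (u, v) = 0` modulo `p ^ ℓ` -/
def BadP (p ℓ : ℕ) (a : Fin 5 → ℤ) (f : Fin 7 → ℤ) : Prop :=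
  ∃ u v x : ℤ, ¬ ((p : ℤ) ∣ u ∧ (p : ℤ) ∣ v) ∧
    (p : ℤ) ^ ℓ ∣ x ^ 3 + bf a u v * x + bf f u v ∧
    (p : ℤ) ^ ℓ ∣ 3 * x ^ 2 + bf a u v ∧
    (p : ℤ) ^ ℓ ∣ bfu f u v + bfu a u v * x ∧
    (p : ℤ) ^ ℓ ∣ bfv f u v + bfv a u v * x

/-- every `p`-adic point is close to one with `|y| ≥ 1 / M` -/
def GoodP (p : ℕ) [Fact p.Prime] (n M : ℕ) (a : Fin 5 → ℤ) (f : Fin 7 → ℤ) : Prop :=
  ∀ Z : Fin 4 → ℚ_[p], IsPt a f Z → ∃ (Z' : Fin 4 → ℚ_[p]) (β : ℚ_[p]), IsPt a f Z' ∧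
    NormP p β Z ∧ NormP p 1 Z' ∧ (∀ i, ‖β ^ wt i * Z i - Z' i‖ ≤ (p : ℝ) ^ (-(n : ℤ))) ∧
    1 / (M : ℝ) ≤ ‖Z' 3‖

/-- `x ^ 3 + a (u, v) x + f (u, v)` in the scaled real coordinates -/
noncomputable def Fr (H : ℝ) (a : Fin 5 → ℤ) (f : Fin 7 → ℤ) (u v x : ℝ) : ℝ :=
  x ^ 3 + bf a u v / H ^ 4 * x + bf f u v / H ^ 6

/-- an almost singular real point of `x ^ 3 + a (u, v) x + f (u, v) = 0` -/
def BadR (θ H : ℝ) (a : Fin 5 → ℤ) (f : Fin 7 → ℤ) : Prop :=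
  ∃ u v x : ℝ, |u| ≤ 1 ∧ |v| ≤ 1 ∧ (|u| = 1 ∨ |v| = 1) ∧ |x| ≤ 4 ∧
    |Fr H a f u v x| ≤ θ ∧ |3 * x ^ 2 + bf a u v / H ^ 4| ≤ θ ∧
    |bfu f u v / H ^ 6 + bfu a u v / H ^ 4 * x| ≤ θ ∧
    |bfv f u v / H ^ 6 + bfv a u v / H ^ 4 * x| ≤ θ

/-- every real point is close to one with `|y| ≥ H ^ 3 / M` -/
def GoodR (m M : ℕ) (H : ℝ) (a : Fin 5 → ℤ) (f : Fin 7 → ℤ) : Prop :=
  ∀ W : Fin 4 → ℝ, IsPt a f W → ∃ (W' : Fin 4 → ℝ) (β : ℝ), IsPt a f W' ∧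
    NormR H β W ∧ NormR H 1 W' ∧ (∀ i, |β ^ wt i * W i - W' i| ≤ sc H i / m) ∧
    H ^ 3 / M ≤ |W' 3|

/-- Weak approximation with precision `1 / m` at the real place and at the primes up to `m`. -/
def WAF (m : ℕ) (H : ℝ) (a : Fin 5 → ℤ) (f : Fin 7 → ℤ) : Prop :=
  ∀ (Z : ∀ (p : ℕ) [Fact p.Prime], Fin 4 → ℚ_[p]) (W : Fin 4 → ℝ),
    (∀ (p : ℕ) [Fact p.Prime], IsPt a f (Z p)) → IsPt a f W →
    ∃ z : Fin 4 → ℚ, IsPt a f z ∧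
      (∀ (p : ℕ) [Fact p.Prime], p ≤ m → ∃ α β : ℚ_[p], α ≠ 0 ∧ NormP p β (Z p) ∧
        ∀ i, ‖α ^ wt i * (z i : ℚ_[p]) - β ^ wt i * Z p i‖ ≤ 1 / m) ∧
      ∃ α β : ℝ, α ≠ 0 ∧ NormR H β W ∧
        ∀ i, |α ^ wt i * (z i : ℝ) - β ^ wt i * W i| ≤ sc H i / m

open scoped Classical in
/-- **BADP** (150 lines). Take `ℓ` with `100 p / √(p ^ ℓ) ≤ ε`, `H₀ ^ 6 ≥ 2 p ^ ℓ`. By homogeneity (if `p ∤ u`,
multiply `(u, v, x)` by `(λ, λ, λ ^ 2)` with `λ u ≡ 1` modulo `p ^ ℓ`; the four quantities are multiplied by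
powers of `λ`, modulo `p ^ ℓ`) one may assume `(u, v) = (1, t)` or `(t, 1)`, `0 ≤ t < p ^ ℓ`, and
`0 ≤ x < p ^ ℓ`. Two solutions `x`, `x'` of `p ^ ℓ ∣ 3 x ^ 2 + a` satisfy `p ^ (ℓ - 1) ∣ (x - x') (x + x')`, so
all solutions lie in two classes modulo `p ^ k`, `k = ⌈(ℓ - 1) / 2⌉`: at most `2 p ^ ((ℓ + 1) / 2)` solutions
modulo `p ^ ℓ`. For given `(u, v) = (1, t)` and `x` the last condition determines `f 1` modulo `p ^ ℓ` from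
`f 2, …, f 6`, and then the first one `f 0` (for `(t, 1)`: `f 5`, then `f 6`), so the number of these `f`
in the box is at most `(2 A + 1) ^ 5 ((2 A + 1) / p ^ ℓ + 1) ^ 2 ≤ 4 (2 A + 1) ^ 7 / p ^ (2 ℓ)`,
`A = ⌊H ^ 6⌋`. -/
def S_BADP : Prop :=
  ∀ (p : ℕ) (ε : ℝ), p.Prime → 0 < ε → ∃ (ℓ : ℕ) (H₀ : ℝ), 1 ≤ ℓ ∧ 1 ≤ H₀ ∧ ∀ H, H₀ ≤ H →
    ∀ a ∈ box 5 (H ^ 4),
    (((box 7 (H ^ 6)).filter (fun f => BadP p ℓ a f)).card : ℝ) ≤ ε * (box 7 (H ^ 6)).card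

/-- **GOODP** (180 lines, `M = p ^ k`, `k = n + ℓ + 1`). Let `(u, v, x, y)` be the normalized point (in `ℤ_p`; see
`S_LP`: `(u, v)` primitive, or `x`, `y` units; the part on the normalization may be taken from LP.lean).
If `‖y‖ ≥ 1 / M` take `Z' = β Z`. Otherwise `(u, v)` is primitive, `p ^ (k + 1) ∣ y`, and
`F (u, v, x) = x ^ 3 + a x + f = y ^ 2 ≡ 0` modulo `p ^ (2 k + 2)`. As `f` is not bad (approximate `u, v, x` by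
integers modulo `p ^ ℓ`), one of the three partial derivatives of `F` at `(u, v, x)` has valuation
`j < ℓ`. In this coordinate put `G (s) = F (· + p ^ n s) - p ^ (2 k)`, a polynomial over `ℤ_p` with `p ^ (2 k) ∣ G (0)`
and `G' (0) = p ^ n ∂F` of valuation `n + j`, `2 (n + j) < 2 k`: Hensel's lemma `hensels_lemma` gives a root
`s ∈ ℤ_p`. `Z' = (u', v', x', p ^ k)`. -/
def S_GOODP : Prop :=
  ∀ (p : ℕ) [Fact p.Prime] (n ℓ : ℕ), 1 ≤ n → ∃ M : ℕ, 1 ≤ M ∧ ∀ (a : Fin 5 → ℤ) (f : Fin 7 → ℤ),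
    ¬ BadP p ℓ a f → GoodP p n M a f

open scoped Classical in
/-- **BADR** (200 lines). Let `|u| = 1` (the case `|v| = 1` is symmetric; by `x ↦ x`, `(u, v) ↦ (-u, -v)` one
may take `u = 1`). Cover `v ∈ [-1, 1]` and `x ∈ [-4, 4]` by grids of mesh `θ`; at the grid point next to a
bad point the four quantities are `≤ C θ` (all coefficients of the scaled forms are `≤ 1`). For a given
grid point `v` the set of the `x` with `|3 x ^ 2 + a (1, v) / H ^ 4| ≤ C θ` is contained in two intervals of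
length `C' √θ` (`3 |x - x'| |x + x'| ≤ 2 C θ`), so it contains at most `C'' / √θ` grid points. For given grid
points `v`, `x` the last condition restricts `f 1` (for given `f 2, …, f 6`) and then the first one `f 0` to
an interval of length `2 C θ H ^ 6`: at most `C θ ^ 2 card` forms, if `θ H ^ 6 ≥ 1`. Total
`C θ ^ (-1 - 1 / 2 + 2) card`. -/
def S_BADR : Prop :=
  ∀ ε : ℝ, 0 < ε → ∃ θ H₀ : ℝ, 0 < θ ∧ 1 ≤ H₀ ∧ ∀ H, H₀ ≤ H → ∀ a ∈ box 5 (H ^ 4),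
    (((box 7 (H ^ 6)).filter (fun f => BadR θ H a f)).card : ℝ) ≤ ε * (box 7 (H ^ 6)).card

/-- **MOVR** (150 lines): moving a real point. `|a~|, |f~| ≤ 1` (scaled coefficients), `y ^ 2 = Fr (u, v, x)`,
all coordinates `≤ 1`. If `|y| ≥ γ` nothing is to be done. If `|y| < γ ≤ 1 / 2` then `max (|u|, |v|) > 1 / 2`: if
`|u|, |v| ≤ 1 / 2` then `|x| ^ 3 ≤ γ ^ 2 + 5 / 16 + 7 / 64 < 1`, so no coordinate would have absolute value `1`.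
Put `t = 1 / max (|u|, |v|) ∈ [1, 2)`; at `(t u, t v, t ^ 2 x)` the value `Fr` is `t ^ 6 y ^ 2 ≤ 64 γ ^ 2 ≤ θ`, so one of
the three partial derivatives there has absolute value `> θ`, hence at `(u, v, x)` `> θ / 32`. Move this
coordinate by `s` with `s ∂ > 0`, `|s| = 2 γ ^ 2 / |∂| ≤ 64 γ ^ 2 / θ ≤ δ`: the new value is `y ^ 2 + 2 γ ^ 2 + O (C s ^ 2)`,
`C s ^ 2 ≤ γ ^ 2`, so it is in `[γ ^ 2, 4 γ ^ 2]`; `y'` is its square root with the sign of `y`,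
`|y' - y| ≤ 3 γ ≤ δ`. (If `|y| ≥ γ` the point is not moved; otherwise `(u', v') ≠ 0`, as
`max (|u|, |v|) > 1 / 2` and `δ < 1 / 4` without loss of generality.) -/
def S_MOVR : Prop :=
  ∀ δ θ : ℝ, 0 < δ → 0 < θ → ∃ γ : ℝ, 0 < γ ∧ γ ≤ 1 ∧ ∀ H : ℝ, 1 ≤ H → ∀ a ∈ box 5 (H ^ 4),
    ∀ f ∈ box 7 (H ^ 6), ¬ BadR θ H a f → ∀ u v x y : ℝ, y ^ 2 = Fr H a f u v x →
    |u| ≤ 1 → |v| ≤ 1 → |x| ≤ 1 → |y| ≤ 1 → (|u| = 1 ∨ |v| = 1 ∨ |x| = 1 ∨ |y| = 1) →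
    ∃ u' v' x' y' : ℝ, y' ^ 2 = Fr H a f u' v' x' ∧ |u' - u| ≤ δ ∧ |v' - v| ≤ δ ∧ |x' - x| ≤ δ ∧
      |y' - y| ≤ δ ∧ γ ≤ |y'| ∧ ((u ≠ 0 ∨ v ≠ 0) → (u' ≠ 0 ∨ v' ≠ 0))

/-- **GOODR** (150 lines, from `S_MOVR`, `S_LR`). Normalize `W` by `S_LR`; scaled coordinates
`(u, v, x, y) = (β W 0, β W 1, β ^ 2 W 2 / H ^ 2, β ^ 3 W 3 / H ^ 3)`. Take `(u', v', x', y')` from `S_MOVR` with a small
`δ` (`δ ≤ 1 / (100 m)`), and multiply it by `b > 0` (`(b u', b v', b ^ 2 x', b ^ 3 y')`) such that it is normalized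
again: the maximum `μ` of `|u'|, |v'|, |x'| ^ (1/2), |y'| ^ (1/3)` is in `[1 - δ, 1 + δ]` and `b = 1 / μ`. The
coordinates change by at most `10 δ`, and `b ^ 3 |y'| ≥ γ / 8`. -/
def S_GOODR : Prop :=
  ∀ (m : ℕ) (θ : ℝ), 1 ≤ m → 0 < θ → ∃ M : ℕ, 1 ≤ M ∧ ∀ H : ℝ, 1 ≤ H → ∀ a ∈ box 5 (H ^ 4),
    ∀ f ∈ box 7 (H ^ 6), ¬ BadR θ H a f → GoodR m M H a f

/-- **FULL** (100 lines). Replace the local points by those of `GoodP`, `GoodR` and apply `WA (2 m)`. If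
`NormP p β' Z'` and `NormP p 1 Z'` then `‖β'‖ = 1` (a coordinate of `Z'` of norm one, and one of `β' Z'`), so
`α' = α / β'` has the same precision for `Z'`; similarly `β' = ± 1` at the real place.
`p ^ (- 2 m) ≤ 1 / (2 m)`. -/
def S_FULL : Prop :=
  ∀ (m M : ℕ) (H : ℝ) (a : Fin 5 → ℤ) (f : Fin 7 → ℤ), 1 ≤ m → 1 ≤ M → 0 < H →
    (∀ (p : ℕ) [Fact p.Prime], p ≤ 2 * m → GoodP p (2 * m) M a f) → GoodR (2 * m) M H a f →
    WA (2 * m) M H a f → WAF m H a f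

open scoped Classical in
/-- **WMF** (180 lines, from `S_EXC`, `S_WAT`, `S_BADP`, `S_GOODP`, `S_BADR`, `S_GOODR`, `S_FULL`; replaces `S_WM`).
For all `m ≥ 1` there is `H₀ (m)` such that for `H ≥ H₀ (m)` and all `a` at most `card (box) / m` of the `f`
fail `WAF m H a f`: `ℓ p`, `p ≤ 2 m`, from `S_BADP` and `θ` from `S_BADR` for `ε = 1 / (4 m (m + 1))`; `M` the maximum
of those of `S_GOODP` (`n = 2 m`) and `S_GOODR` (`GoodP`, `GoodR` are monotone in `M`); `S_EXC`, `S_WAT` for `2 m`,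
`M`, the finite set `tgts (2 m)`. Then `m (H)` as in WM. -/
def S_WMF : Prop :=
  ∃ (m : ℕ → ℕ) (e : ℕ → ℝ), Filter.Tendsto m Filter.atTop Filter.atTop ∧
    Filter.Tendsto e Filter.atTop (nhds 0) ∧ ∀ H : ℕ, 1 ≤ H → ∀ a ∈ box 5 ((H : ℝ) ^ 4),
    (((box 7 ((H : ℝ) ^ 6)).filter (fun f => ¬ WAF (m H) H a f)).card : ℝ) ≤
      e H * (box 7 ((H : ℝ) ^ 6)).card

end Pool.Agent.DPO
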